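import Pool.Agent.Lib.MP_16285c_agP.SpecZ

/-! # ZDP, section G: the degrees on `Z` (`StmtDgZ`; helper13) -/

set_option autoImplicit false

namespace Pool.Agent.Lib.MP_16285c_agX

open Pool.Agent.Lib.MP_16285c_ag Pool.Agent.Lib.MP_16285c_agN
open Pool.Agent.Lib.MP_16285c_agS (toF)

namespace PDgZM

/-- The values of polynomials in a subalgebra. -/
theorem ae {K E : Type} [Field K] [Field E] [Algebra K E] {T : Type} (O : Subalgebra K E) (y' : T → O)
    (A : MvPolynomial T K) :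
    ((MvPolynomial.aeval y' A : O) : E) = MvPolynomial.aeval (fun i => (y' i : E)) A := by
  have h := MvPolynomial.comp_aeval (f := y') O.val
  exact congrArg (fun f : MvPolynomial T K →ₐ[K] E => f A) h

/-- Homomorphisms and values of polynomials. -/
theorem am {K E L : Type} [Field K] [Field E] [Algebra K E] [Field L] [Algebra K L] {T : Type}
    (φ : E →ₐ[K] L) (y : T → E) (A : MvPolynomial T K) :
    φ (MvPolynomial.aeval y A) = MvPolynomial.aeval (fun i => φ (y i)) A := by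
  have h := MvPolynomial.comp_aeval (f := y) φ
  exact congrArg (fun f : MvPolynomial T K →ₐ[K] L => f A) h

theorem aeval_toF' {K : Type} [Field K] {n : ℕ} (𝔭 : Ideal (Pl n K)) (E : Type) [Field E]
    [Algebra (CR 𝔭) E] [Algebra K E] [IsScalarTower K (CR 𝔭) E] (G : Pl n K) :
    MvPolynomial.aeval (fun i => toF 𝔭 E (MvPolynomial.X i)) G = toF 𝔭 E G := by
  have e : (MvPolynomial.aeval (fun i => toF 𝔭 E (MvPolynomial.X i)) : Pl n K →ₐ[K] E) =
      (IsScalarTower.toAlgHom K (CR 𝔭) E).comp (Ideal.Quotient.mkₐ K 𝔭) := by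
    apply MvPolynomial.algHom_ext
    intro i
    rw [MvPolynomial.aeval_X]
    rfl
  exact congrArg (fun u : Pl n K →ₐ[K] E => u G) e

/-- Linear combinations in a subalgebra. -/
theorem lco {K E L : Type} [Field K] [Field E] [Algebra K E] [Field L] [Algebra K L] {n : ℕ}
    (O : Subalgebra K E) (res : O →ₐ[K] L) (B : Fin n → K) (y' : Fin n → O) :
    ((∑ j, algebraMap K O (B j) * y' j : O) : E) = ∑ j, algebraMap K E (B j) * (y' j : E) ∧
      res (∑ j, algebraMap K O (B j) * y' j) = ∑ j, algebraMap K L (B j) * res (y' j) := by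
  constructor
  · have h : ((∑ j, algebraMap K O (B j) * y' j : O) : E) = O.val (∑ j, algebraMap K O (B j) * y' j) := rfl
    rw [h, map_sum]
    apply Finset.sum_congr rfl
    intro j _
    rw [map_mul, AlgHom.commutes]
    rfl
  · rw [map_sum]
    apply Finset.sum_congr rfl
    intro j _
    rw [map_mul, AlgHom.commutes]

/-- A generating family with as many elements as a transcendence basis has. -/
theorem indep (hTB : StmtTB) {K : Type} [Field K] {n : ℕ} (𝔭 : Ideal (Pl n K)) [𝔭.IsPrime] (L : Type)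
    [Field L] [Algebra (CR 𝔭) L] [IsFractionRing (CR 𝔭) L] [Algebra K L] [IsScalarTower K (CR 𝔭) L]
    (q : ℕ) (hq : rk 𝔭 = q) (u : Fin q → L)
    (hfin : Module.Finite (IntermediateField.adjoin K (Set.range u)) L) : AlgebraicIndependent K u := by
  obtain ⟨β, hβ⟩ := hTB.1 K L q u inferInstance
  have hc : β.card = q := by
    have h := hTB.2.1 K n 𝔭 L β _ hβ
    rw [Fintype.card_coe] at h
    rw [h, hq]
  have hu : ∀ i, i ∈ β := by
    have h1 : β = Finset.univ := by
      rw [← Finset.card_eq_iff_eq_univ, hc, Fintype.card_fin]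
    intro i
    rw [h1]
    exact Finset.mem_univ i
  have h2 := hβ.1.comp (fun i : Fin q => (⟨i, hu i⟩ : β)) (fun i j hij => congrArg Subtype.val hij)
  exact h2

end PDgZM

open PDgZM in
theorem tDgZ : StmtRsE → StmtLocO → StmtTB → StmtRlZ → StmtSyZ → StmtRgZ → StmtEmZ → StmtThetaX → StmtIdZ →
    StmtCtZ → StmtUzZ → StmtBkZ → StmtFtZ → StmtNum → StmtCuG → StmtDgZ := by
  intro hRs hLoc hTB hRl hSy hRg hEm hTheta hId hCt hUz hBk hFt hNum hCu
  classical
  intro K _ _ n a c P 𝔭 _ _ hMon hP hPz hrk hac E _ _ _ _ _ L _ _ _ _ _ δ hδ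
  have : Infinite K := Infinite.of_injective ((↑) : ℕ → K) Nat.cast_injective
  have : CharZero L := charZero_of_injective_algebraMap (algebraMap K L).injective
  have hle : Ideal.span {P} ≤ 𝔭 := (Ideal.span_singleton_le_iff_mem _).2 hP
  obtain ⟨huq, hpol, -, -, -, -⟩ := hRs K (n + 1) (Ideal.span {P}) 𝔭 hle E L
  -- the transcendence basis and the relations
  obtain ⟨xb, hxb⟩ : ∃ xb : Fin n → L, xb = fun j => toF 𝔭 L (MvPolynomial.X j.succ) := ⟨_, rfl⟩
  obtain ⟨x, hx⟩ : ∃ x : Fin n → E, x = fun j => toF (Ideal.span {P}) E (MvPolynomial.X j.succ) := ⟨_, rfl⟩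
  obtain ⟨α, hα⟩ := hTB.1 K L n xb (by rw [hxb]; exact hTB.2.2.1 K n P 𝔭 hMon hP L)
  have hc : α.card = a + 1 := by
    have h := hTB.2.1 K (n + 1) 𝔭 L α _ hα
    rw [Fintype.card_coe] at h
    rw [h, hrk]
  obtain ⟨G, hG⟩ := hRl K L n xb α hα
  obtain ⟨O, res, -, hOmem, hOres, -, -, -⟩ := hLoc K n P 𝔭 hP hPz E L α
  obtain ⟨D, hD⟩ : ∃ D : ℕ, D = ∑ j, (G j).totalDegree := ⟨_, rfl⟩
  refine ⟨(D + 1) ^ c, fun ρ ρb hR d hd0 hdet e he A b => ?_⟩
  rw [← hx] at he
  rw [← hxb]
  -- the family ub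
  obtain ⟨ub, hub⟩ : ∃ ub : Fin (a + 1) → L,
      ub = Fin.cons (∑ i : Fin n, algebraMap K L (b i) * ρb (xb i)) (lc A xb) := ⟨_, rfl⟩
  have hrange : Set.range ub = insert (∑ i : Fin n, algebraMap K L (b i) * ρb (xb i))
      (Set.range (lc A xb)) := by
    rw [hub, Fin.range_cons]
  have hgoal : (insert (∑ i : Fin n, algebraMap K L (b i) * ρb (toF 𝔭 L (MvPolynomial.X i.succ)))
      (Set.range (lc A xb))) = Set.range ub := by
    rw [hrange, hxb]
  rw [hgoal]
  by_cases h0 : Module.finrank (IntermediateField.adjoin K (Set.range ub)) L = 0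
  · rw [h0]
    exact Nat.zero_le _
  have hfinL : Module.Finite (IntermediateField.adjoin K (Set.range ub)) L :=
    Module.finite_of_finrank_pos (Nat.pos_of_ne_zero h0)
  have hubAI : AlgebraicIndependent K ub := indep hTB 𝔭 L (a + 1) hrk ub hfinL
  -- the elements of O
  obtain ⟨x', hx'⟩ : ∃ x' : Fin n → O, ∀ j, (x' j : E) = x j :=
    ⟨fun j => ⟨x j, (hOmem _).2 ⟨xb j, by rw [hx, hxb]; exact hpol _⟩⟩, fun _ => rfl⟩
  have hresx : ∀ j, res (x' j) = xb j := fun j =>
    huq _ _ _ (hOres (x' j)) (by rw [hx', hx, hxb]; exact hpol _)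
  obtain ⟨y', hy'⟩ : ∃ y' : Fin n → O, ∀ j, (y' j : E) = ρ (x j) :=
    ⟨fun j => ⟨ρ (x j), (hOmem _).2 ⟨ρb (xb j), hR _ _ (by rw [hx, hxb]; exact hpol _)⟩⟩, fun _ => rfl⟩
  have hresy : ∀ j, res (y' j) = ρb (xb j) := fun j =>
    huq _ _ _ (hOres (y' j)) (by rw [hy']; exact hR _ _ (by rw [hx, hxb]; exact hpol _))
  -- the family u
  obtain ⟨u, hu⟩ : ∃ u : Fin (a + 1) → E,
      u = Fin.cons (∑ i : Fin n, algebraMap K E (b i) * ρ (x i)) (lc A x) := ⟨_, rfl⟩
  have hRu : ∀ i, RsE (Ideal.span {P}) 𝔭 E L (u i) (ub i) := by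
    intro i
    refine Fin.cases ?_ (fun k => ?_) i
    · have h1 := lco O res b y'
      have h2 := hOres (∑ j, algebraMap K O (b j) * y' j)
      rw [h1.1, h1.2] at h2
      simp only [hy', hresy] at h2
      rw [hu, hub, Fin.cons_zero, Fin.cons_zero]
      exact h2
    · have h1 := lco O res (A k) x'
      have h2 := hOres (∑ j, algebraMap K O (A k j) * x' j)
      rw [h1.1, h1.2] at h2
      simp only [hx', hresx] at h2
      rw [hu, hub, Fin.cons_succ, Fin.cons_succ]
      exact h2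
  obtain ⟨huAI, ι, hι, hιr⟩ := hEm K (n + 1) (Ideal.span {P}) 𝔭 hle E L (a + 1) u ub hRu hubAI
  have hfin : Module.Finite ι.fieldRange L := by
    rw [hιr]
    exact hfinL
  obtain ⟨θ, hθ⟩ := hTheta K L (n + 1) (fun i => toF 𝔭 L (MvPolynomial.X i)) (hCu K (n + 1) 𝔭 L).1
    ι.fieldRange hfin
  obtain ⟨θ', hθ'⟩ : ∃ θ' : Fin (Module.finrank ι.fieldRange L) → O,
      ∀ i, (θ' i : E) = toF (Ideal.span {P}) E (θ i) :=
    ⟨fun i => ⟨toF (Ideal.span {P}) E (θ i), (hOmem _).2 ⟨_, hpol _⟩⟩, fun _ => rfl⟩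
  have hresθ : ∀ i, res (θ' i) = MvPolynomial.aeval (fun i => toF 𝔭 L (MvPolynomial.X i)) (θ i) := by
    intro i
    rw [aeval_toF']
    exact huq _ _ _ (hOres (θ' i)) (by rw [hθ']; exact hpol _)
  -- the functions g
  have hxG : ∀ F : MvPolynomial (Fin n) K, RsE (Ideal.span {P}) 𝔭 E L (MvPolynomial.aeval x F)
      (res (MvPolynomial.aeval x' F)) := by
    intro F
    have h2 := hOres (MvPolynomial.aeval x' F)
    rw [ae] at h2
    simp only [hx'] at h2
    exact h2
  obtain ⟨g, hg⟩ : ∃ g : Fin n → O, ∀ l, (g l : E) = ρ (MvPolynomial.aeval x (G l)) :=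
    ⟨fun l => ⟨ρ (MvPolynomial.aeval x (G l)), (hOmem _).2 ⟨_, hR _ _ (hxG (G l))⟩⟩, fun _ => rfl⟩
  have hRsy : RsyZ O res δ α g := hSy K n P 𝔭 hP hPz E L δ hδ O res hOmem hOres ρ ρb hR d hd0 hdet α G
    (by rw [← hxb]; exact hG) g (by rw [← hx]; exact hg)
  have hδO : ∀ j, ∀ h ∈ O, δ j h ∈ O := by
    intro j h hh
    obtain ⟨w, hw⟩ := (hOmem h).1 hh
    exact (hOmem _).2 (hRg K n P 𝔭 hPz E L δ hδ j h w hw)
  have hLI := hId K L E n O res δ hδO α g hRsy (IntermediateField.adjoin K (Set.range u)) ι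
    (fun w => by
      obtain ⟨h, hh⟩ : ∃ h : O, (h : E) = w := ⟨⟨w, (hOmem _).2 ⟨ι w, hι w⟩⟩, rfl⟩
      exact ⟨h, hh, huq _ _ _ (hOres h) (by rw [hh]; exact hι w)⟩)
    (Module.finrank ι.fieldRange L) θ' (by
      simp only [hresθ]
      exact hθ)
  obtain ⟨y, hy⟩ : ∃ y : Fin n → E, y = fun l => ρ (x l) := ⟨_, rfl⟩
  have hLI' : LinearIndependent (IntermediateField.adjoin K (Set.range u))
      (fun t : {b : Fin n → ℕ // ∀ a ∈ α, b a = 0} × Fin (Module.finrank ι.fieldRange L) =>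
        MvPolynomial.aeval y (∏ j, G j ^ (t.1 : Fin n → ℕ) j) * ((θ' t.2 : O) : E)) := by
    have h1 : (fun t : {b : Fin n → ℕ // ∀ a ∈ α, b a = 0} × Fin (Module.finrank ι.fieldRange L) =>
        MvPolynomial.aeval y (∏ j, G j ^ (t.1 : Fin n → ℕ) j) * ((θ' t.2 : O) : E)) =
        fun t : {b : Fin n → ℕ // ∀ a ∈ α, b a = 0} × Fin (Module.finrank ι.fieldRange L) =>
        (((∏ j, g j ^ (t.1 : Fin n → ℕ) j) * θ' t.2 : O) : E) := by
      funext t
      have h2 : (((∏ j, g j ^ (t.1 : Fin n → ℕ) j) * θ' t.2 : O) : E) =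
          O.val (∏ j, g j ^ (t.1 : Fin n → ℕ) j) * ((θ' t.2 : O) : E) := rfl
      rw [h2]
      congr 1
      rw [map_prod, map_prod]
      apply Finset.prod_congr rfl
      intro j _
      rw [map_pow, map_pow]
      congr 1
      have h3 : O.val (g j) = ((g j : O) : E) := rfl
      rw [h3, hg, hy, am]
    rw [h1]
    exact hLI
  have hlow := hCt K E n n y (IntermediateField.adjoin K (Set.range u)) α _ G (fun i => ((θ' i : O) : E)) hLI' D
    (fun j _ => by
      rw [hD]
      exact Finset.single_le_sum (f := fun j => (G j).totalDegree) (fun _ _ => Nat.zero_le _) (Finset.mem_univ j))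
  -- the upper bound
  obtain ⟨c', hc', htr⟩ := hFt.1 K E n (a + 1) u (hTB.2.2.2 K n P hMon E) huAI
  obtain rfl : c' = c := by omega
  have hfy : Module.Finite (IntermediateField.adjoin (IntermediateField.adjoin K (Set.range u))
      (Set.range y)) E := by
    rw [hy, hx]
    exact hFt.2 K n P hMon E ρ (IntermediateField.adjoin K (Set.range u))
  obtain ⟨C', hC'⟩ := hUz K (IntermediateField.adjoin K (Set.range u)) E c' n y
    (Submodule.span (IntermediateField.adjoin K (Set.range u)) (Set.range fun i => ((θ' i : O) : E)))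
    (Submodule.fg_span (Set.finite_range _)) htr hfy e (fun B => by
      rw [hBk K E n a c' x y A b B u (by rw [hu, hy])]
      have h3 := he A (Fin.cons b B)
      rw [hy]
      rw [hx] at h3 ⊢
      exact h3)
  have hnum := hNum _ e D C' c' (fun N => by
    have h4 := hlow N
    have h5 : n - α.card = c' := by omega
    rw [h5] at h4
    exact h4.trans (hC' (D * N)))
  have hfr : Module.finrank (IntermediateField.adjoin K (Set.range ub)) L =
      Module.finrank ι.fieldRange L := by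
    rw [hιr]
  rw [hfr, mul_comm]
  exact hnum

end Pool.Agent.Lib.MP_16285c_agX
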