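import Pool.Agent.Lib.MP_16285c_agP.SpecZ

/-!
Module JtZ of section G of ZDP (helper97): the Jacobian determinants of the iterates, from the chain rule `StmtChZ`.
-/

set_option autoImplicit false

namespace Pool.Agent.Lib.MP_16285c_agX

open Pool.Agent.Lib.MP_16285c_ag Pool.Agent.Lib.MP_16285c_agN
open Pool.Agent.Lib.MP_16285c_agS (toF)

namespace PJtZM

variable {K : Type} [Field K] {n : ℕ}

theorem JpZ_X (P : Pl (n + 1) K) (j l : Fin n) :
    JpZ P j (MvPolynomial.X l.succ) = if j = l then MvPolynomial.pderiv 0 P else 0 := by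
  unfold JpZ
  have h0 : MvPolynomial.pderiv (0 : Fin (n + 1)) (MvPolynomial.X l.succ : Pl (n + 1) K) = 0 :=
    MvPolynomial.pderiv_X_of_ne (Fin.succ_ne_zero l)
  rw [h0, mul_zero, sub_zero]
  by_cases h : j = l
  · subst h
    rw [if_pos rfl, MvPolynomial.pderiv_X_self, mul_one]
  · rw [if_neg h]
    have h1 : MvPolynomial.pderiv j.succ (MvPolynomial.X l.succ : Pl (n + 1) K) = 0 := by
      apply MvPolynomial.pderiv_X_of_ne
      intro hc
      exact h (Fin.succ_injective _ hc).symm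
    rw [h1, mul_zero]

theorem JmZ_one (P : Pl (n + 1) K) [(Ideal.span {P}).IsPrime]
    (E : Type) [Field E] [Algebra (CR (Ideal.span {P})) E] [Algebra K E]
    (δ : Fin n → Derivation K E E) (hδ : DvZ P E δ)
    (h0 : toF (Ideal.span {P}) E (MvPolynomial.pderiv 0 P) ≠ 0) : JmZ P E δ 1 = 1 := by
  ext j l
  unfold JmZ
  rw [Matrix.of_apply, Matrix.one_apply, AlgHom.one_apply]
  have h := hδ j (MvPolynomial.X l.succ)
  rw [JpZ_X] at h
  by_cases hjl : j = l
  · rw [if_pos hjl] at h ⊢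
    apply mul_right_cancel₀ h0
    rw [h, one_mul]
  · rw [if_neg hjl] at h ⊢
    rw [map_zero] at h
    exact (mul_eq_zero.1 h).resolve_right h0

end PJtZM

open PJtZM

theorem tJtZ : StmtChZ → StmtJtZ := by
  intro hch K _ n P _ E _ _ _ _ _ δ hδ h0 ρ N
  induction N with
  | zero =>
    rw [pow_zero, JmZ_one P E δ hδ h0, Matrix.det_one, Finset.range_zero, Finset.prod_empty]
  | succ N ih =>
    have hm : JmZ P E δ (ρ ^ (N + 1)) = JmZ P E δ (ρ ^ N) * (JmZ P E δ ρ).map (ρ ^ N) := by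
      ext j l
      rw [Matrix.mul_apply]
      have e1 : JmZ P E δ (ρ ^ (N + 1)) j l =
          δ j ((ρ ^ N) (ρ (toF (Ideal.span {P}) E (MvPolynomial.X l.succ)))) := by
        unfold JmZ
        rw [Matrix.of_apply, pow_succ, AlgHom.mul_apply]
      rw [e1, hch K n P E δ hδ h0 (ρ ^ N) j (ρ (toF (Ideal.span {P}) E (MvPolynomial.X l.succ)))]
      apply Finset.sum_congr rfl
      intro i _
      rw [mul_comm]
      rfl
    rw [hm, Matrix.det_mul, Finset.prod_range_succ, ih]
    congr 1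
    exact (AlgHom.map_det (ρ ^ N) (JmZ P E δ ρ)).symm

end Pool.Agent.Lib.MP_16285c_agX
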