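import Pool.Agent.Lib.MP_16285c_agP.SpecZ

/-!
# ZDP, section G: nonzero values and residues (VrZ), derivatives of regular functions (RgZ), base change (JxZ)
-/

set_option autoImplicit false

namespace Pool.Agent.Lib.MP_16285c_agX

open Pool.Agent.Lib.MP_16285c_ag Pool.Agent.Lib.MP_16285c_agN
open Pool.Agent.Lib.MP_16285c_agS (toF)

namespace PVrZM

theorem toF_ne {K : Type} [Field K] {n : ℕ} (𝔭 : Ideal (Pl n K)) (E : Type) [Field E]
    [Algebra (CR 𝔭) E] [IsFractionRing (CR 𝔭) E] {G : Pl n K} (h : G ∉ 𝔭) : toF 𝔭 E G ≠ 0 := by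
  intro h0
  have h1 : cl 𝔭 G = 0 := (IsFractionRing.injective (CR 𝔭) E) (by
    rw [map_zero]
    exact h0)
  exact h (Ideal.Quotient.eq_zero_iff_mem.1 h1)

theorem aeval_toF {K : Type} [Field K] {n : ℕ} (𝔭 : Ideal (Pl n K)) (E : Type) [Field E]
    [Algebra (CR 𝔭) E] [Algebra K E] [IsScalarTower K (CR 𝔭) E] (G : Pl n K) :
    MvPolynomial.aeval (fun i => toF 𝔭 E (MvPolynomial.X i)) G = toF 𝔭 E G := by
  have e : (MvPolynomial.aeval (fun i => toF 𝔭 E (MvPolynomial.X i)) : Pl n K →ₐ[K] E) =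
      (IsScalarTower.toAlgHom K (CR 𝔭) E).comp (Ideal.Quotient.mkₐ K 𝔭) := by
    apply MvPolynomial.algHom_ext
    intro i
    rw [MvPolynomial.aeval_X]
    rfl
  exact congrArg (fun u : Pl n K →ₐ[K] E => u G) e

theorem pderiv_map' {K k : Type} [Field K] [Field k] [Algebra K k] {n : ℕ} (i : Fin n) (P : Pl n K) :
    MvPolynomial.pderiv i (MvPolynomial.map (algebraMap K k) P) =
      MvPolynomial.map (algebraMap K k) (MvPolynomial.pderiv i P) :=
  MvPolynomial.pderiv_map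

theorem JpZ_map {K k : Type} [Field K] [Field k] [Algebra K k] {n : ℕ} (P : Pl (n + 1) K) (j : Fin n)
    (G : Pl (n + 1) K) :
    JpZ (MvPolynomial.map (algebraMap K k) P) j (MvPolynomial.map (algebraMap K k) G) =
      MvPolynomial.map (algebraMap K k) (JpZ P j G) := by
  unfold JpZ
  rw [map_sub, map_mul, map_mul, pderiv_map', pderiv_map', pderiv_map', pderiv_map']

end PVrZM

open PVrZM in
theorem tVrZ : StmtVrZ := by
  intro K Ω _ _ _ n 𝔮 𝔭 _ _ E _ _ _ _ _ L _ _ _ _ _ pt hpt h v hv hval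
  obtain ⟨A, B, hB, hAB, hA⟩ := hval
  have hB' : B ∉ 𝔭 := fun h0 => hB (hpt B h0)
  have hA' : A ∉ 𝔭 := by
    intro h0
    rw [hpt A h0] at hA
    exact (mul_ne_zero hv hB) hA.symm
  have hA1 := toF_ne 𝔭 L hA'
  have hB1 := toF_ne 𝔭 L hB'
  refine ⟨toF 𝔭 L A / toF 𝔭 L B, div_ne_zero hA1 hB1, A, B, hB', ?_, div_mul_cancel₀ _ hB1⟩
  rw [aeval_toF, aeval_toF] at hAB
  exact hAB

open PVrZM in
theorem tRgZ : StmtRgZ := by
  intro K _ n P 𝔭 _ _ hP0 E _ _ _ _ _ L _ _ _ _ _ δ hδ j h u hu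
  obtain ⟨A, B, hB, hAB, -⟩ := hu
  have hD : B * B * MvPolynomial.pderiv 0 P ∉ 𝔭 := by
    intro h0
    rcases (Ideal.IsPrime.mem_or_mem inferInstance h0 : B * B ∈ 𝔭 ∨ MvPolynomial.pderiv 0 P ∈ 𝔭) with h1 | h1
    · rcases (Ideal.IsPrime.mem_or_mem inferInstance h1 : B ∈ 𝔭 ∨ B ∈ 𝔭) with h2 | h2
      · exact hB h2
      · exact hB h2
    · exact hP0 h1
  have hD1 := toF_ne 𝔭 L hD
  refine ⟨toF 𝔭 L (B * JpZ P j A - A * JpZ P j B) / toF 𝔭 L (B * B * MvPolynomial.pderiv 0 P),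
    B * JpZ P j A - A * JpZ P j B, B * B * MvPolynomial.pderiv 0 P, hD, ?_, div_mul_cancel₀ _ hD1⟩
  have e1 := hδ j A
  have e2 := hδ j B
  have e3 : δ j (h * toF (Ideal.span {P}) E B) = δ j (toF (Ideal.span {P}) E A) := by
    rw [hAB]
  rw [Derivation.leibniz, smul_eq_mul, smul_eq_mul] at e3
  rw [map_mul, map_mul, map_sub, map_mul, map_mul, ← e1, ← e2, ← e3, ← hAB]
  ring

open PVrZM in
theorem tJxZ : StmtJxZ := by
  intro K k _ _ _ n P N D
  unfold JcZ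
  rw [RingHom.map_det]
  congr 1
  ext1 j l
  rw [RingHom.mapMatrix_apply, Matrix.map_apply, Matrix.of_apply, Matrix.of_apply, map_sub, map_mul, map_mul,
    JpZ_map, JpZ_map]

end Pool.Agent.Lib.MP_16285c_agX
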