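import Pool.Agent.Lib.MP_16285c_agP.SpecA
import Pool.Agent.Lib.MP_16285c_agX.T3.SecXI
import Pool.Agent.Lib.MP_16285c_agX.T3.SubX
import Pool.Agent.Lib.MP_16285c_agX.T3.IntA

/-!
# ZDP: sections (SecP)

Proof of `StmtSecP`, after `T3/SecXI.lean`: `Phi`: the generators of the space of sections, `finrank_W` its dimension, `mem_VV`: its image
over `κ = K(T)`, `Phi_R`: integrality, `Sc_Phi`: the sections as values of homogeneous polynomials.
-/

set_option autoImplicit false

namespace Pool.Agent.Lib.MP_16285c_agX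

open Pool.Agent.Lib.MP_16285c_ag Pool.Agent.Lib.MP_16285c_agN

namespace PSecPM

open MvPolynomial
open scoped IntermediateField.algebraAdjoinAdjoin

section Fields

variable {K E : Type} [Field K] [Field E] [Algebra K E]

/-- `n` elements over which `E` is finite are algebraically independent. -/
theorem indn {n : ℕ} {ι : Type} [Fintype ι] (hι : Fintype.card ι = n) (ξ : Fin (n + 1) → E)
    (hS : Stp K ξ) (v : ι → E)
    (h : Module.Finite (IntermediateField.adjoin K (Set.range v)) E) :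
    AlgebraicIndependent K v := by
  have : Algebra.IsAlgebraic (Algebra.adjoin K (Set.range v)) E :=
    T3SecXIM.alg_of_adjoin _ (Algebra.IsAlgebraic.of_finite _ _)
  have hb : IsTranscendenceBasis K v :=
    Algebra.IsAlgebraic.isTranscendenceBasis_of_le_trdeg_of_finite K v (by
      rw [T3SecXIM.trdeg_eq ξ hS, Cardinal.mk_fintype, hι])
  exact hb.1

theorem tu_eq {n : ℕ} (u : K) (y : Fin n → E) :
    Tu K u y = algebraMap K E 1 + ∑ j : Fin n, algebraMap K E (u ^ ((j : ℕ) + 1)) * y j := by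
  rw [Tu, luN, Fin.sum_univ_succ, Fin.val_zero, pow_zero, one_mul, Fin.cons_zero, map_one]
  congr 1
  refine Finset.sum_congr rfl fun j _ => ?_
  rw [Fin.cons_succ, Fin.val_succ, map_pow]

theorem tr_T [Infinite K] {n : ℕ} (i₀ : Fin n) (g : Fin n → E) (hg : AlgebraicIndependent K g)
    (u : K) (hu : u ≠ 0) : Transcendental K (Tu K u g) := by
  have h1 := T3SecXIM.tr_lin (K := K) i₀ (fun j : Fin n => u ^ ((j : ℕ) + 1)) (pow_ne_zero _ hu)
  have h2 : Tu K u g =
      MvPolynomial.aeval g (1 + ∑ j : Fin n, C (u ^ ((j : ℕ) + 1)) * X j : Pl n K) := by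
    rw [tu_eq, map_add, map_one, map_one, map_sum]
    congr 1
    refine Finset.sum_congr rfl fun j _ => ?_
    rw [map_mul, aeval_C, aeval_X]
  rw [h2]
  intro h0
  exact h1 ((isAlgebraic_algHom_iff (MvPolynomial.aeval g) hg).1 h0)

theorem trdeg_simple {N : ℕ} (h3 : Algebra.trdeg K E = (N + 1 : ℕ)) (T : E)
    (hT : Transcendental K T) :
    Algebra.trdeg (IntermediateField.adjoin K {T}) E = (N : ℕ) := by
  set κ := IntermediateField.adjoin K {T} with hκ
  let y' : Fin 1 → κ := fun _ => ⟨T, IntermediateField.subset_adjoin K _ rfl⟩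
  let y : Fin 1 → E := fun _ => T
  have hcomp : (algebraMap κ E) ∘ y' = y := rfl
  have hy : AlgebraicIndependent K y := by
    rw [algebraicIndependent_unique_type_iff]
    exact hT
  have hy' : AlgebraicIndependent K y' := by
    refine AlgebraicIndependent.of_comp (IsScalarTower.toAlgHom K κ E) ?_
    exact hy
  obtain ⟨ι, l, hl⟩ := exists_isTranscendenceBasis' κ E
  have hind : AlgebraicIndependent K (Sum.elim l y) := by
    have h := hy'.sumElim_comp hl.1
    rw [hcomp] at h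
    exact h
  have halg : Algebra.IsAlgebraic
      (IntermediateField.adjoin K (Set.range (Sum.elim l y))) E := by
    have h1 : Set.range (Sum.elim l y) = {T} ∪ Set.range l := by
      rw [Set.Sum.elim_range, Set.union_comm]
      congr 1
      exact Set.range_const
    have h2 := IntermediateField.adjoin_adjoin_left K {T} (Set.range l)
    have h4 := hl.isAlgebraic_field
    constructor
    intro x
    have h3 : IsAlgebraic (IntermediateField.adjoin κ (Set.range l)) x := h4.isAlgebraic x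
    rw [h1, ← h2]
    exact h3
  have hb : IsTranscendenceBasis K (Sum.elim l y) :=
    isTranscendenceBasis_iff_algebraicIndependent_isAlgebraic.2
      ⟨hind, T3SecXIM.alg_of_adjoin _ halg⟩
  have hc := hb.cardinalMk_eq_trdeg
  rw [h3, Cardinal.mk_sum, Cardinal.lift_id, Cardinal.lift_id, Cardinal.mk_fintype (Fin 1),
    Fintype.card_fin, Nat.cast_one, Nat.cast_add, Nat.cast_one] at hc
  rw [← hl.cardinalMk_eq_trdeg]
  exact Cardinal.add_one_inj.1 hc

theorem exists_t {n : ℕ} (ξ : Fin (n + 1) → E) (hS : Stp K ξ) (L : IntermediateField K E)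
    (hfin : Module.Finite L E) (e : ℕ) (he : e = Module.finrank L E) :
    ∃ t : Fin e → Pl (n + 1) K, LinearIndependent L (fun k => MvPolynomial.aeval ξ (t k)) := by
  have halg : Algebra.IsAlgebraic L E := Algebra.IsAlgebraic.of_finite L E
  exact DegrThetaM.exists_fam (F := L) (fun G : Pl (n + 1) K => MvPolynomial.aeval ξ G)
    (DegrThetaM.span_range ((MvPolynomial.aeval ξ : Pl (n + 1) K →ₐ[K] E) : Pl (n + 1) K →+* E)
      (fun x => by
      have hx : x ∈ IntermediateField.adjoin K (Set.range ξ) := by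
        rw [hS.gen]
        trivial
      obtain ⟨N, D, h⟩ := (IntermediateField.mem_adjoin_range_iff K ξ x).1 hx
      exact ⟨N, D, h⟩)) hfin e he

/-- Linear combinations of linear combinations. -/
theorem lc_lc {n a c : ℕ} (A' : Fin c → Fin a → K) (A : Fin a → Fin n → K) (x : Fin n → E) :
    lc A' (lc A x) = lc (fun i j => ∑ k, A' i k * A k j) x := by
  funext i
  unfold lc
  simp only [map_sum, map_mul, Finset.mul_sum, Finset.sum_mul]
  rw [Finset.sum_comm]
  refine Finset.sum_congr rfl fun j _ => Finset.sum_congr rfl fun k _ => ?_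
  ring

end Fields

section Space

variable {K E : Type} [Field K] [Field E] [Algebra K E] {n : ℕ}

/-- The linear form with coefficients `a`. -/
noncomputable def lx (a : Fin n → K) : Pl n K := ∑ j, C (a j) * X j

theorem ae_lx {c : ℕ} (x : Fin n → E) (A : Fin c → Fin n → K) (i : Fin c) :
    MvPolynomial.aeval x (lx (A i)) = lc A x i := by
  unfold lx lc
  rw [map_sum]
  refine Finset.sum_congr rfl fun j _ => ?_
  rw [map_mul, aeval_C, aeval_X]

theorem lx_deg (a : Fin n → K) : (lx a).totalDegree ≤ 1 := by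
  unfold lx
  refine totalDegree_finsetSum_le fun j _ => ?_
  refine (totalDegree_mul _ _).trans ?_
  rw [totalDegree_C, zero_add]
  exact (totalDegree_X j).le

/-- The monomials in the linear forms. -/
noncomputable def mon {c : ℕ} (A : Fin c → Fin n → K) (β : Fin c → ℕ) : Pl n K :=
  ∏ i, lx (A i) ^ β i

theorem ae_mon {c : ℕ} (x : Fin n → E) (A : Fin c → Fin n → K) (β : Fin c → ℕ) :
    MvPolynomial.aeval x (mon A β) = ∏ i, lc A x i ^ β i := by
  unfold mon
  rw [map_prod]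
  refine Finset.prod_congr rfl fun i _ => ?_
  rw [map_pow, ae_lx]

theorem mon_deg {c : ℕ} (A : Fin c → Fin n → K) (β : Fin c → ℕ) :
    (mon A β).totalDegree ≤ ∑ i, β i := by
  unfold mon
  refine (totalDegree_finsetProd _ _).trans (Finset.sum_le_sum fun i _ => ?_)
  refine (totalDegree_pow _ _).trans ?_
  calc β i * (lx (A i)).totalDegree ≤ β i * 1 := Nat.mul_le_mul_left _ (lx_deg _)
    _ = β i := mul_one _

/-- Monomials in the elements `y`. -/
theorem mono_mem {c : ℕ} (κ : IntermediateField K E) (y : Fin c → E) (β : Fin c → ℕ) (p : ℕ)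
    (h : ∑ i, β i ≤ p) : (∏ i, y i ^ β i) ∈ Vd κ y p := by
  rw [DegrNNM.mem_Vd]
  refine ⟨∏ i, X i ^ β i, ?_, ?_⟩
  · refine (totalDegree_finsetProd _ _).trans ((Finset.sum_le_sum fun i _ => ?_).trans h)
    rw [totalDegree_X_pow]
  · rw [map_prod]
    refine Finset.prod_congr rfl fun i _ => ?_
    rw [map_pow, aeval_X]

/-- The generators of the space of sections. -/
noncomputable def Phi {a b e : ℕ} (l : Fin a → E) (w : Fin b → E) (z₀ : E) (θ : Fin e → E) (j p : ℕ)
    (s : {β : Fin a → ℕ // ∑ i, β i ≤ p} × {γ : Fin b → ℕ // ∑ i, γ i ≤ j} × Fin e) : E :=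
  z₀ ^ j * (θ s.2.2 * ((∏ i, l i ^ (s.1 : Fin a → ℕ) i) * ∏ i, w i ^ (s.2.1 : Fin b → ℕ) i))

theorem linInd (hLB : StmtLbP) {a b e : ℕ} (l : Fin a → E) (w : Fin b → E) (z₀ : E) (hz : z₀ ≠ 0)
    (θ : Fin e → E) (hind : AlgebraicIndependent K (Sum.elim l w : Fin a ⊕ Fin b → E))
    (hθ : LinearIndependent (IntermediateField.adjoin K (Set.range l ∪ Set.range w)) θ) (j p : ℕ) :
    LinearIndependent K (Phi l w z₀ θ j p) := by
  have h1 := hLB K E a b e l w θ hind hθ p j
  exact h1.map' (LinearMap.mulLeft K (z₀ ^ j)) (by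
    rw [LinearMap.ker_eq_bot]
    exact mul_right_injective₀ (pow_ne_zero _ hz))

theorem finrank_W (hLB : StmtLbP) {a b e : ℕ} (l : Fin a → E) (w : Fin b → E) (z₀ : E) (hz : z₀ ≠ 0)
    (θ : Fin e → E) (hind : AlgebraicIndependent K (Sum.elim l w : Fin a ⊕ Fin b → E))
    (hθ : LinearIndependent (IntermediateField.adjoin K (Set.range l ∪ Set.range w)) θ) (j p : ℕ) :
    Module.finrank K (Submodule.span K (Set.range (Phi l w z₀ θ j p))) =
      cnt a p * (cnt b j * e) := by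
  have hf := DegrCntM.fin a p
  have hf' := DegrCntM.fin b j
  have hft := Fintype.ofFinite
    ({β : Fin a → ℕ // ∑ i, β i ≤ p} × {γ : Fin b → ℕ // ∑ i, γ i ≤ j} × Fin e)
  rw [finrank_span_eq_card (linInd hLB l w z₀ hz θ hind hθ j p), ← Nat.card_eq_fintype_card,
    Nat.card_prod, Nat.card_prod, Nat.card_fin]
  rfl

/-- The space over `κ`. -/
noncomputable def VV {a b e : ℕ} (κ : IntermediateField K E) (θ : Fin e → E) (l : Fin a → E)
    (w : Fin b → E) (c : E) (p j : ℕ) : Submodule κ E :=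
  ((Submodule.span κ (Set.range θ)) * Vd κ l p * Vd κ w j).map
    (LinearMap.mulLeft κ c)

theorem fin_inner {a b e : ℕ} (κ : IntermediateField K E) (θ : Fin e → E) (l : Fin a → E)
    (w : Fin b → E) (p j : ℕ) :
    ((Submodule.span κ (Set.range θ)) * Vd κ l p * Vd κ w j).FG := by
  have h1 : (Vd κ l p).FG := Module.Finite.iff_fg.1 (tVd.1 κ E a l p)
  have h2 : (Vd κ w j).FG := Module.Finite.iff_fg.1 (tVd.1 κ E b w j)
  have h3 : (Submodule.span κ (Set.range θ)).FG := Submodule.fg_span (Set.finite_range θ)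
  exact (h3.mul h1).mul h2

theorem fin_VV {a b e : ℕ} (κ : IntermediateField K E) (θ : Fin e → E) (l : Fin a → E)
    (w : Fin b → E) (c : E) (p j : ℕ) : Module.Finite κ (VV κ θ l w c p j) :=
  Module.Finite.iff_fg.2 ((fin_inner κ θ l w p j).map _)

theorem rank_VV {a b e : ℕ} (κ : IntermediateField K E) (θ : Fin e → E) (l : Fin a → E)
    (w : Fin b → E) (c : E) (p j : ℕ) :
    Module.finrank κ (VV κ θ l w c p j) ≤ Module.finrank κ
      ((Submodule.span κ (Set.range θ)) * Vd κ l p * Vd κ w j : Submodule κ E) := by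
  have := Module.Finite.iff_fg.2 (fin_inner κ θ l w p j)
  exact Submodule.finrank_map_le _ _

/-- The sections over `κ`. -/
theorem mem_VV {a b e : ℕ} (κ : IntermediateField K E) (l : Fin a → E) (w : Fin b → E)
    (z₀ : E) (θ : Fin e → E) (j p p' : ℕ) (hp : p' ≤ p) :
    ∀ v ∈ Submodule.span K (Set.range (Phi l w z₀ θ j p')),
      v ∈ VV κ θ l w (z₀ ^ j) p j := by
  intro v hv
  induction hv using Submodule.span_induction with
  | mem y hy =>
    obtain ⟨s, rfl⟩ := hy
    refine Submodule.mem_map.2 ⟨(θ s.2.2 * ∏ i, l i ^ (s.1 : Fin a → ℕ) i) *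
      ∏ i, w i ^ (s.2.1 : Fin b → ℕ) i, ?_, ?_⟩
    · refine Submodule.mul_mem_mul (Submodule.mul_mem_mul ?_ ?_) ?_
      · exact Submodule.subset_span ⟨_, rfl⟩
      · exact mono_mem κ l _ p (s.1.2.trans hp)
      · exact mono_mem κ w _ j s.2.1.2
    · unfold Phi
      rw [LinearMap.mulLeft_apply, mul_assoc (θ s.2.2)]
  | zero => exact zero_mem _
  | add y z _ _ hy hz => exact add_mem hy hz
  | smul r y _ hy =>
    rw [Algebra.smul_def, IsScalarTower.algebraMap_apply K κ E, ← Algebra.smul_def]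
    exact Submodule.smul_mem _ _ hy

/-- The sections as values of homogeneous polynomials. -/
def Sc (ξ : Fin (n + 1) → E) (z' : Fin n → E) (z₀ : E) (P j : ℕ) (s : E) : Prop :=
  ∃ G : MvPolynomial (Fin (n + 1)) (Pl (n + 1) K), G.IsHomogeneous j ∧
    (∀ α, (G.coeff α).totalDegree ≤ P) ∧
    z₀ ^ j * MvPolynomial.eval₂ ((MvPolynomial.aeval ξ : Pl (n + 1) K →ₐ[K] E) :
      Pl (n + 1) K →+* E) (Fin.cons 1 z' : Fin (n + 1) → E) G = s

theorem Sc_span (ξ : Fin (n + 1) → E) (z' : Fin n → E) (z₀ : E) (P j : ℕ) (S : Set E)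
    (hS : ∀ s ∈ S, Sc (K := K) ξ z' z₀ P j s) :
    ∀ s ∈ Submodule.span K S, Sc (K := K) ξ z' z₀ P j s := by
  intro s hs
  induction hs using Submodule.span_induction with
  | mem x hx => exact hS x hx
  | zero =>
    refine ⟨0, isHomogeneous_zero _ _ _, fun α => ?_, ?_⟩
    · rw [coeff_zero, totalDegree_zero]
      exact Nat.zero_le _
    · rw [eval₂_zero, mul_zero]
  | add x y _ _ hx hy =>
    obtain ⟨G, h1, h2, h3⟩ := hx
    obtain ⟨H, h4, h5, h6⟩ := hy
    refine ⟨G + H, h1.add h4, fun α => ?_, ?_⟩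
    · rw [coeff_add]
      exact (totalDegree_add _ _).trans (max_le (h2 α) (h5 α))
    · rw [eval₂_add, mul_add, h3, h6]
  | smul r x _ hx =>
    obtain ⟨G, h1, h2, h3⟩ := hx
    refine ⟨C (C r) * G, ?_, fun α => ?_, ?_⟩
    · have h4 := (isHomogeneous_C (Fin (n + 1)) (C r : Pl (n + 1) K)).mul h1
      rw [zero_add] at h4
      exact h4
    · rw [coeff_C_mul]
      refine (totalDegree_mul _ _).trans ?_
      rw [totalDegree_C, zero_add]
      exact h2 α
    · rw [eval₂_mul, eval₂_C, mul_left_comm, h3, Algebra.smul_def]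
      congr 1
      exact aeval_C _ _

theorem Sc_Phi {a b e : ℕ} (ξ : Fin (n + 1) → E) (z' : Fin n → E) (z₀ : E) (A : Fin a → Fin n → K)
    (B : Fin b → Fin n → K) (t : Fin e → Pl (n + 1) K) (j p' c p : ℕ)
    (ht : ∀ k, (t k).totalDegree ≤ c) (hp : p' + c ≤ p)
    (s : {β : Fin a → ℕ // ∑ i, β i ≤ p'} × {γ : Fin b → ℕ // ∑ i, γ i ≤ j} × Fin e) :
    Sc (K := K) ξ z' z₀ p j (Phi (lc A fun i : Fin n => ξ i.succ) (lc B z') z₀
      (fun k => MvPolynomial.aeval ξ (t k)) j p' s) := by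
  have h0 : (∑ i, (s.2.1 : Fin b → ℕ) i) + (j - ∑ i, (s.2.1 : Fin b → ℕ) i) = j := by
    have := s.2.1.2
    omega
  set H : MvPolynomial (Fin (n + 1)) K :=
    (∏ i, (∑ l : Fin n, C (B i l) * X l.succ) ^ ((s.2.1 : Fin b → ℕ) i)) *
    X 0 ^ (j - ∑ i, (s.2.1 : Fin b → ℕ) i) with hH
  have hH1 : H.IsHomogeneous j := by
    have h1 : ∀ i : Fin b, (∑ l : Fin n, C (B i l) * X l.succ :
        MvPolynomial (Fin (n + 1)) K).IsHomogeneous 1 := by
      intro i
      refine IsHomogeneous.sum _ _ _ fun l _ => ?_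
      have h2 := (isHomogeneous_C (Fin (n + 1)) (B i l)).mul
        (isHomogeneous_X K (l.succ : Fin (n + 1)))
      rw [zero_add] at h2
      exact h2
    have h2 : (∏ i, (∑ l : Fin n, C (B i l) * X l.succ :
        MvPolynomial (Fin (n + 1)) K) ^ ((s.2.1 : Fin b → ℕ) i)).IsHomogeneous
        (∑ i, (s.2.1 : Fin b → ℕ) i) := by
      refine IsHomogeneous.prod _ _ _ fun i _ => ?_
      have h3 := (h1 i).pow ((s.2.1 : Fin b → ℕ) i)
      rw [one_mul] at h3
      exact h3
    have h3 := h2.mul ((isHomogeneous_X K (0 : Fin (n + 1))).pow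
      (j - ∑ i, (s.2.1 : Fin b → ℕ) i))
    rw [one_mul, h0] at h3
    exact h3
  set Q : Pl (n + 1) K := t s.2.2 * rename Fin.succ (mon A (s.1 : Fin a → ℕ)) with hQ
  have hQ1 : Q.totalDegree ≤ p := by
    refine (totalDegree_mul _ _).trans ?_
    have h1 := (totalDegree_rename_le (Fin.succ : Fin n → Fin (n + 1))
      (mon A (s.1 : Fin a → ℕ))).trans (mon_deg A _)
    have h2 := s.1.2
    have h3 := ht s.2.2
    omega
  have hQ2 : MvPolynomial.aeval ξ Q = MvPolynomial.aeval ξ (t s.2.2) *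
      ∏ i, lc A (fun i : Fin n => ξ i.succ) i ^ (s.1 : Fin a → ℕ) i := by
    rw [hQ, map_mul, aeval_rename, ← ae_mon]
    rfl
  refine ⟨C Q * MvPolynomial.map C H, ?_, ?_, ?_⟩
  · have h4 := (isHomogeneous_C (Fin (n + 1)) Q).mul (hH1.map (C : K →+* Pl (n + 1) K))
    rw [zero_add] at h4
    exact h4
  · intro α
    rw [coeff_C_mul, coeff_map]
    refine (totalDegree_mul _ _).trans ?_
    rw [totalDegree_C, add_zero]
    exact hQ1
  · have hcomp : ((MvPolynomial.aeval ξ : Pl (n + 1) K →ₐ[K] E) : Pl (n + 1) K →+* E).comp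
        (C : K →+* Pl (n + 1) K) = algebraMap K E := by
      ext r
      exact aeval_C _ _
    have hs : ∀ i : Fin b, eval₂ (algebraMap K E) (Fin.cons 1 z' : Fin (n + 1) → E)
        (∑ l : Fin n, C (B i l) * X l.succ : MvPolynomial (Fin (n + 1)) K) = lc B z' i := by
      intro i
      unfold lc
      rw [eval₂_sum]
      refine Finset.sum_congr rfl fun l _ => ?_
      rw [eval₂_mul, eval₂_C, eval₂_X, Fin.cons_succ]
    have hs2 : eval₂ (algebraMap K E) (Fin.cons 1 z' : Fin (n + 1) → E)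
        (∏ i, (∑ l : Fin n, C (B i l) * X l.succ : MvPolynomial (Fin (n + 1)) K) ^
          ((s.2.1 : Fin b → ℕ) i)) = ∏ i, lc B z' i ^ ((s.2.1 : Fin b → ℕ) i) := by
      rw [eval₂_prod]
      refine Finset.prod_congr rfl fun i _ => ?_
      rw [eval₂_pow, hs]
    rw [eval₂_mul, eval₂_C, eval₂_map, hcomp, hH, eval₂_mul, eval₂_pow, eval₂_X,
      Fin.cons_zero, one_pow, mul_one, hs2]
    unfold Phi
    rw [← mul_assoc (MvPolynomial.aeval ξ (t s.2.2))]
    congr 2

/-! ## Integrality -/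

theorem aeval_mem (R : Subring E) (hR : ∀ c : K, algebraMap K E c ∈ R) {m : ℕ} (x : Fin m → E)
    (hx : ∀ i, x i ∈ R) (G : Pl m K) : MvPolynomial.aeval x G ∈ R := by
  induction G using MvPolynomial.induction_on with
  | C a =>
    rw [MvPolynomial.aeval_C]
    exact hR a
  | add p q hp hq =>
    rw [map_add]
    exact add_mem hp hq
  | mul_X p i hp =>
    rw [map_mul, MvPolynomial.aeval_X]
    exact mul_mem hp (hx i)

theorem lc_mem (R : Subring E) (hR : ∀ c : K, algebraMap K E c ∈ R) {m c : ℕ} (x : Fin m → E)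
    (hx : ∀ i, x i ∈ R) (A : Fin c → Fin m → K) (i : Fin c) : lc A x i ∈ R :=
  sum_mem fun j _ => mul_mem (hR _) (hx j)

theorem Phi_R {a b e : ℕ} (R : Subring E) (l : Fin a → E) (w : Fin b → E) (z₀ : E) (θ : Fin e → E)
    (hl : ∀ i, l i ∈ R) (hz : z₀ ∈ R) (hw : ∀ i, z₀ * w i ∈ R) (hθ : ∀ k, θ k ∈ R) (j p : ℕ)
    (s : {β : Fin a → ℕ // ∑ i, β i ≤ p} × {γ : Fin b → ℕ // ∑ i, γ i ≤ j} × Fin e) :
    Phi l w z₀ θ j p s ∈ R := by
  have h1 : (∑ i, (s.2.1 : Fin b → ℕ) i) + (j - ∑ i, (s.2.1 : Fin b → ℕ) i) = j := by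
    have := s.2.1.2
    omega
  have h2 : z₀ ^ j = z₀ ^ (∑ i, (s.2.1 : Fin b → ℕ) i) * z₀ ^ (j - ∑ i, (s.2.1 : Fin b → ℕ) i) := by
    rw [← pow_add, h1]
  have h4 : ∏ i, (z₀ * w i) ^ (s.2.1 : Fin b → ℕ) i =
      z₀ ^ (∑ i, (s.2.1 : Fin b → ℕ) i) * ∏ i, w i ^ (s.2.1 : Fin b → ℕ) i := by
    rw [← Finset.prod_pow_eq_pow_sum, ← Finset.prod_mul_distrib]
    exact Finset.prod_congr rfl fun i _ => mul_pow _ _ _
  have h3 : Phi l w z₀ θ j p s = (θ s.2.2 * (∏ i, l i ^ (s.1 : Fin a → ℕ) i)) *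
      (z₀ ^ (j - ∑ i, (s.2.1 : Fin b → ℕ) i) * ∏ i, (z₀ * w i) ^ (s.2.1 : Fin b → ℕ) i) := by
    unfold Phi
    rw [h4, h2]
    ring
  rw [h3]
  refine mul_mem (mul_mem (hθ _) (prod_mem fun i _ => pow_mem (hl i) _)) ?_
  exact mul_mem (pow_mem hz _) (prod_mem fun i _ => pow_mem (hw i) _)

/-- The integral closure as a subring. -/
noncomputable def Rg (K : Type) {E : Type} [Field K] [Field E] [Algebra K E] {n : ℕ}
    (x : Fin n → E) : Subring E :=
  (integralClosure (Algebra.adjoin K (Set.range x)) E).toSubring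

theorem mem_Rg (x : Fin n → E) (u : E) : u ∈ Rg K x ↔ Intx K x u := by
  rw [yIntA K E n x u]
  exact mem_integralClosure_iff _ _

theorem Rg_K (x : Fin n → E) (c : K) : algebraMap K E c ∈ Rg K x := by
  have h : algebraMap K E c ∈ integralClosure (Algebra.adjoin K (Set.range x)) E := by
    rw [IsScalarTower.algebraMap_apply K (Algebra.adjoin K (Set.range x)) E]
    exact isIntegral_algebraMap
  exact h

theorem Rg_x (x : Fin n → E) (i : Fin n) : x i ∈ Rg K x := by
  have h : x i ∈ integralClosure (Algebra.adjoin K (Set.range x)) E :=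
    isIntegral_algebraMap
      (x := (⟨x i, Algebra.subset_adjoin ⟨i, rfl⟩⟩ : Algebra.adjoin K (Set.range x)))
  exact h

theorem Rg_int (x : Fin n → E) (u : E) (hu : IsIntegral (Rg K x) u) : u ∈ Rg K x := by
  have h1 : IsIntegral (integralClosure (Algebra.adjoin K (Set.range x)) E) u := hu
  have h2 : IsIntegral (Algebra.adjoin K (Set.range x)) u := isIntegral_trans u h1
  exact h2

end Space

/-- The sections, for `n = a + b + 2`. -/
theorem main (hUB : StmtUBH) (hLB : StmtLbP) (hNum : StmtNumP) (hDg : StmtDg1n)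
    (K E : Type) [Field K] [CharZero K] [Field E] [Algebra K E] (a b n : ℕ)
    (hn : a + 1 + (b + 1) = n) (ξ : Fin (n + 1) → E) (hS : Stp K ξ)
    (ρ : E →ₐ[K] E) (m : ℕ) (Z₀ : Pl n K) (hZ₀ : Z₀ ≠ 0)
    (hZi : ∀ i : Fin n, Intx K (fun i : Fin n => ξ i.succ)
      (MvPolynomial.aeval (fun i : Fin n => ξ i.succ) Z₀ * (ρ ^ (2 * m)) (ξ i.succ)))
    (u' : K) (e₁ e₂ : ℕ) (hu' : u' ≠ 0) (he₁ : 1 ≤ e₁) (he₂ : 1 ≤ e₂)
    (H1 : ∀ (A : Fin a → Fin n → K) (B : Fin (b + 1) → Fin n → K),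
      Module.finrank (IntermediateField.adjoin K
        (insert (Tu K u' (fun i : Fin n => (ρ ^ m) (ξ i.succ)))
          (Set.range (lc A fun i : Fin n => ξ i.succ) ∪
            Set.range (lc B fun i : Fin n => (ρ ^ (2 * m)) (ξ i.succ))))) E ≤ e₁)
    (H2 : ∀ (A : Fin (a + 1) → Fin n → K) (B : Fin b → Fin n → K),
      Module.finrank (IntermediateField.adjoin K
        (insert (Tu K u' (fun i : Fin n => (ρ ^ m) (ξ i.succ)))
          (Set.range (lc A fun i : Fin n => ξ i.succ) ∪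
            Set.range (lc B fun i : Fin n => (ρ ^ (2 * m)) (ξ i.succ))))) E ≤ e₂) :
    ∃ i₀ : ℕ, ∀ i, i₀ ≤ i → SctP K ξ (Tu K u' (fun i : Fin n => (ρ ^ m) (ξ i.succ)))
      (fun i : Fin n => (ρ ^ (2 * m)) (ξ i.succ)) Z₀
      (4 * (a + 1) * e₁ * i) (4 * (b + 1) * e₂ * i)
      (dgx K (a + 1) (b + 1) (fun i : Fin n => ξ i.succ)
        (fun i : Fin n => (ρ ^ (2 * m)) (ξ i.succ)) * i) := by
  obtain ⟨-, hat, hpos⟩ := hDg K E n (a + 1) (b + 1) ξ hS hn
  obtain ⟨x, hx⟩ : ∃ x : Fin n → E, x = fun i : Fin n => ξ i.succ := ⟨_, rfl⟩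
  obtain ⟨g, hg⟩ : ∃ g : Fin n → E, g = fun i : Fin n => (ρ ^ m) (ξ i.succ) := ⟨_, rfl⟩
  obtain ⟨z', hz'⟩ : ∃ z' : Fin n → E, z' = fun i : Fin n => (ρ ^ (2 * m)) (ξ i.succ) := ⟨_, rfl⟩
  have hD1 := hpos ρ (2 * m)
  obtain ⟨A, B, hAB⟩ := hat z'
  rw [← hx] at hZi
  rw [← hx, ← hg, ← hz'] at H1 H2
  rw [← hx, ← hz'] at hD1
  rw [← hx] at hAB
  rw [← hx, ← hg, ← hz']
  obtain ⟨D, hD⟩ : ∃ D, D = dgx K (a + 1) (b + 1) x z' := ⟨_, rfl⟩
  rw [← hD] at hD1 hAB ⊢
  obtain ⟨l, hl⟩ : ∃ l, l = lc A x := ⟨_, rfl⟩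
  obtain ⟨w, hw⟩ : ∃ w, w = lc B z' := ⟨_, rfl⟩
  rw [← hl, ← hw] at hAB
  have hxai : AlgebraicIndependent K x := by
    rw [hx]
    exact hS.ai
  have hgai : AlgebraicIndependent K g := by
    rw [hg]
    exact hS.ai.map' (f := ρ ^ m) (ρ ^ m).toRingHom.injective
  have htrd : Algebra.trdeg K E = ((a + b + 1) + 1 : ℕ) := by
    rw [T3SecXIM.trdeg_eq ξ hS]
    congr 1
    omega
  have hfin : Module.Finite (IntermediateField.adjoin K (Set.range l ∪ Set.range w)) E :=
    Module.finite_of_finrank_pos (by omega)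
  obtain ⟨t, ht⟩ := exists_t ξ hS (IntermediateField.adjoin K (Set.range l ∪ Set.range w)) hfin D
    hAB.symm
  obtain ⟨θ, hθ⟩ : ∃ θ : Fin D → E, θ = fun k => MvPolynomial.aeval ξ (t k) := ⟨_, rfl⟩
  rw [← hθ] at ht
  have hind : AlgebraicIndependent K (Sum.elim l w : Fin (a + 1) ⊕ Fin (b + 1) → E) :=
    indn (by rw [Fintype.card_sum, Fintype.card_fin, Fintype.card_fin]; exact hn) ξ hS _ (by
      rw [Set.Sum.elim_range]
      exact hfin)
  obtain ⟨c, hc⟩ : ∃ c, ∀ k, (t k).totalDegree ≤ c :=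
    ⟨Finset.univ.sup (fun k => (t k).totalDegree),
      fun k => Finset.le_sup (f := fun k => (t k).totalDegree) (Finset.mem_univ k)⟩
  obtain ⟨z₀, hz₀⟩ : ∃ z₀ : E, z₀ = MvPolynomial.aeval x Z₀ := ⟨_, rfl⟩
  rw [← hz₀] at hZi
  have hz₀0 : z₀ ≠ 0 := by
    rw [hz₀]
    intro h
    exact hZ₀ (hxai (h.trans (map_zero _).symm))
  have hT := tr_T (⟨0, by omega⟩ : Fin n) g hgai u' hu'
  have hT0 : Tu K u' g ≠ 0 := by
    intro h
    rw [h] at hT
    exact hT isAlgebraic_zero
  have hfinκ : Module.Finite (IntermediateField.adjoin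
      (IntermediateField.adjoin K {Tu K u' g}) (Set.range l ∪ Set.range w)) E := by
    have h2 := IntermediateField.adjoin_adjoin_left K {Tu K u' g} (Set.range l ∪ Set.range w)
    have h3 : Module.Finite ((IntermediateField.adjoin
        (IntermediateField.adjoin K {Tu K u' g}) (Set.range l ∪ Set.range w)).restrictScalars K)
        E := by
      refine T3SecXIM.fin_of_int ξ hS.gen _ fun i => ?_
      have h4 : IsIntegral (IntermediateField.adjoin K (Set.range l ∪ Set.range w)) (ξ i) :=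
        Algebra.IsIntegral.isIntegral (ξ i)
      have h5 : IntermediateField.adjoin K (Set.range l ∪ Set.range w) ≤
          (IntermediateField.adjoin (IntermediateField.adjoin K {Tu K u' g})
            (Set.range l ∪ Set.range w)).restrictScalars K :=
        IntermediateField.adjoin_le_iff.2 (IntermediateField.subset_adjoin _ _)
      obtain ⟨P, hP, hP0⟩ := h4
      refine ⟨P.map (IntermediateField.inclusion h5).toRingHom, hP.map _, ?_⟩
      rw [Polynomial.eval₂_map]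
      exact hP0
    exact h3
  obtain ⟨C₀, hC₀⟩ := hUB K E (IntermediateField.adjoin K {Tu K u' g}) a b l w e₁ e₂ hfinκ
      (trdeg_simple htrd _ hT)
      (fun A' => by
        rw [T3SecXIM.finrank_two, ← Set.insert_eq, hl, hw, lc_lc]
        exact H1 _ B)
      (fun B' => by
        rw [T3SecXIM.finrank_two, ← Set.insert_eq, hl, hw, lc_lc]
        exact H2 A _)
      (Submodule.span (IntermediateField.adjoin K {Tu K u' g}) (Set.range θ))
      (Submodule.fg_span (Set.finite_range θ))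
  obtain ⟨i₀, hi₀⟩ := hNum a b e₁ e₂ C₀ c he₁ he₂
  refine ⟨i₀, fun i hi => ?_⟩
  obtain ⟨hci, hlt⟩ := hi₀ i hi
  obtain ⟨p, hp⟩ : ∃ p, p = 4 * (a + 1) * e₁ * i := ⟨_, rfl⟩
  obtain ⟨j, hj⟩ : ∃ j, j = 4 * (b + 1) * e₂ * i := ⟨_, rfl⟩
  rw [← hp, ← hj] at hlt
  rw [← hp] at hci
  rw [← hp, ← hj]
  have hW := finrank_W hLB l w z₀ hz₀0 θ hind ht j (p - c)
  have hlt2 : D * i * Module.finrank (IntermediateField.adjoin K {Tu K u' g})
      (VV (IntermediateField.adjoin K {Tu K u' g}) θ l w (z₀ ^ j) p j) <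
      Module.finrank K (Submodule.span K (Set.range (Phi l w z₀ θ j (p - c)))) := by
    rw [hW]
    have h1 := (rank_VV (IntermediateField.adjoin K {Tu K u' g}) θ l w (z₀ ^ j) p j).trans
      (hC₀ p j)
    calc D * i * Module.finrank (IntermediateField.adjoin K {Tu K u' g})
          (VV (IntermediateField.adjoin K {Tu K u' g}) θ l w (z₀ ^ j) p j)
        ≤ D * i * (e₁ * cnt a (p + C₀) * cnt (b + 1) (j + C₀) +
            e₂ * cnt (a + 1) (p + C₀) * cnt b (j + C₀)) := Nat.mul_le_mul_left _ h1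
      _ = D * (i * (e₁ * cnt a (p + C₀) * cnt (b + 1) (j + C₀) +
            e₂ * cnt (a + 1) (p + C₀) * cnt b (j + C₀))) := mul_assoc _ _ _
      _ < D * (cnt (a + 1) (p - c) * cnt (b + 1) j) := Nat.mul_lt_mul_of_pos_left hlt (by omega)
      _ = cnt (a + 1) (p - c) * (cnt (b + 1) j * D) := by ring
  have hRξ : ∀ i, ξ i ∈ Rg K x := by
    intro i
    refine Fin.cases ?_ (fun j => ?_) i
    · rw [mem_Rg, hx]
      exact hS.int
    · have h := Rg_x (K := K) x j
      rw [hx] at h ⊢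
      exact h
  have hRθ : ∀ k, θ k ∈ Rg K x := by
    intro k
    rw [hθ]
    exact aeval_mem _ (Rg_K x) ξ hRξ _
  have hRz : z₀ ∈ Rg K x := by
    rw [hz₀]
    exact aeval_mem _ (Rg_K x) _ (fun i => Rg_x x i) _
  have hRw : ∀ k, z₀ * w k ∈ Rg K x := by
    intro k
    rw [hw]
    unfold lc
    rw [Finset.mul_sum]
    refine sum_mem fun k' _ => ?_
    rw [mul_left_comm]
    refine mul_mem (Rg_K x _) ?_
    rw [mem_Rg, hz']
    exact hZi k'
  have hWR : ∀ v ∈ Submodule.span K (Set.range (Phi l w z₀ θ j (p - c))),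
      v ∈ Rg K x := by
    intro v hv
    induction hv using Submodule.span_induction with
    | mem y hy =>
      obtain ⟨s, rfl⟩ := hy
      refine Phi_R _ _ _ _ _ (fun k => ?_) hRz hRw hRθ _ _ s
      rw [hl]
      exact lc_mem _ (Rg_K x) x (Rg_x x) A k
    | zero => exact zero_mem _
    | add y z _ _ hy hz => exact add_mem hy hz
    | smul r y _ hy =>
      rw [Algebra.smul_def]
      exact mul_mem (Rg_K x r) hy
  obtain ⟨S, hSW, hS0, S', hS', hSS⟩ := ySubX K E (Rg K x) (Rg_K x) (Rg_int x) (Tu K u' g) hT0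
    (VV (IntermediateField.adjoin K {Tu K u' g}) θ l w (z₀ ^ j) p j) (fin_VV _ _ _ _ _ _ _)
    (Submodule.span K (Set.range (Phi l w z₀ θ j (p - c))))
    (fun v hv => ⟨mem_VV _ l w z₀ θ j p _ (Nat.sub_le _ _) v hv, hWR v hv⟩)
    (D * i) hlt2
  obtain ⟨G, hG1, hG2, hG3⟩ := Sc_span ξ z' z₀ p j _
    (by
      rintro s ⟨y, rfl⟩
      rw [hl, hw, hθ, hx]
      exact Sc_Phi ξ z' z₀ A B t j (p - c) c _ hc (by omega) y) S hSW
  refine ⟨G, S', hG1, hG2, ?_, ?_, ?_⟩
  · intro h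
    apply hS0
    rw [hSS, h, mul_zero]
  · have h := (mem_Rg x S').1 hS'
    rw [hx] at h
    exact h
  · rw [← hx, ← hz₀, hG3]
    exact hSS

end PSecPM

/-- (SecP) The sections. -/
theorem pSecP : StmtUBH → StmtLbP → StmtNumP → StmtDg1n → StmtSecP := by
  intro hUB hLB hNum hDg K E _ _ _ _ a b ξ hS ρ m Z₀ hZ₀ hZi u' e₁ e₂ hu' he₁ he₂ H1 H2
  exact PSecPM.main hUB hLB hNum hDg K E a b (a + b + 2) (by omega) ξ hS ρ m Z₀ hZ₀ hZi u' e₁ e₂
    hu' he₁ he₂ H1 H2

end Pool.Agent.Lib.MP_16285c_agX
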