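import Pool.Agent.Lib.MP_16285c_agP.SpecD
import Pool.Agent.Lib.MP_16285c_agX.T3.RecX
import Pool.Agent.Lib.MP_16285c_agX.T3.FlV
import Pool.Agent.Lib.MP_16285c_agX.T3.CzX
import Pool.Agent.Lib.MP_16285c_agX.T3.VlA

/-!
# Varieties with `λ_r < λ₁` for `r ≥ 3`: the two recursive inequalities (RecP)

As `T3/RecX.lean`, in all dimensions.
-/

set_option autoImplicit false

namespace Pool.Agent.Lib.MP_16285c_agX

open Pool.Agent.Lib.MP_16285c_ag Pool.Agent.Lib.MP_16285c_agN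

namespace PRecPM

open T3Dg1M T3IntAM T3RecXM
open scoped IntermediateField.algebraAdjoinAdjoin

variable {K E : Type} [Field K] [Field E] [Algebra K E]

/-- A common denominator of `n` elements. -/
theorem den_all {n : ℕ} (ξ : Fin (n + 1) → E) (hs : Stp K ξ) (u : Fin n → E) :
    ∃ Z : Pl n K, Z ≠ 0 ∧ ∀ i, Intx K (fun i : Fin n => ξ i.succ)
      (MvPolynomial.aeval (fun i : Fin n => ξ i.succ) Z * u i) := by
  choose Z hZ0 hZ using fun i => den_one ξ hs (u i)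
  refine ⟨∏ i, Z i, Finset.prod_ne_zero_iff.2 fun i _ => hZ0 i, ?_⟩
  intro i
  have h1 : MvPolynomial.aeval (fun i : Fin n => ξ i.succ) (∏ i, Z i) * u i =
      MvPolynomial.aeval (fun i : Fin n => ξ i.succ) (∏ j ∈ Finset.univ.erase i, Z j) *
        (MvPolynomial.aeval (fun i : Fin n => ξ i.succ) (Z i) * u i) := by
    rw [← Finset.mul_prod_erase Finset.univ Z (Finset.mem_univ i), map_mul]
    ring
  rw [h1]
  exact intx_mul _ _ _ (intx_aeval _ _) (hZ i)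

theorem arithI (N d D Δ c h0 h1 h2 H C₀ C : ℝ) (hN : 0 ≤ N) (hd : 0 < d) (hΔ : 0 ≤ Δ)
    (hH : H ≤ c * h0 + C₀)
    (h : D * h1 ≤ 2 * (36 * (N + 2) * d * Δ) * H + 8 * d * h2 + C) :
    D / (8 * d) * h1 ≤
      h2 + 9 * (N + 2) * c * Δ * h0 + (9 * (N + 2) * Δ * C₀ + C / (8 * d)) := by
  have hd8 : 0 < 8 * d := by linarith
  have e1 : D / (8 * d) * h1 = D * h1 / (8 * d) := by ring
  rw [e1, div_le_iff₀ hd8]
  have e2 : (h2 + 9 * (N + 2) * c * Δ * h0 + (9 * (N + 2) * Δ * C₀ + C / (8 * d))) * (8 * d) =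
      2 * (36 * (N + 2) * d * Δ) * (c * h0 + C₀) + 8 * d * h2 + C := by
    field_simp
    ring
  rw [e2]
  have h3 : 2 * (36 * (N + 2) * d * Δ) * H ≤ 2 * (36 * (N + 2) * d * Δ) * (c * h0 + C₀) :=
    mul_le_mul_of_nonneg_left hH (by positivity)
  linarith

theorem arithII (N d Δ Δ' τ c h0 h1 h2 H C₀ C : ℝ) (hN : 0 ≤ N) (hd : 0 < d) (hΔ : 0 < Δ)
    (hτ : 0 ≤ τ) (h00 : 0 ≤ h0) (hc : 0 ≤ c) (hH : H ≤ c * h0 + C₀)
    (h : Δ' * h1 ≤ 2 * (256 * (N + 1) * d ^ 2 * τ) * H + 72 * d * Δ * h2 + C) :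
    Δ' / (72 * d * Δ) * h1 ≤
      h2 + 9 * (N + 2) * c * (d * τ / Δ) * h0 +
        (512 * (N + 1) * d * τ * C₀ / (72 * Δ) + C / (72 * d * Δ)) := by
  have hd8 : 0 < 72 * d * Δ := by positivity
  have e1 : Δ' / (72 * d * Δ) * h1 = Δ' * h1 / (72 * d * Δ) := by ring
  rw [e1, div_le_iff₀ hd8]
  have e2 : (h2 + 9 * (N + 2) * c * (d * τ / Δ) * h0 +
        (512 * (N + 1) * d * τ * C₀ / (72 * Δ) + C / (72 * d * Δ))) * (72 * d * Δ) =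
      2 * (256 * (N + 1) * d ^ 2 * τ) * (c * h0 + C₀) +
        (136 * N + 784) * (d ^ 2 * τ * (c * h0)) + 72 * d * Δ * h2 + C := by
    field_simp
    ring
  rw [e2]
  have h3 : 0 ≤ (136 * N + 784) * (d ^ 2 * τ * (c * h0)) := by positivity
  have h4 : 2 * (256 * (N + 1) * d ^ 2 * τ) * H ≤
      2 * (256 * (N + 1) * d ^ 2 * τ) * (c * h0 + C₀) :=
    mul_le_mul_of_nonneg_left hH (by positivity)
  linarith

end PRecPM

open PRecPM in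
/-- (RecP) The two recursive inequalities. -/
theorem pRecP : StmtSecPI → StmtHtP → StmtDg1n → StmtRecP := by
  intro hS hHt hDg K E _ _ _ _ n ξ hs
  obtain ⟨c, hc, hC⟩ := yCzX K E (n + 3) ξ hs
  refine ⟨c, hc, ?_⟩
  intro ρ m d₁ d₂ d₃ D₁ D₂ hd₁ hd₂ hd₃ hD₁ hD₂
  have p1 := (hDg K E (n + 3) (n + 2) 1 ξ hs rfl).2.2 ρ
  have p2 := (hDg K E (n + 3) (n + 1) 2 ξ hs rfl).2.2 ρ
  have p3 := (hDg K E (n + 3) n 3 ξ hs rfl).2.2 ρ
  have l1 : 1 ≤ d₁ := by rw [hd₁]; exact p1 m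
  have l2 : 1 ≤ d₂ := by rw [hd₂]; exact p2 m
  have l3 : 1 ≤ d₃ := by rw [hd₃]; exact p3 m
  have l4 : 1 ≤ D₁ := by rw [hD₁]; exact p1 (2 * m)
  have l5 : 1 ≤ D₂ := by rw [hD₂]; exact p2 (2 * m)
  obtain ⟨Z₀, hZ₀, hZi⟩ := den_all ξ hs (fun i : Fin (n + 3) => (ρ ^ (2 * m)) (ξ i.succ))
  have hg : AlgebraicIndependent K (fun i : Fin (n + 3) => (ρ ^ m) (ξ i.succ)) :=
    hs.ai.map' (f := ρ ^ m) (ρ ^ m).toRingHom.injective
  obtain ⟨hfI, hfII⟩ := hS K E n ξ hs ρ m Z₀ hZ₀ hZi d₁ d₂ d₃ D₁ D₂ hd₁ hd₂ hd₃ hD₁ hD₂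
  obtain ⟨B₁, hB₁, hb₁⟩ := hHt K E (n + 3) ξ (by omega) hs
    (fun i : Fin (n + 3) => (ρ ^ m) (ξ i.succ))
    (fun i : Fin (n + 3) => (ρ ^ (2 * m)) (ξ i.succ)) Z₀ (36 * (n + 2) * d₁ * d₂) (8 * d₁) D₁
    hZ₀ hZi hg (Nat.mul_pos (Nat.mul_pos (by positivity) l1) l2)
    (Nat.mul_pos (by norm_num) l1) l4 hfI
  obtain ⟨B₂, hB₂, hb₂⟩ := hHt K E (n + 3) ξ (by omega) hs
    (fun i : Fin (n + 3) => (ρ ^ m) (ξ i.succ))
    (fun i : Fin (n + 3) => (ρ ^ (2 * m)) (ξ i.succ)) Z₀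
    (256 * (n + 1) * d₁ ^ 2 * d₃) (72 * d₁ * d₂) D₂ hZ₀ hZi hg
    (Nat.mul_pos (Nat.mul_pos (by positivity) (pow_pos l1 2)) l3)
    (Nat.mul_pos (Nat.mul_pos (by norm_num) l1) l2) l5 hfII
  refine ⟨B₁ * B₂, ?_, ?_⟩
  · rw [map_mul]
    exact mul_ne_zero hB₁ hB₂
  intro Ω _ _ h
  obtain ⟨C₀, hC₀⟩ := hC Ω h
  obtain ⟨C₁, hC₁⟩ := hb₁ Ω h
  obtain ⟨C₂, hC₂⟩ := hb₂ Ω h
  have q1 : (0 : ℝ) < (d₁ : ℝ) := by exact_mod_cast l1
  have q2 : (0 : ℝ) < (d₂ : ℝ) := by exact_mod_cast l2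
  refine ⟨max (9 * ((n : ℝ) + 2) * d₂ * C₀ + C₁ / (8 * d₁))
    (512 * ((n : ℝ) + 1) * d₁ * d₃ * C₀ / (72 * d₂) + C₂ / (72 * d₁ * d₂)), ?_⟩
  intro z hz t ht
  rw [map_mul] at ht
  have n1 := left_ne_zero_of_mul ht
  have n2 := right_ne_zero_of_mul ht
  have hon : OnX K ξ (z t) := (hz t).1
  have v1 : ∀ i : Fin (n + 3), VlX K ξ (z t) ((ρ ^ m) (ξ i.succ)) (z (t + m) i.succ) := fun i =>
    yFlV yVlA K E Ω (n + 4) ξ ρ z hz m t i.succ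
  have v2 : ∀ i : Fin (n + 3),
      VlX K ξ (z t) ((ρ ^ (2 * m)) (ξ i.succ)) (z (t + 2 * m) i.succ) :=
    fun i => yFlV yVlA K E Ω (n + 4) ξ ρ z hz (2 * m) t i.succ
  have h1 := hC₁ (z t) (fun i : Fin (n + 3) => z (t + m) i.succ)
    (fun i : Fin (n + 3) => z (t + 2 * m) i.succ) hon n1 v1 v2
  have h2 := hC₂ (z t) (fun i : Fin (n + 3) => z (t + m) i.succ)
    (fun i : Fin (n + 3) => z (t + 2 * m) i.succ) hon n2 v1 v2
  have h3 := hC₀ (z t) hon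
  have h00 : 0 ≤ hx h (z t) := h.nonneg _
  constructor
  · have h4 := arithI n d₁ D₁ d₂ c (hx h (z t)) (hx h (z (t + m))) (hx h (z (t + 2 * m)))
      (h.H (hcN (z t))) C₀ C₁ (Nat.cast_nonneg n) q1 q2.le h3 (by push_cast at h1; exact h1)
    exact h4.trans (add_le_add le_rfl (le_max_left _ _))
  · have h4 := arithII n d₁ d₂ D₂ d₃ c (hx h (z t))
      (hx h (z (t + m))) (hx h (z (t + 2 * m))) (h.H (hcN (z t))) C₀ C₂ (Nat.cast_nonneg n) q1 q2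
      (Nat.cast_nonneg d₃) h00 (Nat.cast_nonneg c) h3 (by push_cast at h2; exact h2)
    exact h4.trans (add_le_add le_rfl (le_max_right _ _))

end Pool.Agent.Lib.MP_16285c_agX
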