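import Pool.Agent.Lib.MP_16285c_agP.SpecA
import Pool.Agent.Lib.MP_16285c_agN.T3.XBZ
import Pool.Agent.Lib.MP_16285c_agX.T3.BZ2

/-!
# Bezout's inequality, for functions of bounded degree, all dimensions

Proof of `StmtBZG`.
-/

set_option autoImplicit false

namespace Pool.Agent.Lib.MP_16285c_agX

open Pool.Agent.Lib.MP_16285c_ag Pool.Agent.Lib.MP_16285c_agN

namespace PBZGM

/-- A finite product of finitely generated spaces. -/
theorem prod_fg {κ F : Type} [Field κ] [Field F] [Algebra κ F] {s : ℕ} (t : Finset (Fin s))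
    (W : Fin s → Submodule κ F) (h : ∀ i, (W i).FG) : (∏ i ∈ t, W i).FG := by
  classical
  induction t using Finset.induction_on with
  | empty =>
    rw [Finset.prod_empty, Submodule.one_eq_span]
    exact Submodule.fg_span_singleton 1
  | insert a t ha ih =>
    rw [Finset.prod_insert ha]
    exact (h a).mul ih

/-- The product of elements. -/
theorem prod_mem_prod {κ F : Type} [Field κ] [Field F] [Algebra κ F] {n s : ℕ} (y : Fin n → F)
    (t : Finset (Fin s)) (W : Fin s → Submodule κ F) (a : Fin s → ℕ) (u : Fin s → F)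
    (h : ∀ i, u i ∈ W i * Vd κ y (a i)) :
    ∏ i ∈ t, u i ∈ (∏ i ∈ t, W i) * Vd κ y (∑ i ∈ t, a i) := by
  classical
  induction t using Finset.induction_on with
  | empty =>
    rw [Finset.prod_empty, Finset.prod_empty, Finset.sum_empty]
    have h1 : (1 : F) ∈ (1 : Submodule κ F) := Submodule.one_le.1 le_rfl
    have h2 : (1 : F) ∈ Vd κ y 0 := by
      refine Submodule.mem_map.2 ⟨1, ?_, ?_⟩
      · rw [MvPolynomial.mem_restrictTotalDegree, MvPolynomial.totalDegree_one]
      · rw [AlgHom.toLinearMap_apply, map_one]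
    have h3 := Submodule.mul_mem_mul h1 h2
    rw [show (1 : F) * 1 = 1 from one_mul 1] at h3
    exact h3
  | insert b t hb ih =>
    rw [Finset.prod_insert hb, Finset.prod_insert hb, Finset.sum_insert hb]
    have h1 : W b * Vd κ y (a b) * ((∏ i ∈ t, W i) * Vd κ y (∑ i ∈ t, a i)) ≤
        W b * (∏ i ∈ t, W i) * Vd κ y (a b + ∑ i ∈ t, a i) := by
      calc W b * Vd κ y (a b) * ((∏ i ∈ t, W i) * Vd κ y (∑ i ∈ t, a i))
          = W b * (∏ i ∈ t, W i) * (Vd κ y (a b) * Vd κ y (∑ i ∈ t, a i)) := by ring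
        _ ≤ W b * (∏ i ∈ t, W i) * Vd κ y (a b + ∑ i ∈ t, a i) :=
          mul_le_mul' le_rfl (T3BZ2M.Vd_mul y _ _)
    exact h1 (Submodule.mul_mem_mul (h b) ih)

/-- The number of monomials of degree `≤ a`. -/
theorem cnt_le (s a : ℕ) : cnt s a ≤ (a + 1) ^ s := by
  unfold cnt
  have hb : ∀ (b : {b : Fin s → ℕ // ∑ i, b i ≤ a}) (i : Fin s), b.1 i < a + 1 := fun b i =>
    Nat.lt_succ_of_le ((Finset.single_le_sum (f := b.1) (fun _ _ => Nat.zero_le _)
      (Finset.mem_univ i)).trans b.2)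
  have h := Nat.card_le_card_of_injective
    (fun b : {b : Fin s → ℕ // ∑ i, b i ≤ a} => fun i : Fin s => (⟨b.1 i, hb b i⟩ : Fin (a + 1)))
    (fun b c hbc => by
      apply Subtype.ext
      funext i
      exact congrArg Fin.val (congrFun hbc i))
  refine h.trans (le_of_eq ?_)
  rw [Nat.card_eq_fintype_card, Fintype.card_fun, Fintype.card_fin, Fintype.card_fin]

/-- The monomials in algebraically independent elements. -/
theorem mono {K E : Type} [Field K] [Field E] [Algebra K E] (s : ℕ) (m : Fin s → E)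
    (hai : AlgebraicIndependent K m) :
    LinearIndependent K (fun t : Fin s → ℕ => ∏ i, m i ^ t i) := by
  have h2 : LinearIndependent K (fun σ : Fin s →₀ ℕ =>
      MvPolynomial.aeval m (MvPolynomial.monomial σ (1 : K))) := by
    have h := (MvPolynomial.basisMonomials (Fin s) K).linearIndependent
    have h' := h.map' (MvPolynomial.aeval m).toLinearMap (LinearMap.ker_eq_bot.2 hai)
    rw [MvPolynomial.coe_basisMonomials] at h'
    exact h'
  have hix : Function.Injective (fun t : Fin s → ℕ =>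
      (Finsupp.equivFunOnFinite.symm t : Fin s →₀ ℕ)) := Finsupp.equivFunOnFinite.symm.injective
  have h5 := h2.comp _ hix
  have heq : (fun t : Fin s → ℕ => ∏ i, m i ^ t i) =
      (fun σ : Fin s →₀ ℕ => MvPolynomial.aeval m (MvPolynomial.monomial σ (1 : K))) ∘
      (fun t : Fin s → ℕ => (Finsupp.equivFunOnFinite.symm t : Fin s →₀ ℕ)) := by
    funext t
    show _ = MvPolynomial.aeval m (MvPolynomial.monomial _ (1 : K))
    rw [MvPolynomial.aeval_monomial, map_one, one_mul, Finsupp.prod_fintype _ _ (fun i => pow_zero _)]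
    rfl
  rw [heq]
  exact h5

/-- The products are linearly independent. -/
theorem lin_prod {κ E : Type} [Field κ] [Field E] [Algebra κ E] (s e : ℕ) (w : Fin s → E)
    (θ : Fin e → E) (hw : AlgebraicIndependent κ w)
    (hθ : LinearIndependent (IntermediateField.adjoin κ (Set.range w)) θ) (p : Fin s → ℕ) :
    LinearIndependent κ (fun t : ((i : Fin s) → Fin (p i + 1)) × Fin e =>
      θ t.2 * ∏ i, w i ^ (t.1 i : ℕ)) := by
  have hm : ∀ i, w i ∈ IntermediateField.adjoin κ (Set.range w) := fun i =>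
    IntermediateField.subset_adjoin κ _ ⟨i, rfl⟩
  have hmem : ∀ t : Fin s → ℕ, (∏ i, w i ^ t i) ∈ IntermediateField.adjoin κ (Set.range w) :=
    fun t => prod_mem fun i _ => pow_mem (hm i) _
  have h1 : LinearIndependent κ (fun t : Fin s → ℕ =>
      (⟨∏ i, w i ^ t i, hmem t⟩ : IntermediateField.adjoin κ (Set.range w))) :=
    LinearIndependent.of_comp (IntermediateField.adjoin κ (Set.range w)).val.toLinearMap
      (mono s w hw)
  have h2 := linearIndependent_smul h1 hθ
  have hinj : Function.Injective (fun t : ((i : Fin s) → Fin (p i + 1)) × Fin e =>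
      (((fun i => (t.1 i : ℕ)), t.2) : (Fin s → ℕ) × Fin e)) := by
    rintro ⟨β, k⟩ ⟨β', k'⟩ h
    simp only [Prod.mk.injEq] at h
    obtain ⟨h1, h2⟩ := h
    refine Prod.ext ?_ h2
    funext i
    exact Fin.ext (congrFun h1 i)
  have h3 := h2.comp _ hinj
  have heq : (fun t : ((i : Fin s) → Fin (p i + 1)) × Fin e => θ t.2 * ∏ i, w i ^ (t.1 i : ℕ)) =
      (fun q : (Fin s → ℕ) × Fin e =>
        (⟨∏ i, w i ^ q.1 i, hmem q.1⟩ : IntermediateField.adjoin κ (Set.range w)) • θ q.2) ∘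
      (fun t : ((i : Fin s) → Fin (p i + 1)) × Fin e =>
        (((fun i => (t.1 i : ℕ)), t.2) : (Fin s → ℕ) × Fin e)) := by
    funext t
    show _ = (∏ i, w i ^ (t.1 i : ℕ)) * θ t.2
    ring
  rw [heq]
  exact h3

/-- Arithmetic. -/
theorem arith (s : ℕ) (d P : Fin s → ℕ) (Q e f C : ℕ) (hd : ∀ i, 1 ≤ d i) (hP : ∀ i, 1 ≤ P i)
    (hQ : Q = ∏ i, d i) (hdP : ∀ i, d i * P i = Q)
    (h : (∏ i, (P i * (C + 1) + 1)) * f ≤ e * (s * (Q * (C + 1)) + C + 1) ^ s) :
    f ≤ (s + 1) ^ s * Q * e := by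
  have hQ1 : 1 ≤ Q := by
    rw [hQ]
    exact Nat.one_le_iff_ne_zero.2 (Finset.prod_ne_zero_iff.2 fun i _ => by
      have := hd i
      omega)
  have h1 : s * (Q * (C + 1)) + C + 1 ≤ (s + 1) * (Q * (C + 1)) := by
    have h2 : C + 1 ≤ Q * (C + 1) := Nat.le_mul_of_pos_left _ hQ1
    calc s * (Q * (C + 1)) + C + 1 = s * (Q * (C + 1)) + (C + 1) := by ring
      _ ≤ s * (Q * (C + 1)) + Q * (C + 1) := Nat.add_le_add_left h2 _
      _ = (s + 1) * (Q * (C + 1)) := by ring
  have h3 : (∏ i, P i) * (C + 1) ^ s ≤ ∏ i, (P i * (C + 1) + 1) := by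
    calc (∏ i, P i) * (C + 1) ^ s = ∏ i, (P i * (C + 1)) := by
          rw [Finset.prod_mul_distrib, Finset.prod_const, Finset.card_univ, Fintype.card_fin]
      _ ≤ ∏ i, (P i * (C + 1) + 1) := Finset.prod_le_prod' fun i _ => Nat.le_succ _
  have h4 : Q ^ s = Q * ∏ i, P i := by
    have h5 : ∏ i, (d i * P i) = ∏ _i : Fin s, Q := Finset.prod_congr rfl fun i _ => hdP i
    rw [Finset.prod_mul_distrib, ← hQ, Finset.prod_const, Finset.card_univ, Fintype.card_fin] at h5
    exact h5.symm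
  have hpos : 0 < (∏ i, P i) * (C + 1) ^ s := by
    refine Nat.mul_pos ?_ (Nat.pow_pos (Nat.succ_pos C))
    exact Nat.pos_of_ne_zero (Finset.prod_ne_zero_iff.2 fun i _ => by
      have := hP i
      omega)
  refine Nat.le_of_mul_le_mul_left ?_ hpos
  calc (∏ i, P i) * (C + 1) ^ s * f ≤ (∏ i, (P i * (C + 1) + 1)) * f := Nat.mul_le_mul_right _ h3
    _ ≤ e * (s * (Q * (C + 1)) + C + 1) ^ s := h
    _ ≤ e * ((s + 1) * (Q * (C + 1))) ^ s := Nat.mul_le_mul_left _ (Nat.pow_le_pow_left h1 s)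
    _ = e * ((s + 1) ^ s * (Q ^ s * (C + 1) ^ s)) := by rw [mul_pow, mul_pow]
    _ = e * ((s + 1) ^ s * (Q * (∏ i, P i) * (C + 1) ^ s)) := by rw [h4]
    _ = (∏ i, P i) * (C + 1) ^ s * ((s + 1) ^ s * Q * e) := by ring

end PBZGM

open PBZGM T3XBZM in
/-- (BZG) Bezout's inequality. -/
theorem pBZG : StmtNN → StmtUpF → StmtXUpW → StmtBZG := by
  classical
  intro hNN _ hUp K E _ _ _ _ κ n s y w d e hfin hA hd hD hw
  by_cases he : Module.finrank (IntermediateField.adjoin κ (Set.range w)) E = 0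
  · rw [he]
    exact Nat.zero_le _
  have hfw : Module.Finite (IntermediateField.adjoin κ (Set.range w)) E :=
    Module.finite_of_finrank_pos (Nat.pos_of_ne_zero he)
  choose b hb W hW h using hD
  obtain ⟨s', A, hl, W', hW', hV⟩ := hNN K κ E n y
  change AlgebraicIndependent κ (lc A y) at hl
  change ∀ a : ℕ, Vd κ y a ≤ W' * Vd κ (lc A y) a at hV
  have hfl := fin_of_le y (lc A y) W' hW' hV hfin
  have hs : s' = s := by
    have hb1 := basis_of (lc A y) hl hfl
    have hb2 : IsTranscendenceBasis κ w := basis_of w hw hfw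
    have hc := hb1.cardinalMk_eq hb2
    rw [Cardinal.mk_fintype, Cardinal.mk_fintype, Nat.cast_inj, Fintype.card_fin,
      Fintype.card_fin] at hc
    exact hc
  subst hs
  obtain ⟨f, θ, hθ, hee⟩ := ex_basis (IntermediateField.adjoin κ (Set.range w)) hfw
  rw [hee]
  let Θ : Submodule κ E := Submodule.span κ (Set.range θ)
  have hΘ : Θ.FG := Submodule.fg_span (Set.finite_range θ)
  have hΘW : (Θ * (∏ i, W i) * W').FG := (hΘ.mul (prod_fg Finset.univ W hW)).mul hW'
  obtain ⟨C, hC⟩ := hUp κ E s' (lc A y) (Θ * (∏ i, W i) * W') hl hΘW hfl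
  set P : Fin s' → ℕ := fun i => ∏ j ∈ Finset.univ.erase i, d j with hPd
  have hdP : ∀ i, d i * P i = ∏ j, d j := fun i => Finset.mul_prod_erase _ _ (Finset.mem_univ i)
  have hP1 : ∀ i, 1 ≤ P i := fun i =>
    Nat.one_le_iff_ne_zero.2 (Finset.prod_ne_zero_iff.2 fun j _ => by
      have := hd j
      omega)
  set p : Fin s' → ℕ := fun i => P i * (C + 1) with hp
  have hlin := lin_prod s' f w θ hw hθ p
  have hsum : ∑ i, d i * p i = s' * ((∏ j, d j) * (C + 1)) := by
    have h1 : ∀ i ∈ (Finset.univ : Finset (Fin s')), d i * p i = (∏ j, d j) * (C + 1) := by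
      intro i _
      rw [hp, ← mul_assoc, hdP]
    rw [Finset.sum_congr rfl h1, Finset.sum_const, Finset.card_univ, Fintype.card_fin, smul_eq_mul]
  set S : Submodule κ E := Θ * (∏ i, W i) * W' * Vd κ (lc A y) (∑ i, d i * p i) with hS
  have hSf : Module.Finite κ S := Module.Finite.iff_fg.2 (hΘW.mul (Vd_fg _ _))
  have hne : (∏ i, b i ^ p i) ≠ 0 := Finset.prod_ne_zero_iff.2 fun i _ => pow_ne_zero _ (hb i)
  have hlin3 := hlin.map' (LinearMap.mulLeft κ (∏ i, b i ^ p i))
    (LinearMap.ker_eq_bot_of_injective fun u v huv => mul_left_cancel₀ hne huv)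
  have hmem : ∀ t, (LinearMap.mulLeft κ (∏ i, b i ^ p i) ∘
      (fun t : ((i : Fin s') → Fin (p i + 1)) × Fin f =>
        θ t.2 * ∏ i, w i ^ (t.1 i : ℕ))) t ∈ S := by
    rintro ⟨β, k⟩
    have h5 : (LinearMap.mulLeft κ (∏ i, b i ^ p i) ∘
      (fun t : ((i : Fin s') → Fin (p i + 1)) × Fin f =>
        θ t.2 * ∏ i, w i ^ (t.1 i : ℕ))) (β, k) =
        θ k * ∏ i, (b i ^ p i * w i ^ (β i : ℕ)) := by
      change (∏ i, b i ^ p i) * (θ k * ∏ i, w i ^ (β i : ℕ)) = _
      rw [Finset.prod_mul_distrib]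
      ring
    rw [h5]
    have h6 := prod_mem_prod y Finset.univ W (fun i => d i * p i)
      (fun i => b i ^ p i * w i ^ (β i : ℕ))
      (fun i => h i (p i) (β i) (Nat.lt_succ_iff.1 (β i).2))
    have h7 : Θ * ((∏ i, W i) * Vd κ y (∑ i, d i * p i)) ≤ S := by
      calc Θ * ((∏ i, W i) * Vd κ y (∑ i, d i * p i))
          ≤ Θ * ((∏ i, W i) * (W' * Vd κ (lc A y) (∑ i, d i * p i))) :=
            mul_le_mul' le_rfl (mul_le_mul' le_rfl (hV _))
        _ = S := by
            rw [hS]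
            ring
    exact h7 (Submodule.mul_mem_mul (Submodule.subset_span ⟨k, rfl⟩) h6)
  have hv : LinearIndependent κ (fun t => (⟨_, hmem t⟩ : S)) := by
    apply LinearIndependent.of_comp S.subtype
    exact hlin3
  have h7 := hv.fintype_card_le_finrank
  rw [Fintype.card_prod, Fintype.card_pi, Fintype.card_fin] at h7
  simp only [Fintype.card_fin] at h7
  have h8 := (h7.trans (hC _)).trans (Nat.mul_le_mul (hA A) (cnt_le s' (∑ i, d i * p i + C)))
  rw [hsum] at h8
  exact arith s' d P (∏ j, d j) e f C hd hP1 rfl hdP h8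

end Pool.Agent.Lib.MP_16285c_agX
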