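import Pool.Agent.Lib.MP_16285c_agP.SpecA
import Pool.Agent.Lib.MP_16285c_agX.T3.CfD
import Pool.Agent.Lib.MP_16285c_agX.T3.RpA
import Pool.Agent.Lib.MP_16285c_agX.T3.RpB
import Pool.Agent.Lib.MP_16285c_agX.T3.RpC
import Pool.Agent.Lib.MP_16285c_agX.T3.RpD
import Pool.Agent.Lib.MP_16285c_agX.T3.RpG

/-!
# (CfDn) Functions of degree at most d
-/

set_option autoImplicit false

namespace Pool.Agent.Lib.MP_16285c_agX

open Pool.Agent.Lib.MP_16285c_ag Pool.Agent.Lib.MP_16285c_agN

/-- (CfDn) -/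
theorem pCfDn : StmtCfAn → StmtCfDn := by
  intro hA K E _ _ _ _ n x hx hfin w d hd
  have : Infinite K := Infinite.of_injective (fun n : ℕ => (n : K)) Nat.cast_injective
  obtain ⟨F, hirr, hdeg, hFw⟩ := T3CfDM.exIrr hx hfin w
  let D : ℕ := F.support.sup fun i => (F.coeff i).totalDegree
  have hD1 : ∀ i, (F.coeff i).totalDegree ≤ D := by
    intro i
    by_cases hi : i ∈ F.support
    · exact Finset.le_sup (f := fun i => (F.coeff i).totalDegree) hi
    · rw [Polynomial.notMem_support_iff.mp hi]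
      simp
  have hD2 : ∃ i, (F.coeff i).totalDegree = D := by
    have hne : F.support.Nonempty := Polynomial.support_nonempty.mpr hirr.ne_zero
    obtain ⟨i, -, hi⟩ := Finset.exists_mem_eq_sup F.support hne
      (fun i => (F.coeff i).totalDegree)
    exact ⟨i, hi.symm⟩
  obtain ⟨-, A, hAD⟩ := hA K E n x hx hfin w F D hirr hdeg hFw hD1 hD2
  have hpos := T3CfDM.finrank_insert_pos hfin w
  have hDd : D ≤ d := by
    calc D = D * 1 := (mul_one D).symm
      _ ≤ D * Module.finrank (IntermediateField.adjoin K (insert w (Set.range x))) E :=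
          Nat.mul_le_mul_left D hpos
      _ ≤ _ := hAD
      _ ≤ d := hd A
  refine (yRpG yRpA (yRpD yRpA (yRpC yRpA yRpB))) K E (n + 1) x hx hfin F.natDegree d (fun i => F.coeff i) w ?_ ?_ ?_
  · have : F.coeff ((Fin.last F.natDegree : Fin (F.natDegree + 1)) : ℕ) = F.leadingCoeff := rfl
    simpa using hirr.ne_zero
  · intro i
    exact (hD1 i).trans hDd
  · rw [Polynomial.eval₂_eq_sum_range] at hFw
    rw [← hFw, Finset.sum_range]
    rfl

end Pool.Agent.Lib.MP_16285c_agX
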