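import Pool.Agent.Lib.MP_16285c_agP.SpecD
import Pool.Agent.Lib.MP_16285c_agX.T3.CmpX
import Pool.Agent.Lib.MP_16285c_agX.T3.DgT

/-!
# ZDP: comparison of the degrees in arbitrary elements and in coordinates (CmpG)
-/

set_option autoImplicit false

namespace Pool.Agent.Lib.MP_16285c_agX

open Pool.Agent.Lib.MP_16285c_ag Pool.Agent.Lib.MP_16285c_agN

namespace PCmpGM

variable {K E : Type} [Field K] [Field E] [Algebra K E]

theorem fin_of_alg {s : ℕ} {y : Fin s → E} (hy : IntermediateField.adjoin K (Set.range y) = ⊤)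
    (A : IntermediateField K E) (hA : Algebra.IsAlgebraic A E) : Module.Finite A E := by
  have h5 : Algebra.EssFiniteType K E := by
    rw [← IntermediateField.fg_top_iff, ← hy]
    exact IntermediateField.fg_adjoin_of_finite (Set.finite_range y)
  have h6 : Algebra.EssFiniteType A E := Algebra.EssFiniteType.of_comp K A E
  obtain ⟨t, ht⟩ := IntermediateField.fg_top A E
  have h7 : FiniteDimensional A (IntermediateField.adjoin A (t : Set E)) :=
    IntermediateField.finiteDimensional_adjoin fun x _ => Algebra.IsIntegral.isIntegral x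
  rw [ht] at h7
  exact Module.Finite.equiv (IntermediateField.topEquiv (F := A) (E := E)).toLinearEquiv

open scoped IntermediateField.algebraAdjoinAdjoin in
/-- `E` is finite over the field generated by `n` algebraically independent elements. -/
theorem fin_ind {n s : ℕ} {y : Fin s → E} (hy : IntermediateField.adjoin K (Set.range y) = ⊤)
    (htr : Algebra.trdeg K E = n) (z : Fin n → E) (hz : AlgebraicIndependent K z) :
    Module.Finite (IntermediateField.adjoin K (Set.range z)) E := by
  refine fin_of_alg hy _ ?_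
  have h1 : IsTranscendenceBasis K z := by
    refine AlgebraicIndependent.isTranscendenceBasis_of_trdeg_le_of_finite hz ?_
    rw [htr]
    simp
  have h2 : Algebra.IsAlgebraic (Algebra.adjoin K (Set.range z)) E :=
    (isTranscendenceBasis_iff_algebraicIndependent_isAlgebraic.1 h1).2
  exact Algebra.IsAlgebraic.extendScalars (R := Algebra.adjoin K (Set.range z))
    (S := IntermediateField.adjoin K (Set.range z)) (A := E)
    (FaithfulSMul.algebraMap_injective _ _)

open scoped IntermediateField.algebraAdjoinAdjoin in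
/-- A finite extension of a field generated by `n` elements. -/
theorem ind_fin {n : ℕ} (htr : Algebra.trdeg K E = n) {c r : ℕ} (hcr : c + r = n)
    (l : Fin c → E) (w : Fin r → E)
    (hfin : Module.Finite (IntermediateField.adjoin K (Set.range l ∪ Set.range w)) E) :
    AlgebraicIndependent (IntermediateField.adjoin K (Set.range l)) w := by
  have ht : Set.range (Sum.elim w l) = Set.range l ∪ Set.range w := by
    rw [Set.Sum.elim_range, Set.union_comm]
  have h1 : Algebra.IsAlgebraic (IntermediateField.adjoin K (Set.range (Sum.elim w l))) E := by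
    rw [ht]
    exact Algebra.IsAlgebraic.of_finite _ _
  have h2 : Algebra.IsAlgebraic (Algebra.adjoin K (Set.range (Sum.elim w l))) E :=
    Algebra.IsAlgebraic.trans (Algebra.adjoin K (Set.range (Sum.elim w l)))
      (IntermediateField.adjoin K (Set.range (Sum.elim w l))) E
  have h3 : Cardinal.mk (Fin r ⊕ Fin c) ≤ Algebra.trdeg K E := by
    rw [htr, Cardinal.mk_fintype, Fintype.card_sum, Fintype.card_fin, Fintype.card_fin,
      add_comm, hcr]
  have h4 := Algebra.IsAlgebraic.isTranscendenceBasis_of_le_trdeg_of_finite K (Sum.elim w l) h3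
  have h5 : AlgebraicIndependent (Algebra.adjoin K (Set.range l)) w :=
    (AlgebraicIndependent.sumElim_iff.1 h4.1).2
  exact h5.extendScalars (IntermediateField.adjoin K (Set.range l))

/-- `E` is finite over the field generated by the images of the coordinates. -/
theorem fin_img {n s : ℕ} {y : Fin s → E} (hy : IntermediateField.adjoin K (Set.range y) = ⊤)
    (htr : Algebra.trdeg K E = n) (ψ : E →ₐ[K] E) :
    Module.Finite (IntermediateField.adjoin K (Set.range fun i => ψ (y i))) E := by
  obtain ⟨ι, x, hx⟩ := exists_isTranscendenceBasis' K E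
  have h1 : Cardinal.mk ι = Cardinal.mk (Fin n) := by
    rw [hx.cardinalMk_eq_trdeg, htr, Cardinal.mk_fin]
  obtain ⟨f⟩ := Cardinal.eq.1 h1
  set z : Fin n → E := fun i => ψ (x (f.symm i)) with hz
  have hzi : AlgebraicIndependent K z :=
    (hx.1.comp f.symm f.symm.injective).map' (f := ψ) ψ.toRingHom.injective
  have h2 := fin_ind hy htr z hzi
  have hle : IntermediateField.adjoin K (Set.range z) ≤
      IntermediateField.adjoin K (Set.range fun i => ψ (y i)) := by
    rw [IntermediateField.adjoin_le_iff]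
    rintro _ ⟨i, rfl⟩
    have h3 : x (f.symm i) ∈ IntermediateField.adjoin K (Set.range y) := by
      rw [hy]
      exact IntermediateField.mem_top
    have h4 : ψ (x (f.symm i)) ∈ (IntermediateField.adjoin K (Set.range y)).map ψ :=
      ⟨_, h3, rfl⟩
    rw [IntermediateField.adjoin_map, ← Set.range_comp] at h4
    exact h4
  have h5 : FiniteDimensional (IntermediateField.adjoin K (Set.range z)) E := h2
  exact T3CmpXM.fd_of_le hle h5

/-- A common denominator. -/
theorem den {s t : ℕ} (y : Fin s → E) (hy : IntermediateField.adjoin K (Set.range y) = ⊤)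
    (x : Fin t → E) : ∃ (B : MvPolynomial (Fin s) K) (A : Fin t → MvPolynomial (Fin s) K),
      MvPolynomial.aeval y B ≠ 0 ∧ ∀ j, MvPolynomial.aeval y B * x j = MvPolynomial.aeval y (A j) := by
  classical
  have h : ∀ j, ∃ P Q : MvPolynomial (Fin s) K, MvPolynomial.aeval y Q ≠ 0 ∧
      MvPolynomial.aeval y Q * x j = MvPolynomial.aeval y P := by
    intro j
    have h1 : x j ∈ IntermediateField.adjoin K (Set.range y) := by
      rw [hy]
      exact IntermediateField.mem_top
    obtain ⟨r, q, hrq⟩ := (IntermediateField.mem_adjoin_range_iff K y (x j)).1 h1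
    by_cases h0 : MvPolynomial.aeval y q = 0
    · refine ⟨0, 1, ?_, ?_⟩
      · rw [map_one]
        exact one_ne_zero
      · rw [hrq, h0, div_zero, mul_zero, map_zero]
    · exact ⟨r, q, h0, by rw [hrq, mul_div_cancel₀ _ h0]⟩
  choose P Q hQ hP using h
  refine ⟨∏ j, Q j, fun j => P j * ∏ i ∈ Finset.univ.erase j, Q i, ?_, ?_⟩
  · rw [map_prod]
    exact Finset.prod_ne_zero_iff.2 fun j _ => hQ j
  · intro j
    rw [← Finset.mul_prod_erase Finset.univ Q (Finset.mem_univ j), map_mul, map_mul, ← hP j]
    ring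

/-- Linear combinations of the `x j` are functions of degree `≤ e`. -/
theorem dge {s t : ℕ} (y : Fin s → E) (x : Fin t → E) (B : MvPolynomial (Fin s) K)
    (A : Fin t → MvPolynomial (Fin s) K) (hB : MvPolynomial.aeval y B ≠ 0)
    (hA : ∀ j, MvPolynomial.aeval y B * x j = MvPolynomial.aeval y (A j)) (e : ℕ)
    (hBe : B.totalDegree ≤ e) (hAe : ∀ j, (A j).totalDegree ≤ e) {c : ℕ} (M : Fin c → Fin t → K)
    (i : Fin c) : Dge K y (lc M x i) e := by
  refine ⟨MvPolynomial.aeval y B, hB, 1, ⟨{1}, by rw [Finset.coe_singleton, Submodule.one_eq_span]⟩,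
    fun a i' hi => ?_⟩
  rw [one_mul]
  have h4 : MvPolynomial.aeval y B * lc M x i =
      MvPolynomial.aeval y (∑ j, MvPolynomial.C (M i j) * A j) := by
    rw [lc, Finset.mul_sum, map_sum]
    refine Finset.sum_congr rfl fun j _ => ?_
    rw [map_mul, MvPolynomial.aeval_C, ← hA j]
    ring
  have h5 : MvPolynomial.aeval y B ^ a * lc M x i ^ i' =
      MvPolynomial.aeval y (B ^ (a - i') * (∑ j, MvPolynomial.C (M i j) * A j) ^ i') := by
    rw [map_mul, map_pow, map_pow, ← h4, mul_pow, ← mul_assoc, ← pow_add, Nat.sub_add_cancel hi]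
  have h6 : (∑ j, MvPolynomial.C (M i j) * A j).totalDegree ≤ e := by
    refine MvPolynomial.totalDegree_finsetSum_le fun j _ => ?_
    refine le_trans (MvPolynomial.totalDegree_mul _ _) ?_
    rw [MvPolynomial.totalDegree_C, zero_add]
    exact hAe j
  rw [h5]
  refine (T3DgTM.mem_Vd _ _ _).2 ⟨_, ?_, rfl⟩
  refine le_trans (MvPolynomial.totalDegree_mul _ _) ?_
  have h7 : (B ^ (a - i')).totalDegree ≤ (a - i') * e :=
    (MvPolynomial.totalDegree_pow _ _).trans (Nat.mul_le_mul_left _ hBe)
  have h8 : ((∑ j, MvPolynomial.C (M i j) * A j) ^ i').totalDegree ≤ i' * e :=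
    (MvPolynomial.totalDegree_pow _ _).trans (Nat.mul_le_mul_left _ h6)
  calc _ ≤ (a - i') * e + i' * e := Nat.add_le_add h7 h8
    _ = e * a := by rw [← add_mul, Nat.sub_add_cancel hi, mul_comm]

end PCmpGM

open PCmpGM T3CmpXM in
theorem pCmpG : StmtBZG → StmtCmpG := by
  intro hBZ k E _ _ _ _ φ n p s t x y hpn htr hy _
  obtain ⟨B₀, A₀, hB₀, hA₀⟩ := den y hy x
  obtain ⟨e, he⟩ : ∃ e : ℕ, e = 1 + B₀.totalDegree + ∑ j, (A₀ j).totalDegree := ⟨_, rfl⟩
  have he1 : 1 ≤ e := by omega
  have hd : ∀ {c : ℕ} (M : Fin c → Fin t → k) (i : Fin c), Dge k y (lc M x i) e := by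
    intro c M i
    refine PCmpGM.dge y x B₀ A₀ hB₀ hA₀ e (by omega) (fun j => ?_) M i
    have h2 : (A₀ j).totalDegree ≤ ∑ j, (A₀ j).totalDegree :=
      Finset.single_le_sum (f := fun j => (A₀ j).totalDegree) (fun _ _ => Nat.zero_le _)
        (Finset.mem_univ j)
    omega
  obtain ⟨c, hcp⟩ : ∃ c : ℕ, c + p = n := ⟨n - p, by omega⟩
  have hc : n - p = c := by omega
  obtain ⟨C, hC⟩ : ∃ C : ℕ, C = (c + 1) ^ c * e ^ c * ((p + 1) ^ p * e ^ p) := ⟨_, rfl⟩
  have hC1 : C ≠ 0 := by
    rw [hC]
    positivity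
  refine ⟨C, fun m => ?_⟩
  obtain ⟨D, hD⟩ : ∃ D : ENNReal, D = degrX k n p y (fun i => (φ ^ m) (y i)) := ⟨_, rfl⟩
  rw [← hD]
  by_cases hDt : D = ⊤
  · rw [hDt, ENNReal.mul_top (Nat.cast_ne_zero.2 hC1)]
    exact le_top
  obtain ⟨r, hr⟩ : ∃ r : NNReal, (r : ENNReal) = D := ⟨D.toNNReal, ENNReal.coe_toNNReal hDt⟩
  have hub : ∀ N : ℕ, (N : ENNReal) ≤ D → N ≤ ⌊r⌋₊ := by
    intro N hN
    rw [← hr] at hN
    refine Nat.le_floor ?_
    exact_mod_cast hN
  have hlow : ((⌊r⌋₊ : ℕ) : ENNReal) ≤ D := by
    rw [← hr]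
    have h1 : ((⌊r⌋₊ : ℕ) : NNReal) ≤ r := Nat.floor_le zero_le
    exact_mod_cast h1
  have hdeg : ∀ (A' : Fin (n - p) → Fin s → k) (B' : Fin p → Fin s → k),
      Module.finrank (IntermediateField.adjoin k (Set.range (lc A' y) ∪
        Set.range (lc B' fun i => (φ ^ m) (y i)))) E ≤ ⌊r⌋₊ := by
    intro A' B'
    refine hub _ ?_
    rw [hD]
    exact le_iSup₂_of_le (f := fun (A : Fin (n - p) → Fin s → k) (B : Fin p → Fin s → k) =>
      (Module.finrank (fldX A B y (fun i => (φ ^ m) (y i))) E : ENNReal)) A' B' le_rfl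
  rw [hc] at hdeg
  have hfy : Module.Finite (IntermediateField.adjoin k (Set.range y)) E := by
    have h1 := fin_img hy htr (AlgHom.id k E)
    exact h1
  have hfm : Module.Finite (IntermediateField.adjoin k (Set.range fun i => (φ ^ m) (y i))) E :=
    fin_img hy htr (φ ^ m)
  have hfinal : ∀ (A : Fin c → Fin t → k) (B : Fin p → Fin t → k),
      Module.finrank (IntermediateField.adjoin k (Set.range (lc A x) ∪
        Set.range (lc B fun i => (φ ^ m) (x i)))) E ≤ C * ⌊r⌋₊ := by
    intro A B
    have h1 : ∀ A' : Fin c → Fin s → k, Module.finrank (IntermediateField.adjoin k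
        (Set.range (lc A' y) ∪ Set.range (lc B fun i => (φ ^ m) (x i)))) E ≤
          (p + 1) ^ p * e ^ p * ⌊r⌋₊ := by
      intro A'
      by_cases h0 : Module.finrank (IntermediateField.adjoin k
          (Set.range (lc A' y) ∪ Set.range (lc B fun i => (φ ^ m) (x i)))) E = 0
      · rw [h0]
        exact Nat.zero_le _
      have hfin := Module.finite_of_finrank_pos (Nat.pos_of_ne_zero h0)
      have hai := ind_fin htr hcp (lc A' y) (lc B fun i => (φ ^ m) (x i)) hfin
      have h2 := hBZ k E (IntermediateField.adjoin k (Set.range (lc A' y))) s p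
        (fun i => (φ ^ m) (y i)) (lc B fun i => (φ ^ m) (x i)) (fun _ => e) ⌊r⌋₊
        (fin_two _ _ hfm) (fun B' => by
          rw [finrank_two]
          exact hdeg A' B') (fun _ => he1) (fun i => by
          have h3 := T3DgTM.part2 k E s y (lc B x i) e (hd B i) (φ ^ m)
          rw [← lc_map (φ ^ m) B x i] at h3
          exact T3DgTM.part1 k E s _ _ e h3 _) hai
      rw [finrank_two, Finset.prod_const, Finset.card_univ, Fintype.card_fin] at h2
      exact h2
    by_cases h0 : Module.finrank (IntermediateField.adjoin k (Set.range (lc A x) ∪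
        Set.range (lc B fun i => (φ ^ m) (x i)))) E = 0
    · rw [h0]
      exact Nat.zero_le _
    have hfin := Module.finite_of_finrank_pos (Nat.pos_of_ne_zero h0)
    have hai := ind_fin htr (by omega : p + c = n) (lc B fun i => (φ ^ m) (x i)) (lc A x)
      (by rw [Set.union_comm]; exact hfin)
    have h2 := hBZ k E (IntermediateField.adjoin k (Set.range (lc B fun i => (φ ^ m) (x i)))) s c
      y (lc A x) (fun _ => e) ((p + 1) ^ p * e ^ p * ⌊r⌋₊) (fin_two _ _ hfy) (fun A' => by
        rw [finrank_two, Set.union_comm]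
        exact h1 A') (fun _ => he1) (fun i => T3DgTM.part1 k E s _ _ e (hd A i) _) hai
    rw [finrank_two, Finset.prod_const, Finset.card_univ, Fintype.card_fin, Set.union_comm] at h2
    refine h2.trans (le_of_eq ?_)
    rw [hC]
    ring
  have hle : ∀ (A : Fin (n - p) → Fin t → k) (B : Fin p → Fin t → k),
      Module.finrank (IntermediateField.adjoin k (Set.range (lc A x) ∪
        Set.range (lc B fun i => (φ ^ m) (x i)))) E ≤ C * ⌊r⌋₊ := by
    rw [hc]
    exact hfinal
  unfold degrX
  refine iSup_le fun A => iSup_le fun B => ?_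
  have h1 : (Module.finrank (fldX A B x fun i => (φ ^ m) (x i)) E : ENNReal) ≤
      ((C * ⌊r⌋₊ : ℕ) : ENNReal) := Nat.cast_le.2 (hle A B)
  refine h1.trans ?_
  rw [Nat.cast_mul]
  exact mul_le_mul le_rfl hlow zero_le zero_le

end Pool.Agent.Lib.MP_16285c_agX
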