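import Pool.Agent.Lib.MP_16285c_agP.SpecA

/-!
# MP_16285c_ag, project ZDP, module CntC: the number of monomials of bounded degree
-/

set_option autoImplicit false

namespace Pool.Agent.Lib.MP_16285c_agX

open Pool.Agent.Lib.MP_16285c_ag Pool.Agent.Lib.MP_16285c_agN

namespace PCntCM

/-- Stars and bars: add the slack as the first coordinate. -/
def slack (s a : ℕ) : {b : Fin s → ℕ // ∑ i, b i ≤ a} ≃ {b : Fin (s + 1) → ℕ // ∑ i, b i = a} where
  toFun b := ⟨Fin.cons (a - ∑ i, b.1 i) b.1, by
    have h := b.2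
    rw [Fin.sum_univ_succ]
    simp only [Fin.cons_zero, Fin.cons_succ]
    omega⟩
  invFun b := ⟨Fin.tail b.1, by
    have h := b.2
    rw [Fin.sum_univ_succ] at h
    simp only [Fin.tail]
    omega⟩
  left_inv b := by
    apply Subtype.ext
    show Fin.tail (Fin.cons (a - ∑ i, b.1 i) b.1 : Fin (s + 1) → ℕ) = b.1
    exact Fin.tail_cons _ _
  right_inv b := by
    apply Subtype.ext
    have h := b.2
    rw [Fin.sum_univ_succ] at h
    have h0 : a - ∑ i : Fin s, Fin.tail b.1 i = b.1 0 := by
      simp only [Fin.tail]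
      omega
    show Fin.cons (a - ∑ i : Fin s, Fin.tail b.1 i) (Fin.tail b.1) = b.1
    rw [h0]
    exact Fin.cons_self_tail b.1

theorem cnt_eq (s a : ℕ) : cnt s a = (s + a).choose s := by
  classical
  unfold cnt
  rw [Nat.card_congr ((slack s a).trans (Sym.equivNatSumOfFintype (Fin (s + 1)) a).symm),
    Nat.card_eq_fintype_card, Sym.card_sym_eq_choose, Fintype.card_fin]
  have h : s + 1 + a - 1 = s + a := by omega
  rw [h]
  exact (Nat.choose_symm_add (a := s) (b := a)).symm

end PCntCM

open PCntCM in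
theorem pCntC : StmtCntC := by
  refine ⟨cnt_eq, ?_, ?_⟩
  · intro s a
    rw [cnt_eq, cnt_eq, cnt_eq]
    have h1 : s + 1 + (a + 1) = (s + 1 + a) + 1 := by omega
    have h2 : s + (a + 1) = s + 1 + a := by omega
    rw [h1, h2, Nat.choose_succ_succ]
  · intro s a
    rw [cnt_eq, cnt_eq]
    have h := Nat.add_one_mul_choose_eq (s + a) s
    have h1 : s + 1 + a = (s + a + 1) := by omega
    rw [h1, mul_comm (s + 1)]
    have h2 : (a + 1) * (s + a).choose s ≤ (s + a + 1) * (s + a).choose s :=
      Nat.mul_le_mul_right _ (by omega)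
    exact h2.trans (le_of_eq h)

end Pool.Agent.Lib.MP_16285c_agX
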