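import Pool.Agent.Lib.MP_16285c_agP.SpecA
import Pool.Agent.Lib.MP_16285c_agX.T3.Dg1

/-!
# ZDP: the degrees `dgx` are attained suprema (Dg1n)
-/

set_option autoImplicit false

namespace Pool.Agent.Lib.MP_16285c_agX

open Pool.Agent.Lib.MP_16285c_ag Pool.Agent.Lib.MP_16285c_agN

namespace PDg1nM

variable {K E : Type} [Field K] [Field E] [Algebra K E]

/-- Exchange: a field generated by `c` coordinates of one family and `r` of another one. -/
theorem exchange {n c r : ℕ} (ξ : Fin (n + 1) → E) (hs : Stp K ξ) (hcr : c + r = n) (u v : Fin n → E)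
    (hu : AlgebraicIndependent K u) (hv : AlgebraicIndependent K v) :
    ∃ (A : Fin c → Fin n → K) (B : Fin r → Fin n → K),
      1 ≤ Module.finrank (IntermediateField.adjoin K (Set.range (lc A u) ∪ Set.range (lc B v))) E := by
  classical
  have hcn : c ≤ n := by omega
  set A : Fin c → Fin n → K := fun i => Pi.single (Fin.castLE hcn i) 1 with hA
  set y : Fin c → E := lc A u with hy
  have hyi : y = u ∘ Fin.castLE hcn := by
    funext i
    exact T3Dg1M.lc_single A u i _ rfl
  have hyind : AlgebraicIndependent K y := by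
    rw [hyi]
    exact hu.comp _ (Fin.castLE_injective _)
  have hset : AlgebraicIndepOn K id (Set.range y) := hyind.coe_range
  have halg : Algebra.IsAlgebraic (Algebra.adjoin K (Set.range y ∪ Set.range v)) E := by
    apply T3Dg1M.alg_of_adjoin
    have h1 := T3Dg1M.alg_fam ξ hs v hv
    have hle : IntermediateField.adjoin K (Set.range v) ≤
        IntermediateField.adjoin K (Set.range y ∪ Set.range v) :=
      IntermediateField.adjoin.mono K _ _ Set.subset_union_right
    constructor
    intro z
    obtain ⟨p, hp, hz⟩ := h1.isAlgebraic z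
    let j : IntermediateField.adjoin K (Set.range v) →+*
        IntermediateField.adjoin K (Set.range y ∪ Set.range v) :=
      (IntermediateField.inclusion hle).toRingHom
    refine ⟨p.map j, (Polynomial.map_ne_zero_iff j.injective).2 hp, ?_⟩
    rw [Polynomial.aeval_def, Polynomial.eval₂_map]
    rw [Polynomial.aeval_def] at hz
    exact hz
  obtain ⟨b, hb1, hb2, hb⟩ := exists_isTranscendenceBasis_between (R := K) (Set.range y)
    (Set.range y ∪ Set.range v) Set.subset_union_left hset
  have hcard : Cardinal.mk b = (n : Cardinal) := by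
    rw [hb.cardinalMk_eq_trdeg, T3Dg1M.trdeg_eq ξ hs]
  have hfinb : b.Finite := by
    rw [← Cardinal.lt_aleph0_iff_set_finite, hcard]
    exact Cardinal.natCast_lt_aleph0
  have hnb : b.ncard = n := by
    rw [Set.ncard_def, Set.encard, ENat.card, hcard]
    simp
  have hny : (Set.range y).ncard = c := by
    rw [Set.ncard_range_of_injective hyind.injective]
    simp
  have hnt : (b \ Set.range y).ncard = r := by
    have h := Set.ncard_sdiff hb1 (Set.finite_range y)
    rw [hnb, hny] at h
    omega
  have hfint : (b \ Set.range y).Finite := hfinb.subset Set.diff_subset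
  have hT : hfint.toFinset.card = r := by
    rw [← Set.ncard_eq_toFinset_card _ hfint]
    exact hnt
  let e := hfint.toFinset.equivFinOfCardEq hT
  let f : Fin r → E := fun j => ((e.symm j : hfint.toFinset) : E)
  have hf : ∀ j, f j ∈ b \ Set.range y := fun j => (hfint.mem_toFinset).1 (e.symm j).2
  have hfv : ∀ j, ∃ i, v i = f j := by
    intro j
    rcases hb2 (hf j).1 with h | h
    · exact absurd h (hf j).2
    · exact h
  choose g hg using hfv
  set B : Fin r → Fin n → K := fun j => Pi.single (g j) 1 with hB
  have hlB : lc B v = f := by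
    funext j
    rw [T3Dg1M.lc_single B v j (g j) rfl]
    exact hg j
  have hrange : Set.range y ∪ Set.range (lc B v) = b := by
    rw [hlB]
    ext z
    constructor
    · rintro (h | ⟨j, rfl⟩)
      · exact hb1 h
      · exact (hf j).1
    · intro hz
      by_cases hzy : z ∈ Set.range y
      · exact Or.inl hzy
      · refine Or.inr ⟨e ⟨z, (hfint.mem_toFinset).2 ⟨hz, hzy⟩⟩, ?_⟩
        show ((e.symm (e ⟨z, (hfint.mem_toFinset).2 ⟨hz, hzy⟩⟩) : hfint.toFinset) : E) = z
        rw [Equiv.symm_apply_apply]
  refine ⟨A, B, ?_⟩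
  rw [← hy, hrange]
  have halgb : Algebra.IsAlgebraic (IntermediateField.adjoin K b) E := by
    have h := hb.isAlgebraic_field
    rw [Subtype.range_coe] at h
    exact h
  have hfin : FiniteDimensional (IntermediateField.adjoin K b) E :=
    T3Dg1M.finite_of_alg ξ hs.gen _ fun i => (halgb.isAlgebraic (ξ i)).isIntegral
  exact Module.finrank_pos

end PDg1nM

open PDg1nM

theorem pDg1n : StmtDgBn → StmtDg1n := by
  intro hB K E _ _ _ _ n c r ξ hs hcr
  have h1 : ∀ (g : Fin n → E) (A : Fin c → Fin n → K) (B : Fin r → Fin n → K),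
      Module.finrank (IntermediateField.adjoin K
        (Set.range (lc A fun i => ξ i.succ) ∪ Set.range (lc B g))) E ≤
        dgx K c r (fun i : Fin n => ξ i.succ) g := by
    intro g A B
    exact le_csSup (hB K E n c r ξ hs hcr g) ⟨(A, B), rfl⟩
  refine ⟨h1, ?_, ?_⟩
  · intro g
    obtain ⟨AB, h⟩ := Nat.sSup_mem (Set.range_nonempty _) (hB K E n c r ξ hs hcr g)
    exact ⟨AB.1, AB.2, h⟩
  · intro ρ m
    have hX : AlgebraicIndependent K (fun i : Fin n => (ρ ^ m) (ξ i.succ)) :=
      hs.ai.map' (f := ρ ^ m) (ρ ^ m).toRingHom.injective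
    obtain ⟨A, B, h⟩ := exchange ξ hs hcr _ _ hs.ai hX
    exact h.trans (h1 _ A B)

end Pool.Agent.Lib.MP_16285c_agX
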