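import Pool.Agent.Lib.MP_16285c_agP.SpecA
import Pool.Agent.Lib.MP_16285c_agX.T3.DgB
import Pool.Agent.Lib.MP_16285c_agX.T3.DgT
import Pool.Agent.Lib.MP_16285c_agX.T3.RpA
import Pool.Agent.Lib.MP_16285c_agX.T3.RpB
import Pool.Agent.Lib.MP_16285c_agX.T3.RpC
import Pool.Agent.Lib.MP_16285c_agX.T3.RpD
import Pool.Agent.Lib.MP_16285c_agX.T3.StpF

/-!
# The degrees are bounded (all dimensions)

Proof of `StmtDgBn`.
-/

set_option autoImplicit false

namespace Pool.Agent.Lib.MP_16285c_agX

open Pool.Agent.Lib.MP_16285c_ag Pool.Agent.Lib.MP_16285c_agN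

namespace PDgBnM

open T3DgBM (alg_of_adjoin trdeg_of ind_of rp_poly rp_smul rp_pow rp_sum)

section

variable {K E : Type} [Field K] [Field E] [Algebra K E]

/-- Fields generated by linear forms. -/
theorem lin_le {s t n : ℕ} (hst : s + t = n) (x : Fin n → E) (hx : AlgebraicIndependent K x)
    (hf : Module.Finite (IntermediateField.adjoin K (Set.range x)) E)
    (A : Fin s → Fin n → K) (A' : Fin t → Fin n → K) :
    Module.finrank (IntermediateField.adjoin (IntermediateField.adjoin K (Set.range (lc A x)))
      (Set.range (lc A' x))) E ≤ Module.finrank (IntermediateField.adjoin K (Set.range x)) E := by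
  by_cases h0 : Module.finrank (IntermediateField.adjoin
      (IntermediateField.adjoin K (Set.range (lc A x))) (Set.range (lc A' x))) E = 0
  · rw [h0]
    exact Nat.zero_le _
  have hfin : Module.Finite (IntermediateField.adjoin
      (IntermediateField.adjoin K (Set.range (lc A x))) (Set.range (lc A' x))) E :=
    Module.finite_of_finrank_pos (Nat.pos_of_ne_zero h0)
  let z : Fin s ⊕ Fin t → E := Sum.elim (lc A x) (lc A' x)
  have hz : Set.range z = Set.range (lc A x) ∪ Set.range (lc A' x) := Set.Sum.elim_range _ _
  have h1 : (IntermediateField.adjoin (IntermediateField.adjoin K (Set.range (lc A x)))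
      (Set.range (lc A' x))).restrictScalars K = IntermediateField.adjoin K (Set.range z) := by
    rw [IntermediateField.adjoin_adjoin_left, hz]
  have h2 : Module.Finite (IntermediateField.adjoin K (Set.range z)) E := by
    rw [← h1]
    exact hfin
  have h3 : AlgebraicIndependent K z := by
    refine ind_of z h2 ?_
    rw [trdeg_of x hx hf, Cardinal.mk_fintype, Fintype.card_sum, Fintype.card_fin,
      Fintype.card_fin, hst]
  have h4 : LinearIndependent K z := h3.linearIndependent
  have hlc : ∀ {r : ℕ} (C : Fin r → Fin n → K) (i : Fin r),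
      lc C x i ∈ Submodule.span K (Set.range x) := by
    intro r C i
    change ∑ j, algebraMap K E (C i j) * x j ∈ Submodule.span K (Set.range x)
    refine Submodule.sum_mem _ fun j _ => ?_
    rw [← Algebra.smul_def]
    exact Submodule.smul_mem _ _ (Submodule.subset_span ⟨j, rfl⟩)
  have h5 : Submodule.span K (Set.range z) ≤ Submodule.span K (Set.range x) := by
    rw [Submodule.span_le]
    rintro _ ⟨i, rfl⟩
    rcases i with i | i
    · exact hlc A i
    · exact hlc A' i
  have h6 : Submodule.span K (Set.range z) = Submodule.span K (Set.range x) := by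
    have hf : Module.Finite K (Submodule.span K (Set.range x)) :=
      Module.Finite.span_of_finite K (Set.finite_range _)
    refine Submodule.eq_of_le_of_finrank_le h5 ?_
    rw [finrank_span_eq_card h4, Fintype.card_sum, Fintype.card_fin, Fintype.card_fin, hst]
    refine (finrank_range_le_card (R := K) x).trans ?_
    rw [Fintype.card_fin]
  have hsub : ∀ S : Set E, Submodule.span K S ≤
      Subalgebra.toSubmodule (IntermediateField.adjoin K S).toSubalgebra := by
    intro S
    rw [Submodule.span_le]
    exact IntermediateField.subset_adjoin K S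
  have h7 : IntermediateField.adjoin K (Set.range z) = IntermediateField.adjoin K (Set.range x) := by
    apply le_antisymm
    · rw [IntermediateField.adjoin_le_iff]
      intro y hy
      have h8 : y ∈ Submodule.span K (Set.range x) := by
        rw [← h6]
        exact Submodule.subset_span hy
      exact hsub _ h8
    · rw [IntermediateField.adjoin_le_iff]
      intro y hy
      have h8 : y ∈ Submodule.span K (Set.range z) := by
        rw [h6]
        exact Submodule.subset_span hy
      exact hsub _ h8
  rw [h7] at h1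
  apply le_of_eq
  rw [← h1]
  rfl

/-- Algebraic independence over `K(u)`. -/
theorem ind_over {s t n : ℕ} (hst : s + t = n) (htr : Algebra.trdeg K E = (n : ℕ)) (u : Fin s → E)
    (w : Fin t → E)
    (hfin : Module.Finite (IntermediateField.adjoin K (Set.range u ∪ Set.range w)) E) :
    AlgebraicIndependent (IntermediateField.adjoin K (Set.range u)) w := by
  let x : Fin t ⊕ Fin s → E := Sum.elim w u
  have hx : Set.range x = Set.range u ∪ Set.range w := by
    rw [Set.Sum.elim_range, Set.union_comm]
  have h3 : AlgebraicIndependent K x := by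
    refine ind_of x (by rw [hx]; exact hfin) ?_
    rw [htr, Cardinal.mk_fintype, Fintype.card_sum, Fintype.card_fin, Fintype.card_fin,
      add_comm t s, hst]
  have h4 := (AlgebraicIndependent.sumElim_iff.1 h3).2
  open scoped IntermediateField.algebraAdjoinAdjoin in
  exact h4.extendScalars (IntermediateField.adjoin K (Set.range u))

/-- A common denominator. -/
theorem den (hR : StmtRpA) {n : ℕ} (x : Fin n → E) (hx : AlgebraicIndependent K x)
    (hf : Module.Finite (IntermediateField.adjoin K (Set.range x)) E) (g : Fin n → E) :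
    ∃ (b : E) (D : ℕ), b ≠ 0 ∧ 1 ≤ D ∧ Rp K x D b ∧ ∀ i, Rp K x D (b * g i) := by
  classical
  have alg : Algebra.IsAlgebraic (Algebra.adjoin K (Set.range x)) E := alg_of_adjoin _ inferInstance
  obtain ⟨y, hy, hi⟩ := Algebra.IsAlgebraic.exists_integral_multiples
    (Algebra.adjoin K (Set.range x)) (A := E) (Finset.univ.image g)
  have hb : (y : E) ≠ 0 := fun h => hy (Subtype.ext h)
  have hcomp : ((MvPolynomial.aeval x : Pl n K →ₐ[K] E) : Pl n K →+* E).comp
      (hx.aevalEquiv.symm : Algebra.adjoin K (Set.range x) →+* Pl n K) =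
      algebraMap (Algebra.adjoin K (Set.range x)) E := by
    ext z
    have h1 := hx.algebraMap_aevalEquiv (hx.aevalEquiv.symm z)
    rw [AlgEquiv.apply_symm_apply] at h1
    exact h1.symm
  have hint : ∀ i, Intx K x ((y : E) * g i) := by
    intro i
    obtain ⟨F, hF, h0⟩ := hi (g i) (Finset.mem_image_of_mem g (Finset.mem_univ i))
    refine ⟨F.map (hx.aevalEquiv.symm : Algebra.adjoin K (Set.range x) →+* Pl n K),
      hF.map _, ?_⟩
    rw [Polynomial.eval₂_map, hcomp]
    exact h0
  have hR5 := (hR K E n x).2.2.2.2
  have hmono := (hR K E n x).2.2.2.1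
  choose e he using fun i => hR5 _ (hint i)
  obtain ⟨G, hG⟩ : ∃ G : Pl n K, MvPolynomial.aeval x G = (y : E) := by
    have h1 := hx.algebraMap_aevalEquiv (hx.aevalEquiv.symm y)
    rw [AlgEquiv.apply_symm_apply] at h1
    exact ⟨_, h1.symm⟩
  refine ⟨y, 1 + G.totalDegree + ∑ i, e i, hb, by omega, ?_, fun i => ?_⟩
  · rw [← hG]
    exact hmono _ _ _ (by omega) (rp_poly hR x G)
  · refine hmono _ _ _ ?_ (he i)
    have h2 : e i ≤ ∑ i, e i := Finset.single_le_sum (fun _ _ => Nat.zero_le _) (Finset.mem_univ i)
    omega

/-- Linear combinations of the `g i` are functions of degree `≤ D`. -/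
theorem dge_of [CharZero K] (hR : StmtRpA) (hD : StmtRpD) {n : ℕ} (x : Fin n → E)
    (hx : AlgebraicIndependent K x)
    (hf : Module.Finite (IntermediateField.adjoin K (Set.range x)) E) (g : Fin n → E) (b : E)
    (D : ℕ) (hb : b ≠ 0) (h1 : Rp K x D b) (h2 : ∀ i, Rp K x D (b * g i)) {r : ℕ}
    (B : Fin r → Fin n → K) (k : Fin r) : Dge K x (lc B g k) D := by
  obtain ⟨W, hW, hmem⟩ := hD K E n x hx hf
  refine ⟨b, hb, W, hW, fun a i hia => hmem _ _ ?_⟩
  have h3 : Rp K x D (b * lc B g k) := by
    have h4 : b * lc B g k = ∑ j, algebraMap K E (B k j) * (b * g j) := by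
      rw [lc, Finset.mul_sum]
      exact Finset.sum_congr rfl fun j _ => by ring
    rw [h4]
    exact rp_sum hR x D _ fun j => rp_smul hR x D _ _ (h2 j)
  have h5 : b ^ a * lc B g k ^ i = b ^ (a - i) * (b * lc B g k) ^ i := by
    rw [mul_pow, ← mul_assoc, ← pow_add, Nat.sub_add_cancel hia]
  have h6 := (hR K E n x).2.2.1 _ _ _ _ (rp_pow hR x D b h1 (a - i)) (rp_pow hR x D _ h3 i)
  rw [← mul_add, Nat.sub_add_cancel hia] at h6
  rw [h5]
  exact h6

/-- Finiteness over a larger field. -/
theorem fin_up {n : ℕ} (x : Fin n → E)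
    (hf : Module.Finite (IntermediateField.adjoin K (Set.range x)) E) (κ : IntermediateField K E) :
    Module.Finite (IntermediateField.adjoin κ (Set.range x)) E := by
  have h3 : IntermediateField.adjoin K (Set.range x) ≤
      (IntermediateField.adjoin κ (Set.range x)).restrictScalars K := by
    rw [IntermediateField.adjoin_le_iff]
    exact IntermediateField.subset_adjoin κ _
  obtain ⟨t, ht⟩ :=
    (Module.Finite.fg_top : (⊤ : Submodule (IntermediateField.adjoin K (Set.range x)) E).FG)
  refine ⟨t, ?_⟩
  rw [eq_top_iff]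
  intro z _
  have hz : z ∈ Submodule.span (IntermediateField.adjoin K (Set.range x)) (t : Set E) := by
    rw [ht]
    exact Submodule.mem_top
  refine Submodule.span_induction (fun u hu => Submodule.subset_span hu) (Submodule.zero_mem _)
    (fun u v _ _ hu hv => Submodule.add_mem _ hu hv) (fun a u _ hu => ?_) hz
  have h5 : a • u = (⟨(a : E), h3 a.2⟩ : IntermediateField.adjoin κ (Set.range x)) • u := rfl
  rw [h5]
  exact Submodule.smul_mem _ _ hu

end

end PDgBnM

open PDgBnM in
/-- (DgBn) The degrees are bounded. -/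
theorem pDgBn : StmtBZG → StmtDgBn := by
  intro hBZ K E _ _ _ _ n c r ξ hξ hcr g
  have hR : StmtRpA := yRpA
  have hRD : StmtRpD := yRpD yRpA (yRpC yRpA yRpB)
  have hT : StmtDgT := yDgT
  have hK : Infinite K := Infinite.of_injective (Nat.cast : ℕ → K) Nat.cast_injective
  have hf := yStpF K E n ξ hξ
  have hx := hξ.ai
  set x : Fin n → E := fun i => ξ i.succ with hxd
  have htr := T3DgBM.trdeg_of x hx hf
  obtain ⟨b, D, hb, hD1, hRb, hRg⟩ := den hR x hx hf g
  refine ⟨(r + 1) ^ r * (∏ _i : Fin r, D) *
    Module.finrank (IntermediateField.adjoin K (Set.range x)) E, ?_⟩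
  rintro _ ⟨⟨A, B⟩, rfl⟩
  change Module.finrank (IntermediateField.adjoin K
      (Set.range (lc A x) ∪ Set.range (lc B g))) E ≤ _
  by_cases h0 : Module.finrank (IntermediateField.adjoin K
      (Set.range (lc A x) ∪ Set.range (lc B g))) E = 0
  · rw [h0]
    exact Nat.zero_le _
  have hfin : Module.Finite (IntermediateField.adjoin K
      (Set.range (lc A x) ∪ Set.range (lc B g))) E :=
    Module.finite_of_finrank_pos (Nat.pos_of_ne_zero h0)
  have hind := ind_over hcr htr (lc A x) (lc B g) hfin
  have hκ : (IntermediateField.adjoin (IntermediateField.adjoin K (Set.range (lc A x)))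
      (Set.range (lc B g))).restrictScalars K = IntermediateField.adjoin K
      (Set.range (lc A x) ∪ Set.range (lc B g)) := by
    rw [IntermediateField.adjoin_adjoin_left]
  have h1 := hBZ K E (IntermediateField.adjoin K (Set.range (lc A x))) n r x (lc B g) (fun _ => D)
    (Module.finrank (IntermediateField.adjoin K (Set.range x)) E) (fin_up x hf _)
    (fun A' => lin_le hcr x hx hf A A') (fun _ => hD1)
    (fun i => hT.1 K E n x _ D (dge_of hR hRD x hx hf g b D hb hRb hRg B i) _) hind
  rw [← hκ]
  exact h1

end Pool.Agent.Lib.MP_16285c_agX
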