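import Pool.Agent.Lib.MP_16285c_agP.SpecA
import Pool.Agent.Lib.MP_16285c_agX.T3.E1X
import Pool.Agent.Lib.MP_16285c_agX.T3.DgT

/-!
# Varieties with `λ_r < λ₁` for `r ≥ 3`: degrees with `T`

Proof of `StmtETn` (as `T3/E1X.lean`, in all dimensions).
-/

set_option autoImplicit false

namespace Pool.Agent.Lib.MP_16285c_agX

open Pool.Agent.Lib.MP_16285c_ag Pool.Agent.Lib.MP_16285c_agN

namespace PETnM

open scoped IntermediateField.algebraAdjoinAdjoin

variable {K E : Type} [Field K] [Field E] [Algebra K E]

/-- A finite extension of a field generated by `n` elements. -/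
theorem indep {n s c : ℕ} (ξ : Fin (n + 1) → E) (hS : Stp K ξ) (hn : s + c = n) (v : Fin c → E)
    (w : Fin s → E)
    (h : Module.Finite (IntermediateField.adjoin K (Set.range v ∪ Set.range w)) E) :
    AlgebraicIndependent (IntermediateField.adjoin K (Set.range v)) w := by
  let t : Fin s ⊕ Fin c → E := Sum.elim w v
  have ht : Set.range t = Set.range v ∪ Set.range w := by
    rw [Set.Sum.elim_range, Set.union_comm]
  have h1 : Algebra.IsAlgebraic (IntermediateField.adjoin K (Set.range t)) E := by
    rw [ht]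
    exact Algebra.IsAlgebraic.of_finite _ _
  have h2 : Algebra.IsAlgebraic (Algebra.adjoin K (Set.range t)) E := T3E1XM.alg_of_adjoin _ h1
  have h3 : Cardinal.mk (Fin s ⊕ Fin c) ≤ Algebra.trdeg K E := by
    rw [T3E1XM.trdeg_eq ξ hS, Cardinal.mk_fintype, Fintype.card_sum, Fintype.card_fin,
      Fintype.card_fin, hn]
  have h4 := Algebra.IsAlgebraic.isTranscendenceBasis_of_le_trdeg_of_finite K t h3
  have h5 : AlgebraicIndependent (Algebra.adjoin K (Set.range v)) w :=
    (AlgebraicIndependent.sumElim_iff.1 h4.1).2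
  exact h5.extendScalars (IntermediateField.adjoin K (Set.range v))

/-- Degrees over a field generated in two steps. -/
theorem finrank_two (S T : Set E) :
    Module.finrank (IntermediateField.adjoin (IntermediateField.adjoin K S) T) E =
      Module.finrank (IntermediateField.adjoin K (S ∪ T)) E := by
  rw [← IntermediateField.adjoin_adjoin_left K S T]
  rfl

theorem tu_eq {n : ℕ} (u : K) (y : Fin n → E) :
    Tu K u y = algebraMap K E 1 + ∑ j : Fin n, algebraMap K E (u ^ ((j : ℕ) + 1)) * y j := by
  rw [Tu, luN, Fin.sum_univ_succ, Fin.val_zero, pow_zero, one_mul, Fin.cons_zero, map_one]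
  congr 1
  refine Finset.sum_congr rfl fun j _ => ?_
  rw [Fin.cons_succ, Fin.val_succ, map_pow]

end PETnM

open PETnM in
/-- (ETn) The degree over `K(lc A x, T, lc B z)`. -/
theorem pETn : StmtDg1n → StmtCfDn → StmtBZG → StmtETn := by
  intro hDg hCf hBZ K E _ _ _ _ n c r ξ hS hcr ρ m u A B
  obtain ⟨h1r, -, hpos⟩ := hDg K E (n + 1) n 1 ξ hS rfl
  obtain ⟨her, -, -⟩ := hDg K E (n + 1) c (r + 1) ξ hS (by omega)
  have hd := hpos ρ m
  set x : Fin (n + 1) → E := fun i : Fin (n + 1) => ξ i.succ with hx
  set y : Fin (n + 1) → E := fun i : Fin (n + 1) => (ρ ^ m) (ξ i.succ) with hy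
  set z : Fin (n + 1) → E := fun i : Fin (n + 1) => (ρ ^ (2 * m)) (ξ i.succ) with hz
  set d₁ := dgx K n 1 x y with hd₁
  let w : Fin (r + 1) → E := Fin.cons (Tu K u y) (lc B z)
  let d : Fin (r + 1) → ℕ := Fin.cons 1 fun _ => d₁
  have hw : Set.range w = insert (Tu K u y) (Set.range (lc B z)) := Fin.range_cons _ _
  have hset : insert (Tu K u y) (Set.range (lc A x) ∪ Set.range (lc B z)) =
      Set.range (lc A x) ∪ Set.range w := by
    rw [hw, Set.union_insert]
  rw [hset]
  by_cases h0 : Module.finrank (IntermediateField.adjoin K (Set.range (lc A x) ∪ Set.range w)) E = 0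
  · rw [h0]
    exact Nat.zero_le _
  have hfin : Module.Finite (IntermediateField.adjoin K (Set.range (lc A x) ∪ Set.range w)) E :=
    Module.finite_of_finrank_pos (Nat.pos_of_ne_zero h0)
  have hai := indep ξ hS (by omega) (lc A x) w hfin
  have hyai : AlgebraicIndependent K y := hS.ai.map' (f := ρ ^ m) (ρ ^ m).toRingHom.injective
  have hb : ∀ A' : Fin (r + 1) → Fin (n + 1) → K, Module.finrank (IntermediateField.adjoin
      (IntermediateField.adjoin K (Set.range (lc A x))) (Set.range (lc A' y))) E ≤
      dgx K c (r + 1) x y := by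
    intro A'
    rw [finrank_two]
    exact her y A A'
  have hd' : ∀ i, 1 ≤ d i := by
    refine Fin.cases le_rfl fun i => ?_
    exact hd
  have hDge : ∀ i, Dge (IntermediateField.adjoin K (Set.range (lc A x))) y (w i) (d i) := by
    refine Fin.cases ?_ fun i => ?_
    · refine yDgT.1 K E (n + 1) y _ 1 ?_ _
      change Dge K y (Tu K u y) 1
      rw [tu_eq]
      exact yDgT.2.2.1 K E (n + 1) y 1 fun j => u ^ ((j : ℕ) + 1)
    · refine yDgT.1 K E (n + 1) y _ _ ?_ _
      change Dge K y (lc B z i) d₁
      have h1 : Dge K x (lc B y i) d₁ := by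
        refine hCf K E n x hS.ai (T3E1XM.fin_x ξ hS) _ _ fun A' => ?_
        have h2 := h1r y A' fun _ => B i
        have h3 : Set.range (lc (fun _ : Fin 1 => B i) y) = {lc B y i} := Set.range_const
        rw [h3, Set.union_singleton] at h2
        exact h2
      have h4 := yDgT.2.1 K E (n + 1) x _ _ h1 (ρ ^ m)
      have h5 : (ρ ^ m) (lc B y i) = lc B z i := by
        rw [lc, lc, map_sum]
        refine Finset.sum_congr rfl fun j _ => ?_
        rw [map_mul, AlgHom.commutes, hz, hy]
        simp only [two_mul, pow_add]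
        rfl
      rw [h5] at h4
      exact h4
  have h := hBZ K E (IntermediateField.adjoin K (Set.range (lc A x))) (n + 1) (r + 1) y w d
    (dgx K c (r + 1) x y) (T3E1XM.fin_ai ξ hS y hyai _) hb hd' hDge hai
  rw [finrank_two, Fin.prod_univ_succ] at h
  simp only [d, Fin.cons_zero, Fin.cons_succ, Finset.prod_const, Finset.card_univ,
    Fintype.card_fin, one_mul] at h
  exact h

end Pool.Agent.Lib.MP_16285c_agX
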