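import Pool.Agent.Lib.MP_16285c_agP.SpecA

/-!
# ZDP: the lemma of Gauss in several variables (GaM)
-/

set_option autoImplicit false

namespace Pool.Agent.Lib.MP_16285c_agX

open Pool.Agent.Lib.MP_16285c_ag Pool.Agent.Lib.MP_16285c_agN

namespace PGaMM

section

variable {κ E : Type} [Field κ] [Field E] [Algebra κ E] {b : ℕ}

/-- The homomorphism `κ[V] → κ(v)`. -/
noncomputable def psi (v : Fin b → E) :
    MvPolynomial (Fin b) κ →ₐ[κ] IntermediateField.adjoin κ (Set.range v) :=
  MvPolynomial.aeval fun i => ⟨v i, IntermediateField.subset_adjoin κ _ (Set.mem_range_self i)⟩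

theorem coe_psi (v : Fin b → E) (p : MvPolynomial (Fin b) κ) :
    ((psi v p : IntermediateField.adjoin κ (Set.range v)) : E) = MvPolynomial.aeval v p := by
  have e : ((IntermediateField.adjoin κ (Set.range v)).val.comp (psi v)) = MvPolynomial.aeval v := by
    apply MvPolynomial.algHom_ext
    intro i
    rw [MvPolynomial.aeval_X, AlgHom.comp_apply, psi, MvPolynomial.aeval_X]
    rfl
  exact congrArg (fun u : MvPolynomial (Fin b) κ →ₐ[κ] E => u p) e

theorem psi_inj {v : Fin b → E} (hv : AlgebraicIndependent κ v) : Function.Injective (psi (κ := κ) v) := by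
  intro p q h
  apply hv
  rw [← coe_psi, ← coe_psi, h]

end

end PGaMM

open PGaMM in
theorem pGaM : StmtGaM := by
  intro κ E _ _ _ a b v hv R hR hd
  let S := MvPolynomial (Fin b) κ
  let F := IntermediateField.adjoin κ (Set.range v)
  let _ : Algebra S F := (psi v).toRingHom.toAlgebra
  have hinj : Function.Injective (algebraMap S F) := psi_inj hv
  have : FaithfulSMul S F := (faithfulSMul_iff_algebraMap_injective S F).2 hinj
  have : IsFractionRing S F := by
    refine IsFractionRing.of_field S F fun z => ?_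
    obtain ⟨r, s, hrs⟩ := (IntermediateField.mem_adjoin_range_iff κ v (z : E)).1 z.2
    refine ⟨r, s, ?_⟩
    apply Subtype.ext
    change (z : E) = ((psi v r / psi v s : F) : E)
    rw [hrs, ← coe_psi, ← coe_psi]
    rfl
  let _ : Algebra (MvPolynomial (Fin a) S) (MvPolynomial (Fin a) F) := MvPolynomial.algebraMvPolynomial
  have : IsLocalization ((nonZeroDivisors S).map (MvPolynomial.C (σ := Fin a))) (MvPolynomial (Fin a) F) :=
    MvPolynomial.isLocalization (nonZeroDivisors S) F
  have hmap : ∀ Q : MvPolynomial (Fin a) S, algebraMap (MvPolynomial (Fin a) S) (MvPolynomial (Fin a) F) Q =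
      MvPolynomial.map (algebraMap S F) Q := fun _ => rfl
  have hpr : Prime R := hR.prime
  have hR0 : R ≠ 0 := hR.ne_zero
  have hspan : (Ideal.span {R}).IsPrime := (Ideal.span_singleton_prime hR0).2 hpr
  have hdis : Disjoint (((nonZeroDivisors S).map (MvPolynomial.C (σ := Fin a)) :
      Submonoid (MvPolynomial (Fin a) S)) : Set (MvPolynomial (Fin a) S)) (Ideal.span {R} : Ideal _) := by
    rw [Set.disjoint_left]
    rintro x hx1 hx2
    obtain ⟨s, hs, rfl⟩ := hx1
    obtain ⟨Q, hQ⟩ := Ideal.mem_span_singleton.1 hx2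
    have hs0 : s ≠ 0 := nonZeroDivisors.ne_zero hs
    have hC0 : (MvPolynomial.C s : MvPolynomial (Fin a) S) ≠ 0 := by
      rw [Ne, MvPolynomial.C_eq_zero]
      exact hs0
    have hQ' : (MvPolynomial.C s : MvPolynomial (Fin a) S) = R * Q := hQ
    have hQ0 : Q ≠ 0 := by
      rintro rfl
      rw [mul_zero] at hQ'
      exact hC0 hQ'
    have h1 := congrArg MvPolynomial.totalDegree hQ'
    rw [MvPolynomial.totalDegree_C, MvPolynomial.totalDegree_mul_of_isDomain hR0 hQ0] at h1
    omega
  have hP := IsLocalization.isPrime_of_isPrime_disjoint ((nonZeroDivisors S).map (MvPolynomial.C (σ := Fin a)))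
    (MvPolynomial (Fin a) F) (Ideal.span {R}) hspan hdis
  rw [Ideal.map_span, Set.image_singleton, hmap] at hP
  have hR'0 : MvPolynomial.map (algebraMap S F) R ≠ 0 := by
    intro h0
    exact hR0 (MvPolynomial.map_injective _ hinj (by rw [h0, map_zero]))
  refine ⟨MvPolynomial.map (algebraMap S F) R, ((Ideal.span_singleton_prime hR'0).1 hP).irreducible, ?_, ?_⟩
  · unfold MvPolynomial.totalDegree
    rw [MvPolynomial.support_map_of_injective R hinj]
  · intro u
    rw [MvPolynomial.aeval_def, MvPolynomial.eval₂_map]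
    congr 1
    refine RingHom.ext fun p => ?_
    exact coe_psi v p

end Pool.Agent.Lib.MP_16285c_agX
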