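import Pool.Agent.Lib.MP_16285c_agP.Defs
import Pool.Agent.Lib.MP_16285c_agX.T3.AllH
import Pool.Agent.Lib.MP_16285c_agX.T3.RpD

/-!
# The height inequality in dimension `n` (ZDP, HtP)
-/

set_option autoImplicit false

namespace Pool.Agent.Lib.MP_16285c_agX

open Pool.Agent.Lib.MP_16285c_ag Pool.Agent.Lib.MP_16285c_agN

/-- As `StmtRpS`, in dimension `n`. -/
def StmtRpSn : Prop :=
  ∀ (K E : Type) [Field K] [CharZero K] [Field E] [Algebra K E] (n : ℕ) (ξ : Fin (n + 1) → E),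
    Stp K ξ → ∀ (g z' : Fin n → E) (Z₀ : Pl n K) (P₁ j₁ q₁ : ℕ),
    (∀ i, Intx K (fun i : Fin n => ξ i.succ)
      (MvPolynomial.aeval (fun i : Fin n => ξ i.succ) Z₀ * z' i)) →
    AlgebraicIndependent K g →
    ∃ C₀ : ℕ, ∀ (u : K) (i : ℕ) (G : MvPolynomial (Fin (n + 1)) (Pl (n + 1) K)) (S : E),
      G.IsHomogeneous (j₁ * i) → (∀ α, (G.coeff α).totalDegree ≤ P₁ * i) →
      Intx K (fun i : Fin n => ξ i.succ) S →
      MvPolynomial.aeval (fun i : Fin n => ξ i.succ) Z₀ ^ (j₁ * i) *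
        MvPolynomial.eval₂ ((MvPolynomial.aeval ξ : Pl (n + 1) K →ₐ[K] E) : Pl (n + 1) K →+* E)
          (Fin.cons 1 z' : Fin (n + 1) → E) G = Tu K u g ^ (q₁ * i) * S →
      Rp K (fun i : Fin n => ξ i.succ) (C₀ * i) S

open T3RpSM in
theorem tRpSn : StmtIntA → StmtRpA → StmtRpE → StmtRpF → StmtStpF → StmtRpSn := by
  intro hI hA hE hF hStpF K E _ _ _ _ n ξ hS g z' Z₀ P₁ j₁ q₁ hz' hgai
  obtain ⟨x, hx⟩ : ∃ x : Fin n → E, x = fun i : Fin n => ξ i.succ := ⟨_, rfl⟩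
  have hxai : AlgebraicIndependent K x := hx ▸ hS.ai
  have hfin : Module.Finite (IntermediateField.adjoin K (Set.range x)) E := by
    rw [hx]; exact hStpF K E n ξ hS
  rw [← hx] at hz' ⊢
  obtain ⟨β, hβ0, hβ⟩ := den hI hfin (Fin.cons 1 g : Fin (n + 1) → E)
  obtain ⟨z₀, hz₀⟩ : ∃ z₀ : E, z₀ = MvPolynomial.aeval x Z₀ := ⟨_, rfl⟩
  obtain ⟨e₁, he₁⟩ := rp_fam (x := x) hA (fun i => MvPolynomial.aeval x β * (Fin.cons 1 g : Fin (n + 1) → E) i)
    fun i => (hA K E n x).2.2.2.2 _ (hβ i)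
  obtain ⟨c, hc⟩ := rp_fam (x := x) hA ξ fun i => by
    refine Fin.cases ?_ (fun i => ?_) i
    · exact (hA K E n x).2.2.2.2 _ (hx ▸ hS.int)
    · have h := (hA K E n x).1 (MvPolynomial.X i) _ le_rfl
      have h1 : x i = ξ i.succ := by rw [hx]
      rw [MvPolynomial.aeval_X, h1] at h
      exact ⟨_, h⟩
  obtain ⟨c', hc'⟩ := rp_fam (x := x) hA (fun i => z₀ * (Fin.cons 1 z' : Fin (n + 1) → E) i) fun i => by
    refine Fin.cases ?_ (fun i => ?_) i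
    · have h := (hA K E n x).1 Z₀ _ le_rfl
      rw [← hz₀] at h
      rw [Fin.cons_zero, mul_one]
      exact ⟨_, h⟩
    · rw [Fin.cons_succ, hz₀]
      exact (hA K E n x).2.2.2.2 _ (hz' i)
  refine ⟨e₁ * q₁ + (c * P₁ + c' * j₁) +
    q₁ * (Module.finrank (IntermediateField.adjoin K (Set.range x)) E * e₁), ?_⟩
  intro u i G S hG hGc hSi heq
  have hβ1 : Rp K x e₁ (MvPolynomial.aeval x β) := by
    have h := he₁ 0
    simpa using h
  have hβT : Rp K x e₁ (MvPolynomial.aeval x β * Tu K u g) := by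
    have h1 : MvPolynomial.aeval x β * Tu K u g = ∑ k : Fin (n + 1), algebraMap K E (u ^ (k : ℕ)) *
        (MvPolynomial.aeval x β * (Fin.cons 1 g : Fin (n + 1) → E) k) := by
      rw [Tu, luN, Finset.mul_sum]
      refine Finset.sum_congr rfl fun k _ => ?_
      rw [map_pow]; ring
    rw [h1]
    refine rp_sum hA _ _ fun k _ => ?_
    have h2 := (hA K E n x).2.2.1 0 e₁ _ _ (rp_cst hA (u ^ (k : ℕ))) (he₁ k)
    rwa [zero_add] at h2
  have hne : MvPolynomial.aeval x β * Tu K u g ≠ 0 := mul_ne_zero hβ0 (tu_ne hgai u)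
  have hb := hE.2.1 K E n (n + 1) (n + 1) x ξ (fun k => z₀ * (Fin.cons 1 z' : Fin (n + 1) → E) k) c c' (P₁ * i)
    (j₁ * i) G hc hc' hG hGc
  rw [hE.2.2 _ _ _ (n + 1) (j₁ * i) (Fin.cons 1 z' : Fin (n + 1) → E) z₀ G hG, hz₀, heq] at hb
  have hs := (hA K E n x).2.2.1 _ _ _ _ (rp_pow hA hβ1 (q₁ * i)) hb
  have hfin2 := hF K E n x hxai hfin e₁ _ (q₁ * i) (MvPolynomial.aeval x β * Tu K u g) S _ hne hβT
    hSi (by rw [mul_pow, mul_assoc]) hs
  have harith : (e₁ * q₁ + (c * P₁ + c' * j₁) +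
      q₁ * (Module.finrank (IntermediateField.adjoin K (Set.range x)) E * e₁)) * i =
      e₁ * (q₁ * i) + (c * (P₁ * i) + c' * (j₁ * i)) +
      q₁ * i * (Module.finrank (IntermediateField.adjoin K (Set.range x)) E * e₁) := by ring
  rw [harith]
  exact hfin2

namespace HtPM

/-- The total degree of a finite sum. -/
lemma totalDegree_sum_le' {K : Type} [Field K] {m : ℕ} {ι : Type} (s : Finset ι) (f : ι → Pl m K) (n : ℕ)
    (h : ∀ i ∈ s, (f i).totalDegree ≤ n) : (∑ i ∈ s, f i).totalDegree ≤ n := by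
  classical
  induction s using Finset.induction_on with
  | empty => simp
  | insert a s ha ih =>
    rw [Finset.sum_insert ha]
    refine (MvPolynomial.totalDegree_add _ _).trans (max_le ?_ ?_)
    · exact h a (Finset.mem_insert_self _ _)
    · exact ih fun i hi => h i (Finset.mem_insert_of_mem hi)

/-- Homogeneous with coefficients of bounded degree. -/
def Bd {K : Type} [Field K] {m : ℕ} (G : MvPolynomial (Fin m) (Pl m K)) (q P : ℕ) : Prop :=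
  G.IsHomogeneous q ∧ ∀ α, (G.coeff α).totalDegree ≤ P

lemma Bd.mul {K : Type} [Field K] {m : ℕ} {G H : MvPolynomial (Fin m) (Pl m K)} {q P q' P' : ℕ}
    (h : Bd G q P) (h' : Bd H q' P') : Bd (G * H) (q + q') (P + P') := by
  classical
  refine ⟨h.1.mul h'.1, fun α => ?_⟩
  rw [MvPolynomial.coeff_mul]
  refine totalDegree_sum_le' _ _ _ fun x _ => ?_
  exact (MvPolynomial.totalDegree_mul _ _).trans (add_le_add (h.2 _) (h'.2 _))

lemma Bd.prod {K : Type} [Field K] {m : ℕ} {ι : Type} (s : Finset ι) (G : ι → MvPolynomial (Fin m) (Pl m K))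
    (q P : ℕ) (h : ∀ u ∈ s, Bd (G u) q P) : Bd (∏ u ∈ s, G u) (s.card * q) (s.card * P) := by
  classical
  induction s using Finset.induction_on with
  | empty =>
    refine ⟨by simpa using MvPolynomial.isHomogeneous_one _ _, fun α => ?_⟩
    rw [Finset.prod_empty, MvPolynomial.coeff_one]
    split_ifs <;> simp
  | insert a s ha ih =>
    rw [Finset.prod_insert ha, Finset.card_insert_of_notMem ha, Nat.succ_mul, Nat.succ_mul,
      add_comm (s.card * q), add_comm (s.card * P)]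
    exact (h a (Finset.mem_insert_self _ _)).mul
      (ih fun i hi => h i (Finset.mem_insert_of_mem hi))

lemma Bd.C {K : Type} [Field K] {m : ℕ} (S : Pl m K) (P : ℕ) (h : S.totalDegree ≤ P) :
    Bd (MvPolynomial.C S : MvPolynomial (Fin m) (Pl m K)) 0 P := by
  classical
  refine ⟨MvPolynomial.isHomogeneous_C _ _, fun α => ?_⟩
  rw [MvPolynomial.coeff_C]
  split_ifs
  · exact h
  · simp

end HtPM

theorem yHtP : StmtRpM → StmtRpSn → StmtHVa → StmtHVb → StmtHLu → StmtHUpB → StmtHtP := by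
  intro hM hS hVA hVB hLow hUp K E _ _ _ _ n ξ hn0 hξ g z' Z₀ P₁ j₁ q₁ hZ₀ hint hg hP₁ hj₁ hq₁ hbad
  classical
  obtain ⟨b, c₁, hb, hbM⟩ := hM K E n ξ hξ
  obtain ⟨C₀, hC₀⟩ := hS K E n ξ hξ g z' Z₀ P₁ j₁ q₁ hint hg
  obtain ⟨C₁, hC₁⟩ : ∃ C₁ : ℕ, C₁ = C₀ + c₁ + 1 := ⟨_, rfl⟩
  obtain ⟨N, hn⟩ : ∃ N : ℕ, N = n * C₁ := ⟨_, rfl⟩
  have hn1 : 1 ≤ N := by
    rw [hn]
    exact Nat.mul_pos hn0 (by omega)
  obtain ⟨s, hs, hscard⟩ : ∃ s : Finset K,
      (∀ u ∈ s, ∃ i₀ : ℕ, ∀ i, i₀ ≤ i →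
        SctP K ξ (Tu K u g) z' Z₀ (P₁ * i) (j₁ * i) (q₁ * i)) ∧ s.card = N + n := by
    have hinf : {u : K | ∃ i₀ : ℕ, ∀ i, i₀ ≤ i →
        SctP K ξ (Tu K u g) z' Z₀ (P₁ * i) (j₁ * i) (q₁ * i)}.Infinite := by
      have hinfK : Infinite K := CharZero.infinite K
      have h1 := hbad.infinite_compl
      refine h1.mono ?_
      intro u hu
      by_contra h2
      exact hu h2
    obtain ⟨s, hsub, hcard⟩ := hinf.exists_subset_card_eq (N + n)
    exact ⟨s, fun u hu => hsub hu, hcard⟩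
  choose! i₀ hi₀ using hs
  obtain ⟨i, hi1, hi2⟩ : ∃ i : ℕ, 1 ≤ i ∧ ∀ u ∈ s, i₀ u ≤ i :=
    ⟨max 1 (s.sup i₀), le_max_left _ _, fun u hu => le_max_of_le_right (Finset.le_sup hu)⟩
  have hG := fun (u : K) (hu : u ∈ s) => hi₀ u hu i (hi2 u hu)
  unfold SctP at hG
  choose! G S hGhom hGdeg hSne hSint hrel using hG
  obtain ⟨x, hx⟩ : ∃ x : Fin n → E, x = fun i => ξ i.succ := ⟨_, rfl⟩
  obtain ⟨z₀, hz₀⟩ : ∃ z₀ : E, z₀ = MvPolynomial.aeval ξ (MvPolynomial.rename Fin.succ Z₀) := ⟨_, rfl⟩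
  have hz₀' : MvPolynomial.aeval (fun i : Fin n => ξ i.succ) Z₀ = z₀ := by
    rw [hz₀, MvPolynomial.aeval_rename]
    rfl
  have hz₀ne : z₀ ≠ 0 := by
    rw [← hz₀']
    intro h0
    exact hZ₀ (hξ.ai.eq_zero_of_aeval_eq_zero _ h0)
  obtain ⟨j, hj⟩ : ∃ j : ℕ, j = j₁ * i := ⟨_, rfl⟩
  obtain ⟨P, hP⟩ : ∃ P : ℕ, P = P₁ * i := ⟨_, rfl⟩
  obtain ⟨q, hq⟩ : ∃ q : ℕ, q = q₁ * i := ⟨_, rfl⟩
  have hMex : ∀ u ∈ s, ∃ M : Pl (n + 1) K, M.totalDegree ≤ C₁ * i ∧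
      MvPolynomial.aeval ξ b * S u = MvPolynomial.aeval ξ M := by
    intro u hu
    obtain ⟨M, hMd, hMe⟩ := hbM (C₀ * i) (S u)
      (hC₀ u i (G u) (S u) (hGhom u hu) (hGdeg u hu) (hSint u hu) (hrel u hu))
    refine ⟨M, hMd.trans ?_, hMe⟩
    rw [hC₁]
    nlinarith [Nat.le_mul_of_pos_right c₁ hi1]
  choose! M hMd hMe using hMex
  have hBd : ∀ u ∈ s, HtPM.Bd (G u) j P := fun u hu => by
    subst hj hP
    exact ⟨hGhom u hu, hGdeg u hu⟩
  have hMne : ∀ u ∈ s, MvPolynomial.aeval ξ (M u) ≠ 0 := fun u hu => by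
    rw [← hMe u hu]
    exact mul_ne_zero hb (hSne u hu)
  obtain ⟨H, hH⟩ : ∃ H : Finset K → MvPolynomial (Fin (n + 1)) (Pl (n + 1) K), H = fun t =>
    (∏ u ∈ t, G u) * ∏ u ∈ s \ t, MvPolynomial.C (M u) := ⟨_, rfl⟩
  obtain ⟨P', hP'⟩ : ∃ P' : ℕ, P' = N * P + n * (C₁ * i) := ⟨_, rfl⟩
  have hHBd : ∀ t ∈ Finset.powersetCard N s, HtPM.Bd (H t) (N * j) P' := by
    intro t ht
    rw [Finset.mem_powersetCard] at ht
    have h1 := HtPM.Bd.prod t G j P fun u hu => hBd u (ht.1 hu)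
    have h2 := HtPM.Bd.prod (s \ t) (fun u => MvPolynomial.C (M u)) 0 (C₁ * i)
      fun u hu => HtPM.Bd.C _ _ (hMd u (Finset.mem_sdiff.1 hu).1)
    have hc : (s \ t).card = n := by
      rw [Finset.card_sdiff_of_subset ht.1, hscard, ht.2]
      omega
    have h3 := h1.mul h2
    rw [ht.2, hc] at h3
    rw [hP', hH]
    simpa using h3
  -- the identity in `E`
  obtain ⟨ev, hev⟩ : ∃ ev : MvPolynomial (Fin (n + 1)) (Pl (n + 1) K) →+* E, ev =
      MvPolynomial.eval₂Hom ((MvPolynomial.aeval ξ : Pl (n + 1) K →ₐ[K] E) : Pl (n + 1) K →+* E)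
        (Fin.cons 1 z' : Fin (n + 1) → E) := ⟨_, rfl⟩
  have hrel' : ∀ u ∈ s, z₀ ^ j * ev (G u) = Tu K u g ^ q * S u := by
    intro u hu
    have h1 := hrel u hu
    rw [hz₀', ← hj, ← hq] at h1
    rw [hev]
    exact h1
  have hHval : ∀ t ∈ Finset.powersetCard N s,
      z₀ ^ (N * j) * MvPolynomial.aeval ξ b ^ N * ev (H t) =
      (∏ u ∈ t, Tu K u g) ^ q * ∏ u ∈ s, MvPolynomial.aeval ξ (M u) := by
    intro t ht
    rw [Finset.mem_powersetCard] at ht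
    have e1 : ev (H t) = (∏ u ∈ t, ev (G u)) * ∏ u ∈ s \ t, MvPolynomial.aeval ξ (M u) := by
      rw [hH]
      simp only [map_mul, map_prod]
      congr 1
      refine Finset.prod_congr rfl fun u _ => ?_
      rw [hev]
      simp
    have e2 : z₀ ^ (N * j) * MvPolynomial.aeval ξ b ^ N * ∏ u ∈ t, ev (G u) =
        ∏ u ∈ t, (Tu K u g ^ q * MvPolynomial.aeval ξ (M u)) := by
      have h1 : z₀ ^ (N * j) = ∏ _u ∈ t, z₀ ^ j := by
        rw [Finset.prod_const, ht.2, ← pow_mul, mul_comm N j]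
      have h2 : MvPolynomial.aeval ξ b ^ N = ∏ _u ∈ t, MvPolynomial.aeval ξ b := by
        rw [Finset.prod_const, ht.2]
      rw [h1, h2, ← Finset.prod_mul_distrib, ← Finset.prod_mul_distrib]
      refine Finset.prod_congr rfl fun u hu => ?_
      rw [← hMe u (ht.1 hu)]
      linear_combination (MvPolynomial.aeval ξ b) * hrel' u (ht.1 hu)
    rw [e1, ← mul_assoc, e2, Finset.prod_mul_distrib, Finset.prod_pow, mul_assoc,
      mul_comm (∏ u ∈ t, MvPolynomial.aeval ξ (M u)), Finset.prod_sdiff ht.1]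
  obtain ⟨B, hB⟩ : ∃ B : Pl (n + 1) K, B = b * MvPolynomial.rename Fin.succ Z₀ * ∏ u ∈ s, M u := ⟨_, rfl⟩
  refine ⟨B, ?_, ?_⟩
  · rw [hB, map_mul, map_mul, map_prod, ← hz₀]
    exact mul_ne_zero (mul_ne_zero hb hz₀ne) (Finset.prod_ne_zero_iff.2 hMne)
  intro Ω _ _ h
  obtain ⟨C₃, hC₃⟩ := hLow K n s N (by omega) Ω h
  obtain ⟨C₂, hC₂⟩ := hUp K Ω h ↥(Finset.powersetCard N s) (n + 1) (n + 1) P' (N * j) (fun t => H t)
    (fun t => (hHBd t.1 t.2).1) (fun t α => (hHBd t.1 t.2).2 α)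
  refine ⟨(C₂ + (q : ℝ) * C₃) / ((N : ℝ) * i), fun pt gv zv hpt hBpt hgv hzv => ?_⟩
  rw [hB, map_mul, map_mul, map_prod] at hBpt
  obtain ⟨hV1, hV2, hV3, hV4, hV5, hV6, hV7⟩ := hVA K E Ω (n + 1) ξ pt hpt
  obtain ⟨hW1, hW2⟩ := hVB K E Ω (n + 1) ξ pt hpt
  have hbpt : MvPolynomial.aeval pt b ≠ 0 := fun h0 => hBpt (by rw [h0]; ring)
  have hZpt : MvPolynomial.aeval pt (MvPolynomial.rename Fin.succ Z₀) ≠ 0 :=
    fun h0 => hBpt (by rw [h0]; ring)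
  have hMpt : ∏ u ∈ s, MvPolynomial.aeval pt (M u) ≠ 0 := fun h0 => hBpt (by rw [h0]; ring)
  obtain ⟨w, hw⟩ : ∃ w : ↥(Finset.powersetCard N s) → Ω,
      w = fun t : ↥(Finset.powersetCard N s) =>
        ∏ u ∈ t.1, luN (algebraMap K Ω u) (hcN gv) := ⟨_, rfl⟩
  have hlow := hC₃ (hcN gv)
  rw [← hw] at hlow
  have hup := hC₂ pt (hcN zv)
  -- powers have values
  have hpow : ∀ (a : E) (v : Ω) (m : ℕ), VlX K ξ pt a v → VlX K ξ pt (a ^ m) (v ^ m) := by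
    intro a v m hav
    have h1 := (hV7 (Fin m) Finset.univ (fun _ => a) (fun _ => v) fun _ _ => hav).2
    simpa using h1
  have hcons : ∀ k : Fin (n + 1), VlX K ξ pt ((Fin.cons 1 z' : Fin (n + 1) → E) k) (hcN zv k) := by
    intro k
    refine Fin.cases ?_ (fun l => ?_) k
    · have h1 := hV1 1
      rw [map_one, map_one] at h1
      exact h1
    · exact hzv l
  obtain ⟨D, hD⟩ : ∃ D : Ω, D = MvPolynomial.aeval pt (MvPolynomial.rename Fin.succ Z₀) ^ (N * j) *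
      MvPolynomial.aeval pt b ^ N := ⟨_, rfl⟩
  have hDne : D ≠ 0 := by
    rw [hD]
    exact mul_ne_zero (pow_ne_zero _ hZpt) (pow_ne_zero _ hbpt)
  have hval : (fun t : ↥(Finset.powersetCard N s) =>
      MvPolynomial.eval₂ ((MvPolynomial.aeval pt : Pl (n + 1) K →ₐ[K] Ω) : Pl (n + 1) K →+* Ω) (hcN zv)
        (H t.1)) = (D⁻¹ * ∏ u ∈ s, MvPolynomial.aeval pt (M u)) • fun t => w t ^ q := by
    funext t
    have hL : VlX K ξ pt (z₀ ^ (N * j) * MvPolynomial.aeval ξ b ^ N * ev (H t.1))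
        (D * MvPolynomial.eval₂ ((MvPolynomial.aeval pt : Pl (n + 1) K →ₐ[K] Ω) : Pl (n + 1) K →+* Ω)
          (hcN zv) (H t.1)) := by
      rw [hD, hz₀, hev]
      refine hV3 _ _ _ _ (hV3 _ _ _ _ (hpow _ _ _ (hV1 _)) (hpow _ _ _ (hV1 _))) ?_
      exact hW1 (n + 1) _ _ hcons (H t.1)
    have hR : VlX K ξ pt ((∏ u ∈ t.1, Tu K u g) ^ q * ∏ u ∈ s, MvPolynomial.aeval ξ (M u))
        ((w t) ^ q * ∏ u ∈ s, MvPolynomial.aeval pt (M u)) := by
      refine hV3 _ _ _ _ (hpow _ _ _ ?_) ?_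
      · rw [hw]
        exact (hV7 K t.1 _ _ fun u _ => hW2 n g gv hgv u).2
      · exact (hV7 K s _ _ fun u _ => hV1 (M u)).2
    rw [hHval t.1 t.2] at hL
    have h1 := hV5 _ _ _ hL hR
    rw [Pi.smul_apply, smul_eq_mul]
    have h2 : MvPolynomial.eval₂ ((MvPolynomial.aeval pt : Pl (n + 1) K →ₐ[K] Ω) : Pl (n + 1) K →+* Ω)
        (hcN zv) (H t.1) = D⁻¹ * (D * MvPolynomial.eval₂
          ((MvPolynomial.aeval pt : Pl (n + 1) K →ₐ[K] Ω) : Pl (n + 1) K →+* Ω) (hcN zv) (H t.1)) := by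
      rw [← mul_assoc, inv_mul_cancel₀ hDne, one_mul]
    rw [h2, h1]
    ring
  rw [hval, h.smul _ _ (mul_ne_zero (inv_ne_zero hDne) hMpt), h.pow] at hup
  have hhx := h.nonneg (hcN pt)
  have hnpos : (0 : ℝ) < (N : ℝ) * i := by
    have : 0 < N * i := Nat.mul_pos (by omega) hi1
    exact_mod_cast this
  have key : (q : ℝ) * (N * h.H (hcN gv)) ≤ (q : ℝ) * (h.H w + C₃) :=
    mul_le_mul_of_nonneg_left hlow (Nat.cast_nonneg _)
  have hP2 : (P' : ℝ) ≤ (N * i) * (2 * P₁) := by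
    have h1 : P' ≤ N * i * (2 * P₁) := by
      have h2 : P' = N * i * P₁ + N * i := by
        rw [hP', hP, ← mul_assoc n, ← hn]
        ring
      have h3 : N * i ≤ N * i * P₁ := Nat.le_mul_of_pos_right _ hP₁
      rw [h2]
      nlinarith [h3]
    exact_mod_cast h1
  have h4 : (P' : ℝ) * h.H (hcN pt) ≤ (N * i : ℝ) * (2 * P₁) * h.H (hcN pt) :=
    mul_le_mul_of_nonneg_right hP2 hhx
  have hjR : ((N * j : ℕ) : ℝ) = N * (j₁ * i) := by
    rw [hj]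
    push_cast
    ring
  have hqR : (q : ℝ) = q₁ * i := by
    rw [hq]
    push_cast
    ring
  have hfin : (N * i : ℝ) * (q₁ * h.H (hcN gv)) ≤
      (N * i : ℝ) * (2 * P₁ * h.H (hcN pt) + j₁ * h.H (hcN zv) +
        (C₂ + q * C₃) / (N * i)) := by
    have h5 : (N * i : ℝ) * ((C₂ + q * C₃) / (N * i)) = C₂ + q * C₃ :=
      mul_div_cancel₀ _ hnpos.ne'
    rw [mul_add, h5]
    rw [hjR] at hup
    have h6 : (N * i : ℝ) * (q₁ * h.H (hcN gv)) = (q : ℝ) * (N * h.H (hcN gv)) := by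
      rw [hqR]
      ring
    have h7 : (q : ℝ) * (h.H w + C₃) = q * h.H w + q * C₃ := by ring
    have h8 : (N * i : ℝ) * (2 * P₁ * h.H (hcN pt) + j₁ * h.H (hcN zv)) =
        (N * i : ℝ) * (2 * P₁) * h.H (hcN pt) +
          N * (j₁ * i) * h.H (hcN zv) := by ring
    rw [h6, h8]
    linarith [key, hup, h4, h7]
  exact le_of_mul_le_mul_left hfin hnpos

/-- The height inequality in dimension `n`. -/
theorem tHtP : StmtHtP :=
  yHtP (yRpM (yRpD yRpA (yRpC yRpA yRpB)) yStpF) (tRpSn yIntA yRpA aRpE aRpF yStpF) yHVa aHVb yHLu aHUpB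

end Pool.Agent.Lib.MP_16285c_agX
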