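import Pool.Agent.Lib.MP_16285c_agP.SpecA
import Pool.Agent.Lib.MP_16285c_agX.T3.CfA
import Pool.Agent.Lib.MP_16285c_agN.Degr.NN

/-!
# (HypP) The degree of a hypersurface (helper85)
-/

set_option autoImplicit false

namespace Pool.Agent.Lib.MP_16285c_agX

open Pool.Agent.Lib.MP_16285c_ag Pool.Agent.Lib.MP_16285c_agN

namespace PHypPM

open scoped IntermediateField.algebraAdjoinAdjoin

open T3XDgGeM (ln ln_X ln_Tq top_ne)
open T3CfAM (alg_of_adjoin alg_mono tow dvd_gen)

section Gen

variable {κ E : Type} [Field κ] [Field E] [Algebra κ E]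

theorem ind_of_alg (a : ℕ) (h3 : Algebra.trdeg κ E = a) (v : Fin a → E)
    (h : Algebra.IsAlgebraic (IntermediateField.adjoin κ (Set.range v)) E) :
    AlgebraicIndependent κ v := by
  have h2 := alg_of_adjoin _ h
  refine (Algebra.IsAlgebraic.isTranscendenceBasis_of_le_trdeg_of_finite κ v ?_).1
  rw [h3]
  simp

/-- Independent vectors can be completed by a vector of a basis. -/
theorem complete {K V : Type} [Field K] [AddCommGroup V] [Module K V] {a : ℕ}
    (x : Fin (a + 1) → V) (hg : LinearIndependent K x) (l : Fin a → V)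
    (hl : LinearIndependent K l) (hV : ∀ i, l i ∈ Submodule.span K (Set.range x)) :
    ∃ j₀ : Fin (a + 1), ∀ j, ∃ m ∈ Submodule.span K (Set.range l), ∃ b : K,
      x j = m + b • x j₀ := by
  set V' := Submodule.span K (Set.range x) with hVd
  set S := Submodule.span K (Set.range l) with hS
  have hVf : Module.finrank K V' = a + 1 := by
    rw [hVd, finrank_span_eq_card hg, Fintype.card_fin]
  have hSf : Module.finrank K S = a := by
    rw [hS, finrank_span_eq_card hl, Fintype.card_fin]
  have hfin : Module.Finite K V' := Module.finite_of_finrank_pos (by rw [hVf]; omega)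
  have hSV : S ≤ V' := Submodule.span_le.2 (by rintro _ ⟨i, rfl⟩; exact hV i)
  obtain ⟨j₀, hj₀⟩ : ∃ j₀, x j₀ ∉ S := by
    by_contra hcon
    push Not at hcon
    have h1 : V' ≤ S := Submodule.span_le.2 (by rintro _ ⟨i, rfl⟩; exact hcon i)
    have h2 : S = V' := le_antisymm hSV h1
    rw [h2, hVf] at hSf
    omega
  refine ⟨j₀, ?_⟩
  have h1 : S ⊔ Submodule.span K {x j₀} ≤ V' := by
    refine sup_le hSV (Submodule.span_le.2 ?_)
    rintro _ rfl
    exact Submodule.subset_span ⟨j₀, rfl⟩
  have hfin2 : Module.Finite K ↥(S ⊔ Submodule.span K {x j₀}) :=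
    Submodule.finiteDimensional_of_le h1
  have h2 : S < S ⊔ Submodule.span K {x j₀} := by
    refine lt_of_le_of_ne le_sup_left fun h0 => hj₀ ?_
    rw [h0]
    exact Submodule.mem_sup_right (Submodule.mem_span_singleton_self _)
  have h3 := Submodule.finrank_lt_finrank_of_lt h2
  have h4 : S ⊔ Submodule.span K {x j₀} = V' :=
    Submodule.eq_of_le_of_finrank_le h1 (by omega)
  intro j
  have h5 : x j ∈ S ⊔ Submodule.span K {x j₀} := by
    rw [h4]
    exact Submodule.subset_span ⟨j, rfl⟩
  obtain ⟨m, ha, z, hz, h6⟩ := Submodule.mem_sup.1 h5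
  obtain ⟨b, rfl⟩ := Submodule.mem_span_singleton.1 hz
  exact ⟨m, ha, b, h6.symm⟩

theorem ln_C {a n : ℕ} (α : Fin n → MvPolynomial (Fin a) κ) (b : Fin n → κ) (c : κ) :
    ln α b (MvPolynomial.C c) = Polynomial.C (MvPolynomial.C c) := by
  have h := (ln α b).commutes c
  exact h

/-- Evaluation of a polynomial in the new coordinates. -/
theorem ev_ln {a n : ℕ} (α : Fin n → MvPolynomial (Fin a) κ) (b : Fin n → κ) (l : Fin a → E)
    (t : E) (u : Fin n → E) (h : ∀ j, u j = MvPolynomial.aeval l (α j) + algebraMap κ E (b j) * t)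
    (P : MvPolynomial (Fin n) κ) :
    Polynomial.eval₂ ((MvPolynomial.aeval l : MvPolynomial (Fin a) κ →ₐ[κ] E) :
      MvPolynomial (Fin a) κ →+* E) t (ln α b P) = MvPolynomial.aeval u P := by
  induction P using MvPolynomial.induction_on with
  | C c =>
    rw [ln_C, Polynomial.eval₂_C, MvPolynomial.aeval_C]
    show MvPolynomial.aeval l (MvPolynomial.C c) = _
    rw [MvPolynomial.aeval_C]
  | add p q hp hq => rw [map_add, Polynomial.eval₂_add, hp, hq, map_add]
  | mul_X p i hp =>
    rw [map_mul, Polynomial.eval₂_mul, hp, map_mul, MvPolynomial.aeval_X, h i]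
    congr 1
    rw [ln_X, Polynomial.eval₂_add, Polynomial.eval₂_mul, Polynomial.eval₂_C, Polynomial.eval₂_C,
      Polynomial.eval₂_X]
    congr 2
    show MvPolynomial.aeval l (MvPolynomial.C (b i)) = _
    rw [MvPolynomial.aeval_C]

/-- The value in a subfield. -/
theorem ev_sub {a : ℕ} (L0 : IntermediateField κ E) (l : Fin a → E) (hl : ∀ i, l i ∈ L0) (t : E)
    (Q : Polynomial (MvPolynomial (Fin a) κ)) :
    Polynomial.aeval t (Q.map ((MvPolynomial.aeval fun i => (⟨l i, hl i⟩ : L0) :
      MvPolynomial (Fin a) κ →ₐ[κ] L0) : MvPolynomial (Fin a) κ →+* L0)) =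
    Polynomial.eval₂ ((MvPolynomial.aeval l : MvPolynomial (Fin a) κ →ₐ[κ] E) :
      MvPolynomial (Fin a) κ →+* E) t Q := by
  rw [Polynomial.aeval_def, Polynomial.eval₂_map]
  congr 1
  have h : (L0.val).comp (MvPolynomial.aeval fun i => (⟨l i, hl i⟩ : L0)) =
      MvPolynomial.aeval l := by
    rw [MvPolynomial.comp_aeval]
    rfl
  rw [← h]
  rfl

/-- The inverse substitution. -/
noncomputable def ch {a n : ℕ} (Y : Fin a → MvPolynomial (Fin n) κ) (Z : MvPolynomial (Fin n) κ) :
    Polynomial (MvPolynomial (Fin a) κ) →+* MvPolynomial (Fin n) κ :=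
  Polynomial.eval₂RingHom ((MvPolynomial.aeval Y : MvPolynomial (Fin a) κ →ₐ[κ]
    MvPolynomial (Fin n) κ) : MvPolynomial (Fin a) κ →+* MvPolynomial (Fin n) κ) Z

theorem ch_C {a n : ℕ} (Y : Fin a → MvPolynomial (Fin n) κ) (Z : MvPolynomial (Fin n) κ)
    (p : MvPolynomial (Fin a) κ) : ch Y Z (Polynomial.C p) = MvPolynomial.aeval Y p := by
  rw [ch, Polynomial.coe_eval₂RingHom, Polynomial.eval₂_C]
  rfl

theorem ch_X {a n : ℕ} (Y : Fin a → MvPolynomial (Fin n) κ) (Z : MvPolynomial (Fin n) κ) :
    ch Y Z Polynomial.X = Z := by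
  rw [ch, Polynomial.coe_eval₂RingHom, Polynomial.eval₂_X]

theorem ch_ln {a n : ℕ} (α : Fin n → MvPolynomial (Fin a) κ) (b : Fin n → κ)
    (Y : Fin a → MvPolynomial (Fin n) κ) (Z : MvPolynomial (Fin n) κ)
    (h : ∀ j, MvPolynomial.aeval Y (α j) + MvPolynomial.C (b j) * Z = MvPolynomial.X j)
    (P : MvPolynomial (Fin n) κ) : ch Y Z (ln α b P) = P := by
  induction P using MvPolynomial.induction_on with
  | C c => rw [ln_C, ch_C, MvPolynomial.aeval_C]; rfl
  | add p q hp hq => rw [map_add, map_add, hp, hq]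
  | mul_X p i hp =>
    rw [map_mul, map_mul, hp, ln_X, map_add, map_mul, ch_C, ch_C, ch_X]
    have e : MvPolynomial.aeval Y (algebraMap κ (MvPolynomial (Fin a) κ) (b i)) =
        MvPolynomial.C (b i) := by
      rw [AlgHom.commutes]
      rfl
    rw [e, h i]

end Gen

section Two

variable {K κ E : Type} [Field K] [Field κ] [Field E] [Algebra K κ] [Algebra K E] [Algebra κ E]
  [IsScalarTower K κ E]

theorem lc_eq {a n : ℕ} (A : Fin a → Fin n → K) (u : Fin n → E) (i : Fin a) :
    lc A u i = Fintype.linearCombination K u (A i) := by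
  rw [Fintype.linearCombination_apply, lc]
  exact Finset.sum_congr rfl fun j _ => (Algebra.smul_def _ _).symm

/-- The upper bound. -/
theorem part1 (a : ℕ) (u : Fin (a + 1) → E) (F : MvPolynomial (Fin (a + 1)) κ) (hF : F ≠ 0)
    (hFu : MvPolynomial.aeval u F = 0) (htr : Algebra.trdeg κ E = a)
    (A : Fin a → Fin (a + 1) → K) :
    Module.finrank (IntermediateField.adjoin κ (Set.range (lc A u))) E ≤
      F.totalDegree * Module.finrank (IntermediateField.adjoin κ (Set.range u)) E := by
  set L0 := IntermediateField.adjoin κ (Set.range (lc A u)) with hL0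
  set M := IntermediateField.adjoin κ (Set.range u) with hMd
  by_cases h0 : Module.finrank L0 E = 0
  · rw [h0]
    exact Nat.zero_le _
  have hfin : Module.Finite L0 E := Module.finite_of_finrank_pos (Nat.pos_of_ne_zero h0)
  have halg : Algebra.IsAlgebraic L0 E := inferInstance
  have hli : AlgebraicIndependent κ (lc A u) := ind_of_alg a htr _ halg
  -- the rows are independent
  have hrow : LinearIndependent K A := by
    rw [Fintype.linearIndependent_iff]
    intro g hg i
    have h1 := congrArg (Fintype.linearCombination K u) hg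
    rw [map_sum, map_zero] at h1
    have h2 : ∑ i, algebraMap K κ (g i) • lc A u i = 0 := by
      rw [← h1]
      refine Finset.sum_congr rfl fun i _ => ?_
      rw [map_smul, ← lc_eq, algebraMap_smul]
    have h3 := (Fintype.linearIndependent_iff.1 hli.linearIndependent) _ h2 i
    exact (map_eq_zero _).1 h3
  obtain ⟨j₀, hj₀⟩ := complete (fun j : Fin (a + 1) => (Pi.single j (1 : K) : Fin (a + 1) → K))
    (by
      have h1 := (Pi.basisFun K (Fin (a + 1))).linearIndependent
      have h2 : (⇑(Pi.basisFun K (Fin (a + 1))) : Fin (a + 1) → Fin (a + 1) → K) =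
          fun j => Pi.single j (1 : K) := funext fun j => Pi.basisFun_apply K (Fin (a + 1)) j
      rwa [h2] at h1) A hrow (fun i => by
      have h1 := (Pi.basisFun K (Fin (a + 1))).span_eq
      have h2 : (⇑(Pi.basisFun K (Fin (a + 1))) : Fin (a + 1) → Fin (a + 1) → K) =
          fun j => Pi.single j (1 : K) := funext fun j => Pi.basisFun_apply K (Fin (a + 1)) j
      rw [h2] at h1
      rw [h1]
      exact Submodule.mem_top)
  have hcb : ∀ j, ∃ (c : Fin a → K) (b : K), (Pi.single j (1 : K) : Fin (a + 1) → K) =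
      ∑ i, c i • A i + b • (Pi.single j₀ (1 : K) : Fin (a + 1) → K) := by
    intro j
    obtain ⟨m, hm, b, hb⟩ := hj₀ j
    obtain ⟨c, hc⟩ := (Submodule.mem_span_range_iff_exists_fun K).1 hm
    exact ⟨c, b, by rw [hb, hc]⟩
  choose c b hcb using hcb
  -- the same for the elements
  have hu : ∀ j, u j = ∑ i, algebraMap κ E (algebraMap K κ (c j i)) * lc A u i +
      algebraMap κ E (algebraMap K κ (b j)) * u j₀ := by
    intro j
    have h1 := congrArg (Fintype.linearCombination K u) (hcb j)
    rw [map_add, map_sum, map_smul, Fintype.linearCombination_apply_single,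
      Fintype.linearCombination_apply_single, one_smul, one_smul] at h1
    rw [h1]
    congr 1
    · refine Finset.sum_congr rfl fun i _ => ?_
      rw [map_smul, ← lc_eq, Algebra.smul_def, IsScalarTower.algebraMap_apply K κ E]
    · rw [Algebra.smul_def, IsScalarTower.algebraMap_apply K κ E]
  have hX : ∀ j, (MvPolynomial.X j : MvPolynomial (Fin (a + 1)) κ) =
      ∑ i, MvPolynomial.C (algebraMap K κ (c j i)) *
        Fintype.linearCombination K (MvPolynomial.X : Fin (a + 1) → MvPolynomial (Fin (a + 1)) κ)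
          (A i) + MvPolynomial.C (algebraMap K κ (b j)) * MvPolynomial.X j₀ := by
    intro j
    have h1 := congrArg (Fintype.linearCombination K
      (MvPolynomial.X : Fin (a + 1) → MvPolynomial (Fin (a + 1)) κ)) (hcb j)
    rw [map_add, map_sum, map_smul, Fintype.linearCombination_apply_single,
      Fintype.linearCombination_apply_single, one_smul, one_smul] at h1
    rw [h1]
    congr 1
    · refine Finset.sum_congr rfl fun i _ => ?_
      rw [map_smul, Algebra.smul_def]
      rfl
    · rw [Algebra.smul_def]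
      rfl
  set Y : Fin a → MvPolynomial (Fin (a + 1)) κ := fun i => Fintype.linearCombination K
    (MvPolynomial.X : Fin (a + 1) → MvPolynomial (Fin (a + 1)) κ) (A i) with hY
  set α : Fin (a + 1) → MvPolynomial (Fin a) κ := fun j =>
    ∑ i, MvPolynomial.C (algebraMap K κ (c j i)) * MvPolynomial.X i with hα
  set β : Fin (a + 1) → κ := fun j => algebraMap K κ (b j) with hβ
  have hinj : ∀ P, ch Y (MvPolynomial.X j₀) (ln α β P) = P := ch_ln α β Y _ fun j => by
    rw [hX j]
    congr 1
    rw [hα]
    simp only [map_sum, map_mul, MvPolynomial.aeval_X, MvPolynomial.aeval_C]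
    rfl
  have hΦ0 : ln α β F ≠ 0 := by
    intro h
    have h1 := hinj F
    rw [h, map_zero] at h1
    exact hF h1.symm
  have hΦd : (ln α β F).natDegree ≤ F.totalDegree := (ln_Tq α β F F.totalDegree le_rfl).1
  have hmem : ∀ i, lc A u i ∈ L0 := fun i => IntermediateField.subset_adjoin κ _ ⟨i, rfl⟩
  set Q := (ln α β F).map ((MvPolynomial.aeval fun i => (⟨lc A u i, hmem i⟩ : L0) :
      MvPolynomial (Fin a) κ →ₐ[κ] L0) : MvPolynomial (Fin a) κ →+* L0) with hQ
  have hinj2 : Function.Injective ((MvPolynomial.aeval fun i => (⟨lc A u i, hmem i⟩ : L0) :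
      MvPolynomial (Fin a) κ →ₐ[κ] L0) : MvPolynomial (Fin a) κ →+* L0) := by
    intro p q hpq
    apply hli
    have h1 : (L0.val).comp (MvPolynomial.aeval fun i => (⟨lc A u i, hmem i⟩ : L0)) =
        MvPolynomial.aeval (lc A u) := by
      rw [MvPolynomial.comp_aeval]
      rfl
    rw [← h1]
    exact congrArg (fun z : L0 => (z : E)) hpq
  have hQ0 : Q ≠ 0 := (Polynomial.map_ne_zero_iff hinj2).2 hΦ0
  have hQd : Q.natDegree ≤ F.totalDegree := Polynomial.natDegree_map_le.trans hΦd
  have hQe : Polynomial.aeval (u j₀) Q = 0 := by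
    rw [hQ, ev_sub, ev_ln α β (lc A u) (u j₀) u _ F]
    · exact hFu
    · intro j
      rw [hα]
      simp only [map_sum, map_mul, MvPolynomial.aeval_X, MvPolynomial.aeval_C]
      exact hu j
  have huM : ∀ j, u j ∈ M := fun j => IntermediateField.subset_adjoin κ _ ⟨j, rfl⟩
  have hle2 : L0 ≤ M := by
    rw [hL0, IntermediateField.adjoin_le_iff]
    rintro _ ⟨i, rfl⟩
    unfold lc
    refine sum_mem fun j _ => mul_mem ?_ (huM j)
    rw [IsScalarTower.algebraMap_apply K κ E]
    exact M.algebraMap_mem _
  have hM2 : M ≤ (IntermediateField.adjoin L0 {u j₀}).restrictScalars κ := by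
    rw [hMd, IntermediateField.adjoin_le_iff]
    rintro _ ⟨j, rfl⟩
    show u j ∈ IntermediateField.adjoin L0 {u j₀}
    rw [hu j]
    refine (IntermediateField.adjoin L0 {u j₀}).add_mem ?_ ?_
    · refine sum_mem fun i _ => mul_mem ?_ ?_
      · exact (IntermediateField.adjoin L0 {u j₀}).algebraMap_mem
          (algebraMap κ L0 (algebraMap K κ (c j i)))
      · exact (IntermediateField.adjoin L0 {u j₀}).algebraMap_mem ⟨lc A u i, hmem i⟩
    · refine mul_mem ?_ (IntermediateField.mem_adjoin_simple_self _ _)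
      exact (IntermediateField.adjoin L0 {u j₀}).algebraMap_mem
        (algebraMap κ L0 (algebraMap K κ (b j)))
  have hint : IsIntegral L0 (u j₀) := Algebra.IsIntegral.isIntegral _
  rw [tow L0 M hle2 (u j₀) (huM j₀) hM2 hint]
  refine Nat.mul_le_mul_right _ ?_
  exact (Polynomial.natDegree_le_natDegree (minpoly.degree_le_of_ne_zero _ _ hQ0 hQe)).trans hQd

/-- The origin of the line. -/
noncomputable def og {a : ℕ} {S : Type} [Zero S] (r : Fin (a + 1)) (l : Fin a → S)
    (i : Fin (a + 1)) : S :=
  Fin.insertNth (α := fun _ => S) r 0 l i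

theorem og_same {a : ℕ} {S : Type} [Zero S] (r : Fin (a + 1)) (l : Fin a → S) : og r l r = 0 :=
  Fin.insertNth_apply_same (α := fun _ => S) r 0 l

theorem og_succAbove {a : ℕ} {S : Type} [Zero S] (r : Fin (a + 1)) (l : Fin a → S) (i : Fin a) :
    og r l (r.succAbove i) = l i :=
  Fin.insertNth_apply_succAbove (α := fun _ => S) r 0 l i

theorem exists_dir' [Infinite K] {a : ℕ} (D : ℕ) (hD : 1 ≤ D) (F : MvPolynomial (Fin (a + 1)) κ)
    (hF : MvPolynomial.homogeneousComponent D F ≠ 0) :
    ∃ v : Fin (a + 1) → K, MvPolynomial.eval (fun i => algebraMap K κ (v i))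
      (MvPolynomial.homogeneousComponent D F) ≠ 0 ∧ ∃ r, v r ≠ 0 := by
  obtain ⟨v, hv⟩ := DegrNNM.exists_dir (K := K) _ hF
  refine ⟨v, hv, ?_⟩
  by_contra hcon
  push Not at hcon
  apply hv
  have h2 : (fun i => algebraMap K κ (v i)) = fun _ => (0 : κ) := funext fun i => by
    rw [hcon i, map_zero]
  rw [h2, MvPolynomial.eval_zero', MvPolynomial.constantCoeff_eq,
    MvPolynomial.coeff_homogeneousComponent, if_neg]
  rw [map_zero]
  omega

/-- The powers of the parameter are independent. -/
theorem indep {a : ℕ} (l : Fin a → E) (hl : AlgebraicIndependent κ l) (t : E)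
    (Φ : Polynomial (MvPolynomial (Fin a) κ)) (hΦ : Irreducible Φ) (D : ℕ) (hD : 1 ≤ D)
    (hΦD : Φ.natDegree = D)
    (hΦe : Polynomial.eval₂ ((MvPolynomial.aeval l : MvPolynomial (Fin a) κ →ₐ[κ] E) :
      MvPolynomial (Fin a) κ →+* E) t Φ = 0) :
    LinearIndependent (IntermediateField.adjoin κ (Set.range l)) fun i : Fin D =>
      t ^ (i : ℕ) := by
  rw [← LinearIndependent.iff_fractionRing (Algebra.adjoin κ (Set.range l))
    (IntermediateField.adjoin κ (Set.range l)), Fintype.linearIndependent_iff]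
  intro c hc
  have hP : ∀ i, ∃ P : MvPolynomial (Fin a) κ, MvPolynomial.aeval l P = (c i : E) := by
    intro i
    have h1 : ∀ y : E, y ∈ Algebra.adjoin κ (Set.range l) → ∃ P : MvPolynomial (Fin a) κ,
        MvPolynomial.aeval l P = y := by
      intro y hy
      rw [Algebra.adjoin_range_eq_range_aeval] at hy
      exact hy
    exact h1 _ (c i).2
  choose P hP using hP
  set G : Polynomial (MvPolynomial (Fin a) κ) := ∑ i : Fin D, Polynomial.C (P i) *
    Polynomial.X ^ (i : ℕ) with hG
  have hGe : Polynomial.eval₂ ((MvPolynomial.aeval l : MvPolynomial (Fin a) κ →ₐ[κ] E) :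
      MvPolynomial (Fin a) κ →+* E) t G = 0 := by
    rw [hG, Polynomial.eval₂_finsetSum, ← hc]
    refine Finset.sum_congr rfl fun i _ => ?_
    rw [Polynomial.eval₂_mul, Polynomial.eval₂_pow, Polynomial.eval₂_C, Polynomial.eval₂_X]
    show MvPolynomial.aeval l (P i) * _ = _
    rw [hP]
    rfl
  have hdeg : G.degree < D := by
    rw [hG]
    exact Polynomial.degree_sum_fin_lt P
  have hG0 : G = 0 := by
    by_contra hne
    have h1 : Φ ∣ G := dvd_gen _ hl t Φ G hΦ (by omega) hΦe hGe
    have h2 := Polynomial.degree_le_of_dvd h1 hne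
    have h3 : Φ.degree = (D : WithBot ℕ) := by
      rw [Polynomial.degree_eq_natDegree hΦ.ne_zero, hΦD]
    rw [h3] at h2
    exact absurd hdeg (not_lt.2 h2)
  intro i
  have hPi : P i = 0 := by
    have h1 : G.coeff i = P i := by
      rw [hG, Polynomial.finsetSum_coeff, Finset.sum_eq_single i]
      · rw [Polynomial.coeff_C_mul, Polynomial.coeff_X_pow, if_pos rfl, mul_one]
      · intro j _ hj
        rw [Polynomial.coeff_C_mul, Polynomial.coeff_X_pow, if_neg, mul_zero]
        intro h
        exact hj (Fin.ext h.symm)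
      · intro h
        exact absurd (Finset.mem_univ i) h
    rw [← h1, hG0, Polynomial.coeff_zero]
  apply Subtype.ext
  rw [← hP i, hPi, map_zero]
  rfl

/-- The lower bound. -/
theorem part2 [Infinite K] (a : ℕ) (u : Fin (a + 1) → E) (F : MvPolynomial (Fin (a + 1)) κ)
    (hF : Irreducible F) (hFu : MvPolynomial.aeval u F = 0) (htr : Algebra.trdeg κ E = a)
    (hf : Module.Finite (IntermediateField.adjoin κ (Set.range u)) E) :
    ∃ A : Fin a → Fin (a + 1) → K,
      F.totalDegree * Module.finrank (IntermediateField.adjoin κ (Set.range u)) E ≤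
        Module.finrank (IntermediateField.adjoin κ (Set.range (lc A u))) E := by
  classical
  obtain ⟨D, hDF⟩ : ∃ D, D = F.totalDegree := ⟨_, rfl⟩
  rw [← hDF]
  rcases Nat.eq_zero_or_pos D with hD | hD
  · refine ⟨fun _ _ => 0, ?_⟩
    rw [hD, zero_mul]
    exact Nat.zero_le _
  have htop := top_ne F hF.ne_zero
  rw [← hDF] at htop
  obtain ⟨v, hv0, r, hv⟩ := exists_dir' (K := K) D hD F htop
  set A : Fin a → Fin (a + 1) → K := fun i j =>
    (if j = r.succAbove i then 1 else 0) - (if j = r then v (r.succAbove i) / v r else 0) with hA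
  refine ⟨A, ?_⟩
  set β : Fin (a + 1) → κ := fun j => algebraMap K κ (v j) with hβ
  have hβr : β r ≠ 0 := (map_ne_zero _).2 hv
  set t : E := algebraMap κ E (β r)⁻¹ * u r with ht
  have hlA : ∀ i, lc A u i = u (r.succAbove i) -
      algebraMap κ E (β (r.succAbove i) * (β r)⁻¹) * u r := by
    intro i
    rw [lc, hA]
    simp only [map_sub, sub_mul, Finset.sum_sub_distrib]
    congr 1
    · rw [Finset.sum_eq_single (r.succAbove i)]
      · rw [if_pos rfl, map_one, one_mul]
      · intro j _ hj
        rw [if_neg hj, map_zero, zero_mul]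
      · intro h
        exact absurd (Finset.mem_univ _) h
    · rw [Finset.sum_eq_single r]
      · rw [if_pos rfl, IsScalarTower.algebraMap_apply K κ E, map_div₀, div_eq_mul_inv]
      · intro j _ hj
        rw [if_neg hj, map_zero, zero_mul]
      · intro h
        exact absurd (Finset.mem_univ _) h
  have hu : ∀ j, u j = og r (lc A u) j + algebraMap κ E (β j) * t := by
    intro j
    rcases Fin.eq_self_or_eq_succAbove r j with h | ⟨i, h⟩
    · rw [h, og_same, zero_add, ht, ← mul_assoc, ← map_mul, mul_inv_cancel₀ hβr, map_one, one_mul]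
    · rw [h, og_succAbove, hlA, ht, ← mul_assoc, ← map_mul, sub_add_cancel]
  -- the substitution
  set α : Fin (a + 1) → MvPolynomial (Fin a) κ := fun j =>
    og r (fun i => (MvPolynomial.X i : MvPolynomial (Fin a) κ)) j with hα
  set Y : Fin a → MvPolynomial (Fin (a + 1)) κ := fun i => MvPolynomial.X (r.succAbove i) -
    MvPolynomial.C (β (r.succAbove i) * (β r)⁻¹) * MvPolynomial.X r with hY
  set Z : MvPolynomial (Fin (a + 1)) κ := MvPolynomial.C (β r)⁻¹ * MvPolynomial.X r with hZ
  have hαr : α r = 0 := og_same r _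
  have hαs : ∀ i, α (r.succAbove i) = MvPolynomial.X i := fun i => og_succAbove r _ i
  have hone : ∀ P, ch Y Z (ln α β P) = P := ch_ln α β Y Z fun j => by
    rcases Fin.eq_self_or_eq_succAbove r j with h | ⟨i, h⟩
    · rw [h, hαr, map_zero, zero_add, hZ, ← mul_assoc, ← map_mul, mul_inv_cancel₀ hβr, map_one,
        one_mul]
    · rw [h, hαs, MvPolynomial.aeval_X, hY, hZ, ← mul_assoc, ← map_mul]
      exact sub_add_cancel _ _
  have hlnr : ln α β (MvPolynomial.X r) = Polynomial.C (MvPolynomial.C (β r)) * Polynomial.X := by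
    rw [ln_X, hαr, map_zero, zero_add]
    rfl
  have hZt : ln α β Z = Polynomial.X := by
    rw [hZ, map_mul, ln_C, hlnr, ← mul_assoc, ← map_mul, ← map_mul, inv_mul_cancel₀ hβr, map_one,
      map_one, one_mul]
  have hYt : ∀ i, ln α β (Y i) = Polynomial.C (MvPolynomial.X i) := by
    intro i
    have h1 : ln α β (MvPolynomial.X (r.succAbove i)) = Polynomial.C (MvPolynomial.X i) +
        Polynomial.C (MvPolynomial.C (β (r.succAbove i))) * Polynomial.X := by
      rw [ln_X, hαs]
      rfl
    rw [hY]
    simp only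
    rw [map_sub, map_mul, h1, ln_C, hlnr, ← mul_assoc, ← map_mul, ← map_mul, mul_assoc,
      inv_mul_cancel₀ hβr, mul_one]
    ring
  have htwo : ∀ P : Polynomial (MvPolynomial (Fin a) κ), ln α β (ch Y Z P) = P := by
    have h1 : ((ln α β : MvPolynomial (Fin (a + 1)) κ →ₐ[κ] Polynomial (MvPolynomial (Fin a) κ)) :
        MvPolynomial (Fin (a + 1)) κ →+* Polynomial (MvPolynomial (Fin a) κ)).comp (ch Y Z) =
        RingHom.id _ := by
      refine Polynomial.ringHom_ext (fun p => ?_) ?_
      · rw [RingHom.comp_apply, RingHom.id_apply, ch_C]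
        show ln α β _ = _
        induction p using MvPolynomial.induction_on with
        | C c =>
          rw [MvPolynomial.aeval_C]
          exact ln_C α β c
        | add p q hp hq => rw [map_add, map_add, hp, hq, map_add]
        | mul_X p i hp => rw [map_mul, map_mul, hp, MvPolynomial.aeval_X, hYt, map_mul]
      · rw [RingHom.comp_apply, RingHom.id_apply, ch_X]
        exact hZt
    intro P
    exact congrArg (fun f : Polynomial (MvPolynomial (Fin a) κ) →+* _ => f P) h1
  obtain ⟨Φ, hΦ⟩ : ∃ Φ, Φ = ln α β F := ⟨_, rfl⟩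
  have hΦirr : Irreducible Φ := by
    let e : MvPolynomial (Fin (a + 1)) κ ≃* Polynomial (MvPolynomial (Fin a) κ) :=
      { toFun := ln α β
        invFun := ch Y Z
        left_inv := hone
        right_inv := htwo
        map_mul' := fun p q => map_mul _ p q }
    have h1 : Φ = e F := hΦ
    rw [h1]
    exact (MulEquiv.irreducible_iff e).2 hF
  have hTq := ln_Tq α β F D (le_of_eq hDF.symm)
  rw [← hΦ] at hTq
  have hcoeff : Φ.coeff D = MvPolynomial.C (MvPolynomial.eval β
      (MvPolynomial.homogeneousComponent D F)) := hTq.2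
  have hne : Φ.coeff D ≠ 0 := by
    rw [hcoeff]
    exact (MvPolynomial.C_injective (Fin a) κ).ne_iff' (map_zero _) |>.2 hv0
  have hΦD : Φ.natDegree = D := le_antisymm hTq.1 (Polynomial.le_natDegree_of_ne_zero hne)
  set L0 := IntermediateField.adjoin κ (Set.range (lc A u)) with hL0
  set M := IntermediateField.adjoin κ (Set.range u) with hMd
  have hmem : ∀ i, lc A u i ∈ L0 := fun i => IntermediateField.subset_adjoin κ _ ⟨i, rfl⟩
  have huM : ∀ j, u j ∈ M := fun j => IntermediateField.subset_adjoin κ _ ⟨j, rfl⟩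
  have hΦe : Polynomial.eval₂ ((MvPolynomial.aeval (lc A u) : MvPolynomial (Fin a) κ →ₐ[κ] E) :
      MvPolynomial (Fin a) κ →+* E) t Φ = 0 := by
    rw [hΦ, ev_ln α β (lc A u) t u _ F]
    · exact hFu
    · intro j
      rw [hu j]
      congr 1
      rcases Fin.eq_self_or_eq_succAbove r j with h | ⟨i, h⟩
      · rw [h, hαr, og_same, map_zero]
      · rw [h, hαs, og_succAbove, MvPolynomial.aeval_X]
  -- the parameter is algebraic
  have hint : IsIntegral L0 t := by
    have halg : IsAlgebraic L0 t := by
      refine ⟨Φ.map ((MvPolynomial.aeval fun i => (⟨lc A u i, hmem i⟩ : L0) :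
        MvPolynomial (Fin a) κ →ₐ[κ] L0) : MvPolynomial (Fin a) κ →+* L0), ?_, ?_⟩
      · intro h
        have h1 := congrArg (fun p => p.coeff D) h
        simp only [Polynomial.coeff_map, Polynomial.coeff_zero] at h1
        rw [hcoeff] at h1
        have h2 : algebraMap κ L0 (MvPolynomial.eval β
            (MvPolynomial.homogeneousComponent D F)) = 0 := by
          rw [← h1]
          exact (MvPolynomial.aeval_C _ _).symm
        exact hv0 ((map_eq_zero _).1 h2)
      · rw [ev_sub]
        exact hΦe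
    exact halg.isIntegral
  have hle2 : L0 ≤ M := by
    rw [hL0, IntermediateField.adjoin_le_iff]
    rintro _ ⟨i, rfl⟩
    unfold lc
    refine sum_mem fun j _ => mul_mem ?_ (huM j)
    rw [IsScalarTower.algebraMap_apply K κ E]
    exact M.algebraMap_mem _
  have htM : t ∈ M := M.mul_mem (M.algebraMap_mem _) (huM r)
  have hM2 : M ≤ (IntermediateField.adjoin L0 {t}).restrictScalars κ := by
    rw [hMd, IntermediateField.adjoin_le_iff]
    rintro _ ⟨j, rfl⟩
    show u j ∈ IntermediateField.adjoin L0 {t}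
    rw [hu j]
    refine (IntermediateField.adjoin L0 {t}).add_mem ?_ ?_
    · have h1 : og r (lc A u) j ∈ L0 := by
        rcases Fin.eq_self_or_eq_succAbove r j with h | ⟨i, h⟩
        · rw [h, og_same]
          exact L0.zero_mem
        · rw [h, og_succAbove]
          exact hmem i
      exact (IntermediateField.adjoin L0 {t}).algebraMap_mem ⟨_, h1⟩
    · refine mul_mem ?_ (IntermediateField.mem_adjoin_simple_self _ _)
      exact (IntermediateField.adjoin L0 {t}).algebraMap_mem (algebraMap κ L0 (β j))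
  -- `E` is algebraic over `L0`
  have halgM : Algebra.IsAlgebraic M E := inferInstance
  have halg1 : Algebra.IsAlgebraic (IntermediateField.adjoin L0 {t}) E :=
    alg_mono (K := κ) (L := M) (L' := (IntermediateField.adjoin L0 {t}).restrictScalars κ) hM2 halgM
  have halg2 : Algebra.IsAlgebraic L0 (IntermediateField.adjoin L0 {t}) :=
    IntermediateField.isAlgebraic_adjoin_simple hint
  have halg : Algebra.IsAlgebraic L0 E :=
    Algebra.IsAlgebraic.trans L0 (IntermediateField.adjoin L0 {t}) E
  have hli : AlgebraicIndependent κ (lc A u) := ind_of_alg a htr _ halg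
  have hind : LinearIndependent L0 fun i : Fin D => t ^ (i : ℕ) :=
    indep (lc A u) hli t Φ hΦirr D hD hΦD hΦe
  rw [tow L0 M hle2 t htM hM2 hint]
  refine Nat.mul_le_mul_right _ ?_
  rw [← IntermediateField.adjoin.finrank hint]
  have hfd : FiniteDimensional L0 (IntermediateField.adjoin L0 {t}) :=
    IntermediateField.adjoin.finiteDimensional hint
  have hind2 : LinearIndependent L0 fun i : Fin D =>
      (⟨t ^ (i : ℕ), pow_mem (IntermediateField.mem_adjoin_simple_self L0 t) _⟩ :
        IntermediateField.adjoin L0 {t}) :=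
    LinearIndependent.of_comp (IntermediateField.val (IntermediateField.adjoin L0 {t})).toLinearMap
      hind
  have h := hind2.fintype_card_le_finrank
  rwa [Fintype.card_fin] at h

end Two

end PHypPM

open PHypPM in
/-- (HypP) -/
theorem pHypP : StmtHypP := by
  intro K κ E _ _ _ _ _ _ _ _ a u F hF hFu htr hf
  exact ⟨part1 a u F hF.ne_zero hFu htr, part2 a u F hF hFu htr hf⟩

end Pool.Agent.Lib.MP_16285c_agX
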