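import Pool.Agent.Lib.MP_16285c_agP.SpecA

/-!
# Lower bound: linear independence of the products
-/

set_option autoImplicit false

namespace Pool.Agent.Lib.MP_16285c_agX

open Pool.Agent.Lib.MP_16285c_ag Pool.Agent.Lib.MP_16285c_agN

namespace PLbPM

theorem mono {K E : Type} [Field K] [Field E] [Algebra K E] (a b : ℕ) (u : Fin a → E) (v : Fin b → E)
    (hai : AlgebraicIndependent K (Sum.elim u v : Fin a ⊕ Fin b → E)) :
    LinearIndependent K (fun t : (Fin a → ℕ) × (Fin b → ℕ) => (∏ i, u i ^ t.1 i) * ∏ i, v i ^ t.2 i) := by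
  have h2 : LinearIndependent K (fun σ : (Fin a ⊕ Fin b) →₀ ℕ =>
      MvPolynomial.aeval (Sum.elim u v : Fin a ⊕ Fin b → E) (MvPolynomial.monomial σ (1 : K))) := by
    have h := (MvPolynomial.basisMonomials (Fin a ⊕ Fin b) K).linearIndependent
    have h' := h.map' (MvPolynomial.aeval (Sum.elim u v : Fin a ⊕ Fin b → E)).toLinearMap
      (LinearMap.ker_eq_bot.2 hai)
    rw [MvPolynomial.coe_basisMonomials] at h'
    exact h'
  have hix : Function.Injective (fun t : (Fin a → ℕ) × (Fin b → ℕ) =>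
      (Finsupp.equivFunOnFinite.symm (Sum.elim t.1 t.2 : Fin a ⊕ Fin b → ℕ) : (Fin a ⊕ Fin b) →₀ ℕ)) := by
    rintro ⟨β, r⟩ ⟨β', r'⟩ h
    have h1 := Finsupp.equivFunOnFinite.symm.injective h
    refine Prod.ext (funext fun i => ?_) (funext fun i => ?_)
    · exact congrFun h1 (Sum.inl i)
    · exact congrFun h1 (Sum.inr i)
  have h5 := h2.comp _ hix
  have heq : (fun t : (Fin a → ℕ) × (Fin b → ℕ) => (∏ i, u i ^ t.1 i) * ∏ i, v i ^ t.2 i) =
      (fun σ : (Fin a ⊕ Fin b) →₀ ℕ =>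
        MvPolynomial.aeval (Sum.elim u v : Fin a ⊕ Fin b → E) (MvPolynomial.monomial σ (1 : K))) ∘
      (fun t : (Fin a → ℕ) × (Fin b → ℕ) => (Finsupp.equivFunOnFinite.symm
        (Sum.elim t.1 t.2 : Fin a ⊕ Fin b → ℕ) : (Fin a ⊕ Fin b) →₀ ℕ)) := by
    funext t
    show _ = MvPolynomial.aeval (Sum.elim u v : Fin a ⊕ Fin b → E) (MvPolynomial.monomial _ (1 : K))
    rw [MvPolynomial.aeval_monomial, map_one, one_mul, Finsupp.prod_fintype _ _ (fun i => pow_zero _),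
      Fintype.prod_sum_type]
    simp only [Finsupp.equivFunOnFinite_symm_apply_apply, Sum.elim_inl, Sum.elim_inr]
  rw [heq]
  exact h5

end PLbPM

theorem pLbP : StmtLbP := by
  intro K E _ _ _ a b e u v θ hai hθ p j
  have hu : ∀ i, u i ∈ IntermediateField.adjoin K (Set.range u ∪ Set.range v) := fun i =>
    IntermediateField.subset_adjoin K _ (Or.inl ⟨i, rfl⟩)
  have hv : ∀ i, v i ∈ IntermediateField.adjoin K (Set.range u ∪ Set.range v) := fun i =>
    IntermediateField.subset_adjoin K _ (Or.inr ⟨i, rfl⟩)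
  have hmem : ∀ t : (Fin a → ℕ) × (Fin b → ℕ), (∏ i, u i ^ t.1 i) * ∏ i, v i ^ t.2 i ∈
      IntermediateField.adjoin K (Set.range u ∪ Set.range v) := fun t =>
    mul_mem (prod_mem fun i _ => pow_mem (hu i) _) (prod_mem fun i _ => pow_mem (hv i) _)
  have h1 : LinearIndependent K (fun t : (Fin a → ℕ) × (Fin b → ℕ) =>
      (⟨(∏ i, u i ^ t.1 i) * ∏ i, v i ^ t.2 i, hmem t⟩ :
        IntermediateField.adjoin K (Set.range u ∪ Set.range v))) :=
    LinearIndependent.of_comp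
      (IntermediateField.adjoin K (Set.range u ∪ Set.range v)).val.toLinearMap
      (PLbPM.mono a b u v hai)
  have h2 := linearIndependent_smul h1 hθ
  have hinj : Function.Injective
      (fun t : {β : Fin a → ℕ // ∑ i, β i ≤ p} × {γ : Fin b → ℕ // ∑ i, γ i ≤ j} × Fin e =>
        ((((t.1 : Fin a → ℕ), (t.2.1 : Fin b → ℕ)), t.2.2) : ((Fin a → ℕ) × (Fin b → ℕ)) × Fin e)) := by
    rintro ⟨β, r, k⟩ ⟨β', r', k'⟩ h
    simp only [Prod.mk.injEq] at h
    obtain ⟨⟨h1, h2⟩, h3⟩ := h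
    exact Prod.ext (Subtype.ext h1) (Prod.ext (Subtype.ext h2) h3)
  have h3 := h2.comp _ hinj
  have heq : (fun t : {β : Fin a → ℕ // ∑ i, β i ≤ p} × {γ : Fin b → ℕ // ∑ i, γ i ≤ j} × Fin e =>
        θ t.2.2 * ((∏ i, u i ^ (t.1 : Fin a → ℕ) i) * ∏ i, v i ^ (t.2.1 : Fin b → ℕ) i)) =
      (fun q : ((Fin a → ℕ) × (Fin b → ℕ)) × Fin e =>
        (⟨(∏ i, u i ^ q.1.1 i) * ∏ i, v i ^ q.1.2 i, hmem q.1⟩ :
          IntermediateField.adjoin K (Set.range u ∪ Set.range v)) • θ q.2) ∘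
      (fun t : {β : Fin a → ℕ // ∑ i, β i ≤ p} × {γ : Fin b → ℕ // ∑ i, γ i ≤ j} × Fin e =>
        ((((t.1 : Fin a → ℕ), (t.2.1 : Fin b → ℕ)), t.2.2) : ((Fin a → ℕ) × (Fin b → ℕ)) × Fin e)) := by
    funext t
    show _ = ((∏ i, u i ^ (t.1 : Fin a → ℕ) i) * ∏ i, v i ^ (t.2.1 : Fin b → ℕ) i) * θ t.2.2
    ring
  rw [heq]
  exact h3

end Pool.Agent.Lib.MP_16285c_agX
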