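import Pool.Agent.Lib.MP_16285c_agP.SpecA

/-!
# ZDP, module NumP (helper42): the numerical inequality for the sections
-/

set_option autoImplicit false

namespace Pool.Agent.Lib.MP_16285c_agX

open Pool.Agent.Lib.MP_16285c_ag Pool.Agent.Lib.MP_16285c_agN

namespace PNumPM

open Filter Topology

theorem stp (hC : StmtCntC) (s q : ℕ) : (q + 1) * cnt s (q + 1) = (s + q + 1) * cnt s q := by
  rw [hC.1, hC.1]
  have h := Nat.add_one_mul_choose_eq (s + q) q
  have e1 : (s + (q + 1)).choose s = (s + (q + 1)).choose (q + 1) := Nat.choose_symm_add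
  have e2 : (s + q).choose s = (s + q).choose q := Nat.choose_symm_add
  have e4 : s + q + 1 = s + (q + 1) := rfl
  rw [e4] at h
  rw [e1, e2, e4, h]
  ring

theorem stpR (hC : StmtCntC) (s q : ℕ) :
    (cnt s (q + 1) : ℝ) = cnt s q * (1 + (s : ℝ) / ((q : ℝ) + 1)) := by
  have h : ((q : ℝ) + 1) * (cnt s (q + 1) : ℝ) = ((s : ℝ) + q + 1) * cnt s q := by
    exact_mod_cast stp hC s q
  have hq : (0 : ℝ) < (q : ℝ) + 1 := by positivity
  field_simp
  linarith

theorem pw (hC : StmtCntC) (s q D : ℕ) :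
    (cnt s (q + D) : ℝ) ≤ cnt s q * (1 + (s : ℝ) / ((q : ℝ) + 1)) ^ D := by
  induction D with
  | zero => simp
  | succ D ih =>
    have e : q + (D + 1) = q + D + 1 := rfl
    rw [e, stpR hC s (q + D), pow_succ, ← mul_assoc]
    refine mul_le_mul ih ?_ (by positivity) (by positivity)
    have h1 : (s : ℝ) / (((q + D : ℕ) : ℝ) + 1) ≤ (s : ℝ) / ((q : ℝ) + 1) := by
      apply div_le_div_of_nonneg_left (by positivity) (by positivity)
      push_cast
      linarith [Nat.cast_nonneg (α := ℝ) D]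
    linarith

theorem ratio (hC : StmtCntC) (s D : ℕ) :
    ∃ n₀ : ℕ, ∀ q, n₀ ≤ q → 5 * cnt s (q + D) ≤ 7 * cnt s q := by
  have h0 : Tendsto (fun q : ℕ => (s : ℝ) / ((q : ℝ) + 1)) atTop (𝓝 0) := by
    have h := (tendsto_const_div_atTop_nhds_zero_nat (s : ℝ)).comp (tendsto_add_atTop_nat 1)
    refine h.congr fun q => ?_
    simp [Function.comp]
  have h1 : Tendsto (fun q : ℕ => (1 + (s : ℝ) / ((q : ℝ) + 1)) ^ D) atTop (𝓝 1) := by
    have h := (tendsto_const_nhds (x := (1 : ℝ)) (f := (atTop : Filter ℕ))).add h0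
    have h2 := h.pow D
    simpa using h2
  have h2 : ∀ᶠ q : ℕ in atTop, (1 + (s : ℝ) / ((q : ℝ) + 1)) ^ D < 7 / 5 :=
    h1.eventually_lt_const (by norm_num)
  obtain ⟨n₀, hn⟩ := eventually_atTop.1 h2
  refine ⟨n₀, fun q hq => ?_⟩
  have h3 := pw hC s q D
  have h4 := hn q hq
  have h5 : (cnt s (q + D) : ℝ) ≤ cnt s q * (7 / 5) :=
    h3.trans (mul_le_mul_of_nonneg_left h4.le (by positivity))
  have h6 : (5 : ℝ) * cnt s (q + D) ≤ 7 * cnt s q := by linarith
  exact_mod_cast h6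

theorem pos (hC : StmtCntC) (s q : ℕ) : 0 < cnt s q := by
  rw [hC.1]
  exact Nat.choose_pos (by omega)

end PNumPM

open PNumPM in
theorem pNumP : StmtCntC → StmtNumP := by
  intro hC a b e₁ e₂ C c₀ he₁ he₂
  obtain ⟨n₁, h₁⟩ := ratio hC (a + 1) (C + c₀)
  obtain ⟨n₂, h₂⟩ := ratio hC (b + 1) C
  refine ⟨n₁ + n₂ + c₀, fun i hi => ?_⟩
  have hp : i ≤ 4 * (a + 1) * e₁ * i := by
    have h : 1 ≤ 4 * (a + 1) * e₁ := by
      have := Nat.mul_le_mul (show 1 ≤ 4 * (a + 1) by omega) he₁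
      simpa using this
    simpa using Nat.mul_le_mul_right i h
  have hj : i ≤ 4 * (b + 1) * e₂ * i := by
    have h : 1 ≤ 4 * (b + 1) * e₂ := by
      have := Nat.mul_le_mul (show 1 ≤ 4 * (b + 1) by omega) he₂
      simpa using this
    simpa using Nat.mul_le_mul_right i h
  have g1 := hC.2.2 a (4 * (a + 1) * e₁ * i + C)
  have g2 := hC.2.2 b (4 * (b + 1) * e₂ * i + C)
  have ep : 4 * (a + 1) * e₁ * i = (a + 1) * (4 * e₁ * i) := by ring
  have ej : 4 * (b + 1) * e₂ * i = (b + 1) * (4 * e₂ * i) := by ring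
  generalize hP : 4 * (a + 1) * e₁ * i = p at *
  generalize hJ : 4 * (b + 1) * e₂ * i = j at *
  have hcp : c₀ ≤ p := by omega
  refine ⟨hcp, ?_⟩
  have k1 := h₁ (p - c₀) (by omega)
  have k2 := h₂ j (by omega)
  have e1 : p - c₀ + (C + c₀) = p + C := by omega
  rw [e1] at k1
  have q1 : 4 * e₁ * i * cnt a (p + C) ≤ cnt (a + 1) (p + C) := by
    have h : (a + 1) * (4 * e₁ * i * cnt a (p + C)) ≤ (a + 1) * cnt (a + 1) (p + C) := by
      calc (a + 1) * (4 * e₁ * i * cnt a (p + C)) = p * cnt a (p + C) := by rw [ep]; ring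
        _ ≤ (p + C + 1) * cnt a (p + C) := Nat.mul_le_mul_right _ (by omega)
        _ ≤ _ := g1
    exact Nat.le_of_mul_le_mul_left h (by omega)
  have q2 : 4 * e₂ * i * cnt b (j + C) ≤ cnt (b + 1) (j + C) := by
    have h : (b + 1) * (4 * e₂ * i * cnt b (j + C)) ≤ (b + 1) * cnt (b + 1) (j + C) := by
      calc (b + 1) * (4 * e₂ * i * cnt b (j + C)) = j * cnt b (j + C) := by rw [ej]; ring
        _ ≤ (j + C + 1) * cnt b (j + C) := Nat.mul_le_mul_right _ (by omega)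
        _ ≤ _ := g2
    exact Nat.le_of_mul_le_mul_left h (by omega)
  have p1 := pos hC (a + 1) (p - c₀)
  have p2 := pos hC (b + 1) j
  generalize cnt (a + 1) (p + C) = X at *
  generalize cnt (b + 1) (j + C) = Y at *
  generalize cnt (a + 1) (p - c₀) = X₀ at *
  generalize cnt (b + 1) j = Y₀ at *
  generalize cnt a (p + C) = x at *
  generalize cnt b (j + C) = y at *
  have m1 : 4 * (i * (e₁ * x * Y + e₂ * X * y)) ≤ 2 * (X * Y) := by
    calc 4 * (i * (e₁ * x * Y + e₂ * X * y)) = (4 * e₁ * i * x) * Y + X * (4 * e₂ * i * y) := by ring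
      _ ≤ X * Y + X * Y := Nat.add_le_add (Nat.mul_le_mul_right _ q1) (Nat.mul_le_mul_left _ q2)
      _ = 2 * (X * Y) := by ring
  have m2 : 25 * (X * Y) ≤ 49 * (X₀ * Y₀) := by
    calc 25 * (X * Y) = (5 * X) * (5 * Y) := by ring
      _ ≤ (7 * X₀) * (7 * Y₀) := Nat.mul_le_mul k1 k2
      _ = 49 * (X₀ * Y₀) := by ring
  have m3 : 0 < X₀ * Y₀ := Nat.mul_pos p1 p2
  omega

end Pool.Agent.Lib.MP_16285c_agX
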