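import Pool.Agent.Lib.MP_16285c_agP.SpecA

/-!
Module PrR of ZDP (helper97): the relations of N + 1 elements of a field of transcendence degree N form a principal ideal.
-/

set_option autoImplicit false

namespace Pool.Agent.Lib.MP_16285c_agX

open Pool.Agent.Lib.MP_16285c_ag Pool.Agent.Lib.MP_16285c_agN

namespace PPrRM

open Polynomial

/-- Gauss: over a factorial domain `S` embedded in a field `E`, an irreducible polynomial which vanishes at `x` divides every
polynomial which vanishes at `x`. -/
theorem dvd_core {S E : Type} [CommRing S] [IsDomain S] [IsGCDMonoid S] [Field E]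
    (A : S →+* E) (hA : Function.Injective A) (x : E) (P Q : S[X]) (hP : Irreducible P)
    (h1 : P.eval₂ A x = 0) (h2 : Q.eval₂ A x = 0) : P ∣ Q := by
  have hdeg : P.natDegree ≠ 0 := by
    intro h
    have h3 : P = C (P.coeff 0) := eq_C_of_natDegree_eq_zero h
    rw [h3, eval₂_C] at h1
    have h4 : P.coeff 0 = 0 := hA (by rw [h1, map_zero])
    rw [h4, C_0] at h3
    exact hP.ne_zero h3
  have hprim : P.IsPrimitive := Irreducible.isPrimitive hP hdeg
  let F := FractionRing S
  have hφ : Function.Injective A := hA
  let φ : F →+* E := IsFractionRing.lift hφ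
  have hcomp : φ.comp (algebraMap S F) = A := by
    ext s
    exact IsFractionRing.lift_algebraMap hφ s
  have hPF : Irreducible (P.map (algebraMap S F)) :=
    (hprim.irreducible_iff_irreducible_map_fraction_map (K := F)).1 hP
  have e1 : (P.map (algebraMap S F)).eval₂ φ x = 0 := by
    rw [eval₂_map, hcomp, h1]
  have e2 : (Q.map (algebraMap S F)).eval₂ φ x = 0 := by
    rw [eval₂_map, hcomp, h2]
  apply hprim.dvd_of_fraction_map_dvd_fraction_map (K := F)
  by_contra hnd
  obtain ⟨a, b, hab⟩ := (hPF.coprime_iff_not_dvd.2 hnd)
  have h5 := congrArg (fun T : F[X] => T.eval₂ φ x) hab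
  simp only [eval₂_add, eval₂_mul, eval₂_one] at h5
  rw [e1, e2, mul_zero, mul_zero, add_zero] at h5
  exact zero_ne_one h5

/-- A subfamily which is algebraically independent, in the form of an equivalence with `Option (Fin N)`. -/
theorem exists_equiv {κ E : Type} [Field κ] [Field E] [Algebra κ E] (N : ℕ) (w : Fin (N + 1) → E)
    (htr : Algebra.trdeg κ E = N)
    (hfin : Module.Finite (IntermediateField.adjoin κ (Set.range w)) E) :
    ∃ e : Option (Fin N) ≃ Fin (N + 1), AlgebraicIndependent κ (fun j : Fin N => w (e (some j))) := by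
  classical
  have halg : Algebra.IsAlgebraic (IntermediateField.adjoin κ (Set.range w)) E := inferInstance
  have halg2 : Algebra.IsAlgebraic (Algebra.adjoin κ (Set.range w)) E :=
    (IntermediateField.isAlgebraic_adjoin_iff_top).1 halg
  obtain ⟨t, hts, htb⟩ := exists_isTranscendenceBasis_subset (R := κ) (A := E) (Set.range w)
  have hcard : Cardinal.mk t = N := by
    rw [htb.cardinalMk_eq_trdeg, htr]
  have hfinT : Finite t := by
    rw [← Cardinal.lt_aleph0_iff_finite, hcard]
    exact Cardinal.natCast_lt_aleph0
  have hNat : Nat.card t = N := by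
    rw [Nat.card, hcard, Cardinal.toNat_natCast]
  obtain ⟨g⟩ : Nonempty (Fin N ≃ t) := by
    rw [← hNat]
    exact ⟨(Finite.equivFin t).symm⟩
  choose f hf using fun b : t => hts b.2
  have hfinj : Function.Injective f := by
    intro a b hab
    apply Subtype.ext
    rw [← hf a, ← hf b, hab]
  let h : Fin N → Fin (N + 1) := fun j => f (g j)
  have hinj : Function.Injective h := hfinj.comp g.injective
  obtain ⟨i, hi⟩ : ∃ i, i ∉ Set.range h := by
    by_contra hc
    push Not at hc
    have hs : Function.Surjective h := fun y => hc y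
    have := Fintype.card_le_of_surjective h hs
    simp at this
  let e0 : Option (Fin N) → Fin (N + 1) := fun o => o.elim i h
  have he0 : Function.Injective e0 := by
    intro a b hab
    cases a with
    | none =>
      cases b with
      | none => rfl
      | some b => exact absurd ⟨b, hab.symm⟩ hi
    | some a =>
      cases b with
      | none => exact absurd ⟨a, hab⟩ hi
      | some b => exact congrArg some (hinj hab)
  have he1 : Function.Bijective e0 := by
    rw [Fintype.bijective_iff_injective_and_card]
    refine ⟨he0, ?_⟩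
    simp
  refine ⟨Equiv.ofBijective e0 he1, ?_⟩
  have h3 : (fun j : Fin N => w ((Equiv.ofBijective e0 he1) (some j))) =
      (fun b : t => (b : E)) ∘ g := by
    funext j
    exact hf (g j)
  rw [h3]
  exact htb.1.comp g g.injective

end PPrRM

open PPrRM

theorem pPrR : StmtPrR := by
  intro κ E _ _ _ N w R G htr hfin hR h1 h2
  obtain ⟨e, he⟩ := exists_equiv N w htr hfin
  let Θ : MvPolynomial (Fin (N + 1)) κ ≃ₐ[κ] Polynomial (MvPolynomial (Fin N) κ) :=
    (MvPolynomial.renameEquiv κ e.symm).trans (MvPolynomial.optionEquivLeft κ (Fin N))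
  let A : MvPolynomial (Fin N) κ →ₐ[κ] E := MvPolynomial.aeval (fun j : Fin N => w (e (some j)))
  have hA : Function.Injective A := he
  have hev : ∀ T : MvPolynomial (Fin (N + 1)) κ,
      (Θ T).eval₂ (A : MvPolynomial (Fin N) κ →+* E) (w (e none)) = MvPolynomial.aeval w T := by
    intro T
    let Ψ : MvPolynomial (Fin (N + 1)) κ →+* E :=
      (Polynomial.eval₂RingHom (A : MvPolynomial (Fin N) κ →+* E) (w (e none))).comp
        (Θ : MvPolynomial (Fin (N + 1)) κ →+* Polynomial (MvPolynomial (Fin N) κ))
    have hΨ : Ψ = ((MvPolynomial.aeval w : MvPolynomial (Fin (N + 1)) κ →ₐ[κ] E) :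
        MvPolynomial (Fin (N + 1)) κ →+* E) := by
      apply MvPolynomial.ringHom_ext
      · intro c
        have e1 : Θ (MvPolynomial.C c) = Polynomial.C (MvPolynomial.C c) := by
          change MvPolynomial.optionEquivLeft κ (Fin N) (MvPolynomial.rename e.symm (MvPolynomial.C c)) = _
          rw [MvPolynomial.rename_C, MvPolynomial.optionEquivLeft_C]
        change Polynomial.eval₂ (A : MvPolynomial (Fin N) κ →+* E) (w (e none)) (Θ (MvPolynomial.C c)) =
          MvPolynomial.aeval w (MvPolynomial.C c)
        rw [e1, Polynomial.eval₂_C, MvPolynomial.aeval_C]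
        change MvPolynomial.aeval (fun j : Fin N => w (e (some j))) (MvPolynomial.C c) = _
        rw [MvPolynomial.aeval_C]
      · intro i
        obtain ⟨o, rfl⟩ := e.surjective i
        change Polynomial.eval₂ (A : MvPolynomial (Fin N) κ →+* E) (w (e none)) (Θ (MvPolynomial.X (e o))) =
          MvPolynomial.aeval w (MvPolynomial.X (e o))
        have e1 : Θ (MvPolynomial.X (e o)) = MvPolynomial.optionEquivLeft κ (Fin N) (MvPolynomial.X o) := by
          change MvPolynomial.optionEquivLeft κ (Fin N) (MvPolynomial.rename e.symm (MvPolynomial.X (e o))) = _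
          rw [MvPolynomial.rename_X, e.symm_apply_apply]
        rw [e1, MvPolynomial.aeval_X]
        cases o with
        | none =>
          rw [MvPolynomial.optionEquivLeft_X_none, Polynomial.eval₂_X]
        | some j =>
          rw [MvPolynomial.optionEquivLeft_X_some, Polynomial.eval₂_C]
          change MvPolynomial.aeval (fun j : Fin N => w (e (some j))) (MvPolynomial.X j) = _
          rw [MvPolynomial.aeval_X]
    exact congrArg (fun u : MvPolynomial (Fin (N + 1)) κ →+* E => u T) hΨ
  have hirr : Irreducible (Θ R) := (MulEquiv.irreducible_iff Θ.toMulEquiv).2 hR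
  have hd : Θ R ∣ Θ G := by
    apply dvd_core (A : MvPolynomial (Fin N) κ →+* E) hA (w (e none)) (Θ R) (Θ G) hirr
    · rw [hev, h1]
    · rw [hev, h2]
  exact (map_dvd_iff Θ).1 hd

end Pool.Agent.Lib.MP_16285c_agX
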