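import Pool.Agent.Lib.MP_16285c_agP.SpecD

/-!
# Higher dimension with `λ₁ > λ₃`: rates (RatesP)
-/

set_option autoImplicit false

open Filter Topology

namespace Pool.Agent.Lib.MP_16285c_agX

namespace PRatesPM

/-- The choice of the constants. -/
theorem consts (l Λ : ℝ) (hΛ : 1 ≤ Λ) (hl : Λ < l) :
    ∃ l₁ l₂ : ℝ, 1 < l₁ ∧ l₁ < l ∧ l < l₂ ∧ Λ * l₂ < l₁ ^ 2 ∧ l₁ * l₂ ^ 3 < l ^ 4 ∧
      Λ * l₂ ^ 3 < l₁ ^ 4 := by
  have hl0 : 0 < l := by linarith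
  have f1 : ∀ᶠ x in 𝓝 l, (1 : ℝ) < x := by
    have hc : Continuous fun x : ℝ => x := continuous_id
    exact (hc.tendsto l).eventually_const_lt (by linarith)
  have f2 : ∀ᶠ x in 𝓝 l, Λ * l < x ^ 2 := by
    have hc : Continuous fun x : ℝ => x ^ 2 := by fun_prop
    exact (hc.tendsto l).eventually_const_lt (by nlinarith)
  have f3 : ∀ᶠ x in 𝓝 l, Λ * l ^ 3 < x ^ 4 := by
    have hc : Continuous fun x : ℝ => x ^ 4 := by fun_prop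
    have h3 : Λ * l ^ 3 < l ^ 4 := by
      have h4 : 0 < l ^ 3 := by positivity
      nlinarith
    exact (hc.tendsto l).eventually_const_lt h3
  have f4 : ∀ᶠ x in 𝓝[<] l, x < l := self_mem_nhdsWithin
  obtain ⟨l₁, hf⟩ := (f4.and ((f1.and (f2.and f3)).filter_mono nhdsWithin_le_nhds)).exists
  obtain ⟨h1b, h1e, h1c, h1d⟩ := hf
  have e1 : ∀ᶠ x in 𝓝 l, Λ * x < l₁ ^ 2 := by
    have hc : Continuous fun x : ℝ => Λ * x := by fun_prop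
    exact (hc.tendsto l).eventually_lt_const h1c
  have e2 : ∀ᶠ x in 𝓝 l, l₁ * x ^ 3 < l ^ 4 := by
    have hc : Continuous fun x : ℝ => l₁ * x ^ 3 := by fun_prop
    have h3 : l₁ * l ^ 3 < l ^ 4 := by
      have h4 : 0 < l ^ 3 := by positivity
      nlinarith
    exact (hc.tendsto l).eventually_lt_const h3
  have e4 : ∀ᶠ x in 𝓝 l, Λ * x ^ 3 < l₁ ^ 4 := by
    have hc : Continuous fun x : ℝ => Λ * x ^ 3 := by fun_prop
    exact (hc.tendsto l).eventually_lt_const h1d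
  have e3 : ∀ᶠ x in 𝓝[>] l, l < x := self_mem_nhdsWithin
  obtain ⟨l₂, h⟩ := (e3.and ((e1.and (e2.and e4)).filter_mono nhdsWithin_le_nhds)).exists
  exact ⟨l₁, l₂, h1e, h1b, h.1, h.2.1, h.2.2.1, h.2.2.2⟩

/-- Geometric growth. -/
theorem pow_ge (x C : ℝ) (hx : 1 < x) : ∃ m₀ : ℕ, ∀ m, m₀ ≤ m → C ≤ x ^ m :=
  eventually_atTop.1 ((tendsto_pow_atTop_atTop_of_one_lt hx).eventually_ge_atTop C)

/-- The first alternative. -/
theorem alt_one (d2 d1 Δ1 L L1 L2 T c C₀ k : ℝ) (hc1 : 1 ≤ c) (hk : 1 ≤ k) (hC2 : 1 ≤ C₀ ^ 2)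
    (hd1 : 1 ≤ d1) (hd2 : 1 ≤ d2) (hΔ1 : 1 ≤ Δ1) (hT : 1 ≤ T) (hL : 0 < L) (hL1 : 0 < L1)
    (hL2 : 0 < L2) (h3 : Δ1 ≤ C₀ ^ 2 * (L1 * L2)) (h4 : d1 ≤ L2) (h7 : L ≤ 2 * d2)
    (h8 : 576 * (d1 * T) ≤ d2)
    (h6 : 2048 * (k * c ^ 2 * C₀ ^ 2) * (L1 * (L2 * L2 ^ 2)) ≤ L ^ 2)
    (h10 : 2048 * (k * c ^ 2 * C₀ ^ 2) * (L1 * L2) ≤ L) :
    GdX c (k * c * Δ1) (d2 / (8 * d1)) d1 T := by
  have hcc : c ≤ c ^ 2 := by nlinarith
  have hb : 72 * T ≤ d2 / (8 * d1) := by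
    rw [le_div_iff₀ (by linarith)]
    linarith
  have hbd : d2 / (8 * d1) * d1 = d2 / 8 := by
    have : d1 ≠ 0 := by linarith
    field_simp
  have hk0 : 0 < k := by linarith
  have hc0 : 0 < c := by linarith
  have hC0 : 0 < C₀ ^ 2 := by linarith
  refine ⟨by linarith, ?_, ?_, by linarith⟩
  · have hb2 : L / (16 * L2) ≤ d2 / (8 * d1) := by
      rw [div_le_div_iff₀ (by positivity) (by linarith)]
      have h15 : L * (8 * d1) ≤ 2 * d2 * (8 * L2) :=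
        mul_le_mul h7 (by linarith) (by linarith) (by linarith)
      linarith
    have hb3 : (L / (16 * L2)) ^ 2 ≤ (d2 / (8 * d1)) ^ 2 :=
      pow_le_pow_left₀ (by positivity) hb2 2
    refine le_trans ?_ hb3
    rw [div_pow, le_div_iff₀ (by positivity)]
    have h15 : 8 * (k * c * Δ1) * (16 * L2) ^ 2 = 2048 * (k * (c * (Δ1 * L2 ^ 2))) := by ring
    have h16 : Δ1 * L2 ^ 2 ≤ C₀ ^ 2 * (L1 * L2) * L2 ^ 2 :=
      mul_le_mul_of_nonneg_right h3 (by positivity)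
    have h18 : c * (Δ1 * L2 ^ 2) ≤ c ^ 2 * (C₀ ^ 2 * (L1 * L2) * L2 ^ 2) :=
      mul_le_mul hcc h16 (by positivity) (by positivity)
    have h18' : k * (c * (Δ1 * L2 ^ 2)) ≤ k * (c ^ 2 * (C₀ ^ 2 * (L1 * L2) * L2 ^ 2)) :=
      mul_le_mul_of_nonneg_left h18 hk0.le
    have h19 : 2048 * (k * c ^ 2 * C₀ ^ 2) * (L1 * (L2 * L2 ^ 2)) =
        2048 * (k * (c ^ 2 * (C₀ ^ 2 * (L1 * L2) * L2 ^ 2))) := by ring
    rw [h15]
    linarith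
  · rw [hbd]
    have h18 : 4 * c * (k * c * Δ1) = 4 * (k * c ^ 2 * Δ1) := by ring
    have h19 : k * c ^ 2 * Δ1 ≤ k * c ^ 2 * (C₀ ^ 2 * (L1 * L2)) :=
      mul_le_mul_of_nonneg_left h3 (by positivity)
    have h20 : 2048 * (k * c ^ 2 * C₀ ^ 2) * (L1 * L2) =
        2048 * (k * c ^ 2 * (C₀ ^ 2 * (L1 * L2))) := by ring
    have h21 : 0 < k * c ^ 2 * (C₀ ^ 2 * (L1 * L2)) := by positivity
    rw [h18]
    linarith

/-- The second alternative. -/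
theorem alt_two (d1 Δ1 Δ2 D T c k C₃ M L2 : ℝ) (hc1 : 1 ≤ c) (hk : 1 ≤ k) (hC₃ : 0 ≤ C₃)
    (hd1 : 1 ≤ d1) (hΔ1 : 1 ≤ Δ1) (hT : 1 ≤ T) (hM : 0 < M) (hL2 : 0 < L2)
    (h4 : d1 ≤ L2) (h3 : M * Δ1 ≤ Δ2) (hD0 : 0 ≤ D) (hD : D ≤ C₃ * T)
    (h5 : (1152 * c ^ 2 + 288 * (k * c ^ 2 * C₃)) * (L2 * T) ≤ M)
    (h6 : 41472 * (k * c * C₃) * (T * L2 ^ 3) ≤ M ^ 2) :
    GdX c (k * c * (d1 * D / Δ1)) (Δ2 / (72 * d1 * Δ1)) d1 T := by
  have hk0 : 0 < k := by linarith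
  have hc0 : 0 < c := by linarith
  have hc2 : 1 ≤ c ^ 2 := by nlinarith
  have hT0 : 0 < T := by linarith
  have hΔ0 : 0 < Δ1 := by linarith
  have hd0 : 0 < d1 := by linarith
  have hdD : d1 * D / Δ1 ≤ d1 * (C₃ * T) := by
    have h : d1 * D / Δ1 ≤ d1 * D := div_le_self (by positivity) hΔ1
    have h' : d1 * D ≤ d1 * (C₃ * T) := mul_le_mul_of_nonneg_left hD hd0.le
    linarith
  have hdL : d1 * (C₃ * T) ≤ L2 * (C₃ * T) := mul_le_mul_of_nonneg_right h4 (by positivity)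
  have h8 : (1152 * c ^ 2 + 288 * (k * c ^ 2 * C₃)) * (d1 * T) ≤ M := by
    have h9 : d1 * T ≤ L2 * T := mul_le_mul_of_nonneg_right h4 hT0.le
    have h9' : (1152 * c ^ 2 + 288 * (k * c ^ 2 * C₃)) * (d1 * T) ≤
        (1152 * c ^ 2 + 288 * (k * c ^ 2 * C₃)) * (L2 * T) :=
      mul_le_mul_of_nonneg_left h9 (by positivity)
    linarith
  have h9 : (1152 * c ^ 2 + 288 * (k * c ^ 2 * C₃)) * (d1 * T) * Δ1 ≤ M * Δ1 :=
    mul_le_mul_of_nonneg_right h8 hΔ0.le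
  have hb : (16 * c ^ 2 + 4 * (k * c ^ 2 * C₃)) * T ≤ Δ2 / (72 * d1 * Δ1) := by
    rw [le_div_iff₀ (by positivity)]
    have h10 : (16 * c ^ 2 + 4 * (k * c ^ 2 * C₃)) * T * (72 * d1 * Δ1) =
        (1152 * c ^ 2 + 288 * (k * c ^ 2 * C₃)) * (d1 * T) * Δ1 := by ring
    rw [h10]
    linarith
  have hb2 : M / (72 * L2) ≤ Δ2 / (72 * d1 * Δ1) := by
    rw [div_le_div_iff₀ (by positivity) (by positivity)]
    have h11 : M * Δ1 * (72 * d1) ≤ Δ2 * (72 * L2) :=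
      mul_le_mul h3 (by linarith) (by linarith) (by
        have : 0 ≤ M * Δ1 := by positivity
        linarith)
    have h12 : M * (72 * d1 * Δ1) = M * Δ1 * (72 * d1) := by ring
    rw [h12]
    exact h11
  set B : ℝ := Δ2 / (72 * d1 * Δ1) with hB
  have hctT : c ^ 2 * T = c ^ 2 * T := rfl
  have h20 : 0 ≤ k * c ^ 2 * C₃ * T := by positivity
  have h21 : 1 * T ≤ c ^ 2 * T := mul_le_mul_of_nonneg_right hc2 hT0.le
  have hexp : (16 * c ^ 2 + 4 * (k * c ^ 2 * C₃)) * T = 16 * (c ^ 2 * T) + 4 * (k * c ^ 2 * C₃ * T) := by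
    ring
  rw [hexp] at hb
  refine ⟨by linarith, ?_, ?_, by linarith⟩
  · have hb3 : (M / (72 * L2)) ^ 2 ≤ B ^ 2 := pow_le_pow_left₀ (by positivity) hb2 2
    refine le_trans ?_ hb3
    rw [div_pow, le_div_iff₀ (by positivity)]
    have h30 : 8 * (k * c * (d1 * D / Δ1)) ≤ 8 * (k * c * (L2 * (C₃ * T))) := by
      have h31 : k * c * (d1 * D / Δ1) ≤ k * c * (L2 * (C₃ * T)) :=
        mul_le_mul_of_nonneg_left (by linarith) (by positivity)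
      linarith
    have h32 : 8 * (k * c * (d1 * D / Δ1)) * (72 * L2) ^ 2 ≤
        8 * (k * c * (L2 * (C₃ * T))) * (72 * L2) ^ 2 :=
      mul_le_mul_of_nonneg_right h30 (by positivity)
    have h33 : 8 * (k * c * (L2 * (C₃ * T))) * (72 * L2) ^ 2 =
        41472 * (k * c * C₃) * (T * L2 ^ 3) := by ring
    linarith
  · have h40 : 4 * c * (k * c * (d1 * D / Δ1)) ≤ 4 * c * (k * c * (d1 * (C₃ * T))) := by
      have h31 : k * c * (d1 * D / Δ1) ≤ k * c * (d1 * (C₃ * T)) :=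
        mul_le_mul_of_nonneg_left hdD (by positivity)
      exact mul_le_mul_of_nonneg_left h31 (by positivity)
    have h41 : 4 * c * (k * c * (d1 * (C₃ * T))) = 4 * (k * c ^ 2 * C₃ * T) * d1 := by ring
    have h42 : 4 * (k * c ^ 2 * C₃ * T) < B := by linarith
    have h43 : 4 * (k * c ^ 2 * C₃ * T) * d1 < B * d1 := mul_lt_mul_of_pos_right h42 hd0
    linarith

end PRatesPM

open PRatesPM in
/-- (RatesP) -/
theorem pRatesP : StmtFekP → StmtRatesP := by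
  intro hF d Δ D₃ Λ C₃ C₀ c k hΛ hc1 hk1 hsub hd hΔ hΔd hΔs hD₃ hlam
  have hΛ0 : (0 : ℝ) < Λ := by linarith
  obtain ⟨l, hl, hld, hdl⟩ := hF d Λ hΛ0.le hsub hd hlam
  have hc' : (1 : ℝ) ≤ c := by exact_mod_cast hc1
  have hk' : (1 : ℝ) ≤ k := by exact_mod_cast hk1
  have hc2 : (1 : ℝ) ≤ (c : ℝ) ^ 2 := by nlinarith
  obtain ⟨l₁, l₂, h1, h1l, hl2, hA, hD, hE⟩ := consts l Λ hΛ hl
  have hl0 : 0 < l := by linarith
  have hl10 : 0 < l₁ := by linarith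
  have hl20 : 0 < l₂ := by linarith
  have hdR : ∀ m, (1 : ℝ) ≤ d m := fun m => by exact_mod_cast hd m
  have hΔR : ∀ m, (1 : ℝ) ≤ Δ m := fun m => by exact_mod_cast hΔ m
  have hτm : ∀ m : ℕ, (1 : ℝ) ≤ Λ ^ m := fun m => one_le_pow₀ hΛ
  have hC₃ : 0 ≤ C₃ := by
    have h := hD₃ 0
    rw [pow_zero, mul_one] at h
    exact le_trans (Nat.cast_nonneg _) h
  obtain ⟨m₁, hm₁⟩ := hdl (l₂ / l - 1) (by
    have h := (one_lt_div hl0).2 hl2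
    linarith)
  have hd2 : ∀ m, m₁ ≤ m → (d m : ℝ) ≤ l₂ ^ m := by
    intro m hm
    have h := hm₁ m hm
    have h3 : l * (1 + (l₂ / l - 1)) = l₂ := by
      field_simp
      ring
    rwa [h3] at h
  obtain ⟨m₂, hm₂⟩ := pow_ge (l₁ ^ 2 / (l₂ * Λ))
    (1152 * (c : ℝ) ^ 2 + 288 * ((k : ℝ) * (c : ℝ) ^ 2 * C₃)) (by
    rw [one_lt_div (mul_pos hl20 hΛ0)]
    linarith)
  obtain ⟨m₃, hm₃⟩ := pow_ge (l ^ 4 / (l₁ * l₂ ^ 3))
    (2048 * ((k : ℝ) * (c : ℝ) ^ 2 * (C₀ : ℝ) ^ 2)) (by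
    rw [one_lt_div (by positivity)]
    exact hD)
  obtain ⟨m₄, hm₄⟩ := pow_ge (l₁ ^ 4 / (Λ * l₂ ^ 3)) (41472 * ((k : ℝ) * (c : ℝ) * C₃)) (by
    rw [one_lt_div (by positivity)]
    exact hE)
  have hA' : ∀ m, m₂ ≤ m → (1152 * (c : ℝ) ^ 2 + 288 * ((k : ℝ) * (c : ℝ) ^ 2 * C₃)) *
      (l₂ ^ m * Λ ^ m) ≤ (l₁ ^ 2) ^ m := by
    intro m hm
    have h := hm₂ m hm
    rw [div_pow, le_div_iff₀ (by positivity), mul_pow] at h
    exact h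
  have hD' : ∀ m, m₃ ≤ m →
      2048 * ((k : ℝ) * (c : ℝ) ^ 2 * (C₀ : ℝ) ^ 2) * (l₁ ^ m * (l₂ ^ 3) ^ m) ≤ (l ^ 4) ^ m := by
    intro m hm
    have h := hm₃ m hm
    rw [div_pow, le_div_iff₀ (by positivity), mul_pow] at h
    exact h
  have hE' : ∀ m, m₄ ≤ m →
      41472 * ((k : ℝ) * (c : ℝ) * C₃) * (Λ ^ m * (l₂ ^ 3) ^ m) ≤ (l₁ ^ 4) ^ m := by
    intro m hm
    have h := hm₄ m hm
    rw [div_pow, le_div_iff₀ (by positivity), mul_pow] at h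
    exact h
  by_cases hc : ∃ m₀ : ℕ, ∀ m, m₀ ≤ m → (Δ (2 * m) : ℝ) < (l₁ ^ 2) ^ m * Δ m
  · obtain ⟨m₀, hm₀⟩ := hc
    have hC1 : (1 : ℝ) ≤ C₀ := by
      have h3 := hΔs 0
      have h4 := hΔ (0 + 1)
      have h5 : 1 ≤ C₀ := by
        rcases Nat.eq_zero_or_pos C₀ with h | h
        · rw [h, zero_mul] at h3
          omega
        · exact h
      exact_mod_cast h5
    have hCC : (C₀ : ℝ) ≤ (C₀ : ℝ) ^ 2 := by nlinarith
    have hC2 : (1 : ℝ) ≤ (C₀ : ℝ) ^ 2 := by nlinarith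
    have hμ1 : 1 ≤ l₁ * l₂ := by nlinarith
    have hev : ∀ k, m₀ ≤ k → m₁ ≤ k → (Δ (2 * k) : ℝ) ≤ C₀ * (l₁ * l₂) ^ (2 * k) := by
      intro k h3 h4
      have h5 := (hm₀ k h3).le
      have h6 : (Δ k : ℝ) ≤ C₀ * (d k : ℝ) ^ 2 := by exact_mod_cast hΔd k
      have h7 : (d k : ℝ) ^ 2 ≤ (l₂ ^ k) ^ 2 :=
        pow_le_pow_left₀ (by linarith [hdR k]) (hd2 k h4) 2
      have h7' : (C₀ : ℝ) * (d k : ℝ) ^ 2 ≤ C₀ * (l₂ ^ k) ^ 2 :=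
        mul_le_mul_of_nonneg_left h7 (by linarith)
      have h8 : (l₁ ^ 2) ^ k * (Δ k : ℝ) ≤ (l₁ ^ 2) ^ k * (C₀ * (l₂ ^ k) ^ 2) :=
        mul_le_mul_of_nonneg_left (by linarith) (by positivity)
      have h9 : (l₁ ^ 2) ^ k * ((C₀ : ℝ) * (l₂ ^ k) ^ 2) = C₀ * (l₁ * l₂) ^ (2 * k) := by
        rw [mul_pow l₁ l₂ (2 * k), ← pow_mul, ← pow_mul, mul_comm k 2]
        ring
      linarith
    have hall : ∀ n, 2 * (m₀ + m₁) ≤ n → (Δ n : ℝ) ≤ (C₀ : ℝ) ^ 2 * (l₁ * l₂) ^ n := by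
      intro n hn
      rcases Nat.even_or_odd' n with ⟨k, h3 | h3⟩
      · rw [h3]
        have h4 := hev k (by omega) (by omega)
        have h11 : 0 ≤ (l₁ * l₂) ^ (2 * k) := by positivity
        have h12 : (C₀ : ℝ) * (l₁ * l₂) ^ (2 * k) ≤ (C₀ : ℝ) ^ 2 * (l₁ * l₂) ^ (2 * k) :=
          mul_le_mul_of_nonneg_right hCC h11
        linarith
      · rw [h3]
        have h4 := hev k (by omega) (by omega)
        have h5 : (Δ (2 * k + 1) : ℝ) ≤ C₀ * Δ (2 * k) := by exact_mod_cast hΔs (2 * k)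
        have h6 : (C₀ : ℝ) * Δ (2 * k) ≤ C₀ * (C₀ * (l₁ * l₂) ^ (2 * k)) :=
          mul_le_mul_of_nonneg_left h4 (by linarith)
        have h7 : (l₁ * l₂) ^ (2 * k) ≤ (l₁ * l₂) ^ (2 * k + 1) :=
          pow_le_pow_right₀ hμ1 (Nat.le_succ _)
        have h8 : (C₀ : ℝ) ^ 2 * (l₁ * l₂) ^ (2 * k) ≤ (C₀ : ℝ) ^ 2 * (l₁ * l₂) ^ (2 * k + 1) :=
          mul_le_mul_of_nonneg_left h7 (by positivity)
        have h9 : (C₀ : ℝ) * (C₀ * (l₁ * l₂) ^ (2 * k)) = (C₀ : ℝ) ^ 2 * (l₁ * l₂) ^ (2 * k) := by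
          ring
        linarith
    obtain ⟨m, hmd⟩ : ∃ m, m = 2 * (m₀ + m₁) + m₂ + m₃ + 1 := ⟨_, rfl⟩
    have h3 := hall m (by omega)
    have h4 := hd2 m (by omega)
    have h5 := hA' m (by omega)
    have h6 := hD' m (by omega)
    have h7 := hld (2 * m)
    have hdm := hdR m
    have hl2m : 0 < l₂ ^ m := by positivity
    have hl1m : 0 < l₁ ^ m := by positivity
    have e1 : (l₂ ^ 3) ^ m = l₂ ^ m * (l₂ ^ m) ^ 2 := by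
      rw [← pow_mul, ← pow_mul, ← pow_add]
      congr 1
      ring
    have e2 : (l ^ 4) ^ m = (l ^ (2 * m)) ^ 2 := by
      rw [← pow_mul, ← pow_mul]
      congr 1
      ring
    have e3 : (l₁ ^ 2) ^ m ≤ l ^ (2 * m) := by
      rw [← pow_mul]
      exact pow_le_pow_left₀ hl10.le h1l.le _
    rw [e1, e2] at h6
    rw [mul_pow] at h3
    have hL : 0 < l ^ (2 * m) := by positivity
    have hkc : 0 ≤ (k : ℝ) * (c : ℝ) ^ 2 * C₃ := by positivity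
    have h8 : 576 * ((d m : ℝ) * Λ ^ m) ≤ d (2 * m) := by
      have h9 : (d m : ℝ) * Λ ^ m ≤ l₂ ^ m * Λ ^ m :=
        mul_le_mul_of_nonneg_right h4 (by linarith [hτm m])
      have h9' : (1152 : ℝ) * (l₂ ^ m * Λ ^ m) ≤
          (1152 * (c : ℝ) ^ 2 + 288 * ((k : ℝ) * (c : ℝ) ^ 2 * C₃)) * (l₂ ^ m * Λ ^ m) :=
        mul_le_mul_of_nonneg_right (by linarith) (by positivity)
      linarith
    have h10 : 2048 * ((k : ℝ) * (c : ℝ) ^ 2 * (C₀ : ℝ) ^ 2) * (l₁ ^ m * l₂ ^ m) ≤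
        l ^ (2 * m) := by
      have h11 : l ^ (2 * m) ≤ (l₂ ^ m) ^ 2 := by
        rw [← pow_mul, mul_comm m 2]
        exact pow_le_pow_left₀ hl0.le hl2.le _
      have h12 : 2048 * ((k : ℝ) * (c : ℝ) ^ 2 * (C₀ : ℝ) ^ 2) * (l₁ ^ m * l₂ ^ m) * l ^ (2 * m) ≤
          2048 * ((k : ℝ) * (c : ℝ) ^ 2 * (C₀ : ℝ) ^ 2) * (l₁ ^ m * l₂ ^ m) * (l₂ ^ m) ^ 2 :=
        mul_le_mul_of_nonneg_left h11 (by positivity)
      have h13 : 2048 * ((k : ℝ) * (c : ℝ) ^ 2 * (C₀ : ℝ) ^ 2) * (l₁ ^ m * l₂ ^ m) * (l₂ ^ m) ^ 2 =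
          2048 * ((k : ℝ) * (c : ℝ) ^ 2 * (C₀ : ℝ) ^ 2) * (l₁ ^ m * (l₂ ^ m * (l₂ ^ m) ^ 2)) := by
        ring
      have h14 : 2048 * ((k : ℝ) * (c : ℝ) ^ 2 * (C₀ : ℝ) ^ 2) * (l₁ ^ m * l₂ ^ m) * l ^ (2 * m) ≤
          l ^ (2 * m) * l ^ (2 * m) := by
        rw [h13] at h12
        refine h12.trans (h6.trans (le_of_eq (sq _)))
      exact le_of_mul_le_mul_right h14 hL
    exact ⟨m, by omega, Or.inl (alt_one _ _ _ _ _ _ _ _ _ _ hc' hk' hC2 hdm (hdR _) (hΔR m)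
      (hτm m) hL hl1m hl2m h3 h4 h7 h8 h6 h10)⟩
  · have hc'' : ∀ m₀ : ℕ, ∃ m, m₀ ≤ m ∧ (l₁ ^ 2) ^ m * (Δ m : ℝ) ≤ Δ (2 * m) := by
      intro m₀
      by_contra h3
      refine hc ⟨m₀, fun m hm => ?_⟩
      by_contra h4
      exact h3 ⟨m, hm, not_lt.1 h4⟩
    obtain ⟨m, hm, h3⟩ := hc'' (m₁ + m₂ + m₄ + 1)
    have h4 := hd2 m (by omega)
    have h5 := hA' m (by omega)
    have h6 := hE' m (by omega)
    have e1 : (l₂ ^ 3) ^ m = (l₂ ^ m) ^ 3 := by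
      rw [← pow_mul, ← pow_mul, mul_comm]
    have e2 : (l₁ ^ 4) ^ m = ((l₁ ^ 2) ^ m) ^ 2 := by
      rw [← pow_mul, ← pow_mul, ← pow_mul]
      congr 1
      ring
    rw [e1, e2] at h6
    exact ⟨m, by omega, Or.inr (alt_two _ _ _ _ _ _ _ C₃ _ _ hc' hk' hC₃ (hdR m) (hΔR m)
      (hτm m) (by positivity) (by positivity) h4 h3 (Nat.cast_nonneg _) (hD₃ m) h5 h6)⟩

end Pool.Agent.Lib.MP_16285c_agX
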