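import Pool.Agent.Lib.MP_16285c_agP.SpecA

/-!
# Varieties with `λ_r < λ₁` for `r ≥ 3`: the two kinds of sections (ZDP)

`StmtSecPI` from `StmtSecP`, `StmtETn` and `StmtDg1n`.
-/

set_option autoImplicit false

namespace Pool.Agent.Lib.MP_16285c_agX

open Pool.Agent.Lib.MP_16285c_ag Pool.Agent.Lib.MP_16285c_agN

theorem pSecPI : StmtSecP → StmtETn → StmtDg1n → StmtSecPI := by
  intro hS hT hD K E _ _ _ _ n ξ hξ ρ m Z₀ hZ hI d₁ d₂ d₃ D₁ D₂ h1 h2 h3 h4 h5
  have p1 : 1 ≤ d₁ := by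
    rw [h1]
    exact (hD K E (n + 3) (n + 2) 1 ξ hξ rfl).2.2 ρ m
  have p2 : 1 ≤ d₂ := by
    rw [h2]
    exact (hD K E (n + 3) (n + 1) 2 ξ hξ rfl).2.2 ρ m
  have p3 : 1 ≤ d₃ := by
    rw [h3]
    exact (hD K E (n + 3) n 3 ξ hξ rfl).2.2 ρ m
  have q0 : ∀ (u : K) (A : Fin (n + 2) → Fin (n + 3) → K) (B : Fin 0 → Fin (n + 3) → K),
      Module.finrank (IntermediateField.adjoin K
        (insert (Tu K u (fun i : Fin (n + 3) => (ρ ^ m) (ξ i.succ)))
          (Set.range (lc A fun i : Fin (n + 3) => ξ i.succ) ∪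
            Set.range (lc B fun i : Fin (n + 3) => (ρ ^ (2 * m)) (ξ i.succ))))) E ≤ 2 * d₁ := by
    intro u A B
    have h := hT K E (n + 2) (n + 2) 0 ξ hξ rfl ρ m u A B
    rw [pow_zero, mul_one] at h
    rw [h1]
    exact h
  have q1 : ∀ (u : K) (A : Fin (n + 1) → Fin (n + 3) → K) (B : Fin 1 → Fin (n + 3) → K),
      Module.finrank (IntermediateField.adjoin K
        (insert (Tu K u (fun i : Fin (n + 3) => (ρ ^ m) (ξ i.succ)))
          (Set.range (lc A fun i : Fin (n + 3) => ξ i.succ) ∪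
            Set.range (lc B fun i : Fin (n + 3) => (ρ ^ (2 * m)) (ξ i.succ))))) E ≤
        9 * d₁ * d₂ := by
    intro u A B
    have h := hT K E (n + 2) (n + 1) 1 ξ hξ rfl ρ m u A B
    rw [pow_one] at h
    rw [h1, h2]
    exact h
  have q2 : ∀ (u : K) (A : Fin n → Fin (n + 3) → K) (B : Fin 2 → Fin (n + 3) → K),
      Module.finrank (IntermediateField.adjoin K
        (insert (Tu K u (fun i : Fin (n + 3) => (ρ ^ m) (ξ i.succ)))
          (Set.range (lc A fun i : Fin (n + 3) => ξ i.succ) ∪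
            Set.range (lc B fun i : Fin (n + 3) => (ρ ^ (2 * m)) (ξ i.succ))))) E ≤
        64 * d₁ ^ 2 * d₃ := by
    intro u A B
    have h := hT K E (n + 2) n 2 ξ hξ rfl ρ m u A B
    rw [h1, h3]
    exact h
  constructor
  · refine Set.Finite.subset (Set.finite_singleton (0 : K)) ?_
    intro u hu
    by_contra hne
    apply hu
    have hne' : u ≠ 0 := fun h => hne (by rw [h]; rfl)
    obtain ⟨i₀, hi⟩ := hS K E (n + 1) 0 ξ hξ ρ m Z₀ hZ hI u (9 * d₁ * d₂) (2 * d₁) hne'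
      (Nat.succ_le_of_lt (by positivity)) (Nat.succ_le_of_lt (by positivity)) (q1 u) (q0 u)
    refine ⟨i₀, fun i hi' => ?_⟩
    have h := hi i hi'
    have e1 : 4 * (n + 1 + 1) * (9 * d₁ * d₂) * i = 36 * (n + 2) * d₁ * d₂ * i := by ring
    have e2 : 4 * (0 + 1) * (2 * d₁) * i = 8 * d₁ * i := by ring
    rw [e1, e2] at h
    rw [h4]
    exact h
  · refine Set.Finite.subset (Set.finite_singleton (0 : K)) ?_
    intro u hu
    by_contra hne
    apply hu
    have hne' : u ≠ 0 := fun h => hne (by rw [h]; rfl)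
    obtain ⟨i₀, hi⟩ := hS K E n 1 ξ hξ ρ m Z₀ hZ hI u (64 * d₁ ^ 2 * d₃) (9 * d₁ * d₂) hne'
      (Nat.succ_le_of_lt (by positivity)) (Nat.succ_le_of_lt (by positivity)) (q2 u) (q1 u)
    refine ⟨i₀, fun i hi' => ?_⟩
    have h := hi i hi'
    have e1 : 4 * (n + 1) * (64 * d₁ ^ 2 * d₃) * i = 256 * (n + 1) * d₁ ^ 2 * d₃ * i := by ring
    have e2 : 4 * (1 + 1) * (9 * d₁ * d₂) * i = 72 * d₁ * d₂ * i := by ring
    rw [e1, e2] at h
    rw [h5]
    exact h

end Pool.Agent.Lib.MP_16285c_agX
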