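import Pool.Agent.Lib.MP_16285c_agP.SpecA

/-!
# (UBH) The upper bound for two blocks of functions over a field of transcendence codimension one less
-/

set_option autoImplicit false

namespace Pool.Agent.Lib.MP_16285c_agX

open Pool.Agent.Lib.MP_16285c_ag Pool.Agent.Lib.MP_16285c_agN

namespace PUBHM

open scoped IntermediateField.algebraAdjoinAdjoin

section Poly

variable {κ E : Type} [Field κ] [Field E] [Algebra κ E]

/-- The two blocks of indices as one block. -/
def eqv (a b : ℕ) : Fin (a + 1) ⊕ Fin (b + 1) ≃ Fin (a + b + 1 + 1) :=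
  finSumFinEquiv.trans (finCongr (by omega))

/-- The two blocks as one family. -/
def wv {a b : ℕ} (u : Fin (a + 1) → E) (v : Fin (b + 1) → E) (i : Fin (a + b + 1 + 1)) : E :=
  Sum.elim u v ((eqv a b).symm i)

theorem wv_eqv {a b : ℕ} (u : Fin (a + 1) → E) (v : Fin (b + 1) → E)
    (i : Fin (a + 1) ⊕ Fin (b + 1)) : wv u v (eqv a b i) = Sum.elim u v i := by
  unfold wv
  rw [Equiv.symm_apply_apply]

theorem range_wv {a b : ℕ} (u : Fin (a + 1) → E) (v : Fin (b + 1) → E) :
    Set.range (wv u v) = Set.range u ∪ Set.range v := by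
  have h : wv u v = Sum.elim u v ∘ (eqv a b).symm := rfl
  rw [h, (eqv a b).symm.surjective.range_comp, Set.Sum.elim_range]

/-- Polynomials in two blocks of variables. -/
noncomputable def Tq (κ : Type) [Field κ] (a b : ℕ) :
    MvPolynomial (Fin (a + 1)) (MvPolynomial (Fin (b + 1)) κ) ≃ₐ[κ]
      MvPolynomial (Fin (a + b + 1 + 1)) κ :=
  (MvPolynomial.sumAlgEquiv κ (Fin (a + 1)) (Fin (b + 1))).symm.trans
    (MvPolynomial.renameEquiv κ (eqv a b))

/-- The value of a polynomial in two blocks of variables. -/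
noncomputable def ev2 {a b : ℕ} (u : Fin a → E) (v : Fin b → E) :
    MvPolynomial (Fin a) (MvPolynomial (Fin b) κ) →+* E :=
  MvPolynomial.eval₂Hom ((MvPolynomial.aeval v : MvPolynomial (Fin b) κ →ₐ[κ] E) :
    MvPolynomial (Fin b) κ →+* E) u

theorem ev2_C {a b : ℕ} (u : Fin a → E) (v : Fin b → E) (c : MvPolynomial (Fin b) κ) :
    ev2 u v (MvPolynomial.C c) = MvPolynomial.aeval v c := by
  unfold ev2
  rw [MvPolynomial.eval₂Hom_C]
  rfl

theorem ev2_X {a b : ℕ} (u : Fin a → E) (v : Fin b → E) (i : Fin a) :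
    ev2 (κ := κ) u v (MvPolynomial.X i) = u i := by
  unfold ev2
  rw [MvPolynomial.eval₂Hom_X']

theorem aev_Tq {a b : ℕ} (u : Fin (a + 1) → E) (v : Fin (b + 1) → E)
    (R : MvPolynomial (Fin (a + 1)) (MvPolynomial (Fin (b + 1)) κ)) :
    MvPolynomial.aeval (wv u v) (Tq κ a b R) = ev2 u v R := by
  induction R using MvPolynomial.induction_on with
  | C c =>
    rw [ev2_C]
    induction c using MvPolynomial.induction_on with
    | C r =>
      rw [Tq, AlgEquiv.trans_apply, MvPolynomial.sumAlgEquiv_symm_C_C, MvPolynomial.renameEquiv_apply,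
        MvPolynomial.rename_C, MvPolynomial.aeval_C, MvPolynomial.aeval_C]
    | add p q hp hq => rw [map_add, map_add, map_add, hp, hq, map_add]
    | mul_X p i hp =>
      rw [map_mul, map_mul, map_mul, hp, map_mul]
      congr 1
      rw [Tq, AlgEquiv.trans_apply, MvPolynomial.sumAlgEquiv_symm_C_X, MvPolynomial.renameEquiv_apply,
        MvPolynomial.rename_X, MvPolynomial.aeval_X, MvPolynomial.aeval_X, wv_eqv]
      rfl
  | add p q hp hq => rw [map_add, map_add, map_add, hp, hq]
  | mul_X p i hp =>
    rw [map_mul, map_mul, map_mul, hp, ev2_X]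
    congr 1
    rw [Tq, AlgEquiv.trans_apply, MvPolynomial.sumAlgEquiv_symm_X, MvPolynomial.renameEquiv_apply,
      MvPolynomial.rename_X, MvPolynomial.aeval_X, wv_eqv]
    rfl

/-- Swapping the blocks. -/
theorem ev2_comm {a b : ℕ} (u : Fin a → E) (v : Fin b → E)
    (R : MvPolynomial (Fin a) (MvPolynomial (Fin b) κ)) :
    ev2 v u (MvPolynomial.commAlgEquiv κ (Fin a) (Fin b) R) = ev2 u v R := by
  induction R using MvPolynomial.induction_on with
  | C c =>
    rw [ev2_C]
    induction c using MvPolynomial.induction_on with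
    | C r =>
      rw [MvPolynomial.commAlgEquiv_C, MvPolynomial.map_C, ev2_C, MvPolynomial.aeval_C,
        MvPolynomial.aeval_C]
    | add p q hp hq => rw [map_add, map_add, map_add, hp, hq, map_add]
    | mul_X p i hp =>
      rw [map_mul, map_mul, map_mul, hp, map_mul, MvPolynomial.commAlgEquiv_C_X, ev2_X,
        MvPolynomial.aeval_X]
  | add p q hp hq => rw [map_add, map_add, map_add, hp, hq]
  | mul_X p i hp =>
    rw [map_mul, map_mul, map_mul, hp, ev2_X, MvPolynomial.commAlgEquiv_X, ev2_C,
      MvPolynomial.aeval_X]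

/-- The coefficients of the swapped polynomial. -/
theorem coeff_comm {a b : ℕ} (R : MvPolynomial (Fin a) (MvPolynomial (Fin b) κ))
    (m : Fin a →₀ ℕ) (n : Fin b →₀ ℕ) :
    ((MvPolynomial.commAlgEquiv κ (Fin a) (Fin b) R).coeff n).coeff m = (R.coeff m).coeff n := by
  induction R using MvPolynomial.induction_on' with
  | monomial s c =>
    induction c using MvPolynomial.induction_on' with
    | monomial t r =>
      have h : MvPolynomial.commAlgEquiv κ (Fin a) (Fin b)
          (MvPolynomial.monomial s (MvPolynomial.monomial t r)) =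
          MvPolynomial.monomial t (MvPolynomial.monomial s r) :=
        AddMonoidAlgebra.commAlgEquiv_single_single _ _ _
      rw [h]
      classical
      rw [MvPolynomial.coeff_monomial, MvPolynomial.coeff_monomial]
      split_ifs with h1 h2 h2
      · rw [MvPolynomial.coeff_monomial, MvPolynomial.coeff_monomial, if_pos h1, if_pos h2]
      · rw [MvPolynomial.coeff_monomial, if_neg h2, MvPolynomial.coeff_zero]
      · rw [MvPolynomial.coeff_monomial, if_neg h1, MvPolynomial.coeff_zero]
      · rfl
    | add p q hp hq =>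
      rw [map_add, map_add, MvPolynomial.coeff_add, MvPolynomial.coeff_add, hp, hq,
        MvPolynomial.coeff_add, MvPolynomial.coeff_add]
  | add p q hp hq =>
    rw [map_add, MvPolynomial.coeff_add, MvPolynomial.coeff_add, hp, hq,
      MvPolynomial.coeff_add, MvPolynomial.coeff_add]

/-- The total degree of a coefficient is at most the total degree of the swapped polynomial. -/
theorem coeff_le {a b : ℕ} (R : MvPolynomial (Fin a) (MvPolynomial (Fin b) κ))
    (m : Fin a →₀ ℕ) :
    (R.coeff m).totalDegree ≤ (MvPolynomial.commAlgEquiv κ (Fin a) (Fin b) R).totalDegree := by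
  rw [MvPolynomial.totalDegree]
  refine Finset.sup_le fun n hn => ?_
  rw [MvPolynomial.mem_support_iff] at hn
  refine MvPolynomial.le_totalDegree ?_
  rw [MvPolynomial.mem_support_iff]
  intro h
  apply hn
  rw [← coeff_comm, h, MvPolynomial.coeff_zero]

end Poly

section Fld

variable {κ E : Type} [Field κ] [Field E] [Algebra κ E]

/-- Degrees over a field generated in two steps. -/
theorem finrank_two (S T : Set E) :
    Module.finrank (IntermediateField.adjoin (IntermediateField.adjoin κ S) T) E =
      Module.finrank (IntermediateField.adjoin κ (S ∪ T)) E := by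
  rw [← IntermediateField.adjoin_adjoin_left κ S T]
  rfl

theorem finite_two (S T : Set E) (h : Module.Finite (IntermediateField.adjoin κ (S ∪ T)) E) :
    Module.Finite (IntermediateField.adjoin (IntermediateField.adjoin κ S) T) E := by
  rw [← IntermediateField.adjoin_adjoin_left κ S T] at h
  exact h

theorem trdeg_adj {s : ℕ} {x : Fin s → E} (hx : AlgebraicIndependent κ x) :
    Algebra.trdeg κ (IntermediateField.adjoin κ (Set.range x)) = s := by
  have h1 : Algebra.trdeg κ (Algebra.adjoin κ (Set.range x)) = s := by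
    rw [← hx.aevalEquiv.trdeg_eq, MvPolynomial.trdeg_of_isDomain]
    simp
  have h2 : Algebra.trdeg (Algebra.adjoin κ (Set.range x))
      (IntermediateField.adjoin κ (Set.range x)) = 0 := trdeg_eq_zero
  rw [← trdeg_add_eq κ (Algebra.adjoin κ (Set.range x))
    (A := IntermediateField.adjoin κ (Set.range x)), h1, h2, add_zero]

theorem trdeg_over {a b : ℕ} {v : Fin (b + 1) → E} (hv : AlgebraicIndependent κ v)
    (htr : Algebra.trdeg κ E = (a + b + 1 : ℕ)) :
    Algebra.trdeg (IntermediateField.adjoin κ (Set.range v)) E = (a : ℕ) := by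
  have h1 := trdeg_add_eq κ (IntermediateField.adjoin κ (Set.range v)) (A := E)
  rw [trdeg_adj hv, htr] at h1
  have h2 : Algebra.trdeg (IntermediateField.adjoin κ (Set.range v)) E < Cardinal.aleph0 := by
    refine lt_of_le_of_lt ?_ (Cardinal.natCast_lt_aleph0 (n := a + b + 1))
    rw [← h1]
    exact self_le_add_left _ _
  obtain ⟨n, hn⟩ := Cardinal.lt_aleph0.1 h2
  rw [hn] at h1 ⊢
  have h3 : b + 1 + n = a + b + 1 := by exact_mod_cast h1
  have h4 : n = a := by omega
  rw [h4]

end Fld

section Main

variable {K E : Type} [Field K] [Infinite K] [Field E] [Algebra K E] (κ : IntermediateField K E)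

/-- The degree of a relation in the variables of the first block. -/
theorem claim (hHyp : StmtHypP) (hGa : StmtGaM) (hPr : StmtPrR) {a b : ℕ}
    (u : Fin (a + 1) → E) (v : Fin (b + 1) → E) (e₁ : ℕ)
    (hfin : Module.Finite (IntermediateField.adjoin κ (Set.range u ∪ Set.range v)) E)
    (htr : Algebra.trdeg κ E = (a + b + 1 : ℕ))
    (h1 : ∀ A : Fin a → Fin (a + 1) → K,
      Module.finrank (IntermediateField.adjoin κ (Set.range (lc A u) ∪ Set.range v)) E ≤ e₁)
    (R : MvPolynomial (Fin (a + 1)) (MvPolynomial (Fin (b + 1)) κ)) (hR : Irreducible R)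
    (hev : ev2 u v R = 0) :
    R.totalDegree * Module.finrank (IntermediateField.adjoin κ (Set.range u ∪ Set.range v)) E ≤
      e₁ := by
  rcases Nat.eq_zero_or_pos R.totalDegree with h0 | h0
  · rw [h0, zero_mul]
    exact Nat.zero_le _
  have hv : AlgebraicIndependent κ v := by
    rw [algebraicIndependent_iff]
    intro Q hQ
    by_contra hQ0
    have h2 : Tq κ a b R ∣ Tq κ a b (MvPolynomial.C Q) := by
      refine hPr κ E (a + b + 1) (wv u v) _ _ htr ?_ ?_ ?_ ?_
      · rw [range_wv]
        exact hfin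
      · exact (MulEquiv.irreducible_iff (Tq κ a b)).2 hR
      · rw [aev_Tq, hev]
      · rw [aev_Tq, ev2_C, hQ]
    have h3 : R ∣ MvPolynomial.C Q := (map_dvd_iff (Tq κ a b)).1 h2
    have h4 := MvPolynomial.totalDegree_le_of_dvd_of_isDomain h3
      (fun h => hQ0 ((MvPolynomial.C_eq_zero (σ := Fin (a + 1))).1 h))
    rw [MvPolynomial.totalDegree_C] at h4
    omega
  obtain ⟨R', hR', hdeg, hR'e⟩ := hGa κ E (a + 1) (b + 1) v hv R hR h0
  have htr2 := trdeg_over hv htr
  have hfin2 : Module.Finite (IntermediateField.adjoin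
      (IntermediateField.adjoin κ (Set.range v)) (Set.range u)) E := by
    refine finite_two _ _ ?_
    rw [Set.union_comm]
    exact hfin
  have hst : IsScalarTower K (IntermediateField.adjoin κ (Set.range v)) E :=
    IsScalarTower.of_algebraMap_eq fun x => rfl
  obtain ⟨A, hA⟩ := (hHyp K (IntermediateField.adjoin κ (Set.range v)) E a u R' hR'
    ((hR'e u).trans hev) htr2 hfin2).2
  rw [finrank_two, finrank_two, hdeg, Set.union_comm (Set.range v) (Set.range u),
    Set.union_comm (Set.range v) (Set.range (lc A u))] at hA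
  exact hA.trans (h1 A)

/-- There is an irreducible relation. -/
theorem exists_rel {a b : ℕ} (u : Fin (a + 1) → E) (v : Fin (b + 1) → E)
    (htr : Algebra.trdeg κ E = (a + b + 1 : ℕ)) :
    ∃ R : MvPolynomial (Fin (a + 1)) (MvPolynomial (Fin (b + 1)) κ), Irreducible R ∧
      ev2 u v R = 0 := by
  have h1 : ¬ AlgebraicIndependent κ (wv u v) := by
    intro h
    have h2 := h.cardinalMk_le_trdeg
    rw [htr, Cardinal.mk_fin] at h2
    have h3 : a + b + 1 + 1 ≤ a + b + 1 := by exact_mod_cast h2
    omega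
  rw [algebraicIndependent_iff] at h1
  push Not at h1
  obtain ⟨P, hP, hP0⟩ := h1
  set I : Ideal (MvPolynomial (Fin (a + b + 1 + 1)) κ) :=
    RingHom.ker (MvPolynomial.aeval (wv u v) : MvPolynomial (Fin (a + b + 1 + 1)) κ →ₐ[κ] E) with hI
  have hIp : I.IsPrime := RingHom.ker_isPrime _
  have hI0 : I ≠ ⊥ := by
    intro h
    have h2 : P ∈ I := hP
    rw [h] at h2
    exact hP0 h2
  obtain ⟨Q, hQ, hQp⟩ := hIp.exists_mem_prime_of_ne_bot hI0
  refine ⟨(Tq κ a b).symm Q, ?_, ?_⟩
  · exact (MulEquiv.irreducible_iff (Tq κ a b).symm).2 hQp.irreducible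
  · rw [← aev_Tq, AlgEquiv.apply_symm_apply]
    exact hQ

end Main

end PUBHM

open PUBHM in
/-- (UBH) -/
theorem pUBH : StmtHypP → StmtGaM → StmtPrR → StmtHilR → StmtUpUV → StmtUBH := by
  intro hHyp hGa hPr hHil hUp K E _ _ _ _ κ a b u v e₁ e₂ hfin htr h1 h2 W hW
  obtain ⟨R, hR, hev⟩ := exists_rel κ u v htr
  have hα := claim κ hHyp hGa hPr u v e₁ hfin htr h1 R hR hev
  set R' := MvPolynomial.commAlgEquiv κ (Fin (a + 1)) (Fin (b + 1)) R with hR'
  have hβ : R'.totalDegree *
      Module.finrank (IntermediateField.adjoin κ (Set.range u ∪ Set.range v)) E ≤ e₂ := by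
    rw [Set.union_comm]
    refine claim κ hHyp hGa hPr v u e₂ ?_ ?_ ?_ R' ?_ ?_
    · rw [Set.union_comm]
      exact hfin
    · rw [htr, Nat.add_comm a b]
    · intro B
      rw [Set.union_comm]
      exact h2 B
    · exact (MulEquiv.irreducible_iff
        (MvPolynomial.commAlgEquiv κ (Fin (a + 1)) (Fin (b + 1)))).2 hR
    · rw [hR', ev2_comm, hev]
  obtain ⟨C, hC⟩ := hUp κ E (a + 1) (b + 1) u v W hW hfin
  refine ⟨C, fun p j => (hC p j).trans ?_⟩
  have h3 := hHil κ E a b u v R R.totalDegree R'.totalDegree hR.ne_zero hev le_rfl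
    (fun m => coeff_le R m) (p + C) (j + C)
  refine (Nat.mul_le_mul_left _ h3).trans ?_
  set D := Module.finrank (IntermediateField.adjoin κ (Set.range u ∪ Set.range v)) E with hD
  calc D * (R.totalDegree * cnt a (p + C) * cnt (b + 1) (j + C) +
        R'.totalDegree * cnt (a + 1) (p + C) * cnt b (j + C))
      = (R.totalDegree * D) * cnt a (p + C) * cnt (b + 1) (j + C) +
        (R'.totalDegree * D) * cnt (a + 1) (p + C) * cnt b (j + C) := by ring
    _ ≤ e₁ * cnt a (p + C) * cnt (b + 1) (j + C) + e₂ * cnt (a + 1) (p + C) * cnt b (j + C) := by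
      gcongr

end Pool.Agent.Lib.MP_16285c_agX
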