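import Pool.Agent.Lib.MP_16285c_agP.SpecA
import Pool.Agent.Lib.MP_16285c_agN.Degr.Up
import Pool.Agent.Lib.MP_16285c_agN.Degr.Vd

/-!
# Upper bounds for two blocks of variables (UpUV)
-/

set_option autoImplicit false

namespace Pool.Agent.Lib.MP_16285c_agX

open Pool.Agent.Lib.MP_16285c_ag Pool.Agent.Lib.MP_16285c_agN

namespace PUpUVM

open DegrUpM

section

variable {κ F : Type} [Field κ] [Field F] [Algebra κ F]

/-- Monomials of bounded degree. -/
theorem prod_mem {s : ℕ} (l : Fin s → F) (d : Fin s → ℕ) (C : ℕ) (h : ∑ i, d i ≤ C) :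
    ∏ i, l i ^ d i ∈ Vd κ l C := by
  refine (mem_Vd l).2 ⟨∏ i, MvPolynomial.X i ^ d i, ?_, ?_⟩
  · refine (MvPolynomial.totalDegree_finset_prod _ _).trans (le_trans ?_ h)
    refine Finset.sum_le_sum fun i _ => ?_
    refine (MvPolynomial.totalDegree_pow _ _).trans ?_
    rw [MvPolynomial.totalDegree_X, mul_one]
  · rw [map_prod]
    refine Finset.prod_congr rfl fun i _ => ?_
    rw [map_pow, MvPolynomial.aeval_X]

/-- Polynomials in two blocks of variables. -/
theorem Vd_append {a b : ℕ} (u : Fin a → F) (v : Fin b → F) (C : ℕ) :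
    Vd κ (Fin.append u v) C ≤ Vd κ u C * Vd κ v C := by
  intro z hz
  obtain ⟨p, hp, rfl⟩ := (mem_Vd _).1 hz
  rw [MvPolynomial.aeval_def, MvPolynomial.eval₂_eq']
  refine Submodule.sum_mem _ fun d hd => ?_
  rw [← Algebra.smul_def]
  refine Submodule.smul_mem _ _ ?_
  have h1 : ∑ i, d i ≤ C := by
    have h2 := (MvPolynomial.le_totalDegree hd).trans hp
    rwa [Finsupp.sum_fintype _ _ fun _ => rfl] at h2
  rw [Fin.sum_univ_add] at h1
  rw [Fin.prod_univ_add]
  refine Submodule.mul_mem_mul ?_ ?_
  · simp only [Fin.append_left]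
    exact prod_mem u (fun i => d (Fin.castAdd b i)) C (by omega)
  · simp only [Fin.append_right]
    exact prod_mem v (fun i => d (Fin.natAdd a i)) C (by omega)

theorem range_append {a b : ℕ} (u : Fin a → F) (v : Fin b → F) :
    Set.range u ∪ Set.range v = Set.range (Fin.append u v) := by
  ext z
  constructor
  · rintro (⟨i, rfl⟩ | ⟨i, rfl⟩)
    · exact ⟨Fin.castAdd b i, Fin.append_left u v i⟩
    · exact ⟨Fin.natAdd a i, Fin.append_right u v i⟩
  · rintro ⟨i, rfl⟩
    refine Fin.addCases (fun j => ?_) (fun j => ?_) i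
    · rw [Fin.append_left]
      exact Or.inl ⟨j, rfl⟩
    · rw [Fin.append_right]
      exact Or.inr ⟨j, rfl⟩

/-- The linear combinations of the `η j` with coefficients in `V`. -/
noncomputable def cmbV {e : ℕ} (V : Submodule κ F) (η : Fin e → F) : (Fin e → V) →ₗ[κ] F where
  toFun t := ∑ j, (t j : F) * η j
  map_add' t t' := by
    simp only [Pi.add_apply, Submodule.coe_add, add_mul, Finset.sum_add_distrib]
  map_smul' c t := by
    simp only [Pi.smul_apply, Submodule.coe_smul, Algebra.smul_mul_assoc, Finset.smul_sum,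
      RingHom.id_apply]

theorem Vd_mul_le (l : ℕ) (x : Fin l → F) (p C : ℕ) : Vd κ x p * Vd κ x C ≤ Vd κ x (p + C) := by
  rw [Submodule.mul_le]
  intro z hz w hw
  exact Vd_mul x hz hw

end

end PUpUVM

open PUpUVM DegrUpM in
theorem pUpUV : StmtUpUV := by
  intro κ E _ _ _ a b u v W hW
  rw [range_append u v]
  intro hF
  have := hF
  obtain ⟨q, C, hq, -, hC⟩ := denom (Fin.append u v) W hW
  set η := Module.finBasis (IntermediateField.adjoin κ (Set.range (Fin.append u v))) E with hη
  refine ⟨C, fun p j => ?_⟩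
  obtain ⟨V, hV⟩ : ∃ V : Submodule κ E, V = Vd κ u (p + C) * Vd κ v (j + C) := ⟨_, rfl⟩
  have hu1 : Module.Finite κ (Vd κ u (p + C)) := tVd.1 κ E a u (p + C)
  have hv1 : Module.Finite κ (Vd κ v (j + C)) := tVd.1 κ E b v (j + C)
  have hVf : Module.Finite κ V := by
    rw [hV]
    exact Module.Finite.iff_fg.2 ((Module.Finite.iff_fg.1 hu1).mul (Module.Finite.iff_fg.1 hv1))
  obtain ⟨M, hM⟩ : ∃ M : Submodule κ E, M = LinearMap.range (cmbV V fun i => η i) := ⟨_, rfl⟩
  have hMf : Module.Finite κ M := by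
    rw [hM]
    exact Module.Finite.range _
  have hm : ∀ z ∈ W * Vd κ u p * Vd κ v j, q * z ∈ M := by
    intro z hz
    refine Submodule.mul_induction_on hz (fun w' hw' y hy => ?_) fun v₁ v₂ h₁ h₂ => ?_
    · refine Submodule.mul_induction_on hw' (fun w hw x hx => ?_) fun v₁ v₂ h₁ h₂ => ?_
      · obtain ⟨t, ht, hte⟩ := (mem_Nn _ _).1 (hC w hw)
        have h1 : ∀ i, x * y * t i ∈ V := by
          intro i
          rw [hV]
          have h2 : x * y * t i ∈ (Vd κ u p * Vd κ v j) * (Vd κ u C * Vd κ v C) :=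
            Submodule.mul_mem_mul (Submodule.mul_mem_mul hx hy) (Vd_append u v C (ht i))
          have h3 : (Vd κ u p * Vd κ v j) * (Vd κ u C * Vd κ v C) =
              (Vd κ u p * Vd κ u C) * (Vd κ v j * Vd κ v C) := by
            rw [mul_mul_mul_comm]
          rw [h3] at h2
          exact mul_le_mul' (Vd_mul_le a u p C) (Vd_mul_le b v j C) h2
        rw [hM]
        refine ⟨fun i => ⟨x * y * t i, h1 i⟩, ?_⟩
        change ∑ i, x * y * t i * η i = q * (w * x * y)
        have h4 : q * (w * x * y) = x * y * (q * w) := by ring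
        rw [h4, ← hte, Finset.mul_sum]
        exact Finset.sum_congr rfl fun i _ => by ring
      · have e : q * ((v₁ + v₂) * y) = q * (v₁ * y) + q * (v₂ * y) := by ring
        rw [e]
        exact Submodule.add_mem _ h₁ h₂
    · rw [mul_add]
      exact Submodule.add_mem _ h₁ h₂
  have h3 : Module.finrank κ (W * Vd κ u p * Vd κ v j : Submodule κ E) ≤ Module.finrank κ M := by
    refine LinearMap.finrank_le_finrank_of_injective
      (f := (LinearMap.mulLeft κ q).restrict (p := W * Vd κ u p * Vd κ v j) (q := M)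
        fun z hz => hm z hz) fun x y hxy => ?_
    have h4 := congrArg Subtype.val hxy
    exact Subtype.ext (mul_left_cancel₀ hq h4)
  have h5 : Module.finrank κ M ≤
      Module.finrank (IntermediateField.adjoin κ (Set.range (Fin.append u v))) E *
        Module.finrank κ V := by
    rw [hM]
    refine (LinearMap.finrank_range_le _).trans (le_of_eq ?_)
    rw [Module.finrank_pi_fintype, Finset.sum_const, Finset.card_univ, Fintype.card_fin, smul_eq_mul]
  rw [← hV]
  exact h3.trans h5

end Pool.Agent.Lib.MP_16285c_agX
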