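import Pool.Agent.Lib.MP_16285c_agX.T3.AllX
import Pool.Agent.Lib.MP_16285c_agP.BZG
import Pool.Agent.Lib.MP_16285c_agP.CfAn
import Pool.Agent.Lib.MP_16285c_agP.CfDn
import Pool.Agent.Lib.MP_16285c_agP.CmpG
import Pool.Agent.Lib.MP_16285c_agP.CntC
import Pool.Agent.Lib.MP_16285c_agP.Dg1n
import Pool.Agent.Lib.MP_16285c_agP.DgBn
import Pool.Agent.Lib.MP_16285c_agP.ETn
import Pool.Agent.Lib.MP_16285c_agP.FekP
import Pool.Agent.Lib.MP_16285c_agP.GaM
import Pool.Agent.Lib.MP_16285c_agP.HilR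
import Pool.Agent.Lib.MP_16285c_agP.HtP
import Pool.Agent.Lib.MP_16285c_agP.HypP
import Pool.Agent.Lib.MP_16285c_agP.LbP
import Pool.Agent.Lib.MP_16285c_agP.NumP
import Pool.Agent.Lib.MP_16285c_agP.PrR
import Pool.Agent.Lib.MP_16285c_agP.RatesP
import Pool.Agent.Lib.MP_16285c_agP.RecP
import Pool.Agent.Lib.MP_16285c_agP.SecP
import Pool.Agent.Lib.MP_16285c_agP.SecPI
import Pool.Agent.Lib.MP_16285c_agP.UBH
import Pool.Agent.Lib.MP_16285c_agP.UpUV

/-!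
# Varieties with `λ_r < λ₁` for `r ≥ 3`: closed forms of part A (ZDP)
-/

set_option autoImplicit false

namespace Pool.Agent.Lib.MP_16285c_agX

open Pool.Agent.Lib.MP_16285c_ag Pool.Agent.Lib.MP_16285c_agN

theorem zBZG : StmtBZG := pBZG tNN tUpF (tXUpW tVd)

theorem zCfAn : StmtCfAn := pCfAn pHypP pGaM

theorem zCfDn : StmtCfDn := pCfDn zCfAn

theorem zDg1n : StmtDg1n := pDg1n (pDgBn zBZG)

theorem zETn : StmtETn := pETn zDg1n zCfDn zBZG

theorem zUBH : StmtUBH := pUBH pHypP pGaM pPrR (pHilR pCntC) pUpUV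

theorem zSecP : StmtSecP := pSecP zUBH pLbP (pNumP pCntC) zDg1n

theorem zSecPI : StmtSecPI := pSecPI zSecP zETn zDg1n

theorem zRecP : StmtRecP := pRecP zSecPI tHtP zDg1n

theorem zRatesP : StmtRatesP := pRatesP pFekP

theorem zCmpG : StmtCmpG := pCmpG zBZG

end Pool.Agent.Lib.MP_16285c_agX
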