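import Pool.Agent.Lib.MP_16285c_agP.SpecZ

/-!
# MP_16285c, ZDP, section G: transcendence degree and finiteness over `K(u)` (proof of `StmtFtZ`)
-/

set_option autoImplicit false

namespace Pool.Agent.Lib.MP_16285c_agX

open Pool.Agent.Lib.MP_16285c_ag Pool.Agent.Lib.MP_16285c_agN
open Pool.Agent.Lib.MP_16285c_agS (toF)

namespace PFtZM

open scoped IntermediateField.algebraAdjoinAdjoin in
/-- The transcendence degree of a purely transcendental field. -/
theorem trdeg_adjoin {K E : Type} [Field K] [Field E] [Algebra K E] {q : ℕ} {u : Fin q → E}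
    (hu : AlgebraicIndependent K u) :
    Algebra.trdeg K (IntermediateField.adjoin K (Set.range u)) = q := by
  have h0 : Algebra.trdeg K (Algebra.adjoin K (Set.range u)) = q := by
    rw [← hu.aevalEquiv.trdeg_eq, MvPolynomial.trdeg_of_isDomain]
    simp
  have h1 := trdeg_add_eq K (Algebra.adjoin K (Set.range u))
    (A := IntermediateField.adjoin K (Set.range u))
  have h3 : Algebra.IsAlgebraic (Algebra.adjoin K (Set.range u))
      (IntermediateField.adjoin K (Set.range u)) := IsLocalization.isAlgebraic _
      (nonZeroDivisors (Algebra.adjoin K (Set.range u)))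
  have h4 : Algebra.trdeg (Algebra.adjoin K (Set.range u))
      (IntermediateField.adjoin K (Set.range u)) = 0 := trdeg_eq_zero
  rw [h4, add_zero, h0] at h1
  exact h1.symm

theorem part1 (K E : Type) [Field K] [Field E] [Algebra K E] (n q : ℕ) (u : Fin q → E)
    (hn : Algebra.trdeg K E = n) (hu : AlgebraicIndependent K u) :
    ∃ c : ℕ, q + c = n ∧ Algebra.trdeg (IntermediateField.adjoin K (Set.range u)) E = c := by
  have h1 := trdeg_add_eq K (IntermediateField.adjoin K (Set.range u)) (A := E)
  rw [trdeg_adjoin hu, hn] at h1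
  have h2 : Algebra.trdeg (IntermediateField.adjoin K (Set.range u)) E < Cardinal.aleph0 := by
    refine lt_of_le_of_lt (self_le_add_left _ (q : Cardinal)) ?_
    rw [h1]
    exact Cardinal.natCast_lt_aleph0
  obtain ⟨c, hc⟩ := Cardinal.lt_aleph0.1 h2
  rw [hc] at h1
  exact ⟨c, by exact_mod_cast h1, hc⟩

/-- Algebraic elements and ring homomorphisms. -/
theorem alg_map {A B E : Type} [Field A] [Field B] [Field E] [Algebra A E] [Algebra B E]
    (f : A →+* B) (τ : E →+* E) (h : ∀ a, algebraMap B E (f a) = τ (algebraMap A E a)) {z : E}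
    (hz : IsAlgebraic A z) : IsAlgebraic B (τ z) := by
  obtain ⟨p, hp, hpz⟩ := hz
  refine ⟨p.map f, (Polynomial.map_ne_zero_iff f.injective).2 hp, ?_⟩
  rw [Polynomial.aeval_def, Polynomial.eval₂_map]
  have h1 : (algebraMap B E).comp f = τ.comp (algebraMap A E) := RingHom.ext h
  rw [h1, ← Polynomial.hom_eval₂, ← Polynomial.aeval_def, hpz, map_zero]

/-- Finitely many algebraic generators. -/
theorem fin_of_alg {F E : Type} [Field F] [Field E] [Algebra F E] (S : Set E) (hS : S.Finite)
    (htop : ∀ z : E, z ∈ IntermediateField.adjoin F S) (halg : ∀ z : E, IsAlgebraic F z) :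
    Module.Finite F E := by
  have : Finite S := hS
  have h1 : FiniteDimensional F (IntermediateField.adjoin F S) :=
    IntermediateField.finiteDimensional_adjoin fun z _ => (halg z).isIntegral
  have h2 : IntermediateField.adjoin F S = ⊤ := eq_top_iff.2 fun z _ => htop z
  rw [h2] at h1
  exact Module.Finite.equiv (IntermediateField.topEquiv (F := F) (E := E)).toLinearEquiv

theorem part2 (hG1 : StmtG1) (hTB : StmtTB) (K : Type) [Field K] (n : ℕ) (P : Pl (n + 1) K)
    [(Ideal.span {P}).IsPrime] (hM : MonZ P) (E : Type) [Field E] [Algebra (CR (Ideal.span {P})) E]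
    [IsFractionRing (CR (Ideal.span {P})) E] [Algebra K E]
    [IsScalarTower K (CR (Ideal.span {P})) E] (ρ : E →ₐ[K] E) (κ : IntermediateField K E) :
    Module.Finite (IntermediateField.adjoin κ
      (Set.range fun l : Fin n => ρ (toF (Ideal.span {P}) E (MvPolynomial.X l.succ)))) E := by
  obtain ⟨F, hF⟩ : ∃ F : IntermediateField κ E, F = IntermediateField.adjoin κ
    (Set.range fun l : Fin n => ρ (toF (Ideal.span {P}) E (MvPolynomial.X l.succ))) := ⟨_, rfl⟩
  rw [← hF]
  have hKF : ∀ c : K, algebraMap K E c ∈ F := fun c =>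
    F.algebraMap_mem (⟨algebraMap K E c, κ.algebraMap_mem c⟩ : κ)
  have hx : ∀ l : Fin n, ρ (toF (Ideal.span {P}) E (MvPolynomial.X l.succ)) ∈ F := by
    intro l
    rw [hF]
    exact IntermediateField.subset_adjoin _ _ ⟨l, rfl⟩
  -- the elements of the range of `ρ`
  have h1 : ∀ e : E, IsAlgebraic F (ρ e) := by
    intro e
    have h2 := hTB.2.2.1 K n P (Ideal.span {P}) hM (Ideal.subset_span rfl) E
    have h3 : IntermediateField.adjoin K
        (Set.range fun j : Fin n => toF (Ideal.span {P}) E (MvPolynomial.X j.succ)) ≤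
        (F.restrictScalars K).comap ρ := by
      rw [IntermediateField.adjoin_le_iff]
      rintro _ ⟨l, rfl⟩
      exact hx l
    exact alg_map (RingHom.codRestrict ((ρ : E →+* E).comp (algebraMap (IntermediateField.adjoin K
      (Set.range fun j : Fin n => toF (Ideal.span {P}) E (MvPolynomial.X j.succ))) E)) F
        fun a => h3 a.2) (ρ : E →+* E) (fun a => rfl) (Algebra.IsAlgebraic.isAlgebraic e)
  -- all elements
  have h4 : ∀ z : E, IsAlgebraic F z := by
    intro z
    have h5 := hG1.1 K (n + 1) (Ideal.span {P}) E ρ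
    have h6 : ∀ a : ρ.fieldRange, (a : E) ∈ algebraicClosure F E := by
      rintro ⟨_, ⟨e, rfl⟩⟩
      exact mem_algebraicClosure_iff.2 (h1 e)
    have h7 : IsAlgebraic (algebraicClosure F E) z :=
      alg_map (RingHom.codRestrict (algebraMap ρ.fieldRange E) (algebraicClosure F E) h6)
        (RingHom.id E) (fun a => rfl) (Algebra.IsAlgebraic.isAlgebraic (R := ρ.fieldRange) z)
    have h8 : Algebra.IsAlgebraic F (algebraicClosure F E) := inferInstance
    exact h7.restrictScalars F
  refine fin_of_alg (Set.range fun i : Fin (n + 1) => toF (Ideal.span {P}) E (MvPolynomial.X i))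
    (Set.finite_range _) ?_ h4
  have h9 : ∀ G : Pl (n + 1) K, toF (Ideal.span {P}) E G ∈ IntermediateField.adjoin F
      (Set.range fun i : Fin (n + 1) => toF (Ideal.span {P}) E (MvPolynomial.X i)) := by
    intro G
    induction G using MvPolynomial.induction_on with
    | C c =>
      have h10 : toF (Ideal.span {P}) E (MvPolynomial.C c) = algebraMap K E c := by
        rw [IsScalarTower.algebraMap_apply K (CR (Ideal.span {P})) E]
        rfl
      rw [h10]
      exact (IntermediateField.adjoin F _).algebraMap_mem (⟨_, hKF c⟩ : F)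
    | add a b ha hb =>
      rw [map_add]
      exact add_mem ha hb
    | mul_X a i ha =>
      rw [map_mul]
      exact mul_mem ha (IntermediateField.subset_adjoin _ _ ⟨i, rfl⟩)
  intro z
  obtain ⟨b, c, -, hbc⟩ := IsFractionRing.div_surjective (A := CR (Ideal.span {P})) z
  obtain ⟨B, rfl⟩ := Ideal.Quotient.mk_surjective b
  obtain ⟨C, rfl⟩ := Ideal.Quotient.mk_surjective c
  rw [← hbc]
  exact div_mem (h9 B) (h9 C)

end PFtZM

open PFtZM

/-- Proof of `StmtFtZ`. -/
theorem tFtZ : StmtG1 → StmtTB → StmtFtZ := fun hG1 hTB =>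
  ⟨part1, part2 hG1 hTB⟩

end Pool.Agent.Lib.MP_16285c_agX
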