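import Pool.Agent.Lib.MP_16285c_agP.SpecD
import Pool.Agent.Lib.MP_16285c_agP.DgBn
import Pool.Agent.Lib.MP_16285c_agX.T3.CmpX
import Pool.Agent.Lib.MP_16285c_agX.T3.DgS

/-!
# Comparison of the degrees in different coordinates (all dimensions)

Proof of `StmtCmpXn`.
-/

set_option autoImplicit false

namespace Pool.Agent.Lib.MP_16285c_agX

open Pool.Agent.Lib.MP_16285c_ag Pool.Agent.Lib.MP_16285c_agN

namespace PCmpXnM

open T3CmpXM (trd fin_ind ind_fin finrank_two fin_two range_one lc_map pow_comm rp_poly rp_zero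
  rp_smul rp_pow rp_sum)

variable {K E : Type} [Field K] [Field E] [Algebra K E]

/-- Bezout on a curve. -/
theorem bz1 (hBZ : StmtBZG) : StmtBZ1 := by
  intro K E _ _ _ _ κ n y w d e₁ hf hA hd hD hw
  have h1 := hBZ K E κ n 1 y (fun _ => w) (fun _ => d) e₁ hf hA (fun _ => hd) (fun _ => hD)
    ((algebraicIndependent_unique_type_iff (x := fun _ : Fin 1 => w)).2 hw)
  rw [range_one (fun _ : Fin 1 => w)] at h1
  refine h1.trans (le_of_eq ?_)
  simp

/-- A common denominator. -/
theorem den (hR : StmtRpA) {n : ℕ} (x : Fin n → E) (hx : AlgebraicIndependent K x)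
    (hf : Module.Finite (IntermediateField.adjoin K (Set.range x)) E) {s : ℕ} (g : Fin s → E) :
    ∃ (b : E) (D : ℕ), b ≠ 0 ∧ 1 ≤ D ∧ Rp K x D b ∧ ∀ i, Rp K x D (b * g i) := by
  classical
  have alg : Algebra.IsAlgebraic (Algebra.adjoin K (Set.range x)) E :=
    T3DgBM.alg_of_adjoin _ inferInstance
  obtain ⟨y, hy, hi⟩ := Algebra.IsAlgebraic.exists_integral_multiples
    (Algebra.adjoin K (Set.range x)) (A := E) (Finset.univ.image g)
  have hb : (y : E) ≠ 0 := fun h => hy (Subtype.ext h)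
  have hcomp : ((MvPolynomial.aeval x : Pl n K →ₐ[K] E) : Pl n K →+* E).comp
      (hx.aevalEquiv.symm : Algebra.adjoin K (Set.range x) →+* Pl n K) =
      algebraMap (Algebra.adjoin K (Set.range x)) E := by
    ext z
    have h1 := hx.algebraMap_aevalEquiv (hx.aevalEquiv.symm z)
    rw [AlgEquiv.apply_symm_apply] at h1
    exact h1.symm
  have hint : ∀ i, Intx K x ((y : E) * g i) := by
    intro i
    obtain ⟨F, hF, h0⟩ := hi (g i) (Finset.mem_image_of_mem g (Finset.mem_univ i))
    refine ⟨F.map (hx.aevalEquiv.symm : Algebra.adjoin K (Set.range x) →+* Pl n K),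
      hF.map _, ?_⟩
    rw [Polynomial.eval₂_map, hcomp]
    exact h0
  have hR5 := (hR K E n x).2.2.2.2
  have hmono := (hR K E n x).2.2.2.1
  choose e he using fun i => hR5 _ (hint i)
  obtain ⟨G, hG⟩ : ∃ G : Pl n K, MvPolynomial.aeval x G = (y : E) := by
    have h1 := hx.algebraMap_aevalEquiv (hx.aevalEquiv.symm y)
    rw [AlgEquiv.apply_symm_apply] at h1
    exact ⟨_, h1.symm⟩
  refine ⟨y, 1 + G.totalDegree + ∑ i, e i, hb, by omega, ?_, fun i => ?_⟩
  · rw [← hG]
    exact hmono _ _ _ (by omega) (rp_poly hR x G)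
  · refine hmono _ _ _ ?_ (he i)
    have h2 : e i ≤ ∑ i, e i := Finset.single_le_sum (fun _ _ => Nat.zero_le _) (Finset.mem_univ i)
    omega

/-- Linear combinations of the `g i` are functions of degree `≤ D`. -/
theorem dge_of [CharZero K] (hR : StmtRpA) (hD : StmtRpD) {n : ℕ} (x : Fin n → E)
    (hx : AlgebraicIndependent K x)
    (hf : Module.Finite (IntermediateField.adjoin K (Set.range x)) E) {s : ℕ} (g : Fin s → E) (b : E)
    (D : ℕ) (hb : b ≠ 0) (h1 : Rp K x D b) (h2 : ∀ i, Rp K x D (b * g i)) {r : ℕ}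
    (B : Fin r → Fin s → K) (k : Fin r) : Dge K x (lc B g k) D := by
  obtain ⟨W, hW, hmem⟩ := hD K E n x hx hf
  refine ⟨b, hb, W, hW, fun a i hia => hmem _ _ ?_⟩
  have h3 : Rp K x D (b * lc B g k) := by
    have h4 : b * lc B g k = ∑ j, algebraMap K E (B k j) * (b * g j) := by
      rw [lc, Finset.mul_sum]
      exact Finset.sum_congr rfl fun j _ => by ring
    rw [h4]
    exact rp_sum hR x D _ fun j => rp_smul hR x D _ _ (h2 j)
  have h5 : b ^ a * lc B g k ^ i = b ^ (a - i) * (b * lc B g k) ^ i := by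
    rw [mul_pow, ← mul_assoc, ← pow_add, Nat.sub_add_cancel hia]
  have h6 := (hR K E n x).2.2.1 _ _ _ _ (rp_pow hR x D b h1 (a - i)) (rp_pow hR x D _ h3 i)
  rw [← mul_add, Nat.sub_add_cancel hia] at h6
  rw [h5]
  exact h6

/-- The sum of functions of degree `≤ d`. -/
theorem dge_sum (hS : StmtDgS) {s : ℕ} (x : Fin s → E) (d : ℕ) {m : ℕ} (v : Fin (m + 1) → E)
    (hv : ∀ j, Dge K x (v j) d) : Dge K x (∑ j, v j) ((m + 1) * d) := by
  induction m with
  | zero =>
    rw [Fin.sum_univ_one, zero_add, one_mul]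
    exact hv 0
  | succ m ih =>
    rw [Fin.sum_univ_castSucc]
    have h1 := ih (fun j => v j.castSucc) (fun j => hv j.castSucc)
    have h2 := hS.1 K E s x _ _ _ _ h1 (hv (Fin.last (m + 1)))
    have h3 : (m + 1) * d + d = (m + 1 + 1) * d := by ring
    rw [h3] at h2
    exact h2

theorem lc_single {n : ℕ} (g : Fin n → E) (j : Fin n) :
    lc (fun _ : Fin 1 => (Pi.single j 1 : Fin n → K)) g 0 = g j := by
  simp [lc, Pi.single_apply]

end PCmpXnM

open PCmpXnM T3CmpXM in
/-- (CmpXn) -/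
theorem pCmpXn : StmtDg1n → StmtCfDn → StmtBZG → StmtCmpXn := by
  intro hDg hCfD hBZ K k _ _ _ _ E E' _ _ _ _ _ _ β n ξ ρ φ hξ hξ' hβ s y
  have hBZ1 : StmtBZ1 := bz1 hBZ
  have hR : StmtRpA := yRpA
  have hRD : StmtRpD := yRpD yRpA (yRpC yRpA yRpB)
  have hDgS : StmtDgS := yDgS
  have hk0 : CharZero k := charZero_of_injective_algebraMap (algebraMap K k).injective
  have hkI : Infinite k := Infinite.of_injective (Nat.cast : ℕ → k) Nat.cast_injective
  obtain ⟨hD1, -, hD3⟩ := hDg K E (n + 1) n 1 ξ hξ rfl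
  obtain ⟨hT1, hT2, -, -⟩ := yDgT
  obtain ⟨hS1, hS2, hS3⟩ := yDgS
  have hfx : Module.Finite (IntermediateField.adjoin K
      (Set.range fun i : Fin (n + 1) => ξ i.succ)) E := fin_ind hξ _ hξ.ai
  set x' : Fin (n + 1) → E' := fun i => β (ξ i.succ) with hx'
  have hai' : AlgebraicIndependent k x' := hξ'.ai
  have hfx' : Module.Finite (IntermediateField.adjoin k (Set.range x')) E' :=
    fin_ind hξ' _ hai'
  set δ : ℕ := Module.finrank (IntermediateField.adjoin k (Set.range x')) E' with hδ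
  obtain ⟨b, e, hb, he, hRb, hRy⟩ := PCmpXnM.den hR x' hai' hfx' y
  refine ⟨(n + 1) ^ n * e ^ n * (2 * e * (2 * (n + 1) * δ)), fun m => ?_⟩
  set X' : Fin (n + 1) → E' := fun i => (φ ^ m) (x' i) with hX'
  set d : ℕ := dgx K n 1 (fun i : Fin (n + 1) => ξ i.succ)
    (fun i : Fin (n + 1) => (ρ ^ m) (ξ i.succ)) with hd
  have hd1 : 1 ≤ d := hD3 ρ m
  -- (a) the functions of degree `≤ (n + 1) d`
  have hj : ∀ j : Fin (n + 1), Dge k x' (X' j) d := by
    intro j
    have h1 : Dge K (fun i : Fin (n + 1) => ξ i.succ) ((ρ ^ m) (ξ j.succ)) d := by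
      refine hCfD K E n _ hξ.ai hfx _ _ fun A => ?_
      have h2 := hD1 (fun i : Fin (n + 1) => (ρ ^ m) (ξ i.succ)) A
        (fun _ : Fin 1 => (Pi.single j 1 : Fin (n + 1) → K))
      rw [range_one, PCmpXnM.lc_single, Set.union_singleton] at h2
      exact h2
    have h3 := hS3 K k E E' β (n + 1) _ _ _ h1
    rw [pow_comm β ρ φ hβ] at h3
    exact h3
  have ha : ∀ B : Fin 1 → Fin (n + 1) → k, Dge k x' (lc B X' 0) ((n + 1) * d) := by
    intro B
    exact dge_sum hDgS x' d (fun j => algebraMap k E' (B 0 j) * X' j)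
      (fun j => hS2 k E' (n + 1) x' _ (B 0 j) _ (hj j))
  have ha1 : ∀ (A' : Fin n → Fin (n + 1) → k) (B : Fin 1 → Fin (n + 1) → k),
      Module.finrank (IntermediateField.adjoin (IntermediateField.adjoin k
        (Set.range (lc A' x'))) (Set.range (lc B X'))) E' ≤ 2 * ((n + 1) * d) * δ := by
    intro A' B
    by_cases h0 : Module.finrank (IntermediateField.adjoin (IntermediateField.adjoin k
        (Set.range (lc A' x'))) (Set.range (lc B X'))) E' = 0
    · rw [h0]
      exact Nat.zero_le _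
    rw [finrank_two] at h0
    have hfin := Module.finite_of_finrank_pos (Nat.pos_of_ne_zero h0)
    have hai := (ind_fin hξ' (rfl : n + 1 = n + 1) _ _ hfin).2
    have htr : Transcendental (IntermediateField.adjoin k (Set.range (lc A' x')))
        (lc B X' 0) := (algebraicIndependent_unique_type_iff (x := lc B X')).1 hai
    have h1 := hBZ1 k E' (IntermediateField.adjoin k (Set.range (lc A' x'))) (n + 1) x' (lc B X' 0)
      ((n + 1) * d) δ (fin_two _ _ hfx')
      (fun A'' => PDgBnM.lin_le (rfl : n + 1 = n + 1) x' hai' hfx' A' A'')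
      (Nat.mul_pos (Nat.succ_pos n) hd1) (hT1 k E' (n + 1) _ _ _ (ha B) _) htr
    rw [range_one]
    exact h1
  -- (b) linear forms in `y`
  have hy : ∀ {c : ℕ} (A : Fin c → Fin s → k) (i : Fin c), Dge k x' (lc A y i) e :=
    fun A i => PCmpXnM.dge_of hR hRD x' hai' hfx' y b e hb hRb hRy A i
  -- (c)
  have hfX : ∀ κ : IntermediateField k E', Module.Finite (IntermediateField.adjoin κ
      (Set.range X')) E' := fun κ =>
    fin_two κ _ (fin_ind hξ' _ (hai'.map' (f := φ ^ m) (φ ^ m).toRingHom.injective))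
  have hc : ∀ (B : Fin 1 → Fin s → k) (A' : Fin n → Fin (n + 1) → k),
      Module.finrank (IntermediateField.adjoin k (Set.range (lc A' x') ∪
        {(φ ^ m) (lc B y 0)})) E' ≤ 2 * e * (2 * ((n + 1) * d) * δ) := by
    intro B A'
    by_cases h0 : Module.finrank (IntermediateField.adjoin k (Set.range (lc A' x') ∪
        {(φ ^ m) (lc B y 0)})) E' = 0
    · rw [h0]
      exact Nat.zero_le _
    have hfin := Module.finite_of_finrank_pos (Nat.pos_of_ne_zero h0)
    have hr : Set.range (fun _ : Fin 1 => (φ ^ m) (lc B y 0)) = {(φ ^ m) (lc B y 0)} :=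
      range_one _
    have hai := (ind_fin hξ' (rfl : n + 1 = n + 1) (lc A' x')
      (fun _ : Fin 1 => (φ ^ m) (lc B y 0)) (by rw [hr]; exact hfin)).2
    have htr : Transcendental (IntermediateField.adjoin k (Set.range (lc A' x')))
        ((φ ^ m) (lc B y 0)) :=
      (algebraicIndependent_unique_type_iff (x := fun _ : Fin 1 => (φ ^ m) (lc B y 0))).1 hai
    have h1 := hBZ1 k E' (IntermediateField.adjoin k (Set.range (lc A' x'))) (n + 1) X'
      ((φ ^ m) (lc B y 0)) e (2 * ((n + 1) * d) * δ) (hfX _) (fun B' => ha1 A' B') he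
      (hT1 k E' (n + 1) _ _ _ (hT2 k E' (n + 1) _ _ _ (hy B 0) (φ ^ m)) _) htr
    rw [finrank_two] at h1
    exact h1
  unfold degrX
  refine iSup_le fun A => iSup_le fun B => Nat.cast_le.2 ?_
  have hwB : lfX B (fun i => (φ ^ m) (y i)) = fun _ : Fin 1 => (φ ^ m) (lc B y 0) := by
    funext i
    rw [Subsingleton.elim i 0]
    exact lc_map (φ ^ m) B y 0
  have hfld : fldX A B y (fun i => (φ ^ m) (y i)) =
      IntermediateField.adjoin k ({(φ ^ m) (lc B y 0)} ∪ Set.range (lc A y : Fin n → E')) := by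
    unfold fldX
    rw [hwB, range_one (fun _ : Fin 1 => (φ ^ m) (lc B y 0)), Set.union_comm]
    rfl
  rw [hfld]
  by_cases h0 : Module.finrank (IntermediateField.adjoin k ({(φ ^ m) (lc B y 0)} ∪
      Set.range (lc A y : Fin n → E'))) E' = 0
  · rw [h0]
    exact Nat.zero_le _
  have hfin := Module.finite_of_finrank_pos (Nat.pos_of_ne_zero h0)
  have hr : Set.range (fun _ : Fin 1 => (φ ^ m) (lc B y 0)) = {(φ ^ m) (lc B y 0)} :=
    range_one _
  have hai := (ind_fin hξ' (Nat.add_comm 1 n) (fun _ : Fin 1 => (φ ^ m) (lc B y 0))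
    (lc A y : Fin n → E') (by rw [hr]; exact hfin)).2
  rw [hr] at hai
  have h1 := hBZ k E' (IntermediateField.adjoin k {(φ ^ m) (lc B y 0)}) (n + 1) n x'
    (lc A y : Fin n → E') (fun _ => e) (2 * e * (2 * ((n + 1) * d) * δ)) (fin_two _ _ hfx')
    (fun A' => by
      rw [finrank_two, Set.union_comm]
      exact hc B A')
    (fun _ => he) (fun i => hT1 k E' (n + 1) _ _ _ (hy A i) _) hai
  rw [finrank_two, Finset.prod_const, Finset.card_univ, Fintype.card_fin] at h1
  refine h1.trans (le_of_eq ?_)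
  ring

end Pool.Agent.Lib.MP_16285c_agX
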