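import Pool.Agent.Lib.MP_16285c_agP.SpecD
import Pool.Agent.Lib.MP_16285c_agX.T3.Gr3P
import Pool.Agent.Lib.MP_16285c_agX.T3.GenS
import Pool.Agent.Lib.MP_16285c_agX.T3.Dg1
import Pool.Agent.Lib.MP_16285c_agX.T3.CmpX
import Pool.Agent.Lib.MP_16285c_agX.Gro.Bet
import Pool.Agent.Lib.MP_16285c_agX.Gro.CmpB
import Pool.Agent.Lib.MP_16285c_agX.Gro.DescX
import Pool.Agent.Lib.MP_16285c_agN.G1

/-!
# The growth hypothesis of the model (ZDP, GrPP)
-/

set_option autoImplicit false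

namespace Pool.Agent.Lib.MP_16285c_agX

open Pool.Agent.Lib.MP_16285c_ag Pool.Agent.Lib.MP_16285c_agN
open Pool.Agent.Lib.MP_16285c_agS (toF)

namespace PGrPPM

/-- Linear forms in the last coordinates are linear forms in all coordinates. -/
theorem lfX_cons {K E : Type} [Field K] [Field E] [Algebra K E] {n c : ℕ} (A : Fin c → Fin n → K)
    (ξ : Fin (n + 1) → E) :
    lfX (fun i => (Fin.cons 0 (A i) : Fin (n + 1) → K)) ξ = lc A (fun j : Fin n => ξ j.succ) := by
  funext i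
  rw [lfX, lc, Fin.sum_univ_succ, Fin.cons_zero, map_zero, zero_mul, zero_add]
  exact Finset.sum_congr rfl fun j _ => by rw [Fin.cons_succ]

/-- The degrees with forms in `x` are bounded by the degree `degrX`. -/
theorem le_degrX {K E : Type} [Field K] [Field E] [Algebra K E] {n : ℕ} (N p : ℕ)
    (ξ g : Fin (n + 1) → E) (A : Fin (N - p) → Fin n → K) (B : Fin p → Fin n → K) :
    (Module.finrank (IntermediateField.adjoin K
      (Set.range (lc A fun l : Fin n => ξ l.succ) ∪ Set.range (lc B fun l : Fin n => g l.succ))) E :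
        ENNReal) ≤ degrX K N p ξ g := by
  rw [← lfX_cons, ← lfX_cons]
  exact le_iSup_of_le (fun i => (Fin.cons 0 (A i) : Fin (n + 1) → K))
    (le_iSup_of_le (fun i => (Fin.cons 0 (B i) : Fin (n + 1) → K)) le_rfl)

/-- A constant factor does not change the growth rate. -/
theorem limsup_mul (u v : ℕ → ENNReal) (C : ℕ) (h : ∀ t, u t ≤ C * v t) :
    Filter.limsup (fun t : ℕ => u t ^ ((t : ℝ)⁻¹)) Filter.atTop ≤
      Filter.limsup (fun t : ℕ => v t ^ ((t : ℝ)⁻¹)) Filter.atTop := by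
  have h1 : ∀ t : ℕ, u t ^ ((t : ℝ)⁻¹) ≤
      ((fun t : ℕ => ((C + 1 : ℕ) : ENNReal) ^ ((t : ℝ)⁻¹)) *
        fun t : ℕ => v t ^ ((t : ℝ)⁻¹)) t := by
    intro t
    rw [Pi.mul_apply, ← ENNReal.mul_rpow_of_nonneg _ _ (inv_nonneg.2 (Nat.cast_nonneg t))]
    refine ENNReal.rpow_le_rpow ?_ (inv_nonneg.2 (Nat.cast_nonneg t))
    refine (h t).trans (mul_le_mul_left ?_ _)
    exact_mod_cast Nat.le_succ C
  have h2 := (T3Gr3PM.root_lim (C + 1) (Nat.succ_le_succ (Nat.zero_le C))).limsup_eq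
  refine (Filter.limsup_le_limsup (Filter.Eventually.of_forall h1)).trans ?_
  refine (ENNReal.limsup_mul_le' (Or.inl ?_) (Or.inl ?_)).trans ?_
  · rw [h2]
    exact one_ne_zero
  · rw [h2]
    exact ENNReal.one_ne_top
  · rw [h2, one_mul]

/-- If the growth rate is smaller than `r` then the terms are eventually smaller than `r ^ t`. -/
theorem event (u : ℕ → ENNReal) (r : NNReal)
    (h : Filter.limsup (fun t : ℕ => u t ^ ((t : ℝ)⁻¹)) Filter.atTop < r) :
    ∃ N₀ : ℕ, ∀ t, N₀ ≤ t → u t ≤ (r : ENNReal) ^ t := by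
  obtain ⟨a, ha⟩ := Filter.eventually_atTop.1 (Filter.eventually_lt_of_limsup_lt h)
  refine ⟨a + 1, fun t ht => ?_⟩
  have h1 := ha t (by omega)
  have ht0 : (0 : ℝ) < t := by
    have : 0 < t := by omega
    exact_mod_cast this
  have h2 := (ENNReal.rpow_inv_lt_iff ht0).1 h1
  rw [ENNReal.rpow_natCast] at h2
  exact h2.le

end PGrPPM

open PGrPPM in
theorem pGrPP : StmtCmpXn → StmtCmpG → StmtDg1n → StmtGrPP := by
  intro hCX hCG hDg
  intro k _ _ n P E' _ _ ξ φ f m y' hP hmon hgen hinv hfv hy' hlam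
  have hS : Stp k ξ := yGenS.1 k E' (n + 3) P ξ hP hmon hgen
  have htr : Algebra.trdeg k E' = ((n + 3 : ℕ) : Cardinal) := T3Dg1M.trdeg_eq ξ hS
  have hfin : Module.Finite φ.fieldRange E' := T3Gr3PM.fin hP hgen tG1 φ
  -- the growth rate of the third degree is at least `1`
  have hA : (1 : ENNReal) ≤ lamX k (n + 3) 3 y' φ := by
    obtain ⟨C, hC⟩ := hCG k E' φ (n + 3) 3 m (n + 4) ξ y' (by omega) htr hy' hfin
    have h1 : ∀ t : ℕ, (1 : ENNReal) ≤ C * degrX k (n + 3) 3 y' (fun i => (φ ^ t) (y' i)) := by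
      intro t
      refine le_trans ?_ (hC t)
      obtain ⟨-, h2, h3⟩ := hDg k E' (n + 3) n 3 ξ hS rfl
      obtain ⟨A, B, hAB⟩ := h2 fun i : Fin (n + 3) => (φ ^ t) (ξ i.succ)
      refine le_trans ?_ (le_degrX (n + 3) 3 ξ (fun i => (φ ^ t) (ξ i)) A B)
      rw [hAB]
      exact_mod_cast h3 φ t
    have h2 := limsup_mul (fun _ => 1) _ C h1
    simp only [ENNReal.one_rpow, Filter.limsup_const] at h2
    exact h2
  -- the choice of `Λ`
  obtain ⟨r, hr1, hr2⟩ : ∃ r : NNReal,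
      (Finset.Icc 3 (n + 3)).sup (fun p => lamX k (n + 3) p y' φ) < r ∧
        (r : ENNReal) < lamX k (n + 3) 1 y' φ := by
    refine ENNReal.lt_iff_exists_nnreal_btwn.1 ((Finset.sup_lt_iff ?_).2 ?_)
    · exact lt_of_le_of_lt bot_le (hlam 3 le_rfl (by omega))
    · intro p hp
      rw [Finset.mem_Icc] at hp
      exact hlam p hp.1 hp.2
  have hrp : ∀ p, 3 ≤ p → p ≤ n + 3 → lamX k (n + 3) p y' φ < r := fun p hp1 hp2 =>
    lt_of_le_of_lt (Finset.le_sup (f := fun p => lamX k (n + 3) p y' φ)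
      (Finset.mem_Icc.2 ⟨hp1, hp2⟩)) hr1
  have hr : (1 : ℝ) ≤ (r : ℝ) := by
    have h1 : (1 : ENNReal) < r := lt_of_le_of_lt hA (hrp 3 le_rfl (by omega))
    exact_mod_cast h1.le
  refine ⟨(r : ℝ), ∅, hr, ?_⟩
  intro K _ _ _ PK fK _ _ hPK hfK hirrK hmonK hinvK σK hOf E _ _ _ _ _ ρ hRst
  let _ : Algebra K E' := ((algebraMap k E').comp (algebraMap K k)).toAlgebra
  have hst : IsScalarTower K k E' := IsScalarTower.of_algebraMap_eq fun _ => rfl
  have hgenK : GenN (MvPolynomial.map (algebraMap K k) PK) ξ := by rw [hPK]; exact hgen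
  obtain ⟨β, hβ, hdis⟩ := tBet K k (n + 3) PK hmonK E E' ξ hgenK
  have hden : ∀ i, MvPolynomial.aeval ξ ((fK.map (algebraMap K k)).den i) ≠ 0 := by
    intro i h0
    rw [hfK] at h0
    exact hinv.1 i ((hgen.ker _).1 h0)
  have hfvK : ∀ i, fvn (fK.map (algebraMap K k)) ξ i = φ (ξ i) := by
    intro i
    rw [hfK]
    exact hfv i
  have hRst1 : Rst (σK ^ 1) (Ideal.span {PK}) E ρ := by
    rw [pow_one]
    exact hRst
  have hcmp : ∀ h : E, β (ρ h) = φ (β h) := by
    intro h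
    have := tCmpB K k (n + 3) PK E E' ξ β hβ fK σK φ 1 ρ hOf hden hfvK hRst1 h
    rw [pow_one] at this
    exact this
  set ξE : Fin (n + 4) → E := fun i => toF (Ideal.span {PK}) E (MvPolynomial.X i) with hξE
  have hgenE : GenN PK ξE := yGenS.2.1 K (n + 3) PK E
  have hβξ : (fun i => β (ξE i)) = ξ := by
    funext i
    rw [hξE]
    simp only
    rw [hβ, MvPolynomial.map_X, MvPolynomial.aeval_X]
  have hStpE : Stp K ξE := yGenS.1 K E (n + 3) PK ξE hirrK hmonK hgenE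
  have hStp : Stp k (fun i => β (ξE i)) := by
    rw [hβξ]
    exact hS
  have htop : IntermediateField.adjoin k (Set.range fun i => β (ξE i)) = ⊤ := by
    rw [hβξ]
    exact hgen.top
  refine ⟨?_, ?_⟩
  · obtain ⟨C, hC⟩ := hCX K k E E' β (n + 2) ξE ρ φ hStpE hStp hcmp m y'
    have h1 : lamX k (n + 3) 1 y' φ ≤ Filter.limsup (fun t : ℕ =>
        (dgx K (n + 2) 1 (fun i : Fin (n + 3) => ξE i.succ)
          (fun i : Fin (n + 3) => (ρ ^ t) (ξE i.succ)) : ENNReal) ^
          ((t : ℝ)⁻¹)) Filter.atTop := T3Gr3PM.limsup_const _ _ C hC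
    rw [ENNReal.ofReal_coe_nnreal]
    exact hr2.trans_le h1
  · intro p hp1 hp2
    obtain ⟨C, hC⟩ := hCG k E' φ (n + 3) p m (n + 4) ξ y' hp2 htr hy' hfin
    obtain ⟨N₀, hN₀⟩ := event (fun t => degrX k (n + 3) p y' (fun i => (φ ^ t) (y' i))) r
      (hrp p hp1 hp2)
    refine ⟨C + ∑ t ∈ Finset.range N₀, (dgx K (n + 3 - p) p (fun i : Fin (n + 3) => ξE i.succ)
      (fun i : Fin (n + 3) => (ρ ^ t) (ξE i.succ)) : ℝ), ?_⟩
    intro N' A B
    have hrN : (1 : ℝ) ≤ (r : ℝ) ^ N' := one_le_pow₀ hr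
    have hsum : (0 : ℝ) ≤ ∑ t ∈ Finset.range N₀, (dgx K (n + 3 - p) p
        (fun i : Fin (n + 3) => ξE i.succ) (fun i : Fin (n + 3) => (ρ ^ t) (ξE i.succ)) : ℝ) :=
      Finset.sum_nonneg fun t _ => Nat.cast_nonneg _
    rcases le_or_gt N₀ N' with h | h
    · have h1 := le_degrX (n + 3) p ξE (fun i => (ρ ^ N') (ξE i)) A B
      have h2 := tDescX K k E E' β hdis (n + 4) ξE (fun i => (ρ ^ N') (ξE i)) hgenE.top htop
        (n + 3) p
      have h3 : (fun i => β ((ρ ^ N') (ξE i))) = fun i => (φ ^ N') (ξ i) := by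
        funext i
        rw [T3CmpXM.pow_comm β ρ φ hcmp N' (ξE i), congrFun hβξ i]
      rw [hβξ, h3] at h2
      have h4 := (h1.trans h2).trans ((hC N').trans (mul_le_mul_right (hN₀ N' h) _))
      have h5 : (Module.finrank (IntermediateField.adjoin K
          (Set.range (lc A fun l : Fin (n + 3) => ξE l.succ) ∪
            Set.range (lc B fun l : Fin (n + 3) => (ρ ^ N') (ξE l.succ)))) E : ℝ) ≤
            C * (r : ℝ) ^ N' := by
        exact_mod_cast h4
      refine h5.trans (mul_le_mul_of_nonneg_right ?_ (zero_le_one.trans hrN))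
      linarith
    · have h1 := (hDg K E (n + 3) (n + 3 - p) p ξE hStpE (by omega)).1
        (fun i : Fin (n + 3) => (ρ ^ N') (ξE i.succ)) A B
      have h2 : (dgx K (n + 3 - p) p (fun i : Fin (n + 3) => ξE i.succ)
          (fun i : Fin (n + 3) => (ρ ^ N') (ξE i.succ)) : ℝ) ≤
          ∑ t ∈ Finset.range N₀, (dgx K (n + 3 - p) p (fun i : Fin (n + 3) => ξE i.succ)
            (fun i : Fin (n + 3) => (ρ ^ t) (ξE i.succ)) : ℝ) :=
        Finset.single_le_sum (f := fun t => (dgx K (n + 3 - p) p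
          (fun i : Fin (n + 3) => ξE i.succ)
            (fun i : Fin (n + 3) => (ρ ^ t) (ξE i.succ)) : ℝ))
          (fun t _ => Nat.cast_nonneg _) (Finset.mem_range.2 h)
      have h3 : (Module.finrank (IntermediateField.adjoin K
          (Set.range (lc A fun l : Fin (n + 3) => ξE l.succ) ∪
            Set.range (lc B fun l : Fin (n + 3) => (ρ ^ N') (ξE l.succ)))) E : ℝ) ≤
            (dgx K (n + 3 - p) p (fun i : Fin (n + 3) => ξE i.succ)
              (fun i : Fin (n + 3) => (ρ ^ N') (ξE i.succ)) : ℝ) := by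
        exact_mod_cast h1
      have hC0 : (0 : ℝ) ≤ C := Nat.cast_nonneg _
      refine h3.trans (h2.trans ?_)
      refine le_trans ?_ (le_mul_of_one_le_right (by linarith) hrN)
      linarith

end Pool.Agent.Lib.MP_16285c_agX
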