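import Pool.Agent.Lib.MP_16285c_agP.Defs
import Pool.Agent.Lib.MP_16285c_agX.T3.SpecA

/-!
# Varieties with `λ_r < λ₁` for `r ≥ 3`: degrees and sections (statements, ZDP part A)

Definitions: `T3/Defs.lean` (`Intx`, `Rp`, `Dge`, `dgx`, `Tu`, `Stp`), `Lib/MP_16285c_agP/Defs.lean` (`SctP`, `StmtCfAn`, `StmtDg1n`), `Lib/MP_16285c_agN/T3/SpecA.lean` (`lc`, `StmtXUpW`, `StmtXLB`), `Lib/MP_16285c_agN/Degr/Spec.lean` (`Vd`, `cnt`, `StmtNN`, `StmtUpF`, `StmtVd`), all landed.
`x i = ξ i.succ` are algebraically independent, `E` is finite over `K(x)`, so it has transcendence degree `n` over `K`. `δ = [E : K(x)]`, `X m = ρ ^ m ∘ x`, `d_r m = dgx K (n - r) r x (X m)`. `Module.finrank` is `0` if the degree is infinite, so upper bounds are trivial in this case; a field over which `E` is finite has transcendence degree `n` over `K`.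
The landed statements of `T3/SpecA.lean`, `T3/SpecH.lean`, `T3/SpecL.lean` are proved in `Lib/MP_16285c_agX/T3/Y.lean` by theorems `yY` (with hypotheses; `T3/AllX.lean` has them without hypotheses: `bRpA`, `bRpD`, `bDgT`, `bSubX`, …): use them by import.
Every lemma is a `Prop` with its complete proof in the docstring; used statements are hypotheses: file `agP/Y.lean`, `theorem pY : StmtY` or `theorem pY : StmtZ → StmtY` (`agP` = the folder `Lib/MP_16285c_agP`), namespace `Pool.Agent.Lib.MP_16285c_agX`, auxiliary lemmas in the namespace `Pool.Agent.Lib.MP_16285c_agX.PYM`.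
-/

set_option autoImplicit false

namespace Pool.Agent.Lib.MP_16285c_agX

open Pool.Agent.Lib.MP_16285c_ag Pool.Agent.Lib.MP_16285c_agN

/-! ## Hypersurfaces -/

/-- (HypP) The degree of a hypersurface. PROOF. `D = F.totalDegree ≥ 1` (a constant is zero or a unit). We use linear substitutions: if `M` is an invertible matrix over `K` and `u = M u'` then `F' = F(M X)` is irreducible of total degree `D` and `F'(u') = 0` (the substitution is an automorphism of the polynomial ring over `κ` which does not raise the total degree, and neither does its inverse); use it with `u' = (t, l)`, one form `t` and `a` forms `l`, and regard `F'` through `MvPolynomial.finSuccEquiv κ a` as a polynomial `Φ` in the variable of `t` with coefficients in `κ[L]`.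
(2) Let `F_D ≠ 0` be the homogeneous component of degree `D`. There is `v : Fin (a + 1) → K` with `F_D(v) ≠ 0` (`K` infinite, embedded in `κ`: as in the landed proof of `StmtNN`, `Lib/MP_16285c_agN/Degr/NN.lean`), `v ≠ 0` as `D ≥ 1`; `v i₀ ≠ 0`, without loss of generality `v i₀ = 1`. `l i = u (i₀.succAbove i) - v (i₀.succAbove i) * u i₀`, `t = u i₀`: `u j = l_j + v_j t`. The coefficient of `T ^ D` in `Φ` is the constant `F_D(v) ≠ 0`, `natDegree Φ = D`, `Φ` is irreducible, so primitive,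
so irreducible over the field of fractions of `κ[L]` (`Polynomial.IsPrimitive.irreducible_iff_irreducible_map_fraction_map`). `t` is algebraic over `κ(l)`, so `l` generates a field over which `E` is algebraic; `a` elements and `trdeg κ E = a`: `l` is algebraically independent; `κ[L] ≅ κ[l]`, `κ(l)` is its field of fractions, and the minimal polynomial of `t` over `κ(l)` is `Φ(l, ·)` up to a constant: `[κ(l, t) : κ(l)] = D`, `κ(l, t) = κ(u)`, `[E : κ(l)] = D [E : κ(u)]`.
(1) Let `E` be finite over `κ(l)`, `l = lc A u` (otherwise the left side is `0`). Then `l` is algebraically independent over `κ` (`a = trdeg`), so the rows of `A` are linearly independent over `K`; complete `A` by one row to an invertible matrix, `t` the corresponding form: `u = M (t, l)`, `κ(l, t) = κ(u)`. `Φ(l, ·)` is a nonzero polynomial (`Φ ≠ 0`, `l` algebraically independent) of degree `≤ D` with the root `t`, so `[κ(l, t) : κ(l)] ≤ D`. (Compare the landed `T3/CfA.lean`.) -/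
def StmtHypP : Prop :=
  ∀ (K κ E : Type) [Field K] [Infinite K] [Field κ] [Field E] [Algebra K κ] [Algebra K E] [Algebra κ E]
    [IsScalarTower K κ E] (a : ℕ) (u : Fin (a + 1) → E) (F : MvPolynomial (Fin (a + 1)) κ),
    Irreducible F → MvPolynomial.aeval u F = 0 → Algebra.trdeg κ E = a →
    Module.Finite (IntermediateField.adjoin κ (Set.range u)) E →
    (∀ A : Fin a → Fin (a + 1) → K,
      Module.finrank (IntermediateField.adjoin κ (Set.range (lc A u))) E ≤
        F.totalDegree * Module.finrank (IntermediateField.adjoin κ (Set.range u)) E) ∧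
    ∃ A : Fin a → Fin (a + 1) → K,
      F.totalDegree * Module.finrank (IntermediateField.adjoin κ (Set.range u)) E ≤
        Module.finrank (IntermediateField.adjoin κ (Set.range (lc A u))) E

/-- (GaM) Gauss' lemma in several variables. PROOF. `S = MvPolynomial (Fin b) κ`, a UFD; `ψ : S →+* κ(v)` is injective (`v` algebraically independent) and `κ(v)` is the field of fractions of `S` through `ψ` (`IsFractionRing`: `IntermediateField.mem_adjoin_range_iff`, or `AlgebraicIndependent.aevalEquivField`-type lemmas). `MvPolynomial (Fin a) κ(v)` is the localization of `MvPolynomial (Fin a) S` at the nonzero constants (`MvPolynomial.isLocalization`). `R` is prime; the ideal `(R)` contains no nonzero constant: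
a multiple `R * Q` has `totalDegree = totalDegree R + totalDegree Q ≥ 1` (`MvPolynomial.totalDegree_mul_of_isDomain`). So the extended ideal `(R')`, `R' = map ψ R`, is prime (`IsLocalization.isPrime_of_isPrime_disjoint`), `R' ≠ 0` (`ψ` injective), and `R'` is irreducible. `totalDegree` does not change under an injective map of the coefficients. -/
def StmtGaM : Prop :=
  ∀ (κ E : Type) [Field κ] [Field E] [Algebra κ E] (a b : ℕ) (v : Fin b → E), AlgebraicIndependent κ v →
    ∀ R : MvPolynomial (Fin a) (MvPolynomial (Fin b) κ), Irreducible R → 1 ≤ R.totalDegree →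
    ∃ R' : MvPolynomial (Fin a) (IntermediateField.adjoin κ (Set.range v)), Irreducible R' ∧
      R'.totalDegree = R.totalDegree ∧ ∀ u : Fin a → E, MvPolynomial.aeval u R' =
        MvPolynomial.eval₂ ((MvPolynomial.aeval v : MvPolynomial (Fin b) κ →ₐ[κ] E) :
          MvPolynomial (Fin b) κ →+* E) u R

/-- (CfAn) PROOF (uses `StmtHypP`, `StmtGaM`) of `StmtCfAn` (`Defs.lean`). `Polynomial (Pl (n+1) K)` and `MvPolynomial (Fin (n+1)) (MvPolynomial (Fin 1) K)` (or: `MvPolynomial (Fin (n+1)) (Polynomial K)`) are isomorphic (swap the variables): `F` corresponds to `R`, irreducible, `R.totalDegree` = the largest total degree of a coefficient of `F` = `D`, and `eval₂ (aeval (fun _ => w)) x R = eval₂ (aeval x) w F = 0`.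
CASE `D = 0`. (2) is trivial. (1): all coefficients of `F` are constants, so `w` is algebraic over `K` and `K(w, lc A x)` has transcendence degree `≤ n < n + 1 = trdeg K E`: the left side is `0`. CASE `D ≥ 1`. `w` is transcendental over `K`: otherwise let `m ∈ K[Y]` be its minimal polynomial. `F` is primitive in `K[x][Y]` and irreducible over `K(x)` (Gauss), `F(w) = 0 = m(w)`, so `F` divides `m` over `K(x)` and in `K[x][Y]`
(`Polynomial.IsPrimitive.dvd_of_fraction_map_dvd_fraction_map`); over a domain the total degrees in `x` of the factors of a polynomial without `x` are `0` (additivity of `totalDegree` for `R`): `D = 0`, a contradiction. `κ = K(w)`, `trdeg κ E = n`; `StmtGaM` for `v = fun _ : Fin 1 => w`: `R'` irreducible over `κ` of total degree `D`, `R'(x) = 0`. `StmtHypP` for `κ`, `a = n`, `u = x`: `κ(lc A x) = K(w, lc A x)`, `κ(x) = K(w, x)` (the degrees of `E` are the same: `IntermediateField.adjoin_adjoin_left`). -/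
def StmtCfAn' : Prop := StmtHypP → StmtGaM → StmtCfAn

/-- (CfDn) Functions of degree `≤ d`. PROOF (uses `StmtCfAn`; `StmtRpG`, `StmtLnI`-type lemmas landed). As the landed `T3/CfD.lean`: `F` an irreducible polynomial as in `StmtCfAn` (`w` is algebraic over `K(x)`), `D` the largest total degree of a coefficient. `StmtCfAn` (2): `D ≤ D * [E : K(x, w)] ≤ d`. `StmtRpG` (landed: `T3/RpG.lean`) for the coefficients of `F`. -/
def StmtCfDn : Prop :=
  ∀ (K E : Type) [Field K] [CharZero K] [Field E] [Algebra K E] (n : ℕ) (x : Fin (n + 1) → E),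
    AlgebraicIndependent K x → Module.Finite (IntermediateField.adjoin K (Set.range x)) E →
    ∀ (w : E) (d : ℕ), (∀ A : Fin n → Fin (n + 1) → K,
        Module.finrank (IntermediateField.adjoin K (insert w (Set.range (lc A x)))) E ≤ d) →
      Dge K x w d

/-! ## Bezout -/

/-- (BZG) Bezout's inequality. PROOF (uses `StmtNN`, `StmtUpF`, `StmtXUpW`; model: `T3/BZ2.lean`, landed). `e' = [E : κ(w)]`, we may assume `e' ≥ 1`; `θ_1, …, θ_e'` a basis, `Θ` its `κ`-span; `trdeg κ E = s`. `StmtNN` for `K, κ, E, y`: `l = lc A y` algebraically independent over `κ`, `Vd κ y a ≤ W' * Vd κ l a`, `E` finite over `κ(l)` (`StmtUpF` and finiteness over `κ(y)`), so `l : Fin s → E`. `b_i ≠ 0, W_i` from `Dge` for `w i`.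
`Π = ∏ i, d i`, `Π_i = ∏ j ≠ i, d j`, `d_i Π_i = Π`, `Π ≥ 1`. For `I : ℕ` and `a_i ≤ Π_i I`: `b_i ^ (Π_i I) * w_i ^ a_i ∈ W_i * Vd κ y (Π I)`. So the elements `(∏ i, b_i ^ (Π_i I)) * (∏ i, w_i ^ a_i) * θ_k`, `a_i ≤ Π_i I`, `k < e'`, are in `Θ * (∏ W_i) * Vd κ y (s Π I) ≤ Θ * (∏ W_i) * W' * Vd κ l (s Π I)`, of dimension `≤ e * cnt s (s Π I + C) ≤ e * (s Π I + C + 1) ^ s` (`StmtXUpW`), and they are linearly independent over `κ`
(`w` algebraically independent, `θ` a basis over `κ(w)`). Their number is `≥ e' * ∏ i, (Π_i I)`. With `I = C + 1`: `s Π I + I ≤ (s + 1) Π I`, so `e' * ∏ Π_i * I ^ s ≤ e * (s + 1) ^ s * Π ^ s * I ^ s`, and `Π ^ s = (∏ Π_i) * Π`. -/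
def StmtBZG : Prop :=
  ∀ (K E : Type) [Field K] [Infinite K] [Field E] [Algebra K E] (κ : IntermediateField K E) (n s : ℕ)
    (y : Fin n → E) (w : Fin s → E) (d : Fin s → ℕ) (e : ℕ),
    Module.Finite (IntermediateField.adjoin κ (Set.range y)) E →
    (∀ A : Fin s → Fin n → K,
      Module.finrank (IntermediateField.adjoin κ (Set.range (lc A y))) E ≤ e) →
    (∀ i, 1 ≤ d i) → (∀ i, Dge κ y (w i) (d i)) → AlgebraicIndependent κ w →
    Module.finrank (IntermediateField.adjoin κ (Set.range w)) E ≤ (s + 1) ^ s * (∏ i, d i) * e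

/-! ## The degrees `d_r m` -/

/-- (DgBn) PROOF (uses `StmtBZG`; landed: `StmtRpA`, `StmtRpD`, `StmtStpF`, `StmtDgT`; model: `T3/DgB.lean`). There are `c : Pl n K`, `c(x) ≠ 0`, and `D ≥ 1` with `Rp K x D (c(x))`, `Rp K x D (c(x) g_i)`; so `Dge K x w D` for every linear combination `w` of the `g_i` (`T3/DgB.lean`). Let `A, B` be given, `w = lc B g`, `κ = K(lc A x)` and `E` finite over `K(lc A x, w)` (otherwise the degree is `0`): the `c + r = n` elements `lc A x`, `w` are algebraically independent over `K`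
(`trdeg K E = n`), so `w` is algebraically independent over `κ`. `StmtBZG` for `κ`, `y = x`, `e = δ`: `[E : κ(lc A' x)]` is `0` or `δ` (if it is finite, the `n` forms `lc A x, lc A' x` are algebraically independent, so linearly independent, so they generate `K(x)`). The bound is `(r + 1) ^ r * D ^ r * δ`. -/
def StmtDgBn : Prop :=
  ∀ (K E : Type) [Field K] [CharZero K] [Field E] [Algebra K E] (n c r : ℕ) (ξ : Fin (n + 1) → E), Stp K ξ →
    c + r = n → ∀ g : Fin n → E,
    BddAbove (Set.range fun AB : (Fin c → Fin n → K) × (Fin r → Fin n → K) =>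
      Module.finrank (IntermediateField.adjoin K
        (Set.range (lc AB.1 fun i => ξ i.succ) ∪ Set.range (lc AB.2 g))) E)

/-- (Dg1n) PROOF of `StmtDg1n` (`Defs.lean`) (uses `StmtDgBn`). Boundedness gives the upper bounds (`le_csSup`) and that the supremum is attained (`Nat.sSup_mem`). Third part: `x 0, …, x (c-1)` are algebraically independent and `E` is algebraic over `K(X m)` (`X m` is algebraically independent since `ρ` is injective, and has `n = trdeg K E` elements). Exchange (`exists_isTranscendenceBasis_between`, for the sets `s = {x i | i < c}` and `s ∪ range (X m)`): a transcendence basis `s ∪ t` with `t ⊆ range (X m)` disjoint from `s`, so `t` has `r` elements, `t = range (X m ∘ e)`,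
`e : Fin r → Fin n`. `A i = Pi.single _ 1`, `B i = Pi.single (e i) 1`: `E` is algebraic over the field generated by them and finitely generated, so finite: the degree is `≥ 1`, and `≤ dgx` by the first part. (Or induction on `r`, exchanging one element after the other.) -/
def StmtDg1n' : Prop := StmtDgBn → StmtDg1n

/-- (DgMn) PROOF (uses `StmtDg1n`, `StmtCfDn`, `StmtBZG`; landed: `StmtDgT`, `StmtStpF`; model: `T3/DgM.lean`). `StmtDg1n` and `StmtCfDn`: `Dge K x w (d_1 b)` for every linear combination `w` of the `X b i`; so `Dge κ (X a) (ρ ^ a w) (d_1 b)` for all `κ` (`StmtDgT` (2), (1)). (1) `κ = K(lc A x)` (`n` forms in dimension `n + 1`), `y = X a`, `s = 1`, `w = lc B (X (a + b))`, `e = d_1 a` (`StmtDg1n` for `κ(lc A' (X a))`): `[E : κ(w)] ≤ 2 (d_1 b) (d_1 a)` (if `E` is finite over `κ(w)` then `w` is transcendental over `κ`).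
(2) dimension `n + 2`, `κ = K(lc A x)` (`n` forms), `y = x`, `s = 2`, `w_i = lc B (X m) i`, `Dge K x w_i (d_1 m)`, `e = δ` (as in `StmtDgBn`): `3 ^ 2 * (d_1 m) ^ 2 * δ`. (3) `κ = K(lc A x)`, `y = X m`, `w_i = lc B (X (m+1)) i = ρ ^ m (lc B (X 1) i)`, `Dge κ y w_i (d_1 1)`, `e = d_2 m`. -/
def StmtDgMn : Prop :=
  (∀ (K E : Type) [Field K] [CharZero K] [Field E] [Algebra K E] (n : ℕ) (ξ : Fin (n + 2) → E), Stp K ξ →
    ∀ (ρ : E →ₐ[K] E) (a b : ℕ),
    dgx K n 1 (fun i : Fin (n + 1) => ξ i.succ) (fun i : Fin (n + 1) => (ρ ^ (a + b)) (ξ i.succ)) ≤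
      2 * dgx K n 1 (fun i : Fin (n + 1) => ξ i.succ) (fun i : Fin (n + 1) => (ρ ^ a) (ξ i.succ)) *
        dgx K n 1 (fun i : Fin (n + 1) => ξ i.succ) (fun i : Fin (n + 1) => (ρ ^ b) (ξ i.succ))) ∧
  ∀ (K E : Type) [Field K] [CharZero K] [Field E] [Algebra K E] (n : ℕ) (ξ : Fin (n + 3) → E), Stp K ξ →
    ∀ (ρ : E →ₐ[K] E) (m : ℕ),
    dgx K n 2 (fun i : Fin (n + 2) => ξ i.succ) (fun i : Fin (n + 2) => (ρ ^ m) (ξ i.succ)) ≤
      9 * Module.finrank (IntermediateField.adjoin K (Set.range fun i : Fin (n + 2) => ξ i.succ)) E *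
        dgx K (n + 1) 1 (fun i : Fin (n + 2) => ξ i.succ) (fun i : Fin (n + 2) => (ρ ^ m) (ξ i.succ)) ^ 2 ∧
    dgx K n 2 (fun i : Fin (n + 2) => ξ i.succ) (fun i : Fin (n + 2) => (ρ ^ (m + 1)) (ξ i.succ)) ≤
      9 * dgx K (n + 1) 1 (fun i : Fin (n + 2) => ξ i.succ) (fun i : Fin (n + 2) => (ρ ^ 1) (ξ i.succ)) ^ 2 *
        dgx K n 2 (fun i : Fin (n + 2) => ξ i.succ) (fun i : Fin (n + 2) => (ρ ^ m) (ξ i.succ))

/-- (ETn) Degrees with `T`. PROOF (uses `StmtDg1n`, `StmtCfDn`, `StmtBZG`; landed: `StmtDgT`, `StmtStpF`; model: `T3/E1X.lean`). `N = c + r + 1` is the dimension. `κ = K(lc A x)` (`c` forms), `y = X m`, the `r + 1` functions `w = (T, lc B (X (2m)))`: `T = Tu K u (X m) = 1 + ∑ u ^ (j+1) y_j`, `Dge κ y T 1` (`StmtDgT` (3)), `lc B (X (2m)) i = ρ ^ m (lc B (X m) i)`, `Dge κ y (w i) (d_1 m)` (`StmtCfDn`, `StmtDg1n` with `r = 1`, `StmtDgT`). If `E` is finite over `κ(w)` then `lc A x`, `w` (`N` elements) are algebraically independent over `K`,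
so `w` is algebraically independent over `κ`. `StmtBZG` with `s = r + 1`, `e = dgx K c (r+1) x (X m)` (`κ(lc A' (X m)) = K(lc A x, lc A' (X m))`): `[E : κ(w)] ≤ (r + 2) ^ (r + 1) * (d_1 m) ^ r * e`. -/
def StmtETn : Prop :=
  ∀ (K E : Type) [Field K] [CharZero K] [Field E] [Algebra K E] (n c r : ℕ) (ξ : Fin (n + 2) → E), Stp K ξ →
    c + r = n → ∀ (ρ : E →ₐ[K] E) (m : ℕ) (u : K) (A : Fin c → Fin (n + 1) → K) (B : Fin r → Fin (n + 1) → K),
    Module.finrank (IntermediateField.adjoin K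
      (insert (Tu K u (fun i : Fin (n + 1) => (ρ ^ m) (ξ i.succ)))
        (Set.range (lc A fun i : Fin (n + 1) => ξ i.succ) ∪
          Set.range (lc B fun i : Fin (n + 1) => (ρ ^ (2 * m)) (ξ i.succ))))) E ≤
      (r + 2) ^ (r + 1) *
        dgx K n 1 (fun i : Fin (n + 1) => ξ i.succ) (fun i : Fin (n + 1) => (ρ ^ m) (ξ i.succ)) ^ r *
        dgx K c (r + 1) (fun i : Fin (n + 1) => ξ i.succ) (fun i : Fin (n + 1) => (ρ ^ m) (ξ i.succ))

/-! ## The two-block bound -/

/-- (CntC) PROOF. (1) Induction on `s` and `a` (`cnt (s + 1) a = ∑ i ≤ a, cnt s (a - i)`, split off the first exponent; `Nat.sum_range_choose_…`/hockey stick `Nat.sum_Icc_choose`; or stars and bars: the functions `Fin s → ℕ` with sum `≤ a` are the functions on `Fin (s + 1)` with sum `= a`: `Finset.card_finsuppAntidiag`/`Sym.card_sym_eq_choose`). (2) Pascal's rule from (1): `(s + 1 + (a + 1)).choose (s + 1) = (s + (a + 1)).choose s + (s + 1 + a).choose (s + 1)`.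
(3) `(s + 1) * (s + 1 + a).choose (s + 1) = (s + 1 + a) * (s + a).choose s` (`Nat.succ_mul_choose_eq`). -/
def StmtCntC : Prop :=
  (∀ s a : ℕ, cnt s a = (s + a).choose s) ∧
  (∀ s a : ℕ, cnt (s + 1) (a + 1) = cnt s (a + 1) + cnt (s + 1) a) ∧
  ∀ s a : ℕ, (a + 1) * cnt s a ≤ (s + 1) * cnt (s + 1) a

/-- (HilR) The Hilbert function of one relation. PROOF (uses `StmtCntC`). `S p j` = the `κ`-space of the `G : MvPolynomial (Fin a) (MvPolynomial (Fin b) κ)` with `G.totalDegree ≤ p` and all coefficients of total degree `≤ j`; it is finite dimensional of dimension `cnt a p * cnt b j` (basis: products of monomials). The map `G ↦ G(u; v)` (`eval₂ (aeval v) u`) maps `S p j` onto `Vd κ u p * Vd κ v j`. If `α ≤ p`, `β ≤ j` its kernel contains `R * S (p - α) (j - β)`, of dimension `cnt a (p - α) * cnt b (j - β)` (multiplication by `R ≠ 0` is injective),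
so `finrank (Vd κ u p * Vd κ v j) ≤ cnt a p * cnt b j - cnt a (p - α) * cnt b (j - β)`; in general (`cnt a (p - α)` replaced by `0` if `p < α`) put `A = cnt a p`, `A' ≤ A`, `B`, `B' ≤ B`: `A B - A' B' ≤ (A - A') B + A (B - B')`, and `A - A' ≤ α * cnt (a - 1) p` by Pascal's rule (`cnt (a'+1) p - cnt (a'+1) (p - α) ≤ α * cnt a' p`; if `p < α`: `cnt (a'+1) p ≤ (p + 1) * cnt a' p`). For `α = 0` or `β = 0` the same formula. -/
def StmtHilR : Prop :=
  ∀ (κ E : Type) [Field κ] [Field E] [Algebra κ E] (a b : ℕ) (u : Fin (a + 1) → E) (v : Fin (b + 1) → E)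
    (R : MvPolynomial (Fin (a + 1)) (MvPolynomial (Fin (b + 1)) κ)) (α β : ℕ), R ≠ 0 →
    MvPolynomial.eval₂ ((MvPolynomial.aeval v : MvPolynomial (Fin (b + 1)) κ →ₐ[κ] E) :
      MvPolynomial (Fin (b + 1)) κ →+* E) u R = 0 → R.totalDegree ≤ α →
    (∀ m, (R.coeff m).totalDegree ≤ β) → ∀ p j : ℕ,
    Module.finrank κ (Vd κ u p * Vd κ v j : Submodule κ E) ≤
      α * cnt a p * cnt (b + 1) j + β * cnt (a + 1) p * cnt b j

/-- (UpUV) PROOF. As `StmtXUpW` (`Lib/MP_16285c_agN/T3/XUpW.lean`, landed, `Degr/Up.lean`), for two blocks. `F₀ = κ(u, v)`, `η` a basis of `E` over `F₀`, `D` elements. Every element of `F₀` is a quotient of values of polynomials in `u, v` (`IntermediateField.mem_adjoin_iff` for `range (Sum.elim u v)` or `Fin.append u v`); every value of a polynomial in `(u, v)` is in `Vd κ u C * Vd κ v C` for some `C`. `W` is spanned by `w_1, …, w_p`, `w_i = ∑ k, t_(i k) η_k`, `q ≠ 0` a common denominator (a value of a polynomial), `q t_(i k) ∈ Vd κ u C *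 Vd κ v C`:
`q * (W * Vd κ u p * Vd κ v j) ≤ ∑ k, (Vd κ u (p + C) * Vd κ v (j + C)) η_k`, of dimension `≤ D * finrank (Vd κ u (p + C) * Vd κ v (j + C))`. -/
def StmtUpUV : Prop :=
  ∀ (κ E : Type) [Field κ] [Field E] [Algebra κ E] (a b : ℕ) (u : Fin a → E) (v : Fin b → E)
    (W : Submodule κ E), W.FG →
    Module.Finite (IntermediateField.adjoin κ (Set.range u ∪ Set.range v)) E →
    ∃ C : ℕ, ∀ p j : ℕ, Module.finrank κ (W * Vd κ u p * Vd κ v j : Submodule κ E) ≤
      Module.finrank (IntermediateField.adjoin κ (Set.range u ∪ Set.range v)) E *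
        Module.finrank κ (Vd κ u (p + C) * Vd κ v (j + C) : Submodule κ E)

/-- (PrR) The relations of `N + 1` elements of a field of transcendence degree `N` form a principal ideal. PROOF. Some `N` of the `N + 1` elements `w_j` are algebraically independent: the set `range w` contains a transcendence basis of `E` (`exists_isTranscendenceBasis_subset`-type lemma: `E` is algebraic over `κ(w)`), of cardinality `N`; if `w` is not injective this is still true for a suitable subfamily `w_j`, `j ≠ i`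
(a subset of `range w` with `N` elements is the range of an injective subfamily with `N` indices; the remaining index is `i`). So there is `i` with `w_j`, `j ≠ i`, algebraically independent over `κ`. `S = κ[X_j, j ≠ i]` (`MvPolynomial.finSuccEquiv` after a permutation, or `MvPolynomial.optionEquivLeft`): regard `R` as a polynomial in `X_i` over `S`. It has positive degree (otherwise it is a nonzero relation of the `w_j`, `j ≠ i`), it is irreducible, so primitive, and irreducible over the field of fractions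
`κ(w_j, j ≠ i)` of `S ≅ κ[w_j, j ≠ i]` (Gauss), so it is the minimal polynomial of `w_i` up to a constant; `G` vanishes at `w_i`, so it is divisible by `R` over the field of fractions and over `S` (`Polynomial.IsPrimitive.dvd_of_fraction_map_dvd_fraction_map`). -/
def StmtPrR : Prop :=
  ∀ (κ E : Type) [Field κ] [Field E] [Algebra κ E] (N : ℕ) (w : Fin (N + 1) → E)
    (R G : MvPolynomial (Fin (N + 1)) κ), Algebra.trdeg κ E = N →
    Module.Finite (IntermediateField.adjoin κ (Set.range w)) E → Irreducible R →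
    MvPolynomial.aeval w R = 0 → MvPolynomial.aeval w G = 0 → R ∣ G

/-- (UBH) The upper bound. PROOF (uses `StmtHypP`, `StmtGaM`, `StmtPrR`, `StmtHilR`, `StmtUpUV`). `D₀ = [E : κ(u, v)]`. The `a + b + 2` elements `u, v` are algebraically dependent over `κ` (`trdeg κ E = a + b + 1`): there is a nonzero relation, and (the polynomial ring is factorial and `E` a domain) an irreducible `R` in `MvPolynomial (Fin (a+1)) (MvPolynomial (Fin (b+1)) κ)` with `R(u; v) = 0`
(`MvPolynomial.sumAlgEquiv`, `finSumFinEquiv` to pass to `Fin (a + b + 2)`). `α = R.totalDegree`, `β` = the largest total degree of a coefficient of `R`. CLAIM: `α D₀ ≤ e₁`. Trivial for `α = 0`. Let `α ≥ 1`. `v` is algebraically independent over `κ`: a nonzero relation `Q` of `v` is a relation of `(u, v)` without the variables of `u`, so it is a multiple of `R` (`StmtPrR`), and its total degree in the variables of `u` would be `≥ α ≥ 1` (additivity of `totalDegree`). `κ' = κ(v)`, `trdeg κ' E = a`.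
`StmtGaM`: `R'` over `κ'`, irreducible of total degree `α`, `R'(u) = 0`. `StmtHypP` (2) for `κ'`, `u`: some `A` with `α * [E : κ'(u)] ≤ [E : κ'(lc A u)] ≤ e₁`; `κ'(u) = κ(u, v)`, `κ'(lc A u) = κ(lc A u, v)` (`IntermediateField.adjoin_adjoin_left`). In the same way `β D₀ ≤ e₂` (the swapped polynomial: `MvPolynomial.commAlgEquiv` or `sumAlgEquiv` twice; its total degree is `β`). `StmtUpUV` and `StmtHilR`: `finrank ≤ D₀ * (α cnt a (p+C) cnt (b+1) (j+C) + β cnt (a+1) (p+C) cnt b (j+C))`. -/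
def StmtUBH : Prop :=
  ∀ (K E : Type) [Field K] [Infinite K] [Field E] [Algebra K E] (κ : IntermediateField K E) (a b : ℕ)
    (u : Fin (a + 1) → E) (v : Fin (b + 1) → E) (e₁ e₂ : ℕ),
    Module.Finite (IntermediateField.adjoin κ (Set.range u ∪ Set.range v)) E →
    Algebra.trdeg κ E = (a + b + 1 : ℕ) →
    (∀ A : Fin a → Fin (a + 1) → K,
      Module.finrank (IntermediateField.adjoin κ (Set.range (lc A u) ∪ Set.range v)) E ≤ e₁) →
    (∀ B : Fin b → Fin (b + 1) → K,
      Module.finrank (IntermediateField.adjoin κ (Set.range u ∪ Set.range (lc B v))) E ≤ e₂) →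
    ∀ W : Submodule κ E, W.FG → ∃ C : ℕ, ∀ p j : ℕ,
      Module.finrank κ (W * Vd κ u p * Vd κ v j : Submodule κ E) ≤
        e₁ * cnt a (p + C) * cnt (b + 1) (j + C) + e₂ * cnt (a + 1) (p + C) * cnt b (j + C)

/-! ## Sections -/

/-- (LbP) Lower bound. PROOF. As `StmtXLB` (`Lib/MP_16285c_agN/T3/XLB.lean`, landed): the products `(∏ u_i ^ β_i) * (∏ v_i ^ γ_i)` are different monomials in algebraically independent elements of the field `K(u, v)`, and `θ` is linearly independent over this field (`LinearIndependent.smul`). The number of indices is `cnt a p * cnt b j * e`. -/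
def StmtLbP : Prop :=
  ∀ (K E : Type) [Field K] [Field E] [Algebra K E] (a b e : ℕ) (u : Fin a → E) (v : Fin b → E) (θ : Fin e → E),
    AlgebraicIndependent K (Sum.elim u v : Fin a ⊕ Fin b → E) →
    LinearIndependent (IntermediateField.adjoin K (Set.range u ∪ Set.range v)) θ →
    ∀ p j : ℕ, LinearIndependent K
      (fun t : {β : Fin a → ℕ // ∑ i, β i ≤ p} × {γ : Fin b → ℕ // ∑ i, γ i ≤ j} × Fin e =>
        θ t.2.2 * ((∏ i, u i ^ (t.1 : Fin a → ℕ) i) * ∏ i, v i ^ (t.2.1 : Fin b → ℕ) i))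

/-- (NumP) PROOF (uses `StmtCntC`). `p = 4 (a+1) e₁ i`, `j = 4 (b+1) e₂ i`. By `StmtCntC` (3) `(p + C + 1) cnt a (p + C) ≤ (a + 1) cnt (a + 1) (p + C)`, so `4 e₁ i * cnt a (p + C) ≤ cnt (a + 1) (p + C)` (divide by `a + 1`), similarly `4 e₂ i * cnt b (j + C) ≤ cnt (b + 1) (j + C)`. So `4 i (e₁ cnt a (p+C) cnt (b+1) (j+C) + e₂ cnt (a+1) (p+C) cnt b (j+C)) ≤ 2 cnt (a+1) (p+C) cnt (b+1) (j+C)`.
It remains: `cnt (a+1) (p+C) cnt (b+1) (j+C) < 2 cnt (a+1) (p - c₀) cnt (b+1) j` for large `i`: `cnt s (q + 1) = cnt s q * (q + 1 + s) / (q + 1)` (`StmtCntC` (1)), so for fixed `C, c₀` the quotients `cnt s (q + C) / cnt s (q - c₀)` tend to `1` for `q → ∞` (`cnt s (q + C) ≤ cnt s (q - c₀) * (1 + s / (q - c₀ + 1)) ^ (C + c₀)`). -/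
def StmtNumP : Prop :=
  ∀ (a b e₁ e₂ C c₀ : ℕ), 1 ≤ e₁ → 1 ≤ e₂ → ∃ i₀ : ℕ, ∀ i, i₀ ≤ i → c₀ ≤ 4 * (a + 1) * e₁ * i ∧
    i * (e₁ * cnt a (4 * (a + 1) * e₁ * i + C) * cnt (b + 1) (4 * (b + 1) * e₂ * i + C) +
      e₂ * cnt (a + 1) (4 * (a + 1) * e₁ * i + C) * cnt b (4 * (b + 1) * e₂ * i + C)) <
    cnt (a + 1) (4 * (a + 1) * e₁ * i - c₀) * cnt (b + 1) (4 * (b + 1) * e₂ * i)

/-- (SecP) The sections. PROOF (uses `StmtUBH`, `StmtLbP`, `StmtNumP`, `StmtDg1n`; landed: `StmtSubX`, `StmtIntA`, `StmtStpF`; models: `T3/SecXI.lean`, `T3/SecXII.lean`: copy the structure). The dimension is `N = a + b + 2`. `u' ≠ 0`, `T = Tu K u' (X m)`, transcendental over `K` (a nonconstant polynomial in the algebraically independent `X m i`), `κ = K(T)`, `trdeg κ E = a + b + 1`. `StmtDg1n` (`c = a + 1`, `r = b + 1`) for `g = z'`, `z' = X (2m)`: `A, B` with `[E : K(u, v)] = e`, `u = lc A x`, `v = lc B z'`, `e = dgx K (a+1) (b+1) x z' ≥ 1`; so `u, v` are algebraically independent over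 `K` (`N` elements).
`θ_k = aeval ξ t_k`, `k < e`, a basis of `E` over `K(u, v)` consisting of monomials in `ξ`, of degree `≤ c₀`; `Θ` = its `κ`-span. UPPER BOUND: `StmtUBH` for `κ`, `u`, `v`, `e₁`, `e₂`, `W = Θ` (`κ(lc A' u, v) = K(T, lc (A' A) x, lc B z')`, `κ(u, lc B' v) = K(T, lc A x, lc (B' B) z')`: the hypotheses on `e₁`, `e₂`): `C` and `dim_κ (Θ * Vd κ u p * Vd κ v j) ≤ e₁ cnt a (p+C) cnt (b+1) (j+C) + e₂ cnt (a+1) (p+C) cnt b (j+C)`. `p = 4 (a+1) e₁ i`, `j = 4 (b+1) e₂ i`, `q = e i`. `V = z₀ ^ j • (Θ * Vd κ u p * Vd κ v j)`, `z₀ = aeval x Z₀ ≠ 0`.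
LOWER BOUND: `W` = the `K`-span of the `z₀ ^ j * θ_k * (∏ u ^ β) * (∏ v ^ γ)`, `∑ β ≤ p - c₀`, `∑ γ ≤ j`, of dimension `e * cnt (a+1) (p - c₀) * cnt (b+1) j` (`StmtLbP`), contained in `V` and in the integral closure `R` of `K[x]` (`z₀ ^ j * ∏ v ^ γ = z₀ ^ (j - ∑ γ) * ∏ (z₀ v) ^ γ`). `StmtNumP`: `q * dim V < dim W` for large `i`. `StmtSubX` (landed) for `R`: `S = T ^ q * S'`, `S' ∈ R`, `S ≠ 0` in `W`, `S = z₀ ^ j * G(ξ; 1, z')`,
`G = ∑ C(t_k * (∏ (rename succ of the form u_i) ^ β_i)) * X 0 ^ (j - ∑ γ) * ∏ (∑ l, C (C (B i l)) * X l.succ) ^ γ_i`, homogeneous of degree `j`, coefficients of degree `≤ c₀ + (p - c₀) = p`. -/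
def StmtSecP : Prop :=
  ∀ (K E : Type) [Field K] [CharZero K] [Field E] [Algebra K E] (a b : ℕ) (ξ : Fin (a + b + 3) → E), Stp K ξ →
    ∀ (ρ : E →ₐ[K] E) (m : ℕ) (Z₀ : Pl (a + b + 2) K), Z₀ ≠ 0 →
    (∀ i : Fin (a + b + 2), Intx K (fun i : Fin (a + b + 2) => ξ i.succ)
      (MvPolynomial.aeval (fun i : Fin (a + b + 2) => ξ i.succ) Z₀ * (ρ ^ (2 * m)) (ξ i.succ))) →
    ∀ (u' : K) (e₁ e₂ : ℕ), u' ≠ 0 → 1 ≤ e₁ → 1 ≤ e₂ →
    (∀ (A : Fin a → Fin (a + b + 2) → K) (B : Fin (b + 1) → Fin (a + b + 2) → K),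
      Module.finrank (IntermediateField.adjoin K
        (insert (Tu K u' (fun i : Fin (a + b + 2) => (ρ ^ m) (ξ i.succ)))
          (Set.range (lc A fun i : Fin (a + b + 2) => ξ i.succ) ∪
            Set.range (lc B fun i : Fin (a + b + 2) => (ρ ^ (2 * m)) (ξ i.succ))))) E ≤ e₁) →
    (∀ (A : Fin (a + 1) → Fin (a + b + 2) → K) (B : Fin b → Fin (a + b + 2) → K),
      Module.finrank (IntermediateField.adjoin K
        (insert (Tu K u' (fun i : Fin (a + b + 2) => (ρ ^ m) (ξ i.succ)))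
          (Set.range (lc A fun i : Fin (a + b + 2) => ξ i.succ) ∪
            Set.range (lc B fun i : Fin (a + b + 2) => (ρ ^ (2 * m)) (ξ i.succ))))) E ≤ e₂) →
    ∃ i₀ : ℕ, ∀ i, i₀ ≤ i → SctP K ξ (Tu K u' (fun i : Fin (a + b + 2) => (ρ ^ m) (ξ i.succ)))
      (fun i : Fin (a + b + 2) => (ρ ^ (2 * m)) (ξ i.succ)) Z₀
      (4 * (a + 1) * e₁ * i) (4 * (b + 1) * e₂ * i)
      (dgx K (a + 1) (b + 1) (fun i : Fin (a + b + 2) => ξ i.succ)
        (fun i : Fin (a + b + 2) => (ρ ^ (2 * m)) (ξ i.succ)) * i)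

/-- (SecPI) PROOF (uses `StmtSecP`, `StmtETn`, `StmtDg1n`). Dimension `n + 3`. `u' ≠ 0`. (1) `StmtSecP` with `a = n + 1`, `b = 0`: `e₁ = 9 d₁ d₂` (`StmtETn` for `r = 1`), `e₂ = 2 d₁` (`StmtETn` for `r = 0`: `2 ^ 1 * d₁ ^ 0 * d₁`). (2) `a = n`, `b = 1`: `e₁ = 64 d₁ ^ 2 d₃` (`StmtETn` for `r = 2`), `e₂ = 9 d₁ d₂`. The set of exceptions is contained in `{0}`. -/
def StmtSecPI : Prop :=
  ∀ (K E : Type) [Field K] [CharZero K] [Field E] [Algebra K E] (n : ℕ) (ξ : Fin (n + 4) → E), Stp K ξ →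
    ∀ (ρ : E →ₐ[K] E) (m : ℕ) (Z₀ : Pl (n + 3) K), Z₀ ≠ 0 →
    (∀ i : Fin (n + 3), Intx K (fun i : Fin (n + 3) => ξ i.succ)
      (MvPolynomial.aeval (fun i : Fin (n + 3) => ξ i.succ) Z₀ * (ρ ^ (2 * m)) (ξ i.succ))) →
    ∀ d₁ d₂ d₃ D₁ D₂ : ℕ,
    d₁ = dgx K (n + 2) 1 (fun i : Fin (n + 3) => ξ i.succ) (fun i : Fin (n + 3) => (ρ ^ m) (ξ i.succ)) →
    d₂ = dgx K (n + 1) 2 (fun i : Fin (n + 3) => ξ i.succ) (fun i : Fin (n + 3) => (ρ ^ m) (ξ i.succ)) →
    d₃ = dgx K n 3 (fun i : Fin (n + 3) => ξ i.succ) (fun i : Fin (n + 3) => (ρ ^ m) (ξ i.succ)) →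
    D₁ = dgx K (n + 2) 1 (fun i : Fin (n + 3) => ξ i.succ) (fun i : Fin (n + 3) => (ρ ^ (2 * m)) (ξ i.succ)) →
    D₂ = dgx K (n + 1) 2 (fun i : Fin (n + 3) => ξ i.succ) (fun i : Fin (n + 3) => (ρ ^ (2 * m)) (ξ i.succ)) →
    {u : K | ¬ ∃ i₀ : ℕ, ∀ i, i₀ ≤ i → SctP K ξ (Tu K u (fun i : Fin (n + 3) => (ρ ^ m) (ξ i.succ)))
      (fun i : Fin (n + 3) => (ρ ^ (2 * m)) (ξ i.succ)) Z₀
      (36 * (n + 2) * d₁ * d₂ * i) (8 * d₁ * i) (D₁ * i)}.Finite ∧
    {u : K | ¬ ∃ i₀ : ℕ, ∀ i, i₀ ≤ i → SctP K ξ (Tu K u (fun i : Fin (n + 3) => (ρ ^ m) (ξ i.succ)))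
      (fun i : Fin (n + 3) => (ρ ^ (2 * m)) (ξ i.succ)) Z₀
      (256 * (n + 1) * d₁ ^ 2 * d₃ * i) (72 * d₁ * d₂ * i) (D₂ * i)}.Finite

end Pool.Agent.Lib.MP_16285c_agX
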