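import Pool.Agent.Lib.MP_16285c_agX.T3.SpecC
import Pool.Agent.Lib.MP_16285c_agX.Gro.Spec
import Pool.Agent.Lib.MP_16285c_agN.T3.SpecA

/-!
# Section G of ZDP: the closure `Z` of the orbit (statements; note 5018, points (1) - (6))

`𝔮 = span {P}`, `E` its function field over `K`, `ξ i = toF 𝔮 E (X i)`, `x l = ξ l.succ`; `𝔭 ∋ P` the ideal of `Z`, `∂₀P ∉ 𝔭`, `L` its function field, `η i = toF 𝔭 L (X i)`, `x̄ l = η l.succ`;
`RsE 𝔮 𝔭 E L h u` (`Gro/Spec.lean`): `h` is regular along `Z` and its restriction is `u`. `toF 𝔮 E G = aeval ξ G` (`T3Fin3M.aeval_toF` in `T3/Fin3.lean`, `toF` is a ring homomorphism and maps `C c` to `algebraMap K E c`). `VlX`, `OnX`, `FlowX`, `hx`: `T3/Defs.lean`; `StmtVlA`, `StmtFlV`: `T3/SpecD.lean`; `StmtRtX`: `T3/SpecC.lean`.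

Every lemma is a `Prop` with its complete proof in the docstring; used statements are hypotheses: file `Pool/Agent/Lib/MP_16285c_agP/Y.lean`, `theorem tY : StmtY` or `theorem tY : StmtW → StmtY` (hypotheses in the order of the docstring), namespace `Pool.Agent.Lib.MP_16285c_agX`,
auxiliary lemmas in the namespace `Pool.Agent.Lib.MP_16285c_agX.PYM`.
-/

set_option autoImplicit false

namespace Pool.Agent.Lib.MP_16285c_agX

open Pool.Agent.Lib.MP_16285c_ag Pool.Agent.Lib.MP_16285c_agN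
open Pool.Agent.Lib.MP_16285c_agS (toF)

section

variable {K : Type} [Field K] {n : ℕ}

/-- `∂₀P * ∂ⱼG - ∂ⱼP * ∂₀G`: the derivation `δⱼ` of the hypersurface `P = 0` (with `δⱼ x_l = 1` for `l = j` and `0` otherwise), multiplied by `∂₀P`. -/
noncomputable def JpZ (P : Pl (n + 1) K) (j : Fin n) (G : Pl (n + 1) K) : Pl (n + 1) K :=
  MvPolynomial.pderiv 0 P * MvPolynomial.pderiv j.succ G - MvPolynomial.pderiv j.succ P * MvPolynomial.pderiv 0 G

/-- The numerator of the Jacobian determinant of the map with the components `N l / D l`. -/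
noncomputable def JcZ (P : Pl (n + 1) K) (N D : Fin n → Pl (n + 1) K) : Pl (n + 1) K :=
  Matrix.det (Matrix.of fun j l : Fin n => D l * JpZ P j (N l) - N l * JpZ P j (D l))

/-- `δ j` are the derivations `δⱼ` of the function field `E` of the hypersurface. -/
def DvZ (P : Pl (n + 1) K) (E : Type) [Field E] [Algebra (CR (Ideal.span {P})) E] [Algebra K E]
    (δ : Fin n → Derivation K E E) : Prop :=
  ∀ (j : Fin n) (G : Pl (n + 1) K),
    δ j (toF (Ideal.span {P}) E G) * toF (Ideal.span {P}) E (MvPolynomial.pderiv 0 P) =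
      toF (Ideal.span {P}) E (JpZ P j G)

/-- The Jacobian matrix `δⱼ (τ x_l)` of `τ`. -/
noncomputable def JmZ (P : Pl (n + 1) K) (E : Type) [Field E] [Algebra (CR (Ideal.span {P})) E] [Algebra K E]
    (δ : Fin n → Derivation K E E) (τ : E →ₐ[K] E) : Matrix (Fin n) (Fin n) E :=
  Matrix.of fun j l => δ j (τ (toF (Ideal.span {P}) E (MvPolynomial.X l.succ)))

end

/-! ## Derivations and Jacobian determinants -/

/-- (DvE) The derivations `δⱼ`. PROOF. (1) `P` is irreducible (`span {P}` is prime, `P ≠ 0` by `MonZ`), `¬ P ∣ pderiv 0 P`: `T3CoreAM.not_dvd_der` in `T3/CoreA.lean`; `toF 𝔮 E G = 0` iff `G ∈ 𝔮` (`ModXM.cl_eq_zero` as in `T3/Fin3.lean`). (2) Fix `j`. `v : Fin (n + 1) → E`, `v 0 = - (∂ⱼP)(ξ) / (∂₀P)(ξ)`, `v l.succ = 1` if `l = j`, `0` otherwise. `Ψ = MvPolynomial.aeval (fun i => TrivSqZeroExt.inl (ξ i) + TrivSqZeroExt.inr (v i))`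
`: Pl (n + 1) K →ₐ[K] TrivSqZeroExt E E` (or `DualNumber E`); by induction on `G`: `fst (Ψ G) = G(ξ)`, `snd (Ψ G) = ∑ i, (∂ᵢG)(ξ) * v i`. So `Ψ P = 0`, `Ψ` factors through `CR 𝔮`, and `Ψ a` is a unit if `a ≠ 0` (`TrivSqZeroExt.isUnit_iff_isUnit_fst`): it extends to `Ψ' : E →+* TrivSqZeroExt E E` (`IsLocalization.lift`), `fst (Ψ' h) = h` (uniqueness of the extension of `CR 𝔮 → E`), `δⱼ h = snd (Ψ' h)`. `Derivation.mk'`.
`δⱼ (G(ξ)) * (∂₀P)(ξ) = (JpZ P j G)(ξ)` by the formula for `snd`. -/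
def StmtDvE : Prop :=
  ∀ (K : Type) [Field K] [CharZero K] (n : ℕ) (P : Pl (n + 1) K) [(Ideal.span {P}).IsPrime], MonZ P →
    ∀ (E : Type) [Field E] [Algebra (CR (Ideal.span {P})) E] [IsFractionRing (CR (Ideal.span {P})) E] [Algebra K E]
      [IsScalarTower K (CR (Ideal.span {P})) E],
      toF (Ideal.span {P}) E (MvPolynomial.pderiv 0 P) ≠ 0 ∧ ∃ δ : Fin n → Derivation K E E, DvZ P E δ

/-- (ChZ) The chain rule. PROOF. Fix `j`, `τ`; `Δ h = δⱼ (τ h) - ∑ l, τ (δ_l h) * δⱼ (τ x_l)`. `Δ` is additive, `Δ (a * b) = τ a * Δ b + τ b * Δ a`, `Δ (algebraMap K E c) = 0`. `Δ x_l = 0`: `δ_i x_l = 1` if `i = l`, `0` otherwise (`DvZ` for `G = X l.succ`: `JpZ P i (X l.succ) = ∂₀P * (if i = l then 1 else 0)`; cancel `(∂₀P)(ξ) ≠ 0`). By induction on `G` (constants, sums, products with variables): `Δ (toF 𝔮 E G) = τ (toF 𝔮 E (pderiv 0 G)) * Δ (ξ 0)`.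
For `G = P`: `toF 𝔮 E P = 0`, so `0 = τ ((∂₀P)(ξ)) * Δ (ξ 0)`, `Δ (ξ 0) = 0`. So `Δ (toF 𝔮 E G) = 0` for all `G`. For `h * toF 𝔮 E B = toF 𝔮 E A`, `toF 𝔮 E B ≠ 0`: `τ (toF 𝔮 E B) * Δ h = 0`. -/
def StmtChZ : Prop :=
  ∀ (K : Type) [Field K] (n : ℕ) (P : Pl (n + 1) K) [(Ideal.span {P}).IsPrime]
    (E : Type) [Field E] [Algebra (CR (Ideal.span {P})) E] [IsFractionRing (CR (Ideal.span {P})) E] [Algebra K E]
      [IsScalarTower K (CR (Ideal.span {P})) E] (δ : Fin n → Derivation K E E), DvZ P E δ →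
      toF (Ideal.span {P}) E (MvPolynomial.pderiv 0 P) ≠ 0 → ∀ (τ : E →ₐ[K] E) (j : Fin n) (h : E),
      δ j (τ h) = ∑ l, τ (δ l h) * δ j (τ (toF (Ideal.span {P}) E (MvPolynomial.X l.succ)))

/-- (JtZ) The Jacobian determinants of the iterates. PROOF (uses `StmtChZ`). `N = 0`: `JmZ P E δ 1 = 1` since `δⱼ x_l = 1` if `j = l`, `0` otherwise (as in `StmtChZ`). Step: `ρ ^ (N + 1) = ρ ^ N * ρ`, i.e. `(ρ ^ (N + 1)) x_l = (ρ ^ N) (ρ x_l)`; `StmtChZ` for `τ = ρ ^ N`, `h = ρ x_l`: `JmZ P E δ (ρ ^ (N + 1)) = JmZ P E δ (ρ ^ N) * (JmZ P E δ ρ).map (ρ ^ N)`;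
`Matrix.det_mul`, `RingHom.map_det` / `AlgHom.map_det`, `Finset.prod_range_succ`. -/
def StmtJtZ : Prop :=
  ∀ (K : Type) [Field K] (n : ℕ) (P : Pl (n + 1) K) [(Ideal.span {P}).IsPrime]
    (E : Type) [Field E] [Algebra (CR (Ideal.span {P})) E] [IsFractionRing (CR (Ideal.span {P})) E] [Algebra K E]
      [IsScalarTower K (CR (Ideal.span {P})) E] (δ : Fin n → Derivation K E E), DvZ P E δ →
      toF (Ideal.span {P}) E (MvPolynomial.pderiv 0 P) ≠ 0 → ∀ (ρ : E →ₐ[K] E) (N : ℕ),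
      (JmZ P E δ (ρ ^ N)).det = ∏ i ∈ Finset.range N, (ρ ^ i) (JmZ P E δ ρ).det

/-- (JvZ) The Jacobian determinants of the iterates do not vanish along the orbit. PROOF (uses `StmtVlA`, `StmtFlV`, `StmtJtZ`). `toF 𝔮 E ∂₀P ≠ 0`: otherwise `(∂₀P)(z 0) = 0` (`OnX`). (a) Apply `δⱼ` to `ρ x_l * D_l(ξ) = N_l(ξ)` and multiply by `(∂₀P)(ξ) * D_l(ξ)`: `δⱼ (ρ x_l) * (D_l(ξ) ^ 2 * (∂₀P)(ξ)) = (D_l * JpZ P j N_l - N_l * JpZ P j D_l)(ξ)`. So (`Matrix.det_mul_row`-type, `RingHom.map_det`)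
`(JmZ P E δ ρ).det * (∏ l, D_l ^ 2 * ∂₀P)(ξ) = (JcZ P N D)(ξ)`: the determinant has at every `z t` the value `w_t = JcZ(z t) / ∏ l, (D_l ^ 2 ∂₀P)(z t) ≠ 0`. (b) If `h * B(ξ) = A(ξ)`, `B(z i) ≠ 0`, then `(ρ ^ i) h * B(ρ ^ i ξ) = A(ρ ^ i ξ)`, and `B(ρ ^ i ξ)`, `A(ρ ^ i ξ)` have at `z 0` the values `B(z i)`, `A(z i)` (`StmtFlV`, `StmtVlA` (6)); so (`StmtVlA` (5), (4)) `(ρ ^ i) h` has at `z 0` the value of `h` at `z i`.
(c) `StmtJtZ` and `StmtVlA` (4) (induction on `N'`; the value of `1` is `1`): `v = ∏ i < N', w_i`. -/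
def StmtJvZ : Prop :=
  ∀ (K Ω : Type) [Field K] [Field Ω] [Algebra K Ω] (n : ℕ) (P : Pl (n + 1) K) [(Ideal.span {P}).IsPrime]
    (E : Type) [Field E] [Algebra (CR (Ideal.span {P})) E] [IsFractionRing (CR (Ideal.span {P})) E] [Algebra K E]
      [IsScalarTower K (CR (Ideal.span {P})) E] (δ : Fin n → Derivation K E E), DvZ P E δ →
      ∀ (ρ : E →ₐ[K] E) (z : ℕ → Fin (n + 1) → Ω),
      FlowX K (fun i => toF (Ideal.span {P}) E (MvPolynomial.X i)) ρ z →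
      (∀ t, MvPolynomial.aeval (z t) (MvPolynomial.pderiv 0 P) ≠ 0) →
      ∀ N D : Fin n → Pl (n + 1) K,
      (∀ l, ρ (toF (Ideal.span {P}) E (MvPolynomial.X l.succ)) * toF (Ideal.span {P}) E (D l) =
        toF (Ideal.span {P}) E (N l)) →
      (∀ t l, MvPolynomial.aeval (z t) (D l) ≠ 0) → (∀ t, MvPolynomial.aeval (z t) (JcZ P N D) ≠ 0) →
      ∀ N' : ℕ, ∃ v : Ω, v ≠ 0 ∧
        VlX K (fun i => toF (Ideal.span {P}) E (MvPolynomial.X i)) (z 0) (JmZ P E δ (ρ ^ N')).det v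

/-- (VrZ) Nonzero values give nonzero residues. PROOF. `h * B(ξ) = A(ξ)`, `B(pt) ≠ 0`, `A(pt) = v * B(pt) ≠ 0`: so `A, B ∉ 𝔭`, `u = toF 𝔭 L A / toF 𝔭 L B`. -/
def StmtVrZ : Prop :=
  ∀ (K Ω : Type) [Field K] [Field Ω] [Algebra K Ω] (n : ℕ) (𝔮 𝔭 : Ideal (Pl n K)) [𝔮.IsPrime] [𝔭.IsPrime]
    (E : Type) [Field E] [Algebra (CR 𝔮) E] [IsFractionRing (CR 𝔮) E] [Algebra K E] [IsScalarTower K (CR 𝔮) E]
    (L : Type) [Field L] [Algebra (CR 𝔭) L] [IsFractionRing (CR 𝔭) L] [Algebra K L] [IsScalarTower K (CR 𝔭) L]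
    (pt : Fin n → Ω), (∀ G ∈ 𝔭, MvPolynomial.aeval pt G = 0) → ∀ (h : E) (v : Ω), v ≠ 0 →
      VlX K (fun i => toF 𝔮 E (MvPolynomial.X i)) pt h v → ∃ u : L, u ≠ 0 ∧ RsE 𝔮 𝔭 E L h u

/-- (JbZ) The Jacobian determinant of a dominant map is not zero. PROOF (uses `StmtDvE`). `N, D`: every element of `E` is a quotient, `P ∤ D l` as `toF 𝔮 E (D l) ≠ 0`. As in `StmtJvZ` (a): `(JmZ P E δ ρ).det * (∏ l, D_l ^ 2 * ∂₀P)(ξ) = (JcZ P N D)(ξ)`; suppose that it is `0`, so `det = 0`: there is `v : Fin n → E`, `v ≠ 0`, with `∑ j, v j * δⱼ (ρ x_l) = 0` for all `l`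
(`Matrix.exists_vecMul_eq_zero_iff`). The derivation `d = ∑ j, v j • δⱼ` of `E` over `K` vanishes at all `ρ x_l`, and `d x_i = v i`. Every `u ∈ E` is algebraic over `κ = K(ρ x_l : l)`: `E` is algebraic over `K(x)` (`StmtTB` (3) with `𝔭 = 𝔮`, or `Stp.int` of `StmtGenS`), so `ρ E` over `κ`, and `E` over `ρ E` (equal finite transcendence degrees; `StmtG1` (1): `E` is finite over `ρ.fieldRange`).
`d` vanishes on `κ`; for `u ∈ E` with the minimal polynomial `F` over `κ`: `0 = d (F(u)) = F'(u) * d u` and `F'(u) ≠ 0` (characteristic `0`), so `d u = 0`; so `v i = d x_i = 0`: a contradiction. (Mathlib: `Derivation` and `minpoly`; or restrict `d` to a derivation over `κ` and use that the module of differentials of a separable algebraic extension is `0`: `Algebra.FormallyUnramified`.)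
Hypotheses: `StmtDvE → StmtG1 → StmtGenS → StmtJbZ`. -/
def StmtJbZ : Prop :=
  ∀ (K : Type) [Field K] [CharZero K] (n : ℕ) (P : Pl (n + 1) K) [(Ideal.span {P}).IsPrime], MonZ P →
    ∀ (E : Type) [Field E] [Algebra (CR (Ideal.span {P})) E] [IsFractionRing (CR (Ideal.span {P})) E] [Algebra K E]
      [IsScalarTower K (CR (Ideal.span {P})) E] (ρ : E →ₐ[K] E), ∃ N D : Fin n → Pl (n + 1) K,
      (∀ l, ρ (toF (Ideal.span {P}) E (MvPolynomial.X l.succ)) * toF (Ideal.span {P}) E (D l) =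
        toF (Ideal.span {P}) E (N l)) ∧ (∀ l, ¬ P ∣ D l) ∧ ¬ P ∣ JcZ P N D

/-- (JxZ) Base change. PROOF. `MvPolynomial.pderiv_map`, `RingHom.map_det`. -/
def StmtJxZ : Prop :=
  ∀ (K k : Type) [Field K] [Field k] [Algebra K k] (n : ℕ) (P : Pl (n + 1) K) (N D : Fin n → Pl (n + 1) K),
    JcZ (MvPolynomial.map (algebraMap K k) P) (fun l => MvPolynomial.map (algebraMap K k) (N l))
      (fun l => MvPolynomial.map (algebraMap K k) (D l)) = MvPolynomial.map (algebraMap K k) (JcZ P N D)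

/-! ## Regular systems of parameters -/

/-- (RgZ) Derivatives of regular functions are regular. PROOF. `h * B(ξ) = A(ξ)`, `B ∉ 𝔭`. Apply `δⱼ` and multiply by `(∂₀P)(ξ) * B(ξ)`: `δⱼ h * (B ^ 2 * ∂₀P)(ξ) = (B * JpZ P j A - A * JpZ P j B)(ξ)`; `B ^ 2 * ∂₀P ∉ 𝔭`, `v` = the quotient in `L`. -/
def StmtRgZ : Prop :=
  ∀ (K : Type) [Field K] (n : ℕ) (P : Pl (n + 1) K) (𝔭 : Ideal (Pl (n + 1) K)) [(Ideal.span {P}).IsPrime] [𝔭.IsPrime],
    MvPolynomial.pderiv 0 P ∉ 𝔭 →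
    ∀ (E : Type) [Field E] [Algebra (CR (Ideal.span {P})) E] [IsFractionRing (CR (Ideal.span {P})) E] [Algebra K E]
      [IsScalarTower K (CR (Ideal.span {P})) E]
      (L : Type) [Field L] [Algebra (CR 𝔭) L] [IsFractionRing (CR 𝔭) L] [Algebra K L] [IsScalarTower K (CR 𝔭) L]
      (δ : Fin n → Derivation K E E), DvZ P E δ → ∀ (j : Fin n) (h : E) (u : L),
      RsE (Ideal.span {P}) 𝔭 E L h u → ∃ v : L, RsE (Ideal.span {P}) 𝔭 E L (δ j h) v

/-- `g l`, `l ∉ α`, are functions which vanish on `Z`, and the residues of their gradients `(δⱼ g l)_j` are linearly independent. -/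
def RsyZ {K L E : Type} [Field K] [Field L] [Field E] [Algebra K L] [Algebra K E] {n : ℕ} (O : Subalgebra K E)
    (res : O →ₐ[K] L) (δ : Fin n → Derivation K E E) (α : Finset (Fin n)) (g : Fin n → O) : Prop :=
  (∀ l, l ∉ α → res (g l) = 0) ∧ ∀ D : Fin n → Fin n → O, (∀ j l, (D j l : E) = δ j (g l : E)) →
    ∀ v : Fin n → L, (∀ a ∈ α, v a = 0) → (∀ j, ∑ l, v l * res (D j l) = 0) → v = 0

/-- (QrZ) Quasi-regularity. PROOF. In terms of polynomials: `f = ∑ b ∈ S, monomial b (q b) : MvPolynomial (Fin n) O` (`Finsupp.equivFunOnFinite` for the exponents; `S` has no repetitions, so `coeff b f = q b` for `b ∈ S` and `0` otherwise), `eval g f = 0`. CLAIM (induction on `m`): if `f : MvPolynomial (Fin n) O` has only exponents which vanish on `α`, `coeff b f = 0` for all `b` with `∑ b j < m`, and `eval g f = 0`,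
then `res (coeff b f) = 0` for all `b` with `∑ b j = m`. `m = 0`: apply `res` to `eval g f = 0`: `res (g l) = 0` for `l ∉ α`, so `res (coeff 0 f) = 0`. Step `m + 1`: let `δ'ⱼ : O → O` be the restriction of `δⱼ`, `f_j = (∑ b ∈ f.support, monomial b (δ'ⱼ (coeff b f))) + ∑ l, C (δ'ⱼ (g l)) * pderiv l f`. `eval g f_j = δ'ⱼ (eval g f) = 0` (for all `f`: additive in `f`, check monomials; `Derivation.leibniz_pow`, or induction
`MvPolynomial.induction_on`), the exponents of `f_j` vanish on `α` (`pderiv a f = 0` for `a ∈ α`), `coeff b f_j = δ'ⱼ (coeff b f) + ∑ l, δ'ⱼ (g l) * ((b l + 1) * coeff (b + single l 1) f)`, which is `0` for `∑ b j < m`. The claim for `m`, `f_j`: for `∑ b j = m` (`coeff b f = 0`): `∑ l, res (δ'ⱼ (g l)) * (b l + 1) * res (coeff (b + single l 1) f) = 0` for all `j`.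
By `RsyZ` with `v l = (b l + 1) * res (coeff (b + single l 1) f)` (`0` for `l ∈ α`): `v = 0`, and `b l + 1 ≠ 0` in `L`. Every exponent of degree `m + 1` is `b + single l 1`. (The base ring `O` is a domain; only the formula for `eval g f_j` needs work.) Apply the claim with `m = ∑ b j` for the given minimal `b`. -/
def StmtQrZ : Prop :=
  ∀ (K L E : Type) [Field K] [Field L] [CharZero L] [Field E] [Algebra K L] [Algebra K E] (n : ℕ) (O : Subalgebra K E)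
    (res : O →ₐ[K] L) (δ : Fin n → Derivation K E E), (∀ j, ∀ h ∈ O, δ j h ∈ O) →
    ∀ (α : Finset (Fin n)) (g : Fin n → O), RsyZ O res δ α g →
      ∀ (S : Finset (Fin n → ℕ)) (q : (Fin n → ℕ) → O), (∀ b ∈ S, ∀ a ∈ α, b a = 0) →
        ∑ b ∈ S, (∏ j, g j ^ b j) * q b = 0 →
        ∀ b ∈ S, (∀ b' ∈ S, ∑ j, b j ≤ ∑ j, b' j) → res (q b) = 0

/-- (IdZ) Independence over `κ`. PROOF (uses `StmtQrZ`). Edit `Gro/LowB.lean` (`StmtLowB`), with `StmtQrZ` in place of `StmtLowA` and all weights `1`. -/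
def StmtIdZ : Prop :=
  ∀ (K L E : Type) [Field K] [Field L] [CharZero L] [Field E] [Algebra K L] [Algebra K E] (n : ℕ) (O : Subalgebra K E)
    (res : O →ₐ[K] L) (δ : Fin n → Derivation K E E), (∀ j, ∀ h ∈ O, δ j h ∈ O) →
    ∀ (α : Finset (Fin n)) (g : Fin n → O), RsyZ O res δ α g →
      ∀ (κ : IntermediateField K E) (ι : κ →ₐ[K] L), (∀ c : κ, ∃ h : O, (h : E) = c ∧ res h = ι c) →
      ∀ (s : ℕ) (θ : Fin s → O), LinearIndependent ι.fieldRange (fun i => res (θ i)) →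
        LinearIndependent κ (fun t : {b : Fin n → ℕ // ∀ a ∈ α, b a = 0} × Fin s =>
          (((∏ j, g j ^ (t.1 : Fin n → ℕ) j) * θ t.2 : O) : E))

/-- (RlZ) Separable relations. PROOF (uses `StmtRelX`). For `j ∉ α` consider the `F ≠ 0` with `aeval x F = 0`, `F.vars ⊆ insert j α` (there is one: `StmtRelX`) and take one with minimal `F.degreeOf j` (`Nat.find`-type). `F' = pderiv j F` satisfies `F'.vars ⊆ insert j α`. If `F' = 0` then (characteristic `0`) `j ∉ F.vars`, so `F.vars ⊆ α` and `F = 0` since the `x a`, `a ∈ α`, are algebraically independent: a contradiction.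
If `F' ≠ 0` and `aeval x F' = 0` then `F'.degreeOf j < F.degreeOf j`: a contradiction. So `aeval x F' ≠ 0`. (To work with one variable: `F` as a polynomial in `X j`, or `MvPolynomial.degreeOf_pderiv`-type lemmas by looking at the support.) -/
def StmtRlZ : Prop :=
  ∀ (K L : Type) [Field K] [CharZero K] [Field L] [Algebra K L] (n : ℕ) (x : Fin n → L) (α : Finset (Fin n)),
    IsTranscendenceBasis K (fun a : α => x (a : Fin n)) →
    ∃ G : Fin n → MvPolynomial (Fin n) K, ∀ j, j ∉ α → MvPolynomial.aeval x (G j) = 0 ∧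
      MvPolynomial.aeval x (MvPolynomial.pderiv j (G j)) ≠ 0 ∧ (G j).vars ⊆ insert j α

/-- (SyZ) The equations of `Z`, composed with the map. PROOF (uses `StmtRsE`, `StmtRgZ`). `x l = toF 𝔮 E (X l.succ)`, `x̄ l = toF 𝔭 L (X l.succ)`; `RsE (aeval x G) (aeval x̄ G)` for `G : Pl n K` (`aeval x G = toF 𝔮 E (rename Fin.succ G)`). `RsE (g l) (ρb (aeval x̄ (G l)))`, so by uniqueness of residues `res (g l) = ρb 0 = 0` for `l ∉ α`. `g l = aeval (fun i => ρ (x i)) (G l)` and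
`δⱼ (aeval y G) = ∑ i, aeval y (pderiv i G) * δⱼ (y i)` for every `y : Fin n → E` (induction on `G`). So `δⱼ (g l) = ∑ i, ρ (aeval x (pderiv i (G l))) * (JmZ P E δ ρ) j i`. All entries of `JmZ P E δ ρ` are in `O` (`ρ (x i)` has a residue; `StmtRgZ`); let `r j i` be their residues, `det r = d` (`res` is a ring homomorphism, `RingHom.map_det`; uniqueness). `res (D j l) = ∑ i, ρb (aeval x̄ (pderiv i (G l))) * r j i`.
Let `∑ l, v l * res (D j l) = 0` for all `j`, `w i = ∑ l, v l * ρb (aeval x̄ (pderiv i (G l)))`: `∑ i, r j i * w i = 0` for all `j`, `det r ≠ 0`, so `w = 0` (`Matrix.eq_zero_of_mulVec_eq_zero`). For `i ∉ α` all terms with `l ≠ i` vanish (`l ∈ α`: `v l = 0`; `l ∉ α`: `i ∉ (G l).vars`, so `pderiv i (G l) = 0`: `MvPolynomial.pderiv_eq_zero_of_notMem_vars`), so `v i * ρb (aeval x̄ (pderiv i (G i))) = 0`, `v i = 0`. -/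
def StmtSyZ : Prop :=
  ∀ (K : Type) [Field K] (n : ℕ) (P : Pl (n + 1) K) (𝔭 : Ideal (Pl (n + 1) K)) [(Ideal.span {P}).IsPrime] [𝔭.IsPrime],
    P ∈ 𝔭 → MvPolynomial.pderiv 0 P ∉ 𝔭 →
    ∀ (E : Type) [Field E] [Algebra (CR (Ideal.span {P})) E] [IsFractionRing (CR (Ideal.span {P})) E] [Algebra K E]
      [IsScalarTower K (CR (Ideal.span {P})) E]
      (L : Type) [Field L] [Algebra (CR 𝔭) L] [IsFractionRing (CR 𝔭) L] [Algebra K L] [IsScalarTower K (CR 𝔭) L]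
      (δ : Fin n → Derivation K E E), DvZ P E δ → ∀ (O : Subalgebra K E) (res : O →ₐ[K] L),
      (∀ h : E, h ∈ O ↔ ∃ u : L, RsE (Ideal.span {P}) 𝔭 E L h u) →
      (∀ h : O, RsE (Ideal.span {P}) 𝔭 E L (h : E) (res h)) →
      ∀ (ρ : E →ₐ[K] E) (ρb : L →ₐ[K] L),
      (∀ h v, RsE (Ideal.span {P}) 𝔭 E L h v → RsE (Ideal.span {P}) 𝔭 E L (ρ h) (ρb v)) →
      ∀ d : L, d ≠ 0 → RsE (Ideal.span {P}) 𝔭 E L (JmZ P E δ ρ).det d →
      ∀ (α : Finset (Fin n)) (G : Fin n → Pl n K),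
      (∀ j, j ∉ α → MvPolynomial.aeval (fun l : Fin n => toF 𝔭 L (MvPolynomial.X l.succ)) (G j) = 0 ∧
        MvPolynomial.aeval (fun l : Fin n => toF 𝔭 L (MvPolynomial.X l.succ)) (MvPolynomial.pderiv j (G j)) ≠ 0 ∧
        (G j).vars ⊆ insert j α) →
      ∀ g : Fin n → O, (∀ l, (g l : E) =
        ρ (MvPolynomial.aeval (fun l : Fin n => toF (Ideal.span {P}) E (MvPolynomial.X l.succ)) (G l))) →
      RsyZ O res δ α g

/-! ## Degrees -/

/-- (EmZ) The residue map of the field `K(u)`. PROOF (uses `StmtRsE`). `AlgebraicIndependent K u`: a relation `G(u) = 0` has the residue `G(ub) = 0` (`RsE (aeval u G) (aeval ub G)`, uniqueness of residues), so `G = 0`. Edit `Gro/ResX.lean` (`StmtResX`): every nonzero polynomial in the `u i` has a nonzero residue, so every element of `adjoin K (range u)` has a residue, unique, and `ι` is a homomorphism;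
`ι.fieldRange` contains the `ub i` and is contained in `adjoin K (range ub)` (`AlgHom.fieldRange_eq_map`, `IntermediateField.adjoin_map`: `ι.fieldRange = (adjoin K (range u) as a subfield of itself)` is generated by the `ι (u i) = ub i`). -/
def StmtEmZ : Prop :=
  ∀ (K : Type) [Field K] (n : ℕ) (𝔮 𝔭 : Ideal (Pl n K)) [𝔮.IsPrime] [𝔭.IsPrime], 𝔮 ≤ 𝔭 →
    ∀ (E : Type) [Field E] [Algebra (CR 𝔮) E] [IsFractionRing (CR 𝔮) E] [Algebra K E] [IsScalarTower K (CR 𝔮) E]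
      (L : Type) [Field L] [Algebra (CR 𝔭) L] [IsFractionRing (CR 𝔭) L] [Algebra K L] [IsScalarTower K (CR 𝔭) L]
      (q : ℕ) (u : Fin q → E) (ub : Fin q → L), (∀ i, RsE 𝔮 𝔭 E L (u i) (ub i)) → AlgebraicIndependent K ub →
      AlgebraicIndependent K u ∧ ∃ ι : IntermediateField.adjoin K (Set.range u) →ₐ[K] L,
        (∀ c : IntermediateField.adjoin K (Set.range u), RsE 𝔮 𝔭 E L (c : E) (ι c)) ∧
        ι.fieldRange = IntermediateField.adjoin K (Set.range ub)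

/-- (CtZ) Counting. PROOF. Edit `Gro/LowC.lean` (`StmtLowC`; uses `StmtVd` (1)): the products `aeval y (∏ G ^ b) * θ i` with `∑ b j ≤ N` lie in `span (range θ) * Vd κ y (D * N)`, a finite dimensional space (`Submodule.FG.mul`), and there are `s * cnt (n - α.card) N` of them. -/
def StmtCtZ : Prop :=
  ∀ (K E : Type) [Field K] [Field E] [Algebra K E] (n m : ℕ) (y : Fin m → E) (κ : IntermediateField K E)
    (α : Finset (Fin n)) (s : ℕ) (G : Fin n → MvPolynomial (Fin m) K) (θ : Fin s → E),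
    LinearIndependent κ (fun t : {b : Fin n → ℕ // ∀ a ∈ α, b a = 0} × Fin s =>
      MvPolynomial.aeval y (∏ j, G j ^ (t.1 : Fin n → ℕ) j) * θ t.2) →
    ∀ D : ℕ, (∀ j, j ∉ α → (G j).totalDegree ≤ D) →
      ∀ N : ℕ, s * cnt (n - α.card) N ≤
        Module.finrank κ (Submodule.span κ (Set.range θ) * Vd κ y (D * N) : Submodule κ E)

/-- (UzZ) The upper bound. PROOF (uses `StmtNN`, `StmtXUpW` of `Lib/MP_16285c_agN/T3/SpecA.lean`). `StmtNN` for `y`: `s, A, W` with `l i = ∑ j, A i j * y j` algebraically independent over `κ` and `Vd κ y a ≤ W * Vd κ l a`. `F` is finite over `κ(l)`: the `y j` are integral over `κ[l]` (proof of `StmtUpF`, `Lib/MP_16285c_agN/Degr/UpF.lean`), so `κ(y)` is finite over `κ(l)`, and `F` is finite over `κ(y)`.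
So `l` is a transcendence basis and `s = c` (`subst`). `StmtXUpW` for `W₀ * W`: `finrank (W₀ * W * Vd κ l a) ≤ [F : κ(l)] * cnt c (a + C)`, `[F : κ(l)] ≤ e`, and `W₀ * Vd κ y a ≤ W₀ * W * Vd κ l a` (finite dimensional: `Submodule.finrank_mono`). -/
def StmtUzZ : Prop :=
  ∀ (K κ F : Type) [Field K] [Infinite K] [Field κ] [Field F] [Algebra K κ] [Algebra κ F] [Algebra K F]
    [IsScalarTower K κ F] (c m : ℕ) (y : Fin m → F) (W₀ : Submodule κ F), W₀.FG → Algebra.trdeg κ F = c →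
    Module.Finite (IntermediateField.adjoin κ (Set.range y)) F → ∀ e : ℕ,
    (∀ B : Fin c → Fin m → K, Module.finrank (IntermediateField.adjoin κ (Set.range (lc B y))) F ≤ e) →
    ∃ C : ℕ, ∀ a : ℕ, Module.finrank κ (W₀ * Vd κ y a : Submodule κ F) ≤ e * cnt c (a + C)

/-- (BkZ) Bookkeeping. PROOF. The two fields `adjoin (adjoin K (range u)) (range (lc B y))` and `adjoin K (range (lc A x) ∪ range (lc (Fin.cons b B) y))` have the same elements (`IntermediateField.adjoin_adjoin_left`; `range u ∪ range (lc B y)` is the same set: `Fin.range_cons`, `lc (Fin.cons b B) y = Fin.cons (∑ j, b j * y j) (lc B y)`); edit `Gro/BkX.lean`. -/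
def StmtBkZ : Prop :=
  ∀ (K E : Type) [Field K] [Field E] [Algebra K E] (n a c : ℕ) (x y : Fin n → E) (A : Fin a → Fin n → K)
    (b : Fin n → K) (B : Fin c → Fin n → K) (u : Fin (a + 1) → E),
    u = Fin.cons (∑ j, algebraMap K E (b j) * y j) (lc A x) →
    Module.finrank (IntermediateField.adjoin (IntermediateField.adjoin K (Set.range u)) (Set.range (lc B y))) E =
      Module.finrank (IntermediateField.adjoin K
        (Set.range (lc A x) ∪ Set.range (lc (Fin.cons b B : Fin (c + 1) → Fin n → K) y))) E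

/-- (FtZ) Transcendence degree and finiteness over `K(u)`. PROOF. (1) `Algebra.trdeg_add_eq`; `trdeg K (adjoin K (range u)) = q` (`u` is a transcendence basis of `adjoin K (range u)`; compare `Gro/TrdX.lean`). (2) (uses `StmtG1`, `StmtTB`) `E` is algebraic over `K(x)` (`StmtTB` (3) with `𝔭 = 𝔮`), so `ρ.fieldRange` over `K(ρ x)`, and `E` is finite over `ρ.fieldRange` (`StmtG1` (1)): so `E` is algebraic over `K(ρ x) ⊆ κ(ρ x)`,
and `E` is generated as a field over `K` by the finitely many `ξ i` (every element of `E` is a quotient `toF 𝔮 E A / toF 𝔮 E B`): finite (`IntermediateField.finiteDimensional_adjoin`-type). Hypotheses: `StmtG1 → StmtTB → StmtFtZ`. -/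
def StmtFtZ : Prop :=
  (∀ (K E : Type) [Field K] [Field E] [Algebra K E] (n q : ℕ) (u : Fin q → E), Algebra.trdeg K E = n →
    AlgebraicIndependent K u → ∃ c : ℕ, q + c = n ∧ Algebra.trdeg (IntermediateField.adjoin K (Set.range u)) E = c) ∧
  ∀ (K : Type) [Field K] (n : ℕ) (P : Pl (n + 1) K) [(Ideal.span {P}).IsPrime], MonZ P →
    ∀ (E : Type) [Field E] [Algebra (CR (Ideal.span {P})) E] [IsFractionRing (CR (Ideal.span {P})) E] [Algebra K E]
      [IsScalarTower K (CR (Ideal.span {P})) E] (ρ : E →ₐ[K] E) (κ : IntermediateField K E),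
      Module.Finite (IntermediateField.adjoin κ
        (Set.range fun l : Fin n => ρ (toF (Ideal.span {P}) E (MvPolynomial.X l.succ)))) E

/-- (DgZ) The degrees on `Z`. PROOF (uses `StmtRsE`, `StmtLocO`, `StmtTB`, `StmtRlZ`, `StmtSyZ`, `StmtRgZ`, `StmtEmZ`, `StmtThetaX`, `StmtIdZ`, `StmtCtZ`, `StmtUzZ`, `StmtBkZ`, `StmtFtZ`, `StmtNum`, `StmtCuG`). `α : Finset (Fin n)` with `x̄ j`, `j ∈ α`, a transcendence basis of `L` (`StmtTB` (3), (1)), `α.card = rk 𝔭 = a + 1` (`StmtTB` (2)), so `n - α.card = c`. `G` from `StmtRlZ` for `x̄`; `D = ∑ j, (G j).totalDegree`, `C = (D + 1) ^ c`.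
`O, res` from `StmtLocO` (for `α`; forget `Φ`). Given `ρ, ρb, d, e, A, b`: `ub = Fin.cons (∑ i, b i * ρb (x̄ i)) (lc A x̄) : Fin (a + 1) → L` (`Set.range ub = insert _ (range (lc A x̄))`). If `[L : K(ub)] = 0` there is nothing to show. Otherwise `L` is finite over `K(ub)`, and `ub` is algebraically independent: a transcendence basis in `range ub` (`StmtTB` (1)) has `rk 𝔭 = a + 1` elements (`StmtTB` (2)), so it is the whole family.
`u = Fin.cons (∑ i, b i * ρ (x i)) (lc A x) : Fin (a + 1) → E`, `RsE (u i) (ub i)`. `StmtEmZ`: `κ = adjoin K (range u)`, `ι`, `ι.fieldRange = K(ub)`. `StmtThetaX` for `ι.fieldRange` and `η` (`adjoin K (range η) = ⊤`: `StmtCuG` (1)): `s = [L : K(ub)]`, `θ i`; `θ' i = toF 𝔮 E (θ i) ∈ O`, of residue `toF 𝔭 L (θ i) = aeval η (θ i)`. `g l = ρ (aeval x (G l)) ∈ O`; `StmtSyZ`: `RsyZ O res δ α g`; `StmtRgZ`: `δⱼ O ⊆ O`.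
`StmtIdZ` (`c ∈ κ` is in `O` with residue `ι c`; `L` has characteristic `0`), and `(∏ g ^ b) θ' = aeval (ρ ∘ x) (∏ G ^ b) * θ'`; `StmtCtZ` with `y l = ρ (x l)`: `s * cnt c N ≤ finrank κ (Θ * Vd κ y (D N))`. `StmtFtZ`, `StmtTB` (4): `trdeg κ E = c`; `StmtUzZ` with the bound `e` (`StmtBkZ`; the hypothesis for `A` and `Fin.cons b B`): `≤ e * cnt c (D N + C')`. `StmtNum`: `s ≤ e * (D + 1) ^ c`. -/
def StmtDgZ : Prop :=
  ∀ (K : Type) [Field K] [CharZero K] (n a c : ℕ) (P : Pl (n + 1) K) (𝔭 : Ideal (Pl (n + 1) K))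
    [(Ideal.span {P}).IsPrime] [𝔭.IsPrime], MonZ P → P ∈ 𝔭 → MvPolynomial.pderiv 0 P ∉ 𝔭 → rk 𝔭 = a + 1 →
    a + 1 + c = n →
    ∀ (E : Type) [Field E] [Algebra (CR (Ideal.span {P})) E] [IsFractionRing (CR (Ideal.span {P})) E] [Algebra K E]
      [IsScalarTower K (CR (Ideal.span {P})) E]
      (L : Type) [Field L] [Algebra (CR 𝔭) L] [IsFractionRing (CR 𝔭) L] [Algebra K L] [IsScalarTower K (CR 𝔭) L]
      (δ : Fin n → Derivation K E E), DvZ P E δ →
      ∃ C : ℕ, ∀ (ρ : E →ₐ[K] E) (ρb : L →ₐ[K] L),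
      (∀ h v, RsE (Ideal.span {P}) 𝔭 E L h v → RsE (Ideal.span {P}) 𝔭 E L (ρ h) (ρb v)) →
      ∀ d : L, d ≠ 0 → RsE (Ideal.span {P}) 𝔭 E L (JmZ P E δ ρ).det d →
      ∀ e : ℕ, (∀ (A : Fin a → Fin n → K) (B : Fin (c + 1) → Fin n → K),
        Module.finrank (IntermediateField.adjoin K
          (Set.range (lc A fun l : Fin n => toF (Ideal.span {P}) E (MvPolynomial.X l.succ)) ∪
            Set.range (lc B fun l : Fin n => ρ (toF (Ideal.span {P}) E (MvPolynomial.X l.succ))))) E ≤ e) →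
      ∀ (A : Fin a → Fin n → K) (b : Fin n → K),
        Module.finrank (IntermediateField.adjoin K
          (insert (∑ i : Fin n, algebraMap K L (b i) * ρb (toF 𝔭 L (MvPolynomial.X i.succ)))
            (Set.range (lc A fun l : Fin n => toF 𝔭 L (MvPolynomial.X l.succ))))) L ≤ C * e

/-! ## Heights -/

/-- (CfZ) Degrees of equations: `StmtCfA` (`T3/SpecA.lean`) in any dimension (the name in `agP/SpecA.lean` is `StmtCfAn`; only part (2) is used here). PROOF. `T3/CfA.lean`. -/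
def StmtCfZ : Prop :=
  ∀ (K E : Type) [Field K] [Infinite K] [Field E] [Algebra K E] (n : ℕ) (x : Fin (n + 1) → E),
    AlgebraicIndependent K x → Module.Finite (IntermediateField.adjoin K (Set.range x)) E →
    ∀ (w : E) (F : Polynomial (Pl (n + 1) K)) (D : ℕ), Irreducible F → 1 ≤ F.natDegree →
      Polynomial.eval₂ ((MvPolynomial.aeval x : Pl (n + 1) K →ₐ[K] E) : Pl (n + 1) K →+* E) w F = 0 →
      (∀ i, (F.coeff i).totalDegree ≤ D) → (∃ i, (F.coeff i).totalDegree = D) →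
      ∃ A : Fin n → Fin (n + 1) → K,
        D * Module.finrank (IntermediateField.adjoin K (insert w (Set.range x))) E ≤
          Module.finrank (IntermediateField.adjoin K (insert w (Set.range (lc A x)))) E

/-- (HeZ) Heights of an algebraic function on `Z`. PROOF (uses `StmtCfZ`, `StmtTB`, `StmtVlA`, `StmtHUpB`, `StmtCuG`). `S ⊆ Fin n` with `x̄ i`, `i ∈ S`, a transcendence basis of `L`, with `a + 1` elements (`StmtTB` (3), (1), (2)); `e : Fin (a + 1) ≃ S`, `xS i = x̄ (e i)`, `L` is finite over `K(xS)` (algebraic, and `L = K(η)`: `StmtCuG` (1)). `w` is algebraic over `K(xS)`: there is `F : Polynomial (Pl (a + 1) K)` irreducible, `1 ≤ F.natDegree`,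
with `eval₂ (aeval xS) w F = 0` (a nonzero polynomial with root `w`, an irreducible factor which has the root `w`: `Pl (a + 1) K` is factorial, so is `Polynomial` over it; a constant factor `C c`, `c ≠ 0`, does not vanish at `w` because `xS` is algebraically independent). `D'` = the largest total degree of the coefficients of `F`. `StmtCfZ`: `A` with `D' ≤ D' * [L : K(w, xS)] ≤ [L : K(w, lc A xS)]` (`[L : K(w, xS)] ≥ 1`: finite),
and `lc A xS = lc A' x̄` for the extension `A'` of `A` by `0`: so `D' ≤ D`. `Q` = the leading coefficient of `F`, renamed to `Pl (n + 1) K` (`X i ↦ X (e i).succ`): `Q ∉ 𝔭` as `aeval xS (leadingCoeff) ≠ 0`. Let `pt, v` be given, `ptS i = pt (e i).succ`, `c i = aeval ptS (F.coeff i)`, `i ≤ d = natDegree F`. `c (last) ≠ 0`. `∑ i, c i * v ^ i = 0`: the function `∑ i, (F.coeff i)(xS) * w ^ i = 0` has the value `∑ i, c i * v ^ i` (`StmtVlA` (6) for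
`g = Fin.cons w xS`; the values of the `xS i` are the `ptS i`), uniqueness (`StmtVlA` (1)). Axiom `root`: `H ![1, v] ≤ H c + C₁`. `StmtHUpB` with `m = 0`, `q = 0`, `P = D`, `G i = C (F.coeff i)`: `H c ≤ D * H (hcN ptS) + C₂`. `hcN ptS` is a subtuple of `hcN (fun i => pt i.succ)` (`comp`): `H (hcN ptS) ≤ hx h pt`. `OnX K η pt`: `aeval η G = toF 𝔭 L G = 0` means `G ∈ 𝔭`. -/
def StmtHeZ : Prop :=
  ∀ (K : Type) [Field K] [CharZero K] (n a : ℕ) (P : Pl (n + 1) K) (𝔭 : Ideal (Pl (n + 1) K)) [𝔭.IsPrime], MonZ P →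
    P ∈ 𝔭 → rk 𝔭 = a + 1 →
    ∀ (L : Type) [Field L] [Algebra (CR 𝔭) L] [IsFractionRing (CR 𝔭) L] [Algebra K L] [IsScalarTower K (CR 𝔭) L]
      (w : L) (D : ℕ), (∀ A : Fin a → Fin n → K, Module.finrank (IntermediateField.adjoin K
        (insert w (Set.range (lc A fun l : Fin n => toF 𝔭 L (MvPolynomial.X l.succ))))) L ≤ D) →
      ∃ Q : Pl (n + 1) K, Q ∉ 𝔭 ∧ ∀ (Ω : Type) [Field Ω] [Algebra K Ω] (h : HtF Ω), ∃ C : ℝ,
        ∀ (pt : Fin (n + 1) → Ω) (v : Ω), (∀ G ∈ 𝔭, MvPolynomial.aeval pt G = 0) → MvPolynomial.aeval pt Q ≠ 0 →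
          VlX K (fun i => toF 𝔭 L (MvPolynomial.X i)) pt w v → h.H ![1, v] ≤ D * hx h pt + C

/-- (UbZ) The upper bound on `Z`. PROOF (uses `StmtHeZ`, `StmtRtX`). `StmtHeZ` for `w i = ρb (x̄ i)`, `i : Fin n`: `Q i`, `C i`; `Q = ∏ i, Q i`, `C = ∑ i, C i`; `hx h pt' = h.H (hcN fun i => pt' i.succ) ≤ ∑ i, h.H ![1, pt' i.succ]` (`StmtRtX` (3)). -/
def StmtUbZ : Prop :=
  ∀ (K : Type) [Field K] [CharZero K] (n a : ℕ) (P : Pl (n + 1) K) (𝔭 : Ideal (Pl (n + 1) K)) [𝔭.IsPrime], MonZ P →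
    P ∈ 𝔭 → rk 𝔭 = a + 1 →
    ∀ (L : Type) [Field L] [Algebra (CR 𝔭) L] [IsFractionRing (CR 𝔭) L] [Algebra K L] [IsScalarTower K (CR 𝔭) L]
      (w : Fin n → L) (D : ℕ), (∀ (i : Fin n) (A : Fin a → Fin n → K), Module.finrank (IntermediateField.adjoin K
        (insert (w i) (Set.range (lc A fun l : Fin n => toF 𝔭 L (MvPolynomial.X l.succ))))) L ≤ D) →
      ∃ Q : Pl (n + 1) K, Q ∉ 𝔭 ∧ ∀ (Ω : Type) [Field Ω] [Algebra K Ω] (h : HtF Ω), ∃ C : ℝ,
        ∀ pt pt' : Fin (n + 1) → Ω, (∀ G ∈ 𝔭, MvPolynomial.aeval pt G = 0) → MvPolynomial.aeval pt Q ≠ 0 →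
          (∀ i : Fin n, VlX K (fun i => toF 𝔭 L (MvPolynomial.X i)) pt (w i) (pt' i.succ)) →
          hx h pt' ≤ n * D * hx h pt + C

/-! ## The end -/

/-- (GdZ) Good times. PROOF (uses `StmtVlA`, `StmtFlV`). Suppose `Q(z (m j)) = 0` for all `j ≥ j₀`. `h' = ∏ i < m, (ρb ^ (m j₀ + i)) (Q(η)) ≠ 0`. For all `s, t` the function `(ρb ^ s) (Q(η)) = Q(ρb ^ s η)` has at `z t` the value `Q(z (t + s))` (`StmtFlV`, `StmtVlA` (6)). So `h'` has at `z t` the value `∏ i < m, Q(z (t + m j₀ + i)) = 0` (one of the `t + m j₀ + i`, `i < m`, is a multiple `m j` of `m`, `j ≥ j₀`). `VlX` at `z 0`: `h' * B(η) = A(η)`, `B(z 0) ≠ 0`.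
For every `t`: `A(η)` has at `z t` the value `0 * B(z t) = 0` and the value `A(z t)`, so `A(z t) = 0` for all `t`, so `A(η) = 0`, so `B(η) = 0`, so `B(z 0) = 0` (`OnX`): a contradiction. -/
def StmtGdZ : Prop :=
  ∀ (K Ω L : Type) [Field K] [Field Ω] [Field L] [Algebra K Ω] [Algebra K L] (n : ℕ) (η : Fin n → L)
    (ρb : L →ₐ[K] L) (z : ℕ → Fin n → Ω), FlowX K η ρb z →
    (∀ G : Pl n K, (∀ t, MvPolynomial.aeval (z t) G = 0) → MvPolynomial.aeval η G = 0) →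
    ∀ Q : Pl n K, MvPolynomial.aeval η Q ≠ 0 → ∀ m : ℕ, 1 ≤ m → ∀ j₀ : ℕ,
      ∃ j, j₀ ≤ j ∧ MvPolynomial.aeval (z (m * j)) Q ≠ 0

/-- (NmZ) Numbers. PROOF. `β = b / 2 > Λ ^ m ≥ 1`. `h (m j) ≥ β ^ (j - 1) * h m`, so `h (m j) → ∞`. Let `k ≥ 1`, `C` as in the hypothesis. For `j ≥ 1`: `h (M (m j + m k)) = h (m (M j + M k)) ≥ β ^ (M k) * h (m (M j))`. So for arbitrarily large `j`: `(β ^ (M k) - C₀ Λ ^ (M m k)) * h (M (m j)) ≤ C`, and `h (M (m j)) → ∞`, so `β ^ (M k) ≤ C₀ (Λ ^ m) ^ (M k)` for all `k ≥ 1`: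
`(β / Λ ^ m) ^ (M k) ≤ C₀`, a contradiction for large `k` (`one_lt_div`, `pow_unbounded_of_one_lt`). -/
def StmtNmZ : Prop :=
  ∀ (h : ℕ → ℝ) (m M : ℕ) (b Λ C₀ : ℝ), 1 ≤ m → 1 ≤ M → 1 ≤ Λ → Λ ^ m < b / 2 → 0 < h m →
    (∀ j, 1 ≤ j → b / 2 * h (m * j) ≤ h (m * (j + 1))) →
    (∀ k : ℕ, 1 ≤ k → ∃ C : ℝ, ∀ j₀ : ℕ, ∃ j, j₀ ≤ j ∧
      h (M * (m * j + m * k)) ≤ C₀ * Λ ^ (M * (m * k)) * h (M * (m * j)) + C) → False

/-- (EndP) Orbits on `Z` are slow. PROOF (uses `StmtDvE`, `StmtJvZ`, `StmtVrZ`, `StmtRsR`, `StmtG1`, `StmtDgZ`, `StmtUbZ`, `StmtGdZ`, `StmtNmZ`, `StmtFlV`). `a + 1 = rk 𝔭`, `c = n - (a + 1) ≥ 2`. `δ` from `StmtDvE`. `∂₀P ∉ 𝔭`: elements of `𝔭` vanish at `z (M * 0) = z 0` (`OnX`). `C` from `StmtDgZ`, `C₁` from the hypothesis for `p = c + 1` (`n - p = a`; generalize). `StmtNmZ` for `h := fun t => hx h (z t)`, `C₀ = n * (C * C₁)` (`C₁ ≥ 0` without loss of generality).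
Given `k ≥ 1`: `N = M * (m * k)`, `ρ' = ρ ^ N = (ρ ^ M) ^ (m * k)`, `ρb' = ρb ^ (m * k)`: compatible by `StmtRsR` (`Rst (σ ^ M) 𝔮 E (ρ ^ M)`: `StmtG1` (3)). `StmtJvZ`, `StmtVrZ` (at `pt = z 0`): `d ≠ 0`. `e` = the largest of the degrees (`e : ℕ` with `e ≤ C₁ Λ ^ N`: a bounded set of natural numbers: `e = ⌊C₁ Λ ^ N⌋₊`). `StmtDgZ` for `b = Pi.single i 1`: all `[L : K(ρb' x̄ i, lc A x̄)] ≤ C * e`. `StmtUbZ` for `w i = ρb' (x̄ i)`, `D = C * e`: `Q`, `C'`.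
`StmtGdZ` for `t ↦ z (M t)`, `Q`, `m`: for every `j₀` there is `j ≥ j₀` with `Q(z (M (m j))) ≠ 0`; `StmtUbZ` for `pt = z (M (m j))`, `pt' = z (M (m j + m k))` (`StmtFlV` for `ρb`): `hx h (z (M (m j + m k))) ≤ n * (C * e) * hx h (z (M (m j))) + C'`, `e ≤ C₁ Λ ^ N`, `hx ≥ 0`. -/
def StmtEndP : Prop :=
  ∀ (K : Type) [Field K] [CharZero K] (n : ℕ) (P : Pl (n + 1) K) (𝔭 : Ideal (Pl (n + 1) K))
    [(Ideal.span {P}).IsPrime] [𝔭.IsPrime] (σ : RF (n + 1) K →ₐ[K] RF (n + 1) K)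
    (E : Type) [Field E] [Algebra (CR (Ideal.span {P})) E] [IsFractionRing (CR (Ideal.span {P})) E] [Algebra K E]
      [IsScalarTower K (CR (Ideal.span {P})) E] (ρ : E →ₐ[K] E), Rst σ (Ideal.span {P}) E ρ → MonZ P → P ∈ 𝔭 →
    1 ≤ rk 𝔭 → rk 𝔭 + 2 ≤ n →
    ∀ (L : Type) [Field L] [Algebra (CR 𝔭) L] [IsFractionRing (CR 𝔭) L] [Algebra K L] [IsScalarTower K (CR 𝔭) L]
      (ρb : L →ₐ[K] L) (M : ℕ), 1 ≤ M → Rst (σ ^ M) 𝔭 L ρb →
    ∀ (Ω : Type) [Field Ω] [Algebra K Ω] (h : HtF Ω) (z : ℕ → Fin (n + 1) → Ω),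
      FlowX K (fun i => toF (Ideal.span {P}) E (MvPolynomial.X i)) ρ z →
      FlowX K (fun i => toF 𝔭 L (MvPolynomial.X i)) ρb (fun t => z (M * t)) →
      (∀ G : Pl (n + 1) K, (∀ t, MvPolynomial.aeval (z (M * t)) G = 0) → G ∈ 𝔭) →
      (∀ t, MvPolynomial.aeval (z t) (MvPolynomial.pderiv 0 P) ≠ 0) →
    ∀ N D : Fin n → Pl (n + 1) K,
      (∀ l, ρ (toF (Ideal.span {P}) E (MvPolynomial.X l.succ)) * toF (Ideal.span {P}) E (D l) =
        toF (Ideal.span {P}) E (N l)) →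
      (∀ t l, MvPolynomial.aeval (z t) (D l) ≠ 0) → (∀ t, MvPolynomial.aeval (z t) (JcZ P N D) ≠ 0) →
    ∀ (Λ b : ℝ) (m : ℕ),
      (∀ p, 3 ≤ p → p ≤ n → ∃ C : ℝ, ∀ (N' : ℕ) (A : Fin (n - p) → Fin n → K) (B : Fin p → Fin n → K),
        (Module.finrank (IntermediateField.adjoin K
          (Set.range (lc A fun l : Fin n => toF (Ideal.span {P}) E (MvPolynomial.X l.succ)) ∪
            Set.range (lc B fun l : Fin n => (ρ ^ N') (toF (Ideal.span {P}) E (MvPolynomial.X l.succ))))) E : ℝ) ≤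
          C * Λ ^ N') →
      1 ≤ m → 1 ≤ Λ → Λ ^ m < b / 2 → 0 < hx h (z m) →
      (∀ j, 1 ≤ j → b / 2 * hx h (z (m * j)) ≤ hx h (z (m * (j + 1)))) → False

end Pool.Agent.Lib.MP_16285c_agX
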