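import Pool.Agent.Lib.MP_16285c_agP.SpecZ

/-!
# Bookkeeping for the field of the degree
-/

set_option autoImplicit false

namespace Pool.Agent.Lib.MP_16285c_agX

open Pool.Agent.Lib.MP_16285c_ag Pool.Agent.Lib.MP_16285c_agN

namespace PBkZM

theorem range_cons {α : Type} {k : ℕ} (e : α) (v : Fin k → α) :
    Set.range (Fin.cons e v : Fin (k + 1) → α) = insert e (Set.range v) := by
  ext x
  constructor
  · rintro ⟨i, rfl⟩
    refine Fin.cases ?_ (fun j => ?_) i
    · rw [Fin.cons_zero]
      exact Set.mem_insert _ _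
    · rw [Fin.cons_succ]
      exact Set.mem_insert_of_mem _ ⟨j, rfl⟩
  · intro h
    rcases Set.mem_insert_iff.1 h with h | ⟨j, hj⟩
    · exact ⟨0, by rw [Fin.cons_zero]; exact h.symm⟩
    · exact ⟨j.succ, by rw [Fin.cons_succ]; exact hj⟩

variable {K E : Type} [Field K] [Field E] [Algebra K E] {n a c : ℕ}

theorem lc_cons (b : Fin n → K) (B : Fin c → Fin n → K) (y : Fin n → E) :
    lc (Fin.cons b B : Fin (c + 1) → Fin n → K) y =
      (Fin.cons (∑ j, algebraMap K E (b j) * y j) (lc B y) : Fin (c + 1) → E) := by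
  funext i
  refine Fin.cases ?_ (fun j => ?_) i
  · rw [Fin.cons_zero]
    unfold lc
    rw [Fin.cons_zero]
  · rw [Fin.cons_succ]
    unfold lc
    rw [Fin.cons_succ]

theorem set_eq (x y : Fin n → E) (A : Fin a → Fin n → K) (b : Fin n → K) (B : Fin c → Fin n → K) :
    Set.range (Fin.cons (∑ j, algebraMap K E (b j) * y j) (lc A x) : Fin (a + 1) → E) ∪
        Set.range (lc B y) =
      Set.range (lc A x) ∪ Set.range (lc (Fin.cons b B : Fin (c + 1) → Fin n → K) y) := by
  rw [lc_cons, range_cons, range_cons, Set.insert_union, Set.union_insert]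

end PBkZM

theorem tBkZ : StmtBkZ := by
  intro K E _ _ _ n a c x y A b B u hu
  subst hu
  have h : (IntermediateField.adjoin
      (IntermediateField.adjoin K
        (Set.range (Fin.cons (∑ j, algebraMap K E (b j) * y j) (lc A x) : Fin (a + 1) → E)))
      (Set.range (lc B y))).restrictScalars K =
      IntermediateField.adjoin K
        (Set.range (lc A x) ∪ Set.range (lc (Fin.cons b B : Fin (c + 1) → Fin n → K) y)) := by
    rw [IntermediateField.adjoin_adjoin_left, PBkZM.set_eq]
  rw [← h]
  rfl

end Pool.Agent.Lib.MP_16285c_agX
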