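import Pool.Agent.Lib.MP_16285c_agP.SpecZ

/-!
# ZDP, section G: the chain rule (ChZ)
-/

set_option autoImplicit false

namespace Pool.Agent.Lib.MP_16285c_agX

open Pool.Agent.Lib.MP_16285c_ag Pool.Agent.Lib.MP_16285c_agN
open Pool.Agent.Lib.MP_16285c_agS (toF)

namespace PChZM

section

variable {K : Type} [Field K] {n : ℕ} {E : Type} [Field E] [Algebra K E]

/-- The defect of the chain rule. -/
noncomputable def Dl (δ : Fin n → Derivation K E E) (τ : E →ₐ[K] E) (x : Fin n → E) (j : Fin n) (h : E) : E :=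
  δ j (τ h) - ∑ l, τ (δ l h) * δ j (τ (x l))

theorem Dl_add (δ : Fin n → Derivation K E E) (τ : E →ₐ[K] E) (x : Fin n → E) (j : Fin n) (a b : E) :
    Dl δ τ x j (a + b) = Dl δ τ x j a + Dl δ τ x j b := by
  unfold Dl
  simp only [map_add, add_mul, Finset.sum_add_distrib]
  ring

theorem Dl_mul (δ : Fin n → Derivation K E E) (τ : E →ₐ[K] E) (x : Fin n → E) (j : Fin n) (a b : E) :
    Dl δ τ x j (a * b) = τ a * Dl δ τ x j b + τ b * Dl δ τ x j a := by
  unfold Dl
  simp only [map_mul, Derivation.leibniz, smul_eq_mul, map_add, add_mul, Finset.sum_add_distrib, mul_sub,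
    Finset.mul_sum, mul_assoc]
  ring

theorem Dl_alg (δ : Fin n → Derivation K E E) (τ : E →ₐ[K] E) (x : Fin n → E) (j : Fin n) (c : K) :
    Dl δ τ x j (algebraMap K E c) = 0 := by
  unfold Dl
  simp only [AlgHom.commutes, Derivation.map_algebraMap, map_zero, zero_mul, Finset.sum_const_zero, sub_zero]

theorem Dl_var (δ : Fin n → Derivation K E E) (τ : E →ₐ[K] E) (x : Fin n → E) (j : Fin n) (l : Fin n)
    (h : ∀ i, δ i (x l) = if i = l then 1 else 0) : Dl δ τ x j (x l) = 0 := by
  unfold Dl
  rw [Finset.sum_eq_single l]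
  · rw [h l, if_pos rfl, map_one, one_mul, sub_self]
  · intro i _ hi
    rw [h i, if_neg hi, map_zero, zero_mul]
  · intro hl
    exact absurd (Finset.mem_univ l) hl

end

end PChZM

open PChZM in
theorem tChZ : StmtChZ := by
  intro K _ n P _ E _ _ _ _ _ δ hδ h0 τ j h
  set F : Pl (n + 1) K →+* E := toF (Ideal.span {P}) E with hF
  set x : Fin n → E := fun l => F (MvPolynomial.X l.succ) with hx
  have hC : ∀ c : K, F (MvPolynomial.C c) = algebraMap K E c := by
    intro c
    exact (IsScalarTower.algebraMap_apply K (CR (Ideal.span {P})) E c).symm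
  have hvar : ∀ l i, δ i (x l) = if i = l then 1 else 0 := by
    intro l i
    have h1 := hδ i (MvPolynomial.X l.succ)
    have h2 : JpZ P i (MvPolynomial.X l.succ) = MvPolynomial.pderiv 0 P * (if i = l then 1 else 0) := by
      unfold JpZ
      rw [MvPolynomial.pderiv_X, MvPolynomial.pderiv_X]
      have e1 : (Pi.single (M := fun _ => Pl (n + 1) K) (0 : Fin (n + 1)) (1 : Pl (n + 1) K)) l.succ = 0 :=
        Pi.single_eq_of_ne (Fin.succ_ne_zero l) _
      have e2 : (Pi.single (M := fun _ => Pl (n + 1) K) i.succ (1 : Pl (n + 1) K)) l.succ =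
          if i = l then 1 else 0 := by
        by_cases hil : i = l
        · rw [hil, if_pos rfl, Pi.single_eq_same]
        · rw [if_neg hil, Pi.single_eq_of_ne]
          exact fun hc => hil (Fin.succ_injective n hc).symm
      rw [e1, e2, mul_zero, sub_zero]
    rw [h2] at h1
    change δ i (x l) * F (MvPolynomial.pderiv 0 P) = F (MvPolynomial.pderiv 0 P * (if i = l then 1 else 0)) at h1
    rw [map_mul, mul_comm (F (MvPolynomial.pderiv 0 P))] at h1
    have h3 := mul_right_cancel₀ h0 h1
    rw [h3]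
    by_cases hil : i = l
    · rw [if_pos hil, if_pos hil, map_one]
    · rw [if_neg hil, if_neg hil, map_zero]
  have hG : ∀ G : Pl (n + 1) K, Dl δ τ x j (F G) =
      τ (F (MvPolynomial.pderiv 0 G)) * Dl δ τ x j (F (MvPolynomial.X 0)) := by
    intro G
    induction G using MvPolynomial.induction_on with
    | C c =>
      rw [hC, Dl_alg, MvPolynomial.pderiv_C, map_zero, map_zero, zero_mul]
    | add p q hp hq =>
      rw [map_add, Dl_add, hp, hq, map_add, map_add, map_add, add_mul]
    | mul_X p i hp =>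
      rw [map_mul, Dl_mul, hp, MvPolynomial.pderiv_mul, MvPolynomial.pderiv_X]
      refine Fin.cases ?_ (fun l => ?_) i
      · rw [Pi.single_eq_same, mul_one, map_add, map_add, map_mul, map_mul]
        ring
      · rw [Pi.single_eq_of_ne (Fin.succ_ne_zero l), mul_zero, add_zero, map_mul, map_mul]
        have e3 : Dl δ τ x j (F (MvPolynomial.X l.succ)) = 0 := Dl_var δ τ x j l (hvar l)
        rw [e3]
        ring
  have hP0 : F P = 0 := by
    have e4 : (Ideal.Quotient.mk (Ideal.span {P})) P = 0 :=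
      Ideal.Quotient.eq_zero_iff_mem.2 (Ideal.mem_span_singleton_self P)
    change algebraMap (CR (Ideal.span {P})) E ((Ideal.Quotient.mk (Ideal.span {P})) P) = 0
    rw [e4, map_zero]
  have hz0 : Dl δ τ x j 0 = 0 := by
    have e5 := Dl_alg δ τ x j (0 : K)
    rwa [map_zero] at e5
  have hX0 : Dl δ τ x j (F (MvPolynomial.X 0)) = 0 := by
    have e6 := hG P
    rw [hP0, hz0] at e6
    rcases mul_eq_zero.1 e6.symm with e7 | e7
    · exact absurd ((map_eq_zero τ).1 e7) h0
    · exact e7
  have hall : ∀ G : Pl (n + 1) K, Dl δ τ x j (F G) = 0 := by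
    intro G
    rw [hG G, hX0, mul_zero]
  have hh : Dl δ τ x j h = 0 := by
    obtain ⟨a, b, hb, hab⟩ := IsFractionRing.div_surjective (A := CR (Ideal.span {P})) h
    obtain ⟨A, rfl⟩ := Ideal.Quotient.mk_surjective a
    obtain ⟨B, rfl⟩ := Ideal.Quotient.mk_surjective b
    have hB : F B ≠ 0 := by
      intro hc
      exact (IsFractionRing.to_map_ne_zero_of_mem_nonZeroDivisors hb) hc
    have e8 : h * F B = F A := by
      rw [← hab]
      exact div_mul_cancel₀ _ hB
    have e9 : Dl δ τ x j (h * F B) = 0 := by rw [e8, hall A]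
    rw [Dl_mul, hall B, mul_zero, zero_add] at e9
    rcases mul_eq_zero.1 e9 with e10 | e10
    · exact absurd ((map_eq_zero τ).1 e10) hB
    · exact e10
  exact sub_eq_zero.1 hh

end Pool.Agent.Lib.MP_16285c_agX
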