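import Pool.Agent.Lib.MP_16285c_agP.SpecZ
import Pool.Agent.Lib.MP_16285c_agX.Gro.LowC

/-!
# Proof of `StmtCtZ`
-/

set_option autoImplicit false

namespace Pool.Agent.Lib.MP_16285c_agX

open Pool.Agent.Lib.MP_16285c_ag Pool.Agent.Lib.MP_16285c_agN

open GroLowCM in
theorem tCtZ : StmtVd → StmtCtZ := by
  classical
  intro hVd K E _ _ _ n m y κ α s G θ hlin D hD N
  have hcard : αᶜ.card = n - α.card := by
    rw [Finset.card_compl, Fintype.card_fin]
  let e : Fin (n - α.card) ↪ Fin n := (αᶜ.orderEmbOfFin hcard).toEmbedding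
  have he : ∀ i, e i ∉ α := by
    intro i
    have := Finset.orderEmbOfFin_mem αᶜ hcard i
    exact Finset.mem_compl.mp this
  let w : Ex (n - α.card) N × Fin s → {b : Fin n → ℕ // ∀ a ∈ α, b a = 0} × Fin s :=
    fun t => (⟨ext0 e t.1.1, fun a ha => ext0_zero e _ a fun i hi => he i (hi ▸ ha)⟩, t.2)
  have hw : Function.Injective w := by
    rintro ⟨⟨b, hb⟩, i⟩ ⟨⟨b', hb'⟩, i'⟩ h
    have h3 : i = i' := congrArg Prod.snd h
    have h4 : ext0 e b = ext0 e b' := congrArg (fun t => (t.1 : Fin n → ℕ)) h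
    have h5 : b = b' := by
      funext l
      rw [← ext0_apply e b l, h4, ext0_apply]
    subst h3 h5
    rfl
  have hlin2 := hlin.comp w hw
  have hmem : ∀ t : Ex (n - α.card) N × Fin s,
      MvPolynomial.aeval y (∏ j, G j ^ ((w t).1 : Fin n → ℕ) j) * θ (w t).2 ∈
        (Submodule.span κ (Set.range θ) * Vd κ y (D * N) : Submodule κ E) := by
    intro t
    rw [mul_comm (MvPolynomial.aeval y _) (θ _)]
    refine Submodule.mul_mem_mul (Submodule.subset_span (Set.mem_range_self _)) ?_
    apply mem_Vd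
    apply deg_le α G D N hD _ (w t).1.2
    change ∑ j, ext0 e t.1.1 j ≤ N
    rw [sum_ext0]
    exact t.1.2
  let v : Ex (n - α.card) N × Fin s →
      (Submodule.span κ (Set.range θ) * Vd κ y (D * N) : Submodule κ E) := fun t => ⟨_, hmem t⟩
  have hv : LinearIndependent κ v := by
    apply LinearIndependent.of_comp
      (Submodule.span κ (Set.range θ) * Vd κ y (D * N) : Submodule κ E).subtype
    exact hlin2
  have hfin : Module.Finite κ (Vd κ y (D * N)) := hVd.1 κ E m y (D * N)
  have hfg : (Submodule.span κ (Set.range θ) * Vd κ y (D * N) : Submodule κ E).FG :=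
    (Submodule.fg_span (Set.finite_range θ)).mul (Module.Finite.iff_fg.mp hfin)
  have : Module.Finite κ (Submodule.span κ (Set.range θ) * Vd κ y (D * N) : Submodule κ E) :=
    Module.Finite.iff_fg.mpr hfg
  have : Fintype (Ex (n - α.card) N) := Fintype.ofFinite _
  have h6 := hv.fintype_card_le_finrank
  rw [Fintype.card_prod, Fintype.card_fin, mul_comm] at h6
  have h7 : cnt (n - α.card) N = Fintype.card (Ex (n - α.card) N) := Nat.card_eq_fintype_card
  rw [h7]
  exact h6

end Pool.Agent.Lib.MP_16285c_agX
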