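import Pool.Agent.Lib.MP_16285c_agP.SpecZ
import Pool.Agent.Lib.MP_16285c_agX.T3.CoreA
import Mathlib.Algebra.TrivSqZeroExt.Basic

/-!
# The derivations of the function field of a hypersurface (module DvE)
-/

set_option autoImplicit false

namespace Pool.Agent.Lib.MP_16285c_agX

open Pool.Agent.Lib.MP_16285c_ag Pool.Agent.Lib.MP_16285c_agN
open Pool.Agent.Lib.MP_16285c_agS (toF)

namespace PDvEM

section

variable {K : Type} [Field K] {n : ℕ} (𝔮 : Ideal (Pl (n + 1) K)) (E : Type) [Field E]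
  [Algebra (CR 𝔮) E] [Algebra K E] [IsScalarTower K (CR 𝔮) E]

/-- `G ↦ G(ξ + v ε)`. -/
noncomputable def Psi (v : Fin (n + 1) → E) : Pl (n + 1) K →+* TrivSqZeroExt E E :=
  MvPolynomial.eval₂Hom ((TrivSqZeroExt.inlHom E E).comp (algebraMap K E))
    (fun i => TrivSqZeroExt.inl (toF 𝔮 E (MvPolynomial.X i)) + TrivSqZeroExt.inr (v i))

theorem toF_C (c : K) : toF 𝔮 E (MvPolynomial.C c) = algebraMap K E c := by
  have h : toF 𝔮 E (MvPolynomial.C c) = algebraMap (CR 𝔮) E (algebraMap K (CR 𝔮) c) := rfl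
  rw [h, ← IsScalarTower.algebraMap_apply]

omit [IsScalarTower K (CR 𝔮) E] in
theorem Psi_C (v : Fin (n + 1) → E) (c : K) :
    Psi 𝔮 E v (MvPolynomial.C c) = TrivSqZeroExt.inl (algebraMap K E c) := by
  unfold Psi
  rw [MvPolynomial.coe_eval₂Hom, MvPolynomial.eval₂_C]
  rfl

omit [IsScalarTower K (CR 𝔮) E] in
theorem Psi_X (v : Fin (n + 1) → E) (i : Fin (n + 1)) :
    Psi 𝔮 E v (MvPolynomial.X i) =
      TrivSqZeroExt.inl (toF 𝔮 E (MvPolynomial.X i)) + TrivSqZeroExt.inr (v i) := by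
  unfold Psi
  rw [MvPolynomial.coe_eval₂Hom, MvPolynomial.eval₂_X]

theorem Psi_val (v : Fin (n + 1) → E) (G : Pl (n + 1) K) :
    (Psi 𝔮 E v G).fst = toF 𝔮 E G ∧
      (Psi 𝔮 E v G).snd = ∑ i, toF 𝔮 E (MvPolynomial.pderiv i G) * v i := by
  induction G using MvPolynomial.induction_on with
  | C a =>
    rw [Psi_C, toF_C]
    refine ⟨rfl, ?_⟩
    rw [TrivSqZeroExt.snd_inl]
    symm
    refine Finset.sum_eq_zero fun i _ => ?_
    rw [MvPolynomial.pderiv_C, map_zero, zero_mul]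
  | add p q hp hq =>
    rw [map_add, map_add, TrivSqZeroExt.fst_add, TrivSqZeroExt.snd_add, hp.1, hq.1, hp.2, hq.2]
    refine ⟨rfl, ?_⟩
    rw [← Finset.sum_add_distrib]
    refine Finset.sum_congr rfl fun i _ => ?_
    rw [map_add, map_add, add_mul]
  | mul_X p j hp =>
    rw [map_mul, TrivSqZeroExt.fst_mul, TrivSqZeroExt.snd_mul, hp.1, hp.2, Psi_X,
      TrivSqZeroExt.fst_add, TrivSqZeroExt.snd_add, TrivSqZeroExt.fst_inl, TrivSqZeroExt.fst_inr,
      TrivSqZeroExt.snd_inl, TrivSqZeroExt.snd_inr, add_zero, zero_add, map_mul]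
    refine ⟨rfl, ?_⟩
    rw [smul_eq_mul, MulOpposite.smul_eq_mul_unop, MulOpposite.unop_op]
    have h : ∀ i, toF 𝔮 E (MvPolynomial.pderiv i (p * MvPolynomial.X j)) * v i =
        (if i = j then toF 𝔮 E p * v i else 0) +
          toF 𝔮 E (MvPolynomial.pderiv i p) * v i * toF 𝔮 E (MvPolynomial.X j) := by
      intro i
      rw [Derivation.leibniz, MvPolynomial.pderiv_X, smul_eq_mul, smul_eq_mul, map_add, map_mul,
        map_mul]
      by_cases hij : i = j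
      · subst hij
        rw [Pi.single_eq_same, if_pos rfl, map_one]
        ring
      · rw [Pi.single_eq_of_ne (Ne.symm hij), if_neg hij, map_zero]
        ring
    rw [Finset.sum_congr rfl (fun i _ => h i), Finset.sum_add_distrib, Finset.sum_ite_eq' Finset.univ j,
      if_pos (Finset.mem_univ j), Finset.sum_mul]

/-- The derivation which maps `ξ i` to `v i`. -/
theorem exists_der {P : Pl (n + 1) K} (hPE : 𝔮 = Ideal.span {P}) [𝔮.IsPrime] [IsFractionRing (CR 𝔮) E]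
    (v : Fin (n + 1) → E) (hv : ∑ i, toF 𝔮 E (MvPolynomial.pderiv i P) * v i = 0) :
    ∃ δ : Derivation K E E, ∀ G : Pl (n + 1) K,
      δ (toF 𝔮 E G) = ∑ i, toF 𝔮 E (MvPolynomial.pderiv i G) * v i := by
  have hP0 : Psi 𝔮 E v P = 0 := by
    refine TrivSqZeroExt.ext ?_ ?_
    · rw [(Psi_val 𝔮 E v P).1, TrivSqZeroExt.fst_zero]
      have h1 : Ideal.Quotient.mk 𝔮 P = 0 := by
        rw [Ideal.Quotient.eq_zero_iff_mem, hPE]
        exact Ideal.mem_span_singleton_self P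
      have h2 : toF 𝔮 E P = algebraMap (CR 𝔮) E (Ideal.Quotient.mk 𝔮 P) := rfl
      rw [h2, h1, map_zero]
    · rw [(Psi_val 𝔮 E v P).2, hv, TrivSqZeroExt.snd_zero]
  have hq : ∀ a ∈ 𝔮, Psi 𝔮 E v a = 0 := by
    intro a ha
    rw [hPE, Ideal.mem_span_singleton] at ha
    obtain ⟨b, rfl⟩ := ha
    rw [map_mul, hP0, zero_mul]
  obtain ⟨Ψ₁, hΨ₁⟩ : ∃ Ψ₁ : CR 𝔮 →+* TrivSqZeroExt E E, ∀ G, Ψ₁ (Ideal.Quotient.mk 𝔮 G) = Psi 𝔮 E v G :=
    ⟨Ideal.Quotient.lift 𝔮 (Psi 𝔮 E v) hq, fun G => Ideal.Quotient.lift_mk 𝔮 _ hq⟩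
  have hfst : ∀ r : CR 𝔮, (Ψ₁ r).fst = algebraMap (CR 𝔮) E r := by
    intro r
    obtain ⟨G, rfl⟩ := Ideal.Quotient.mk_surjective r
    rw [hΨ₁, (Psi_val 𝔮 E v G).1]
    rfl
  have hu : ∀ y : nonZeroDivisors (CR 𝔮), IsUnit (Ψ₁ y) := by
    intro y
    rw [TrivSqZeroExt.isUnit_iff_isUnit_fst, hfst, isUnit_iff_ne_zero]
    exact fun h => nonZeroDivisors.coe_ne_zero y
      ((IsFractionRing.injective (CR 𝔮) E) (by rw [h, map_zero]))
  obtain ⟨Ψ₂, hΨ₂⟩ : ∃ Ψ₂ : E →+* TrivSqZeroExt E E, ∀ r, Ψ₂ (algebraMap (CR 𝔮) E r) = Ψ₁ r :=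
    ⟨IsLocalization.lift hu, fun r => IsLocalization.lift_eq hu r⟩
  have hfst2 : ∀ h : E, (Ψ₂ h).fst = h := by
    have e : ((TrivSqZeroExt.fstHom E E E).toRingHom).comp Ψ₂ = RingHom.id E := by
      apply IsLocalization.ringHom_ext (nonZeroDivisors (CR 𝔮))
      refine RingHom.ext fun r => ?_
      change (Ψ₂ (algebraMap (CR 𝔮) E r)).fst = algebraMap (CR 𝔮) E r
      rw [hΨ₂, hfst]
    intro h
    exact congrArg (fun u : E →+* E => u h) e
  have hK : ∀ c : K, Ψ₂ (algebraMap K E c) = TrivSqZeroExt.inl (algebraMap K E c) := by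
    intro c
    have h1 : algebraMap K E c = algebraMap (CR 𝔮) E (Ideal.Quotient.mk 𝔮 (MvPolynomial.C c)) :=
      (toF_C 𝔮 E c).symm
    rw [h1, hΨ₂, hΨ₁, Psi_C, ← h1]
  refine ⟨Derivation.mk'
    { toFun := fun h => (Ψ₂ h).snd
      map_add' := fun a b => by rw [map_add, TrivSqZeroExt.snd_add]
      map_smul' := fun c a => ?_ } ?_, ?_⟩
  · change (Ψ₂ (c • a)).snd = c • (Ψ₂ a).snd
    rw [Algebra.smul_def c a, map_mul, TrivSqZeroExt.snd_mul, hK, TrivSqZeroExt.fst_inl,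
      TrivSqZeroExt.snd_inl, Algebra.smul_def c, smul_eq_mul, smul_zero, add_zero]
  · intro a b
    change (Ψ₂ (a * b)).snd = a • (Ψ₂ b).snd + b • (Ψ₂ a).snd
    rw [map_mul, TrivSqZeroExt.snd_mul, hfst2, hfst2, MulOpposite.smul_eq_mul_unop,
      MulOpposite.unop_op, smul_eq_mul, smul_eq_mul, mul_comm b]
  · intro G
    change (Ψ₂ (toF 𝔮 E G)).snd = _
    have h1 : Ψ₂ (toF 𝔮 E G) = Psi 𝔮 E v G := (hΨ₂ _).trans (hΨ₁ G)
    rw [h1, (Psi_val 𝔮 E v G).2]

end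

end PDvEM

open PDvEM in
theorem tDvE : StmtDvE := by
  intro K _ _ n P _ hm E _ _ _ _ _
  have hP0 : P ≠ 0 := by
    rintro rfl
    unfold MonZ at hm
    rw [map_zero] at hm
    exact hm.ne_zero rfl
  have hirr : Irreducible P :=
    ((Ideal.span_singleton_prime hP0).1 inferInstance).irreducible
  have hd : toF (Ideal.span {P}) E (MvPolynomial.pderiv 0 P) ≠ 0 := by
    intro h
    have h0 : Ideal.Quotient.mk (Ideal.span {P}) (MvPolynomial.pderiv 0 P) = 0 :=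
      (IsFractionRing.injective (CR (Ideal.span {P})) E) (by rw [map_zero]; exact h)
    have h1 := Ideal.Quotient.eq_zero_iff_mem.1 h0
    rw [Ideal.mem_span_singleton] at h1
    exact T3CoreAM.not_dvd_der hirr hm h1
  refine ⟨hd, ?_⟩
  have key : ∀ j : Fin n, ∃ δ : Derivation K E E, ∀ G : Pl (n + 1) K,
      δ (toF (Ideal.span {P}) E G) * toF (Ideal.span {P}) E (MvPolynomial.pderiv 0 P) =
        toF (Ideal.span {P}) E (JpZ P j G) := by
    intro j
    obtain ⟨v, hvdef⟩ : ∃ v : Fin (n + 1) → E, v = Fin.cons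
      (- toF (Ideal.span {P}) E (MvPolynomial.pderiv j.succ P) /
        toF (Ideal.span {P}) E (MvPolynomial.pderiv 0 P)) (fun l => if l = j then 1 else 0) := ⟨_, rfl⟩
    have hsum : ∀ G : Pl (n + 1) K,
        (∑ i, toF (Ideal.span {P}) E (MvPolynomial.pderiv i G) * v i) *
          toF (Ideal.span {P}) E (MvPolynomial.pderiv 0 P) = toF (Ideal.span {P}) E (JpZ P j G) := by
      intro G
      rw [hvdef, Fin.sum_univ_succ, Fin.cons_zero]
      simp only [Fin.cons_succ, mul_ite, mul_one, mul_zero]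
      rw [Finset.sum_ite_eq' Finset.univ j, if_pos (Finset.mem_univ j)]
      unfold JpZ
      rw [map_sub, map_mul, map_mul]
      field_simp
      ring
    obtain ⟨δ, hδ⟩ := exists_der (Ideal.span {P}) E rfl v (by
      have h1 := hsum P
      have h2 : toF (Ideal.span {P}) E (JpZ P j P) = 0 := by
        unfold JpZ
        rw [map_sub, map_mul, map_mul]
        ring
      rw [h2] at h1
      exact (mul_eq_zero.1 h1).resolve_right hd)
    exact ⟨δ, fun G => by rw [hδ, hsum]⟩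
  choose δ hδ using key
  exact ⟨δ, fun j G => hδ j G⟩

end Pool.Agent.Lib.MP_16285c_agX
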