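import Pool.Agent.Lib.MP_16285c_agP.SpecZ
import Pool.Agent.Lib.MP_16285c_agX.Gro.ResX

/-!
# (EmZ) The residue map of the field `K(u)` (helper36)
-/

set_option autoImplicit false

namespace Pool.Agent.Lib.MP_16285c_agX

open Pool.Agent.Lib.MP_16285c_ag Pool.Agent.Lib.MP_16285c_agN
open Pool.Agent.Lib.MP_16285c_agS (toF)

open DegrResM GroResXM in
theorem tEmZ : StmtRsE → StmtEmZ := by
  intro hRs K _ n 𝔮 𝔭 _ _ hqp E _ _ _ _ _ L _ _ _ _ _ q u ub hub hz
  obtain ⟨hu, hG, hc, ha, hm, hi⟩ := hRs K n 𝔮 𝔭 hqp E L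
  have hy : AlgebraicIndependent K u := by
    rw [algebraicIndependent_iff]
    intro P hP
    have e1 := rse_aeval hc ha hm hub P
    rw [hP] at e1
    have e2 := hc 0
    rw [map_zero, map_zero] at e2
    have e3 := hu _ _ _ e1 e2
    exact (algebraicIndependent_iff.1 hz) P e3
  set ι : IntermediateField.adjoin K (Set.range u) →ₐ[K] L :=
    (IntermediateField.val _).comp
      (hz.aevalEquivField.toAlgHom.comp hy.aevalEquivField.symm.toAlgHom) with hι
  have hιa : ∀ c, ι c = ((hz.aevalEquivField (hy.aevalEquivField.symm c) :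
      IntermediateField.adjoin K (Set.range ub)) : L) := fun c => rfl
  refine ⟨hy, ι, ?_, ?_⟩
  · intro c
    obtain ⟨P, Q, hQ, hPQ⟩ := IsFractionRing.div_surjective (A := MvPolynomial (Fin q) K)
      (hy.aevalEquivField.symm c)
    have hc' : (c : E) = MvPolynomial.aeval u P / MvPolynomial.aeval u Q := by
      rw [← ev_div hy, hPQ, AlgEquiv.apply_symm_apply]
    have hc'' : ι c = MvPolynomial.aeval ub P / MvPolynomial.aeval ub Q := by
      rw [hιa, ← hPQ, ev_div hz]
    have hQ0 : MvPolynomial.aeval ub Q ≠ 0 := by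
      intro h0
      have h7 : Q = 0 := (algebraicIndependent_iff.1 hz) Q h0
      exact nonZeroDivisors.ne_zero hQ h7
    rw [hc', hc'', div_eq_mul_inv, div_eq_mul_inv]
    exact hm _ _ _ _ (rse_aeval hc ha hm hub P) (hi _ _ (rse_aeval hc ha hm hub Q) hQ0).2
  · apply le_antisymm
    · rintro x ⟨c, rfl⟩
      change ι c ∈ _
      rw [hιa]
      exact SetLike.coe_mem _
    · intro x hx
      refine ⟨hy.aevalEquivField (hz.aevalEquivField.symm ⟨x, hx⟩), ?_⟩
      change ι _ = x
      rw [hιa, AlgEquiv.symm_apply_apply, AlgEquiv.apply_symm_apply]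

end Pool.Agent.Lib.MP_16285c_agX
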