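import Pool.Agent.Lib.MP_16285c_agP.SpecZ
import Pool.Agent.Lib.MP_16285c_agX.T3.Fin3

/-!
# ZDP, section G: orbits on `Z` are slow (`StmtEndP`)
-/

set_option autoImplicit false

namespace Pool.Agent.Lib.MP_16285c_agX

open Pool.Agent.Lib.MP_16285c_ag Pool.Agent.Lib.MP_16285c_agN
open Pool.Agent.Lib.MP_16285c_agS (toF)

theorem tEndP : StmtDvE → StmtJvZ → StmtVrZ → StmtRsR → StmtG1 → StmtDgZ → StmtUbZ → StmtGdZ → StmtNmZ →
    StmtFlV → StmtEndP := by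
  intro hDv hJv hVr hRsR hG1 hDg hUb hGd hNm hFlV
  intro K _ _ n P 𝔭 _ _ σ E _ _ _ _ _ ρ hρ hM hP hr1 hr2 L _ _ _ _ _ ρb M hM1 hρb Ω _ _ h z hz hzb
    hclo hdP N D hND hD0 hJ0 Λ b m hdeg hm1 hΛ1 hΛb h0 hgrow
  obtain ⟨a, ha⟩ : ∃ a, rk 𝔭 = a + 1 := ⟨rk 𝔭 - 1, by omega⟩
  obtain ⟨c, hc⟩ : ∃ c, a + 1 + c = n := ⟨n - (a + 1), by omega⟩
  obtain ⟨hd0, δ, hδ⟩ := hDv K n P hM E
  have hOn : ∀ t, ∀ G ∈ 𝔭, MvPolynomial.aeval (z (M * t)) G = 0 := by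
    intro t G hG
    refine (hzb t).1 G ?_
    rw [T3Fin3M.aeval_toF]
    have : toF 𝔭 L G = 0 := by
      have h1 : cl 𝔭 G = 0 := Ideal.Quotient.eq_zero_iff_mem.2 hG
      show algebraMap (CR 𝔭) L (cl 𝔭 G) = 0
      rw [h1, map_zero]
    exact this
  have hdP𝔭 : MvPolynomial.pderiv 0 P ∉ 𝔭 := by
    intro hmem
    have := hOn 0 _ hmem
    rw [mul_zero] at this
    exact hdP 0 this
  obtain ⟨C, hC⟩ := hDg K n a c P 𝔭 hM hP hdP𝔭 ha hc E L δ hδ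
  obtain ⟨C₁, hC₁⟩ : ∃ C₁ : ℝ, ∀ (N' : ℕ) (A : Fin a → Fin n → K) (B : Fin (c + 1) → Fin n → K),
        (Module.finrank (IntermediateField.adjoin K
          (Set.range (lc A fun l : Fin n => toF (Ideal.span {P}) E (MvPolynomial.X l.succ)) ∪
            Set.range (lc B fun l : Fin n => (ρ ^ N') (toF (Ideal.span {P}) E (MvPolynomial.X l.succ))))) E : ℝ) ≤
          C₁ * Λ ^ N' := by
    have hp : n - (c + 1) = a := by omega
    have := hdeg (c + 1) (by omega) (by omega)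
    rwa [hp] at this
  obtain ⟨C₂, hC₂⟩ : ∃ C₂ : ℝ, C₂ = max C₁ 0 := ⟨_, rfl⟩
  have hC₂0 : 0 ≤ C₂ := hC₂ ▸ le_max_right _ _
  have hC₁₂ : C₁ ≤ C₂ := hC₂ ▸ le_max_left _ _
  refine hNm (fun t => hx h (z t)) m M b Λ (n * (C * C₂)) hm1 hM1 hΛ1 hΛb h0 hgrow ?_
  intro k hk
  obtain ⟨N', hN'⟩ : ∃ N', N' = M * (m * k) := ⟨_, rfl⟩
  obtain ⟨e, he⟩ : ∃ e : ℕ, e = ⌊C₂ * Λ ^ N'⌋₊ := ⟨_, rfl⟩
  have hΛN : 0 ≤ Λ ^ N' := by positivity
  have he' : (e : ℝ) ≤ C₂ * Λ ^ N' := by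
    rw [he]
    exact Nat.floor_le (mul_nonneg hC₂0 hΛN)
  have hdege : ∀ (A : Fin a → Fin n → K) (B : Fin (c + 1) → Fin n → K),
        Module.finrank (IntermediateField.adjoin K
          (Set.range (lc A fun l : Fin n => toF (Ideal.span {P}) E (MvPolynomial.X l.succ)) ∪
            Set.range (lc B fun l : Fin n => (ρ ^ N') (toF (Ideal.span {P}) E (MvPolynomial.X l.succ))))) E ≤ e := by
    intro A B
    rw [he]
    apply Nat.le_floor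
    exact (hC₁ N' A B).trans (mul_le_mul_of_nonneg_right hC₁₂ hΛN)
  have hle : Ideal.span {P} ≤ 𝔭 := (Ideal.span_singleton_le_iff_mem _).2 hP
  have hρM : Rst (σ ^ M) (Ideal.span {P}) E (ρ ^ M) := hG1.2.2 K (n + 1) σ _ E ρ hρ M
  have hcomp : ∀ (u : E) (v : L), RsE (Ideal.span {P}) 𝔭 E L u v →
      RsE (Ideal.span {P}) 𝔭 E L ((ρ ^ N') u) ((ρb ^ (m * k)) v) := by
    intro u v huv
    have h1 := hRsR K (n + 1) (Ideal.span {P}) 𝔭 hle E L (σ ^ M) (ρ ^ M) ρb hρM hρb (m * k) u v huv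
    have h2 : (ρ ^ M) ^ (m * k) = ρ ^ N' := by rw [hN', ← pow_mul]
    rwa [h2] at h1
  obtain ⟨v, hv0, hv⟩ := hJv K Ω n P E δ hδ ρ z hz hdP N D hND hD0 hJ0 N'
  have hz0 : ∀ G ∈ 𝔭, MvPolynomial.aeval (z 0) G = 0 := by
    intro G hG
    have := hOn 0 G hG
    rwa [mul_zero] at this
  obtain ⟨d, hdne, hdR⟩ := hVr K Ω (n + 1) (Ideal.span {P}) 𝔭 E L (z 0) hz0 _ v hv0 hv
  have hdegL := hC (ρ ^ N') (ρb ^ (m * k)) hcomp d hdne hdR e hdege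
  obtain ⟨Q, hQ, hQ'⟩ := hUb K n a P 𝔭 hM hP ha L
    (fun i : Fin n => (ρb ^ (m * k)) (toF 𝔭 L (MvPolynomial.X i.succ))) (C * e) (by
      intro i A
      have h1 := hdegL A (Pi.single i 1)
      have h2 : ∑ l : Fin n, algebraMap K L ((Pi.single i 1 : Fin n → K) l) *
          (ρb ^ (m * k)) (toF 𝔭 L (MvPolynomial.X l.succ)) =
          (ρb ^ (m * k)) (toF 𝔭 L (MvPolynomial.X i.succ)) := by
        rw [Finset.sum_eq_single i]
        · rw [Pi.single_eq_same, map_one, one_mul]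
        · intro l _ hl
          rw [Pi.single_eq_of_ne hl, map_zero, zero_mul]
        · intro hi
          exact absurd (Finset.mem_univ i) hi
      rwa [h2] at h1)
  obtain ⟨C', hC'⟩ := hQ' Ω h
  refine ⟨C', fun j₀ => ?_⟩
  have hηQ : MvPolynomial.aeval (fun i => toF 𝔭 L (MvPolynomial.X i)) Q ≠ 0 := by
    rw [T3Fin3M.aeval_toF]
    exact T3Fin3M.toF_ne 𝔭 L hQ
  obtain ⟨j, hj, hjQ⟩ := hGd K Ω L (n + 1) (fun i => toF 𝔭 L (MvPolynomial.X i)) ρb (fun t => z (M * t)) hzb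
    (by
      intro G hG
      rw [T3Fin3M.aeval_toF]
      have h1 : cl 𝔭 G = 0 := Ideal.Quotient.eq_zero_iff_mem.2 (hclo G hG)
      show algebraMap (CR 𝔭) L (cl 𝔭 G) = 0
      rw [h1, map_zero]) Q hηQ m hm1 j₀
  refine ⟨j, hj, ?_⟩
  have hval := hC' (z (M * (m * j))) (z (M * (m * j + m * k))) (hOn (m * j)) hjQ (by
    intro i
    exact hFlV K L Ω (n + 1) _ ρb (fun t => z (M * t)) hzb (m * k) (m * j) i.succ)
  refine hval.trans ?_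
  have hx0 : 0 ≤ hx h (z (M * (m * j))) := h.nonneg _
  have hn0 : (0 : ℝ) ≤ n := Nat.cast_nonneg n
  have hCC : (0 : ℝ) ≤ C := Nat.cast_nonneg C
  have h1 : (n : ℝ) * ((C * e : ℕ) : ℝ) ≤ n * (C * C₂) * Λ ^ (M * (m * k)) := by
    push_cast
    rw [← hN']
    calc (n : ℝ) * (C * e) ≤ n * (C * (C₂ * Λ ^ N')) := by gcongr
      _ = n * (C * C₂) * Λ ^ N' := by ring
  have h2 := mul_le_mul_of_nonneg_right h1 hx0
  linarith

end Pool.Agent.Lib.MP_16285c_agX
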