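import Pool.Agent.Lib.MP_16285c_agP.SpecZ
import Pool.Agent.Lib.MP_16285c_agX.T3.CfD
import Pool.Agent.Lib.MP_16285c_agX.T3.StpF
import Pool.Agent.Lib.MP_16285c_agX.T3.Fin3

/-!
# ZDP, section G: heights of an algebraic function on `Z` (`StmtHeZ`)
-/

set_option autoImplicit false

namespace Pool.Agent.Lib.MP_16285c_agX

open Pool.Agent.Lib.MP_16285c_ag Pool.Agent.Lib.MP_16285c_agN
open Pool.Agent.Lib.MP_16285c_agS (toF)

namespace PHeZM

variable {K E : Type} [Field K] [Field E] [Algebra K E]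

/-- Linear forms in a subfamily are linear forms in the family. -/
theorem lc_ext {n b c : ℕ} (A : Fin c → Fin b → K) (m : Fin b → Fin n) (x : Fin n → E) :
    ∃ A' : Fin c → Fin n → K, lc A' x = lc A (fun i => x (m i)) := by
  classical
  refine ⟨fun i l => ∑ j, if m j = l then A i j else 0, ?_⟩
  funext i
  unfold lc
  simp only [map_sum, Finset.sum_mul]
  rw [Finset.sum_comm]
  refine Finset.sum_congr rfl fun j _ => ?_
  rw [Finset.sum_eq_single (m j)]
  · rw [if_pos rfl]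
  · intro l _ hl
    rw [if_neg (Ne.symm hl), map_zero, zero_mul]
  · intro h
    exact absurd (Finset.mem_univ _) h

end PHeZM

open PHeZM in
theorem tHeZ : StmtCfZ → StmtTB → StmtVlA → StmtHUpB → StmtCuG → StmtHeZ := by
  intro hCf hTB hVl hUp hCu K _ _ n a P 𝔭 _ hM hP ha L _ _ _ _ _ w D hdeg
  have : Infinite K := Infinite.of_injective (fun n : ℕ => (n : K)) Nat.cast_injective
  obtain ⟨u, hu⟩ : ∃ u : Fin n → L, u = fun l : Fin n => toF 𝔭 L (MvPolynomial.X l.succ) := ⟨_, rfl⟩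
  obtain ⟨η, hη⟩ : ∃ η : Fin (n + 1) → L, η = fun i => toF 𝔭 L (MvPolynomial.X i) := ⟨_, rfl⟩
  have hηu : ∀ l : Fin n, η l.succ = u l := by
    intro l
    rw [hη, hu]
  rw [← hu] at hdeg
  have halg : Algebra.IsAlgebraic (IntermediateField.adjoin K (Set.range u)) L := by
    rw [hu]
    exact hTB.2.2.1 K n P 𝔭 hM hP L
  obtain ⟨α, hα⟩ := hTB.1 K L n u halg
  have hcard : Fintype.card α = a + 1 := by rw [← ha]; exact hTB.2.1 K (n + 1) 𝔭 L α _ hα
  let e : Fin (a + 1) ≃ α := (Fintype.equivFinOfCardEq hcard).symm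
  obtain ⟨m, hm⟩ : ∃ m : Fin (a + 1) → Fin n, m = fun i => (e i : Fin n) := ⟨_, rfl⟩
  obtain ⟨xS, hxS⟩ : ∃ xS : Fin (a + 1) → L, xS = fun i => u (m i) := ⟨_, rfl⟩
  have hxb : IsTranscendenceBasis K xS := by
    have : xS = (fun b : α => u (b : Fin n)) ∘ e := by rw [hxS, hm]; rfl
    rw [this]
    exact hα.comp_equiv e
  have hfin : Module.Finite (IntermediateField.adjoin K (Set.range xS)) L := by
    have hal : Algebra.IsAlgebraic (IntermediateField.adjoin K (Set.range xS)) L := hxb.isAlgebraic_field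
    exact T3StpFM.finite_of_alg η (by rw [hη]; exact (hCu K (n + 1) 𝔭 L).1) _
      fun i => (hal.isAlgebraic (η i)).isIntegral
  obtain ⟨F, hirr, hF1, hFw⟩ := T3CfDM.exIrr hxb.1 hfin w
  obtain ⟨D', hD'⟩ : ∃ D' : ℕ, D' = F.support.sup fun i => (F.coeff i).totalDegree := ⟨_, rfl⟩
  have hD1 : ∀ i, (F.coeff i).totalDegree ≤ D' := by
    intro i
    by_cases hi : i ∈ F.support
    · rw [hD']
      exact Finset.le_sup (f := fun i => (F.coeff i).totalDegree) hi
    · rw [Polynomial.notMem_support_iff.mp hi]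
      simp
  have hD2 : ∃ i, (F.coeff i).totalDegree = D' := by
    have hne : F.support.Nonempty := Polynomial.support_nonempty.mpr hirr.ne_zero
    obtain ⟨i, -, hi⟩ := Finset.exists_mem_eq_sup F.support hne
      (fun i => (F.coeff i).totalDegree)
    exact ⟨i, by rw [hD', hi]⟩
  obtain ⟨A, hAD⟩ := hCf K L a xS hxb.1 hfin w F D' hirr hF1 hFw hD1 hD2
  have hpos := T3CfDM.finrank_insert_pos hfin w
  have hDd : D' ≤ D := by
    obtain ⟨A', hA'⟩ := lc_ext A m u
    rw [← hxS] at hA'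
    calc D' = D' * 1 := (mul_one D').symm
      _ ≤ D' * Module.finrank (IntermediateField.adjoin K (insert w (Set.range xS))) L :=
          Nat.mul_le_mul_left D' hpos
      _ ≤ _ := hAD
      _ ≤ D := by rw [← hA']; exact hdeg A'
  obtain ⟨Q, hQ⟩ : ∃ Q : Pl (n + 1) K, Q = MvPolynomial.rename (fun i => (m i).succ) F.leadingCoeff := ⟨_, rfl⟩
  have hQη : MvPolynomial.aeval η Q = MvPolynomial.aeval xS F.leadingCoeff := by
    rw [hQ, MvPolynomial.aeval_rename]
    have : η ∘ (fun i => (m i).succ) = xS := by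
      funext i
      rw [hxS]
      exact hηu (m i)
    rw [this]
  refine ⟨Q, ?_, ?_⟩
  · intro hmem
    have h1 : toF 𝔭 L Q = 0 := by
      have h2 : cl 𝔭 Q = 0 := Ideal.Quotient.eq_zero_iff_mem.2 hmem
      show algebraMap (CR 𝔭) L (cl 𝔭 Q) = 0
      rw [h2, map_zero]
    rw [← T3Fin3M.aeval_toF, ← hη, hQη] at h1
    have h3 : F.leadingCoeff = 0 := (hxb.1 : Function.Injective _) (by rw [h1, map_zero])
    exact hirr.ne_zero (Polynomial.leadingCoeff_eq_zero.1 h3)
  intro Ω _ _ h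
  obtain ⟨d, hd⟩ : ∃ d, d = F.natDegree := ⟨_, rfl⟩
  obtain ⟨C₁, hC₁⟩ := h.root d
  obtain ⟨C₂, hC₂⟩ := hUp K Ω h (Fin (d + 1)) (a + 1) 0 D 0 (fun t => MvPolynomial.C (F.coeff t))
    (fun t => MvPolynomial.isHomogeneous_C _ _) (by
      intro t β
      rw [MvPolynomial.coeff_C]
      split_ifs
      · exact (hD1 _).trans hDd
      · simp)
  refine ⟨C₂ + C₁, ?_⟩
  intro pt v hon hne hval
  obtain ⟨ptS, hptS⟩ : ∃ ptS : Fin (a + 1) → Ω, ptS = fun i => pt (m i).succ := ⟨_, rfl⟩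
  have hOn : OnX K η pt := by
    intro G hG
    refine hon G ?_
    rw [hη, T3Fin3M.aeval_toF] at hG
    by_contra hG'
    exact T3Fin3M.toF_ne 𝔭 L hG' hG
  obtain ⟨hv1, hv2, -, -, -, hv6⟩ := hVl K L Ω (n + 1) η pt hOn
  have hQpt : MvPolynomial.aeval pt Q = MvPolynomial.aeval ptS F.leadingCoeff := by
    rw [hQ, MvPolynomial.aeval_rename]
    have : pt ∘ (fun i => (m i).succ) = ptS := by rw [hptS]; rfl
    rw [this]
  obtain ⟨G, hG⟩ : ∃ G : Pl (a + 2) K, G = ∑ i : Fin (d + 1), MvPolynomial.rename Fin.succ (F.coeff i) *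
      MvPolynomial.X 0 ^ (i : ℕ) := ⟨_, rfl⟩
  have hGe : ∀ (R : Type) [Field R] [Algebra K R] (y : R) (s : Fin (a + 1) → R),
      MvPolynomial.aeval (Fin.cons y s : Fin (a + 2) → R) G =
        ∑ i : Fin (d + 1), MvPolynomial.aeval s (F.coeff i) * y ^ (i : ℕ) := by
    intro R _ _ y s
    rw [hG, map_sum]
    refine Finset.sum_congr rfl fun i _ => ?_
    rw [map_mul, map_pow, MvPolynomial.aeval_rename, MvPolynomial.aeval_X]
    rfl
  have hG0 : MvPolynomial.aeval (Fin.cons w xS : Fin (a + 2) → L) G = 0 := by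
    rw [hGe]
    rw [Polynomial.eval₂_eq_sum_range, ← hd, Finset.sum_range] at hFw
    exact hFw
  have hG1 : MvPolynomial.aeval (Fin.cons v ptS : Fin (a + 2) → Ω) G = 0 := by
    have h1 := hv6 (a + 2) (Fin.cons w xS) (Fin.cons v ptS) (by
      intro i
      refine Fin.cases ?_ (fun j => ?_) i
      · rw [Fin.cons_zero, Fin.cons_zero, hη]
        exact hval
      · rw [Fin.cons_succ, Fin.cons_succ]
        have h2 := hv2 (MvPolynomial.X (m j).succ)
        rw [MvPolynomial.aeval_X, MvPolynomial.aeval_X] at h2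
        rw [hxS, hptS]
        change VlX K η pt (u (m j)) (pt (m j).succ)
        rw [← hηu]
        exact h2) G
    rw [hG0] at h1
    have h3 := hv2 0
    rw [map_zero, map_zero] at h3
    exact hv1 _ _ _ h1 h3
  rw [hGe] at hG1
  have hlast : MvPolynomial.aeval ptS (F.coeff ((Fin.last d : Fin (d + 1)) : ℕ)) ≠ 0 := by
    rw [Fin.val_last, hd, Polynomial.coeff_natDegree, ← hQpt]
    exact hne
  have h1 := hC₁ (fun i => MvPolynomial.aeval ptS (F.coeff i)) v hlast hG1
  have h2 := hC₂ ptS (fun i => Fin.elim0 i)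
  have h3 : h.H (hcN ptS) ≤ hx h pt := by
    have h4 := h.comp (Fin.cons 0 (fun i => (m i).succ) : Fin (a + 2) → Fin (n + 1)) (hcN fun i : Fin n => pt i.succ)
    have h5 : (hcN fun i : Fin n => pt i.succ) ∘ (Fin.cons 0 (fun i => (m i).succ) : Fin (a + 2) → Fin (n + 1)) =
        hcN ptS := by
      funext i
      refine Fin.cases ?_ (fun j => ?_) i
      · rfl
      · rw [hptS]
        rfl
    rw [h5] at h4
    exact h4
  have h6 : (fun t : Fin (d + 1) => MvPolynomial.eval₂ ((MvPolynomial.aeval ptS : Pl (a + 1) K →ₐ[K] Ω) : Pl (a + 1) K →+* Ω)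
      (fun i => Fin.elim0 i) (MvPolynomial.C (F.coeff t) : MvPolynomial (Fin 0) (Pl (a + 1) K))) =
      fun i : Fin (d + 1) => MvPolynomial.aeval ptS (F.coeff (i : ℕ)) := by
    funext t
    rw [MvPolynomial.eval₂_C]
    rfl
  rw [h6] at h2
  have h7 : (D : ℝ) * h.H (hcN ptS) ≤ D * hx h pt := mul_le_mul_of_nonneg_left h3 (Nat.cast_nonneg D)
  have h8 : ((0 : ℕ) : ℝ) * h.H (fun i : Fin 0 => (Fin.elim0 i : Ω)) = 0 := by rw [Nat.cast_zero, zero_mul]
  rw [h8] at h2
  linarith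

end Pool.Agent.Lib.MP_16285c_agX
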