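import Pool.Agent.Lib.MP_16285c_agP.SpecZ

/-!
# Proof of `StmtIdZ` (helper41; edit of `Gro/LowB.lean`)
-/

set_option autoImplicit false

namespace Pool.Agent.Lib.MP_16285c_agX

open Pool.Agent.Lib.MP_16285c_ag Pool.Agent.Lib.MP_16285c_agN

theorem tIdZ : StmtQrZ → StmtIdZ := by
  classical
  intro hA K L E _ _ _ _ _ _ n O res dd hdd α G hRs κ ι hκ δ θ hθ
  rw [linearIndependent_iff']
  intro s₀ g hg t₀ ht₀
  by_contra hne
  set s := s₀.filter (fun t => g t ≠ 0) with hs
  have hsum : ∑ t ∈ s, g t • (((∏ j, G j ^ (t.1 : Fin n → ℕ) j) * θ t.2 : O) : E) = 0 := by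
    rw [← hg, hs]
    apply Finset.sum_filter_of_ne
    intro t _ hne h0
    exact hne (by rw [h0, zero_smul])
  have ht₀s : t₀ ∈ s := Finset.mem_filter.mpr ⟨ht₀, hne⟩
  choose P hP hPι using fun t => hκ (g t)
  have hpoly : ∑ t ∈ s, (∏ j, G j ^ (t.1 : Fin n → ℕ) j) * (P t * θ t.2) = 0 := by
    apply Subtype.val_injective
    change O.val (∑ t ∈ s, (∏ j, G j ^ (t.1 : Fin n → ℕ) j) * (P t * θ t.2)) = O.val 0
    rw [map_sum, map_zero, ← hsum]
    apply Finset.sum_congr rfl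
    intro t _
    have h3 : g t • (((∏ j, G j ^ (t.1 : Fin n → ℕ) j) * θ t.2 : O) : E)
        = (g t : E) * (((∏ j, G j ^ (t.1 : Fin n → ℕ) j) * θ t.2 : O) : E) := rfl
    rw [h3, ← hP t]
    change ((((∏ j, G j ^ (t.1 : Fin n → ℕ) j) * (P t * θ t.2) : O)) : E)
      = ((P t * ((∏ j, G j ^ (t.1 : Fin n → ℕ) j) * θ t.2) : O) : E)
    congr 1
    ring
  set S₀ := s.image Prod.fst with hS₀
  have hS₀m : ∀ t ∈ s, t.1 ∈ S₀ := fun t ht => Finset.mem_image_of_mem _ ht
  obtain ⟨b, hbS, hbmin⟩ := S₀.exists_min_image (fun b => ∑ j, (b : Fin n → ℕ) j) ⟨_, hS₀m t₀ ht₀s⟩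
  obtain ⟨t₁, ht₁, rfl⟩ := Finset.mem_image.mp hbS
  let p : {b : Fin n → ℕ // ∀ a ∈ α, b a = 0} → Fin δ → O :=
    fun b i => if (b, i) ∈ s then P (b, i) else 0
  let Q : (Fin n → ℕ) → O :=
    fun b => if h : ∀ a ∈ α, b a = 0 then ∑ i, p ⟨b, h⟩ i * θ i else 0
  have hQ : ∀ b : {b : Fin n → ℕ // ∀ a ∈ α, b a = 0}, Q b.1 = ∑ i, p b i * θ i := by
    intro b
    simp only [Q, dif_pos b.2]
  have h4 := hA K L E n O res dd hdd α G hRs (S₀.map (Function.Embedding.subtype _)) Q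
    (by
      intro b hb a ha
      obtain ⟨b', -, rfl⟩ := Finset.mem_map.mp hb
      exact b'.2 a ha)
    (by
      have h5 : s ⊆ S₀ ×ˢ (Finset.univ : Finset (Fin δ)) :=
        fun t ht => Finset.mem_product.mpr ⟨hS₀m t ht, Finset.mem_univ _⟩
      rw [Finset.sum_map]
      calc ∑ b ∈ S₀, (∏ j, G j ^ (b : Fin n → ℕ) j) * Q b.1
          = ∑ b ∈ S₀, ∑ i, (∏ j, G j ^ (b : Fin n → ℕ) j) * (p b i * θ i) := by
            apply Finset.sum_congr rfl
            intro b _
            rw [hQ, Finset.mul_sum]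
        _ = ∑ t ∈ S₀ ×ˢ (Finset.univ : Finset (Fin δ)),
              (∏ j, G j ^ (t.1 : Fin n → ℕ) j) * (p t.1 t.2 * θ t.2) := by
            rw [Finset.sum_product]
        _ = ∑ t ∈ s, (∏ j, G j ^ (t.1 : Fin n → ℕ) j) * (p t.1 t.2 * θ t.2) := by
            symm
            apply Finset.sum_subset h5
            intro t _ ht
            have : p t.1 t.2 = 0 := by
              simp only [p]
              rw [if_neg]
              exact ht
            rw [this, zero_mul, mul_zero]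
        _ = ∑ t ∈ s, (∏ j, G j ^ (t.1 : Fin n → ℕ) j) * (P t * θ t.2) := by
            apply Finset.sum_congr rfl
            intro t ht
            have : p t.1 t.2 = P t := by
              simp only [p]
              rw [if_pos]
              exact ht
            rw [this]
        _ = 0 := hpoly)
    t₁.1.1 (Finset.mem_map.mpr ⟨t₁.1, hbS, rfl⟩)
    (by
      intro b' hb'
      obtain ⟨b'', hb'', rfl⟩ := Finset.mem_map.mp hb'
      exact hbmin b'' hb'')
  rw [hQ, map_sum] at h4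
  let h : Fin δ → ι.fieldRange :=
    fun i => if (t₁.1, i) ∈ s then ⟨ι (g (t₁.1, i)), ⟨g (t₁.1, i), rfl⟩⟩ else 0
  have h8 : ∀ i, res (p t₁.1 i * θ i) = h i • res (θ i) := by
    intro i
    have h9 : res (p t₁.1 i) = (h i : L) := by
      by_cases hi : (t₁.1, i) ∈ s
      · simp only [p, h, if_pos hi]
        exact hPι _
      · simp only [p, h, if_neg hi]
        rw [map_zero, ZeroMemClass.coe_zero]
    have h10 : h i • res (θ i) = (h i : L) * res (θ i) := rfl
    rw [map_mul, h9, h10]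
  rw [Finset.sum_congr rfl fun i _ => h8 i] at h4
  have h12 := Fintype.linearIndependent_iff.mp hθ h h4 t₁.2
  have h13 : (t₁.1, t₁.2) ∈ s := ht₁
  simp only [h, if_pos h13] at h12
  have h14 : ι (g t₁) = 0 := congrArg Subtype.val h12
  have h15 : g t₁ = 0 := (map_eq_zero_iff ι ι.injective).mp h14
  exact (Finset.mem_filter.mp ht₁).2 h15

end Pool.Agent.Lib.MP_16285c_agX
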