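import Pool.Agent.Lib.MP_16285c_agP.SpecZ
import Pool.Agent.Lib.MP_16285c_agX.T3.CmpX

/-!
# ZDP, section G: the Jacobian determinant of a dominant map is not zero (`StmtJbZ`)
-/

set_option autoImplicit false

namespace Pool.Agent.Lib.MP_16285c_agX

open Pool.Agent.Lib.MP_16285c_ag Pool.Agent.Lib.MP_16285c_agN
open Pool.Agent.Lib.MP_16285c_agS (toF)

namespace PJbZM

/-- The kernel of a derivation of a field. -/
def ker {K E : Type} [Field K] [Field E] [Algebra K E] (d : Derivation K E E) : IntermediateField K E where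
  carrier := {u | d u = 0}
  mul_mem' := by
    intro a b ha hb
    have ha' : d a = 0 := ha
    have hb' : d b = 0 := hb
    show d (a * b) = 0
    rw [Derivation.leibniz, ha', hb', smul_zero, smul_zero, add_zero]
  one_mem' := d.map_one_eq_zero
  add_mem' := by
    intro a b ha hb
    have ha' : d a = 0 := ha
    have hb' : d b = 0 := hb
    show d (a + b) = 0
    rw [map_add, ha', hb', add_zero]
  zero_mem' := map_zero d
  algebraMap_mem' := fun c => d.map_algebraMap c
  inv_mem' := by
    intro a ha
    have ha' : d a = 0 := ha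
    show d a⁻¹ = 0
    rw [Derivation.leibniz_inv, ha', smul_zero]

theorem mem_ker {K E : Type} [Field K] [Field E] [Algebra K E] (d : Derivation K E E) (u : E) :
    u ∈ ker d ↔ d u = 0 := Iff.rfl

/-- A derivation vanishes at the elements which are algebraic over its kernel. -/
theorem der_alg {K E : Type} [Field K] [CharZero K] [Field E] [Algebra K E] (d : Derivation K E E) (u : E)
    (hu : IsAlgebraic (ker d) u) : d u = 0 := by
  have hc : CharZero (ker d) := charZero_of_injective_algebraMap (algebraMap K (ker d)).injective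
  let d' : Derivation (ker d) E E :=
    { toFun := d
      map_add' := fun a b => map_add d a b
      map_smul' := by
        intro c a
        have h1 : d (c : E) = 0 := c.2
        have h2 : c • a = (c : E) * a := rfl
        have h3 : (RingHom.id (ker d)) c • d a = (c : E) * d a := rfl
        rw [h3, h2, Derivation.leibniz, h1, smul_zero, add_zero, smul_eq_mul]
      map_one_eq_zero' := d.map_one_eq_zero
      leibniz' := fun a b => d.leibniz a b }
  have h1 := d'.map_aeval (minpoly (ker d) u) u
  rw [minpoly.aeval, map_zero, smul_eq_mul] at h1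
  have h2 : (minpoly (ker d) u).Separable := (minpoly.irreducible hu.isIntegral).separable
  have h3 := h2.aeval_derivative_ne_zero (minpoly.aeval (ker d) u)
  exact (mul_eq_zero.1 h1.symm).resolve_left h3

theorem sum_app {K E : Type} [Field K] [Field E] [Algebra K E] {n : ℕ} (v : Fin n → E)
    (δ : Fin n → Derivation K E E) (s : Finset (Fin n)) (u : E) :
    (∑ j ∈ s, v j • δ j) u = ∑ j ∈ s, v j * δ j u := by
  classical
  induction s using Finset.induction_on with
  | empty => simp
  | insert a s ha ih => rw [Finset.sum_insert ha, Finset.sum_insert ha, Derivation.add_apply, ih]; rfl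

theorem alg_mono {E : Type} [Field E] (A B : Subfield E) (h : A ≤ B) (u : E) (hu : IsAlgebraic A u) :
    IsAlgebraic B u := by
  let _ : Algebra A B := (Subfield.inclusion h).toAlgebra
  have : IsScalarTower A B E := IsScalarTower.of_algebraMap_eq fun _ => rfl
  exact hu.extendScalars (algebraMap A B).injective

theorem alg_trans {E : Type} [Field E] (A B : Subfield E) (h : A ≤ B) (h1 : ∀ x ∈ B, IsAlgebraic A x) (u : E)
    (hu : IsAlgebraic B u) : IsAlgebraic A u := by
  let _ : Algebra A B := (Subfield.inclusion h).toAlgebra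
  have : IsScalarTower A B E := IsScalarTower.of_algebraMap_eq fun _ => rfl
  have : Algebra.IsAlgebraic A B := ⟨fun y => by
    have h3 := h1 y y.2
    exact (isAlgebraic_algebraMap_iff (R := A) (algebraMap B E).injective).1 h3⟩
  exact hu.restrictScalars A

/-- Algebraic over the image of `κ`. -/
theorem alg_map {K E : Type} [Field K] [Field E] [Algebra K E] (κ F : IntermediateField K E) (ρ : E →ₐ[K] E)
    (h : ∀ c ∈ κ, ρ c ∈ F) (e : E) (he : IsAlgebraic κ e) : IsAlgebraic F (ρ e) := by
  obtain ⟨p, hp, h0⟩ := he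
  let g : κ →+* F := ((ρ : E →+* E).comp (algebraMap κ E)).codRestrict F (fun c => h c c.2)
  refine ⟨p.map g, ?_, ?_⟩
  · rw [Ne, Polynomial.map_eq_zero_iff g.injective]
    exact hp
  · rw [Polynomial.aeval_def, Polynomial.eval₂_map]
    have h1 : (algebraMap F E).comp g = (ρ : E →+* E).comp (algebraMap κ E) := rfl
    have h2 : Polynomial.eval₂ ((ρ : E →+* E).comp (algebraMap κ E)) (ρ e) p =
        ρ (Polynomial.eval₂ (algebraMap κ E) e p) :=
      (Polynomial.hom_eval₂ p (algebraMap κ E) (ρ : E →+* E) e).symm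
    rw [Polynomial.aeval_def] at h0
    rw [h1, h2, h0, map_zero]

/-- Every element is algebraic over a subfield which contains the `ρ x_l`. -/
theorem alg_all {K E : Type} [Field K] [Field E] [Algebra K E] {n : ℕ} (ξ : Fin (n + 1) → E) (hs : Stp K ξ)
    (ρ : E →ₐ[K] E) (hfin : Module.Finite ρ.fieldRange E) (F : IntermediateField K E)
    (hF : ∀ l : Fin n, ρ (ξ l.succ) ∈ F) (u : E) : IsAlgebraic F u := by
  have h1 := T3CmpXM.alg_x hs
  set κ := IntermediateField.adjoin K (Set.range fun i : Fin n => ξ i.succ) with hκ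
  have h2 : ∀ c ∈ κ, ρ c ∈ F := by
    have h3 : κ ≤ F.comap ρ := by
      rw [hκ, IntermediateField.adjoin_le_iff]
      rintro _ ⟨i, rfl⟩
      exact hF i
    exact fun c hc => h3 hc
  have h4 : ∀ e : E, IsAlgebraic F (ρ e) := fun e => alg_map κ F ρ h2 e (h1.isAlgebraic e)
  have h5 : ∀ x ∈ (algebraicClosure F E).toSubfield, IsAlgebraic F.toSubfield x := by
    intro x hx
    have hx' : x ∈ algebraicClosure F E := hx
    exact mem_algebraicClosure_iff.1 hx'
  have h6 : F.toSubfield ≤ (algebraicClosure F E).toSubfield := by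
    intro x hx
    have : x ∈ algebraicClosure F E := mem_algebraicClosure_iff.2 (isAlgebraic_algebraMap (⟨x, hx⟩ : F))
    exact this
  have h7 : ρ.fieldRange.toSubfield ≤ (algebraicClosure F E).toSubfield := by
    intro x hx
    have hx' : x ∈ ρ.fieldRange := hx
    obtain ⟨e, rfl⟩ := hx'
    have : ρ e ∈ algebraicClosure F E := mem_algebraicClosure_iff.2 (h4 e)
    exact this
  have h8 : IsAlgebraic ρ.fieldRange u := Algebra.IsAlgebraic.isAlgebraic u
  have h9 : IsAlgebraic ρ.fieldRange.toSubfield u := h8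
  exact alg_trans F.toSubfield _ h6 h5 u (alg_mono _ _ h7 u h9)

end PJbZM

open PJbZM in
theorem tJbZ : StmtDvE → StmtG1 → StmtGenS → StmtJbZ := by
  classical
  intro hDvE hG1 hGenS K _ _ n P hprime hm E _ _ _ _ _ ρ
  obtain ⟨hne, δ, hδ⟩ := hDvE K n P hm E
  have hP0 : P ≠ 0 := by
    intro h
    have : (MvPolynomial.finSuccEquiv K n P).Monic := hm
    rw [h, map_zero] at this
    exact this.ne_zero rfl
  have hirr : Irreducible P := ((Ideal.span_singleton_prime hP0).1 hprime).irreducible
  set ξ : Fin (n + 1) → E := fun i => toF (Ideal.span {P}) E (MvPolynomial.X i) with hξ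
  have hs : Stp K ξ := hGenS.1 K E n P ξ hirr hm (hGenS.2.1 K n P E)
  have hz : ∀ G : Pl (n + 1) K, toF (Ideal.span {P}) E G = 0 ↔ P ∣ G := by
    intro G
    rw [← Ideal.mem_span_singleton]
    constructor
    · intro h
      have h1 : cl (Ideal.span {P}) G = 0 :=
        (IsFractionRing.injective (CR (Ideal.span {P})) E) (by rw [map_zero]; exact h)
      exact Ideal.Quotient.eq_zero_iff_mem.1 h1
    · intro h
      have h1 : cl (Ideal.span {P}) G = 0 := Ideal.Quotient.eq_zero_iff_mem.2 h
      have h2 : algebraMap (CR (Ideal.span {P})) E (cl (Ideal.span {P}) G) = 0 := by rw [h1, map_zero]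
      exact h2
  have hfr : ∀ u : E, ∃ N D : Pl (n + 1) K, u * toF (Ideal.span {P}) E D = toF (Ideal.span {P}) E N ∧ ¬ P ∣ D := by
    intro u
    obtain ⟨a, b, hb, hab⟩ := IsFractionRing.div_surjective (A := CR (Ideal.span {P})) u
    obtain ⟨N, rfl⟩ := Ideal.Quotient.mk_surjective a
    obtain ⟨D, rfl⟩ := Ideal.Quotient.mk_surjective b
    have hb0 : algebraMap (CR (Ideal.span {P})) E (Ideal.Quotient.mk (Ideal.span {P}) D) ≠ 0 :=
      IsFractionRing.to_map_ne_zero_of_mem_nonZeroDivisors hb
    refine ⟨N, D, ?_, ?_⟩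
    · rw [← hab]
      exact div_mul_cancel₀ _ hb0
    · intro hd
      exact hb0 ((hz D).2 hd)
  choose N hN using fun l : Fin n => hfr (ρ (ξ l.succ))
  choose D hD using hN
  refine ⟨N, D, fun l => (hD l).1, fun l => (hD l).2, ?_⟩
  intro hJ
  have hJ0 : toF (Ideal.span {P}) E (JcZ P N D) = 0 := (hz _).2 hJ
  set F : Pl (n + 1) K → E := fun G => toF (Ideal.span {P}) E G with hF
  set c : Fin n → E := fun l => F (D l) ^ 2 * F (MvPolynomial.pderiv 0 P) with hc
  set M : Matrix (Fin n) (Fin n) E := Matrix.of fun j l => δ j (ρ (ξ l.succ)) with hM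
  have hent : ∀ j l, M j l * c l = F (D l * JpZ P j (N l) - N l * JpZ P j (D l)) := by
    intro j l
    have e1 := congrArg (δ j) (hD l).1
    rw [Derivation.leibniz, smul_eq_mul, smul_eq_mul] at e1
    have e2 := hδ j (N l)
    have e3 := hδ j (D l)
    have e4 := (hD l).1
    show δ j (ρ (ξ l.succ)) * (F (D l) ^ 2 * F (MvPolynomial.pderiv 0 P)) = _
    have e5 : F (D l * JpZ P j (N l) - N l * JpZ P j (D l)) =
        F (D l) * F (JpZ P j (N l)) - F (N l) * F (JpZ P j (D l)) := by
      simp only [hF, map_sub, map_mul]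
    rw [e5]
    simp only [hF]
    rw [← e2, ← e3, ← e1, ← e4]
    ring
  have hdet : M.det * ∏ l, c l = 0 := by
    have h1 : (M * Matrix.diagonal c).det = toF (Ideal.span {P}) E (JcZ P N D) := by
      unfold JcZ
      rw [RingHom.map_det]
      congr 1
      ext j l
      rw [Matrix.mul_diagonal, hent]
      rfl
    rw [Matrix.det_mul, Matrix.det_diagonal] at h1
    rw [h1, hJ0]
  have hc0 : ∏ l, c l ≠ 0 := by
    rw [Finset.prod_ne_zero_iff]
    intro l _
    refine mul_ne_zero (pow_ne_zero _ ?_) hne
    intro h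
    exact (hD l).2 ((hz _).1 h)
  have hdet0 : M.det = 0 := (mul_eq_zero.1 hdet).resolve_right hc0
  obtain ⟨v, hv, hvM⟩ := Matrix.exists_vecMul_eq_zero_iff.2 hdet0
  let d : Derivation K E E := ∑ j, v j • δ j
  have hd : ∀ u, d u = ∑ j, v j * δ j u := by
    intro u
    exact sum_app v δ Finset.univ u
  have hx : ∀ i j : Fin n, δ j (ξ i.succ) = if i = j then 1 else 0 := by
    intro i j
    have h1 := hδ j (MvPolynomial.X i.succ)
    have h2 : JpZ P j (MvPolynomial.X i.succ) = MvPolynomial.pderiv 0 P * (if i = j then 1 else 0) := by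
      unfold JpZ
      rw [MvPolynomial.pderiv_X_of_ne (Fin.succ_ne_zero i), mul_zero, sub_zero]
      by_cases h : i = j
      · rw [if_pos h, h, MvPolynomial.pderiv_X_self]
      · rw [if_neg h, MvPolynomial.pderiv_X_of_ne (fun h' => h (Fin.succ_injective _ h'))]
    rw [h2, map_mul] at h1
    have h3 : toF (Ideal.span {P}) E (if i = j then 1 else 0) = if i = j then 1 else 0 := by
      split_ifs
      · exact map_one _
      · exact map_zero _
    rw [h3, mul_comm] at h1
    exact mul_left_cancel₀ hne h1
  have hdρ : ∀ l : Fin n, d (ρ (ξ l.succ)) = 0 := by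
    intro l
    rw [hd]
    exact congrFun hvM l
  have hall : ∀ u : E, d u = 0 := by
    intro u
    refine der_alg d u (alg_all ξ hs ρ (hG1.1 K (n + 1) (Ideal.span {P}) E ρ) (ker d) ?_ u)
    intro l
    exact hdρ l
  apply hv
  funext i
  have h1 := hall (ξ i.succ)
  rw [hd] at h1
  simpa [hx] using h1

end Pool.Agent.Lib.MP_16285c_agX
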