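import Pool.Agent.Lib.MP_16285c_agP.SpecZ

/-!
# Section G of ZDP: the Jacobian determinants of the iterates along the orbit (JvZ)
-/

set_option autoImplicit false

namespace Pool.Agent.Lib.MP_16285c_agX

open Pool.Agent.Lib.MP_16285c_ag Pool.Agent.Lib.MP_16285c_agN
open Pool.Agent.Lib.MP_16285c_agS (toF)

namespace PJvZM

theorem aeval_toF {K : Type} [Field K] {n : ℕ} (𝔭 : Ideal (Pl n K)) (E : Type) [Field E]
    [Algebra (CR 𝔭) E] [Algebra K E] [IsScalarTower K (CR 𝔭) E] (G : Pl n K) :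
    toF 𝔭 E G = MvPolynomial.aeval (fun i => toF 𝔭 E (MvPolynomial.X i)) G := by
  have e : (MvPolynomial.aeval (fun i => toF 𝔭 E (MvPolynomial.X i)) : Pl n K →ₐ[K] E) =
      (IsScalarTower.toAlgHom K (CR 𝔭) E).comp (Ideal.Quotient.mkₐ K 𝔭) := by
    apply MvPolynomial.algHom_ext
    intro i
    rw [MvPolynomial.aeval_X]
    rfl
  exact (congrArg (fun u : Pl n K →ₐ[K] E => u G) e).symm

/-- the quotient rule, for one entry of the Jacobian matrix -/
theorem entry {E : Type} [Field E] {K : Type} [Field K] [Algebra K E] (d : Derivation K E E)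
    (r D N c JD JN : E) (h1 : r * D = N) (h2 : d D * c = JD) (h3 : d N * c = JN) :
    D ^ 2 * c * d r = D * JN - N * JD := by
  have h4 : d (r * D) = r • d D + D • d r := Derivation.leibniz d r D
  rw [smul_eq_mul, smul_eq_mul, h1] at h4
  rw [← h3, ← h2, h4, ← h1]
  ring

/-- the Jacobian determinant of the map as a quotient -/
theorem jac (K : Type) [Field K] (n : ℕ) (P : Pl (n + 1) K) [(Ideal.span {P}).IsPrime]
    (E : Type) [Field E] [Algebra (CR (Ideal.span {P})) E] [IsFractionRing (CR (Ideal.span {P})) E]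
    [Algebra K E] [IsScalarTower K (CR (Ideal.span {P})) E] (δ : Fin n → Derivation K E E)
    (hδ : DvZ P E δ) (ρ : E →ₐ[K] E) (N D : Fin n → Pl (n + 1) K)
    (hN : ∀ l, ρ (toF (Ideal.span {P}) E (MvPolynomial.X l.succ)) * toF (Ideal.span {P}) E (D l) =
        toF (Ideal.span {P}) E (N l)) :
    (JmZ P E δ ρ).det * MvPolynomial.aeval (fun i => toF (Ideal.span {P}) E (MvPolynomial.X i))
      (∏ l, (D l ^ 2 * MvPolynomial.pderiv 0 P)) =
      MvPolynomial.aeval (fun i => toF (Ideal.span {P}) E (MvPolynomial.X i)) (JcZ P N D) := by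
  set ξ : Fin (n + 1) → E := fun i => toF (Ideal.span {P}) E (MvPolynomial.X i) with hξ
  have e1 : ∀ G : Pl (n + 1) K, toF (Ideal.span {P}) E G = MvPolynomial.aeval ξ G := fun G =>
    aeval_toF (Ideal.span {P}) E G
  have e2 : MvPolynomial.aeval ξ (JcZ P N D) =
      (Matrix.of fun j l : Fin n => MvPolynomial.aeval ξ (D l ^ 2 * MvPolynomial.pderiv 0 P) *
        (JmZ P E δ ρ) j l).det := by
    rw [JcZ, AlgHom.map_det]
    congr 1
    ext j l
    have h3 : MvPolynomial.aeval ξ (D l) ^ 2 * MvPolynomial.aeval ξ (MvPolynomial.pderiv 0 P) *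
        δ j (ρ (toF (Ideal.span {P}) E (MvPolynomial.X l.succ))) =
        MvPolynomial.aeval ξ (D l) * MvPolynomial.aeval ξ (JpZ P j (N l)) -
          MvPolynomial.aeval ξ (N l) * MvPolynomial.aeval ξ (JpZ P j (D l)) := by
      apply entry
      · have := hN l
        rw [e1 (D l), e1 (N l)] at this
        exact this
      · have := hδ j (D l)
        rw [e1 (D l), e1 (MvPolynomial.pderiv 0 P), e1 (JpZ P j (D l))] at this
        exact this
      · have := hδ j (N l)
        rw [e1 (N l), e1 (MvPolynomial.pderiv 0 P), e1 (JpZ P j (N l))] at this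
        exact this
    simp only [AlgHom.mapMatrix_apply, Matrix.map_apply, Matrix.of_apply, map_sub, map_mul, map_pow]
    rw [← h3]
    rfl
  rw [e2, Matrix.det_mul_row, map_prod, mul_comm]

end PJvZM

open PJvZM in
theorem tJvZ : StmtVlA → StmtFlV → StmtJtZ → StmtJvZ := by
  intro hVl hFl hJt K Ω _ _ _ n P _ E _ _ _ _ _ δ hδ ρ z hz hP0 N D hN hD hJ N'
  have e1 : ∀ G : Pl (n + 1) K, toF (Ideal.span {P}) E G =
      MvPolynomial.aeval (fun i => toF (Ideal.span {P}) E (MvPolynomial.X i)) G := fun G =>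
    aeval_toF (Ideal.span {P}) E G
  have hjac := jac K n P E δ hδ ρ N D hN
  have hJt' := hJt K n P E δ hδ (fun h0 => hP0 0 ((hz 0).1 _ ((e1 _).symm.trans h0))) ρ N'
  rw [hJt']
  clear hJt' hJt
  generalize (fun i => toF (Ideal.span {P}) E (MvPolynomial.X i)) = ξ at hz hjac ⊢
  obtain ⟨u1, u2, -, u4, u5, u6⟩ := hVl K E Ω (n + 1) ξ (z 0) (hz 0).1
  set B : Pl (n + 1) K := ∏ l, (D l ^ 2 * MvPolynomial.pderiv 0 P) with hB
  set A : Pl (n + 1) K := JcZ P N D with hA
  set h : E := (JmZ P E δ ρ).det with hh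
  have hB0 : ∀ t, MvPolynomial.aeval (z t) B ≠ 0 := by
    intro t
    rw [hB, map_prod]
    refine Finset.prod_ne_zero_iff.2 fun l _ => ?_
    rw [map_mul, map_pow]
    exact mul_ne_zero (pow_ne_zero _ (hD t l)) (hP0 t)
  have v0 : ∀ (x : E) (v : Ω), VlX K ξ (z 0) x v → v ≠ 0 → x ≠ 0 := by
    intro x v hx hv h0
    rw [h0] at hx
    have := u2 0
    rw [map_zero, map_zero] at this
    exact hv (u1 _ _ _ hx this)
  have hv : ∀ i : ℕ, VlX K ξ (z 0) ((ρ ^ i) h)
      (MvPolynomial.aeval (z i) A * (MvPolynomial.aeval (z i) B)⁻¹) := by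
    intro i
    have w1 : ∀ G : Pl (n + 1) K, VlX K ξ (z 0) ((ρ ^ i) (MvPolynomial.aeval ξ G))
        (MvPolynomial.aeval (z i) G) := by
      intro G
      have w2 := u6 (n + 1) (fun k => (ρ ^ i) (ξ k)) (z i) (fun k => by
        have := hFl K E Ω (n + 1) ξ ρ z hz i 0 k
        rwa [zero_add] at this) G
      have w3 : (ρ ^ i) (MvPolynomial.aeval ξ G) =
          MvPolynomial.aeval (fun k => (ρ ^ i) (ξ k)) G := by
        rw [MvPolynomial.comp_aeval_apply]
      rw [w3]
      exact w2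
    have w4 := w1 B
    have w5 := w1 A
    have w6 : (ρ ^ i) (MvPolynomial.aeval ξ B) ≠ 0 := v0 _ _ w4 (hB0 i)
    have w7 : (ρ ^ i) h = (ρ ^ i) (MvPolynomial.aeval ξ A) * ((ρ ^ i) (MvPolynomial.aeval ξ B))⁻¹ := by
      rw [eq_mul_inv_iff_mul_eq₀ w6, ← map_mul, hjac]
    rw [w7]
    exact u4 _ _ _ _ w5 (u5 _ _ w4 (hB0 i))
  refine ⟨∏ i ∈ Finset.range N', (MvPolynomial.aeval (z i) A * (MvPolynomial.aeval (z i) B)⁻¹),
    ?_, ?_⟩
  · exact Finset.prod_ne_zero_iff.2 fun i _ => mul_ne_zero (hJ i) (inv_ne_zero (hB0 i))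
  · induction N' with
    | zero =>
      have := u2 1
      rw [map_one, map_one] at this
      simpa using this
    | succ m ih =>
      rw [Finset.prod_range_succ, Finset.prod_range_succ]
      exact u4 _ _ _ _ ih (hv m)

end Pool.Agent.Lib.MP_16285c_agX
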