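import Pool.Agent.Lib.MP_16285c_agP.SpecZ

/-!
# Quasi-regularity by derivations (`StmtQrZ`)
-/

set_option autoImplicit false

namespace Pool.Agent.Lib.MP_16285c_agX

namespace PQrZM

open MvPolynomial

/-- The restriction of a derivation to a subalgebra. -/
noncomputable def dO {K E : Type} [Field K] [Field E] [Algebra K E] (O : Subalgebra K E) (δ : Derivation K E E)
    (h : ∀ x ∈ O, δ x ∈ O) : Derivation K O O :=
  Derivation.mk'
    { toFun := fun x => ⟨δ x, h x x.2⟩
      map_add' := fun x y => Subtype.ext (by simp)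
      map_smul' := fun c x => Subtype.ext (by simp) }
    (fun x y => Subtype.ext (by simp))

theorem coe_dO {K E : Type} [Field K] [Field E] [Algebra K E] (O : Subalgebra K E) (δ : Derivation K E E)
    (h : ∀ x ∈ O, δ x ∈ O) (x : O) : ((dO O δ h x : O) : E) = δ (x : E) := rfl

section

variable {K R : Type} [Field K] [CommRing R] [Algebra K R] {n : ℕ}

/-- The derivation on the coefficients. -/
noncomputable def dc (D : Derivation K R R) (f : MvPolynomial (Fin n) R) : MvPolynomial (Fin n) R :=
  ∑ b ∈ f.support, monomial b (D (coeff b f))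

theorem coeff_dc (D : Derivation K R R) (f : MvPolynomial (Fin n) R) (m : Fin n →₀ ℕ) :
    coeff m (dc D f) = D (coeff m f) := by
  classical
  rw [dc, coeff_sum]
  simp only [coeff_monomial]
  rw [Finset.sum_ite_eq']
  split_ifs with h
  · rfl
  · rw [notMem_support_iff.1 h, map_zero]

theorem dc_add (D : Derivation K R R) (p q : MvPolynomial (Fin n) R) : dc D (p + q) = dc D p + dc D q := by
  ext m
  simp [coeff_dc]

theorem dc_C (D : Derivation K R R) (a : R) : dc D (C a : MvPolynomial (Fin n) R) = C (D a) := by
  classical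
  ext m
  rw [coeff_dc, coeff_C, coeff_C]
  split_ifs <;> simp

theorem dc_mul_X (D : Derivation K R R) (p : MvPolynomial (Fin n) R) (i : Fin n) :
    dc D (p * X i) = dc D p * X i := by
  classical
  ext m
  rw [coeff_dc, coeff_mul_X', coeff_mul_X']
  split_ifs
  · rw [coeff_dc]
  · simp

theorem eval_dc (D : Derivation K R R) (g : Fin n → R) (f : MvPolynomial (Fin n) R) :
    eval g (dc D f) + ∑ l, D (g l) * eval g (pderiv l f) = D (eval g f) := by
  classical
  induction f using MvPolynomial.induction_on with
  | C a => simp [dc_C]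
  | add p q hp hq =>
    rw [dc_add, map_add, map_add, map_add, ← hp, ← hq]
    simp only [map_add, mul_add, Finset.sum_add_distrib]
    ring
  | mul_X p i hp =>
    rw [dc_mul_X, map_mul, map_mul, eval_X, Derivation.leibniz, ← hp]
    simp only [Derivation.leibniz, pderiv_X, smul_eq_mul, map_add, map_mul, eval_X, mul_add,
      Finset.sum_add_distrib]
    have h1 : ∑ l, D (g l) * (eval g p * eval g (Pi.single (M := fun _ => MvPolynomial (Fin n) R) l 1 i)) =
        eval g p * D (g i) := by
      rw [Finset.sum_eq_single i]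
      · simp [mul_comm]
      · intro b _ hb
        simp [hb.symm]
      · intro h
        exact absurd (Finset.mem_univ i) h
    rw [h1, Finset.mul_sum]
    have h2 : ∑ l, D (g l) * (g i * eval g (pderiv l p)) = ∑ l, g i * (D (g l) * eval g (pderiv l p)) :=
      Finset.sum_congr rfl fun l _ => by ring
    rw [h2]
    ring

end


/-- The claim, by induction on the degree. -/
theorem claim {K L E : Type} [Field K] [Field L] [CharZero L] [Field E] [Algebra K L] [Algebra K E] {n : ℕ}
    (O : Subalgebra K E) (res : O →ₐ[K] L) (δ : Fin n → Derivation K E E) (hδ : ∀ j, ∀ h ∈ O, δ j h ∈ O)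
    (α : Finset (Fin n)) (g : Fin n → O) (hR : RsyZ O res δ α g) :
    ∀ (m : ℕ) (f : MvPolynomial (Fin n) O), (∀ b : Fin n →₀ ℕ, ∀ a ∈ α, b a ≠ 0 → coeff b f = 0) →
      (∀ b : Fin n →₀ ℕ, ∑ j, b j < m → coeff b f = 0) → eval g f = 0 →
      ∀ b : Fin n →₀ ℕ, ∑ j, b j = m → res (coeff b f) = 0 := by
  classical
  intro m
  induction m with
  | zero =>
    intro f h1 _ h3 b hb
    have hb0 : b = 0 := by
      ext j
      have := Finset.sum_eq_zero_iff.1 hb j (Finset.mem_univ j)
      simpa using this
    subst hb0
    have h4 : res (eval g f) = 0 := by rw [h3, map_zero]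
    rw [eval_eq', map_sum, Finset.sum_eq_single (0 : Fin n →₀ ℕ)] at h4
    · simpa using h4
    · intro c hc hc0
      have hex : ∃ j, c j ≠ 0 := by
        by_contra hne
        push Not at hne
        exact hc0 (Finsupp.ext (by simpa using hne))
      obtain ⟨j, hj⟩ := hex
      have hjα : j ∉ α := fun hja => (mem_support_iff.1 hc) (h1 c j hja hj)
      rw [map_mul, map_prod, Finset.prod_eq_zero (Finset.mem_univ j), mul_zero]
      rw [map_pow, hR.1 j hjα, zero_pow hj]
    · intro h0
      rw [notMem_support_iff.1 h0]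
      simp
  | succ m ih =>
    intro f h1 h2 h3 b hb
    let F : Fin n → MvPolynomial (Fin n) O := fun j =>
      dc (dO O (δ j) (hδ j)) f + ∑ l, C (dO O (δ j) (hδ j) (g l)) * pderiv l f
    have hcF : ∀ j (c : Fin n →₀ ℕ), coeff c (F j) = dO O (δ j) (hδ j) (coeff c f) +
        ∑ l, dO O (δ j) (hδ j) (g l) * (coeff (c + Finsupp.single l 1) f * ((c l : O) + 1)) := by
      intro j c
      simp only [F, coeff_add, coeff_dc, coeff_sum, coeff_C_mul, coeff_pderiv]
    have hdeg : ∀ (c : Fin n →₀ ℕ) (l : Fin n), ∑ j, (c + Finsupp.single l 1 : Fin n →₀ ℕ) j = ∑ j, c j + 1 := by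
      intro c l
      simp [Finset.sum_add_distrib, Finsupp.single_apply]
    have hF : ∀ j (c : Fin n →₀ ℕ), ∑ i, c i = m → res (coeff c (F j)) = 0 := by
      intro j
      refine ih (F j) ?_ ?_ ?_
      · intro c a ha hca
        rw [hcF, h1 c a ha hca, map_zero, zero_add]
        refine Finset.sum_eq_zero fun l _ => ?_
        rw [h1 (c + Finsupp.single l 1) a ha (by
          rw [Finsupp.add_apply]
          omega), zero_mul, mul_zero]
      · intro c hc
        rw [hcF, h2 c (by omega), map_zero, zero_add]
        refine Finset.sum_eq_zero fun l _ => ?_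
        rw [h2 (c + Finsupp.single l 1) (by rw [hdeg]; omega), zero_mul, mul_zero]
      · have := eval_dc (dO O (δ j) (hδ j)) g f
        rw [h3, map_zero] at this
        simpa only [F, map_add, map_sum, map_mul, eval_C] using this
    obtain ⟨l, hl⟩ : ∃ l, b l ≠ 0 := by
      by_contra hne
      push Not at hne
      simp [hne] at hb
    have hbl : (b - Finsupp.single l 1) + Finsupp.single l 1 = b := by
      ext i
      rw [Finsupp.add_apply, Finsupp.tsub_apply, Finsupp.single_apply]
      split_ifs with h
      · subst h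
        omega
      · omega
    obtain ⟨c, hc⟩ : ∃ c : Fin n →₀ ℕ, c + Finsupp.single l 1 = b := ⟨_, hbl⟩
    have hcm : ∑ i, c i = m := by
      have := hdeg c l
      rw [hc, hb] at this
      omega
    have hv := hR.2 (fun j l => dO O (δ j) (hδ j) (g l)) (fun j l => coe_dO O (δ j) (hδ j) (g l))
      (fun l => ((c l : L) + 1) * res (coeff (c + Finsupp.single l 1) f)) (fun a ha => by
        have : coeff (c + Finsupp.single a 1) f = 0 := h1 _ a ha (by
          rw [Finsupp.add_apply, Finsupp.single_eq_same]
          omega)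
        simp [this]) (fun j => by
        have h5 := hF j c hcm
        rw [hcF, h2 c (by omega), map_zero, zero_add, map_sum] at h5
        rw [← h5]
        refine Finset.sum_congr rfl fun l _ => ?_
        simp only [map_mul, map_add, map_natCast, map_one]
        ring)
    have hvl := congrFun hv l
    simp only [Pi.zero_apply, hc] at hvl
    rcases mul_eq_zero.1 hvl with h6 | h6
    · exact absurd h6 (Nat.cast_add_one_ne_zero (c l))
    · exact h6

end PQrZM

theorem tQrZ : StmtQrZ := by
  classical
  intro K L E _ _ _ _ _ _ n O res δ hδ α g hR S q hS hsum b hb hmin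
  let f : MvPolynomial (Fin n) O :=
    ∑ b ∈ S, MvPolynomial.monomial (Finsupp.equivFunOnFinite.symm b) (q b)
  have hcf : ∀ c : Fin n →₀ ℕ, MvPolynomial.coeff c f = if (c : Fin n → ℕ) ∈ S then q c else 0 := by
    intro c
    have h7 : ∀ b : Fin n → ℕ, (Finsupp.equivFunOnFinite.symm b = c) ↔ (b = (c : Fin n → ℕ)) := by
      intro b
      constructor
      · intro h
        rw [← h]
        rfl
      · intro h
        rw [h]
        ext i
        rfl
    simp only [f, MvPolynomial.coeff_sum, MvPolynomial.coeff_monomial, h7]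
    rw [Finset.sum_ite_eq']
  have hev : MvPolynomial.eval g f = 0 := by
    rw [← hsum]
    simp only [f, map_sum, MvPolynomial.eval_monomial]
    refine Finset.sum_congr rfl fun b _ => ?_
    rw [Finsupp.prod_fintype _ _ (fun i => pow_zero _), mul_comm]
    rfl
  have h8 := PQrZM.claim O res δ hδ α g hR (∑ j, b j) f ?_ ?_ hev (Finsupp.equivFunOnFinite.symm b) rfl
  · rw [hcf] at h8
    have h9 : ((Finsupp.equivFunOnFinite.symm b : Fin n →₀ ℕ) : Fin n → ℕ) = b := rfl
    rw [h9, if_pos hb] at h8
    exact h8
  · intro c a ha hca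
    rw [hcf, if_neg]
    exact fun hc => hca (hS c hc a ha)
  · intro c hc
    rw [hcf, if_neg]
    intro hcS
    exact absurd (hmin c hcS) (by omega)

end Pool.Agent.Lib.MP_16285c_agX
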