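import Pool.Agent.Lib.MP_16285c_agP.SpecZ

/-!
# Separable relations between the coordinates of a point and a transcendence basis (helper85)
-/

set_option autoImplicit false

namespace Pool.Agent.Lib.MP_16285c_agX

open Pool.Agent.Lib.MP_16285c_ag Pool.Agent.Lib.MP_16285c_agN

namespace PRlZM

open MvPolynomial

theorem support_pderiv {K : Type} [Field K] {n : ℕ} (P : MvPolynomial (Fin n) K) (j : Fin n)
    (e : Fin n →₀ ℕ) (he : e ∈ (pderiv j P).support) : e + Finsupp.single j 1 ∈ P.support := by
  rw [mem_support_iff, coeff_pderiv] at he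
  rw [mem_support_iff]
  exact left_ne_zero_of_mul he

theorem vars_pderiv {K : Type} [Field K] {n : ℕ} (P : MvPolynomial (Fin n) K) (j i : Fin n)
    (hi : i ∈ (pderiv j P).vars) : i ∈ P.vars := by
  rw [mem_vars_iff_mem_support] at hi ⊢
  obtain ⟨e, he, hie⟩ := hi
  refine ⟨_, support_pderiv P j e he, ?_⟩
  rw [Finsupp.mem_support_iff] at hie ⊢
  rw [Finsupp.add_apply]
  omega

theorem totalDegree_pderiv {K : Type} [Field K] {n : ℕ} (P : MvPolynomial (Fin n) K) (j : Fin n)
    (hP : pderiv j P ≠ 0) : (pderiv j P).totalDegree < P.totalDegree := by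
  have h0 : 0 < P.totalDegree := by
    obtain ⟨e, he⟩ : ∃ e, e ∈ (pderiv j P).support := by
      by_contra hcon
      push Not at hcon
      exact hP (support_eq_empty.mp (Finset.eq_empty_of_forall_notMem hcon))
    have h2 := le_totalDegree (support_pderiv P j e he)
    rw [Finsupp.sum_add_index' (by simp) (by simp), Finsupp.sum_single_index rfl] at h2
    omega
  rw [totalDegree, Finset.sup_lt_iff h0]
  intro e he
  have h2 := le_totalDegree (support_pderiv P j e he)
  rw [Finsupp.sum_add_index' (by simp) (by simp), Finsupp.sum_single_index rfl] at h2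
  exact h2

theorem not_mem_vars {K : Type} [Field K] [CharZero K] {n : ℕ} (P : MvPolynomial (Fin n) K)
    (j : Fin n) (hP : pderiv j P = 0) : j ∉ P.vars := by
  classical
  intro hj
  rw [mem_vars_iff_mem_support] at hj
  obtain ⟨m, hm, hjm⟩ := hj
  rw [Finsupp.mem_support_iff] at hjm
  have h1 := coeff_pderiv (i := j) P (m - Finsupp.single j 1)
  have h2 : m - Finsupp.single j 1 + Finsupp.single j 1 = m := by
    ext i
    by_cases hi : i = j
    · subst hi
      simp
      omega
    · simp [Ne.symm hi]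
  rw [hP, coeff_zero, h2] at h1
  rw [mem_support_iff] at hm
  rcases mul_eq_zero.1 h1.symm with h | h
  · exact hm h
  · norm_cast at h

theorem noRel {K L : Type} [Field K] [Field L] [Algebra K L] {n : ℕ} (x : Fin n → L)
    (α : Finset (Fin n)) (hα : AlgebraicIndependent K (fun a : α => x (a : Fin n)))
    (G : MvPolynomial (Fin n) K) (hG : aeval x G = 0) (hv : G.vars ⊆ α) : G = 0 := by
  obtain ⟨p, hp⟩ := exists_rename_eq_of_vars_subset_range G
    (fun a : α => (a : Fin n)) Subtype.val_injective (by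
      intro i hi
      exact ⟨⟨i, hv hi⟩, rfl⟩)
  rw [← hp, aeval_rename] at hG
  have h1 := (algebraicIndependent_iff.1 hα) p hG
  rw [← hp, h1, map_zero]

end PRlZM

open PRlZM in
theorem tRlZ : StmtRelX → StmtRlZ := by
  intro hrel K L _ _ _ _ n x α hα
  obtain ⟨F, hF⟩ := hrel K L n x α hα
  have hmin : ∀ j, ∃ G : MvPolynomial (Fin n) K, j ∉ α → MvPolynomial.aeval x G = 0 ∧
      MvPolynomial.aeval x (MvPolynomial.pderiv j G) ≠ 0 ∧ G.vars ⊆ insert j α := by
    intro j
    by_cases hj : j ∈ α
    · exact ⟨0, fun h => absurd hj h⟩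
    · have hex : ∃ d : ℕ, ∃ G : MvPolynomial (Fin n) K, (G ≠ 0 ∧ MvPolynomial.aeval x G = 0 ∧
          G.vars ⊆ insert j α) ∧ G.totalDegree = d := ⟨_, F j, hF j hj, rfl⟩
      classical
      obtain ⟨G, ⟨hG0, hGx, hGv⟩, hGd⟩ := Nat.find_spec hex
      refine ⟨G, fun _ => ⟨hGx, fun hd => ?_, hGv⟩⟩
      have hne : MvPolynomial.pderiv j G ≠ 0 := by
        intro h0
        have h2 := not_mem_vars G j h0
        refine hG0 (noRel x α hα.1 G hGx fun i hi => ?_)
        rcases Finset.mem_insert.1 (hGv hi) with rfl | h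
        · exact absurd hi h2
        · exact h
      have hlt := totalDegree_pderiv G j hne
      rw [hGd] at hlt
      exact Nat.find_min hex hlt ⟨_, ⟨hne, hd, fun i hi => hGv (vars_pderiv G j i hi)⟩, rfl⟩
  choose G hG using hmin
  exact ⟨G, hG⟩

end Pool.Agent.Lib.MP_16285c_agX
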