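import Pool.Agent.Lib.MP_16285c_agP.SpecZ

/-!
# Section G of ZDP, module SyZ: the equations of `Z`, composed with the map
-/

set_option autoImplicit false

namespace Pool.Agent.Lib.MP_16285c_agX

open Pool.Agent.Lib.MP_16285c_ag Pool.Agent.Lib.MP_16285c_agN
open Pool.Agent.Lib.MP_16285c_agS (toF)

namespace PSyZM

/-- the chain rule for polynomials -/
theorem chain {K E : Type} [Field K] [Field E] [Algebra K E] {n : ℕ} (D : Derivation K E E) (ρ : E →ₐ[K] E)
    (x : Fin n → E) (Q : MvPolynomial (Fin n) K) :
    D (ρ (MvPolynomial.aeval x Q)) =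
      ∑ i, ρ (MvPolynomial.aeval x (MvPolynomial.pderiv i Q)) * D (ρ (x i)) := by
  induction Q using MvPolynomial.induction_on with
  | C c =>
    rw [MvPolynomial.aeval_C, AlgHom.commutes, Derivation.map_algebraMap]
    symm
    refine Finset.sum_eq_zero fun i _ => ?_
    rw [MvPolynomial.pderiv_C, map_zero, map_zero, zero_mul]
  | add p q hp hq =>
    rw [map_add, map_add, map_add, hp, hq, ← Finset.sum_add_distrib]
    refine Finset.sum_congr rfl fun i _ => ?_
    rw [map_add, map_add, map_add, add_mul]
  | mul_X p i₀ hp =>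
    rw [map_mul, MvPolynomial.aeval_X, map_mul, Derivation.leibniz, hp]
    have h1 : ∀ i : Fin n, ρ (MvPolynomial.aeval x (MvPolynomial.pderiv i (p * MvPolynomial.X i₀))) * D (ρ (x i)) =
        ρ (MvPolynomial.aeval x p) * (if i = i₀ then D (ρ (x i)) else 0) +
          ρ (x i₀) * (ρ (MvPolynomial.aeval x (MvPolynomial.pderiv i p)) * D (ρ (x i))) := by
      intro i
      rw [Derivation.leibniz, MvPolynomial.pderiv_X, map_add, map_add, smul_eq_mul, smul_eq_mul, map_mul, map_mul,
        map_mul, map_mul, MvPolynomial.aeval_X]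
      by_cases h : i = i₀
      · rw [if_pos h, h, Pi.single_eq_same, map_one, map_one]
        ring
      · rw [if_neg h, Pi.single_eq_of_ne (fun h' => h h'.symm), map_zero, map_zero]
        ring
    rw [Finset.sum_congr rfl fun i _ => h1 i, Finset.sum_add_distrib, ← Finset.mul_sum, ← Finset.mul_sum,
      Finset.sum_ite_eq' Finset.univ i₀, if_pos (Finset.mem_univ _), smul_eq_mul, smul_eq_mul]

end PSyZM

theorem tSyZ : StmtRsE → StmtRgZ → StmtSyZ := by
  intro hRs hRg K _ n P 𝔭 _ _ hP hP0 E _ _ _ _ _ L _ _ _ _ _ δ hδ O res hO hres ρ ρb hρ d hd0 hd α G hG g hg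
  have hle : Ideal.span {P} ≤ 𝔭 := (Ideal.span_singleton_le_iff_mem 𝔭).2 hP
  obtain ⟨huniq, hpoly, hconst, hadd, hmul, _⟩ := hRs K (n + 1) (Ideal.span {P}) 𝔭 hle E L
  set x : Fin n → E := fun l => toF (Ideal.span {P}) E (MvPolynomial.X l.succ) with hx
  set xb : Fin n → L := fun l => toF 𝔭 L (MvPolynomial.X l.succ) with hxb
  have hxx : ∀ i, RsE (Ideal.span {P}) 𝔭 E L (x i) (xb i) := fun i => hpoly _
  -- residues of polynomials
  have hA : ∀ Q : Pl n K, RsE (Ideal.span {P}) 𝔭 E L (MvPolynomial.aeval x Q) (MvPolynomial.aeval xb Q) := by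
    intro Q
    induction Q using MvPolynomial.induction_on with
    | C c =>
      rw [MvPolynomial.aeval_C, MvPolynomial.aeval_C]
      exact hconst c
    | add p q hp hq =>
      rw [map_add, map_add]
      exact hadd _ _ _ _ hp hq
    | mul_X p i hp =>
      rw [map_mul, map_mul, MvPolynomial.aeval_X, MvPolynomial.aeval_X]
      exact hmul _ _ _ _ hp (hxx i)
  have hsum : ∀ (s : Finset (Fin n)) (a : Fin n → E) (b : Fin n → L),
      (∀ i, RsE (Ideal.span {P}) 𝔭 E L (a i) (b i)) →
      RsE (Ideal.span {P}) 𝔭 E L (∑ i ∈ s, a i) (∑ i ∈ s, b i) := by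
    intro s a b hab
    induction s using Finset.induction_on with
    | empty =>
      rw [Finset.sum_empty, Finset.sum_empty]
      have h0 := hconst 0
      rwa [map_zero, map_zero] at h0
    | insert i s hi ih =>
      rw [Finset.sum_insert hi, Finset.sum_insert hi]
      exact hadd _ _ _ _ (hab i) ih
  refine ⟨?_, ?_⟩
  · intro l hl
    have h1 : RsE (Ideal.span {P}) 𝔭 E L (g l : E) (ρb (MvPolynomial.aeval xb (G l))) := by
      rw [hg l]
      exact hρ _ _ (hA (G l))
    have h2 := huniq _ _ _ (hres (g l)) h1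
    rw [h2, (hG l hl).1, map_zero]
  · intro D hD v hvα hv
    -- the Jacobian matrix over `O`
    have hρx : ∀ i, RsE (Ideal.span {P}) 𝔭 E L (ρ (x i)) (ρb (xb i)) := fun i => hρ _ _ (hxx i)
    have hmem : ∀ j i, JmZ P E δ ρ j i ∈ O := fun j i =>
      (hO _).2 (hRg K n P 𝔭 hP0 E L δ hδ j (ρ (x i)) _ (hρx i))
    set Jo : Matrix (Fin n) (Fin n) O := Matrix.of fun j i => ⟨JmZ P E δ ρ j i, hmem j i⟩ with hJo
    set r : Matrix (Fin n) (Fin n) L := Jo.map res with hr
    have hdet : r.det = d := by
      have e1 : r.det = res Jo.det := by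
        rw [hr, ← AlgHom.mapMatrix_apply, ← AlgHom.map_det]
      have e2 : ((Jo.det : O) : E) = (JmZ P E δ ρ).det := by
        have e3 : (Jo.map O.val) = JmZ P E δ ρ := by
          ext j i
          rfl
        have e4 : O.val Jo.det = (Jo.map O.val).det := by
          rw [← AlgHom.mapMatrix_apply, ← AlgHom.map_det]
        rw [← e3, ← e4]
        rfl
      have e5 := hres Jo.det
      rw [e2] at e5
      rw [e1]
      exact huniq _ _ _ e5 hd
    have hrJ : ∀ j i, RsE (Ideal.span {P}) 𝔭 E L (JmZ P E δ ρ j i) (r j i) := fun j i => hres (Jo j i)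
    have hDl : ∀ j l, res (D j l) = ∑ i, ρb (MvPolynomial.aeval xb (MvPolynomial.pderiv i (G l))) * r j i := by
      intro j l
      have e1 : (D j l : E) = ∑ i, ρ (MvPolynomial.aeval x (MvPolynomial.pderiv i (G l))) * JmZ P E δ ρ j i := by
        rw [hD j l, hg l]
        exact PSyZM.chain (δ j) ρ x (G l)
      have e2 : RsE (Ideal.span {P}) 𝔭 E L (D j l : E)
          (∑ i, ρb (MvPolynomial.aeval xb (MvPolynomial.pderiv i (G l))) * r j i) := by
        rw [e1]
        exact hsum _ _ _ fun i => hmul _ _ _ _ (hρ _ _ (hA _)) (hrJ j i)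
      exact huniq _ _ _ (hres (D j l)) e2
    set w : Fin n → L := fun i => ∑ l, v l * ρb (MvPolynomial.aeval xb (MvPolynomial.pderiv i (G l))) with hw
    have hw0 : w = 0 := by
      refine Matrix.eq_zero_of_mulVec_eq_zero (M := r) (by rw [hdet]; exact hd0) ?_
      ext j
      have e1 := hv j
      rw [Matrix.mulVec, dotProduct, Pi.zero_apply]
      calc ∑ i, r j i * w i = ∑ i, ∑ l, v l * (ρb (MvPolynomial.aeval xb (MvPolynomial.pderiv i (G l))) * r j i) := by
            refine Finset.sum_congr rfl fun i _ => ?_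
            rw [hw, Finset.mul_sum]
            refine Finset.sum_congr rfl fun l _ => ?_
            ring
        _ = ∑ l, v l * res (D j l) := by
            rw [Finset.sum_comm]
            refine Finset.sum_congr rfl fun l _ => ?_
            rw [hDl j l, Finset.mul_sum]
        _ = 0 := e1
    ext i
    rw [Pi.zero_apply]
    by_cases hi : i ∈ α
    · exact hvα i hi
    · have e1 : w i = v i * ρb (MvPolynomial.aeval xb (MvPolynomial.pderiv i (G i))) := by
        rw [hw]
        refine Finset.sum_eq_single i ?_ ?_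
        · intro l _ hli
          by_cases hl : l ∈ α
          · rw [hvα l hl, zero_mul]
          · have e2 : i ∉ (G l).vars := by
              intro h
              have h' := (hG l hl).2.2 h
              rw [Finset.mem_insert] at h'
              rcases h' with h' | h'
              · exact hli h'.symm
              · exact hi h'
            rw [MvPolynomial.pderiv_eq_zero_of_notMem_vars e2, map_zero, map_zero, mul_zero]
        · intro h
          exact absurd (Finset.mem_univ i) h
      rw [hw0, Pi.zero_apply] at e1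
      rcases mul_eq_zero.1 e1.symm with h | h
      · exact h
      · exact absurd ((map_eq_zero ρb).1 h) (hG i hi).2.1

end Pool.Agent.Lib.MP_16285c_agX
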