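import Pool.Agent.Lib.MP_16285c_agP.SpecZ

/-!
# ZDP, section G: the upper bound on `Z` and the final numerical argument (`StmtUbZ`, `StmtNmZ`)
-/

set_option autoImplicit false

namespace Pool.Agent.Lib.MP_16285c_agX

open Pool.Agent.Lib.MP_16285c_ag Pool.Agent.Lib.MP_16285c_agN
open Pool.Agent.Lib.MP_16285c_agS (toF)

theorem tUbZ : StmtHeZ → StmtRtX → StmtUbZ := by
  intro hHe hRt K _ _ n a P 𝔭 _ hM hP hrk L _ _ _ _ _ w D hD
  choose Q hQ hQ' using fun i : Fin n => hHe K n a P 𝔭 hM hP hrk L (w i) D (hD i)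
  refine ⟨∏ i, Q i, ?_, ?_⟩
  · intro hmem
    obtain ⟨i, -, hi⟩ := (Ideal.IsPrime.prod_mem_iff (s := Finset.univ) (x := Q)).1 hmem
    exact hQ i hi
  intro Ω _ _ h
  choose C hC using fun i : Fin n => hQ' i Ω h
  refine ⟨∑ i, C i, ?_⟩
  intro pt pt' hpt hQpt hval
  have hQi : ∀ i, MvPolynomial.aeval pt (Q i) ≠ 0 := by
    intro i h0
    apply hQpt
    rw [map_prod]
    exact Finset.prod_eq_zero (Finset.mem_univ i) h0
  have h1 : hx h pt' ≤ ∑ i : Fin n, h.H ![1, pt' i.succ] := hRt.2.2 Ω h n (fun i => pt' i.succ)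
  refine h1.trans ?_
  have h2 : ∑ i : Fin n, h.H ![1, pt' i.succ] ≤ ∑ i : Fin n, ((D : ℝ) * hx h pt + C i) :=
    Finset.sum_le_sum fun i _ => hC i pt (pt' i.succ) hpt (hQi i) (hval i)
  refine h2.trans (le_of_eq ?_)
  rw [Finset.sum_add_distrib, Finset.sum_const, Finset.card_univ, Fintype.card_fin, nsmul_eq_mul]
  ring

namespace PUbZM

/-- Geometric growth. -/
theorem grow (h : ℕ → ℝ) (m : ℕ) (β : ℝ) (hβ : 0 ≤ β)
    (hg : ∀ j, 1 ≤ j → β * h (m * j) ≤ h (m * (j + 1))) (i j : ℕ) (hi : 1 ≤ i) :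
    β ^ j * h (m * i) ≤ h (m * (i + j)) := by
  induction j with
  | zero => simp
  | succ j ih =>
    calc β ^ (j + 1) * h (m * i) = β * (β ^ j * h (m * i)) := by ring
      _ ≤ β * h (m * (i + j)) := mul_le_mul_of_nonneg_left ih hβ
      _ ≤ h (m * (i + j + 1)) := hg _ (by omega)

end PUbZM

open PUbZM in
theorem tNmZ : StmtNmZ := by
  intro h m M b Λ C₀ hm hM hΛ hΛb h0 hg hk
  obtain ⟨β, hβ⟩ : ∃ β : ℝ, β = b / 2 := ⟨_, rfl⟩
  rw [← hβ] at hΛb hg
  have hΛm : 1 ≤ Λ ^ m := one_le_pow₀ hΛ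
  have hβ1 : 1 < β := lt_of_le_of_lt hΛm hΛb
  have hβ0 : 0 ≤ β := by linarith
  -- the heights are positive and unbounded
  have hlow : ∀ j, 1 ≤ j → β ^ (j - 1) * h m ≤ h (m * j) := by
    intro j hj
    have h1 := grow h m β hβ0 hg 1 (j - 1) le_rfl
    rw [mul_one] at h1
    have h2 : 1 + (j - 1) = j := by omega
    rwa [h2] at h1
  -- the main inequality
  have key : ∀ k, 1 ≤ k → β ^ (M * k) ≤ C₀ * (Λ ^ m) ^ (M * k) := by
    intro k hk1
    by_contra hcon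
    push Not at hcon
    obtain ⟨C, hC⟩ := hk k hk1
    obtain ⟨ε, hε⟩ : ∃ ε : ℝ, ε = β ^ (M * k) - C₀ * (Λ ^ m) ^ (M * k) := ⟨_, rfl⟩
    have hε0 : 0 < ε := by rw [hε]; linarith
    obtain ⟨J, hJ⟩ := pow_unbounded_of_one_lt (C / (ε * h m)) hβ1
    obtain ⟨j, hj, hj'⟩ := hC (J + 1)
    have e1 : M * (m * j + m * k) = m * (M * j + M * k) := by ring
    have e2 : M * (m * j) = m * (M * j) := by ring
    have e3 : Λ ^ (M * (m * k)) = (Λ ^ m) ^ (M * k) := by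
      rw [← pow_mul]
      congr 1
      ring
    rw [e1, e2, e3] at hj'
    have hMj : J + 1 ≤ M * j := hj.trans (Nat.le_mul_of_pos_left j (by omega))
    have h1 := grow h m β hβ0 hg (M * j) (M * k) (by omega)
    have h2 : ε * h (m * (M * j)) ≤ C := by
      rw [hε]
      linarith
    have h3 := hlow (M * j) (by omega)
    have h4 : β ^ J ≤ β ^ (M * j - 1) := pow_le_pow_right₀ hβ1.le (by omega)
    have h5 : β ^ J * h m ≤ h (m * (M * j)) :=
      (mul_le_mul_of_nonneg_right h4 h0.le).trans h3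
    have h6 : C < β ^ J * (ε * h m) := (div_lt_iff₀ (mul_pos hε0 h0)).1 hJ
    have h7 : ε * (β ^ J * h m) ≤ ε * h (m * (M * j)) := mul_le_mul_of_nonneg_left h5 hε0.le
    linarith
  have hΛm0 : 0 < Λ ^ m := by linarith
  have hq : 1 < β / Λ ^ m := (one_lt_div hΛm0).2 hΛb
  obtain ⟨k, hk'⟩ := pow_unbounded_of_one_lt C₀ hq
  have h1 := key (k + 1) (by omega)
  have h2 : (β / Λ ^ m) ^ (M * (k + 1)) ≤ C₀ := by
    rw [div_pow, div_le_iff₀ (pow_pos hΛm0 _)]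
    exact h1
  have h3 : (β / Λ ^ m) ^ k ≤ (β / Λ ^ m) ^ (M * (k + 1)) := by
    apply pow_le_pow_right₀ hq.le
    calc k ≤ k + 1 := Nat.le_succ k
      _ ≤ M * (k + 1) := Nat.le_mul_of_pos_left _ (by omega)
  linarith

end Pool.Agent.Lib.MP_16285c_agX
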