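import Pool.Agent.Lib.MP_16285c_agX.Gro.All
import Pool.Agent.Lib.MP_16285c_agN.T3.XUpW
import Pool.Agent.Lib.MP_16285c_agX.T3.VlA
import Pool.Agent.Lib.MP_16285c_agX.T3.FlV
import Pool.Agent.Lib.MP_16285c_agX.T3.HSeq
import Pool.Agent.Lib.MP_16285c_agX.T3.HMon
import Pool.Agent.Lib.MP_16285c_agX.T3.HUpB
import Pool.Agent.Lib.MP_16285c_agX.T3.RtX
import Pool.Agent.Lib.MP_16285c_agX.T3.CuG
import Pool.Agent.Lib.MP_16285c_agX.T3.GenS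
import Pool.Agent.Lib.MP_16285c_agP.BkZ
import Pool.Agent.Lib.MP_16285c_agP.CfAn
import Pool.Agent.Lib.MP_16285c_agP.ChZ
import Pool.Agent.Lib.MP_16285c_agP.CtZ
import Pool.Agent.Lib.MP_16285c_agP.DgZ
import Pool.Agent.Lib.MP_16285c_agP.DvE
import Pool.Agent.Lib.MP_16285c_agP.EmZ
import Pool.Agent.Lib.MP_16285c_agP.EndP
import Pool.Agent.Lib.MP_16285c_agP.FtZ
import Pool.Agent.Lib.MP_16285c_agP.GaM
import Pool.Agent.Lib.MP_16285c_agP.GdZ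
import Pool.Agent.Lib.MP_16285c_agP.HeZ
import Pool.Agent.Lib.MP_16285c_agP.HypP
import Pool.Agent.Lib.MP_16285c_agP.IdZ
import Pool.Agent.Lib.MP_16285c_agP.JbZ
import Pool.Agent.Lib.MP_16285c_agP.JtZ
import Pool.Agent.Lib.MP_16285c_agP.JvZ
import Pool.Agent.Lib.MP_16285c_agP.QrZ
import Pool.Agent.Lib.MP_16285c_agP.RlZ
import Pool.Agent.Lib.MP_16285c_agP.SyZ
import Pool.Agent.Lib.MP_16285c_agP.UbZ
import Pool.Agent.Lib.MP_16285c_agP.UzZ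
import Pool.Agent.Lib.MP_16285c_agP.VrZ

/-!
# ZDP, section G: closed forms
-/

set_option autoImplicit false

namespace Pool.Agent.Lib.MP_16285c_agX

open Pool.Agent.Lib.MP_16285c_ag Pool.Agent.Lib.MP_16285c_agN

theorem cJbZ : StmtJbZ := tJbZ tDvE tG1 yGenS

theorem cSyZ : StmtSyZ := tSyZ tRsE tRgZ

theorem cDgZ : StmtDgZ :=
  tDgZ tRsE (tLocO tRsE tA2) tTB (tRlZ tRelX) cSyZ tRgZ (tEmZ tRsE) tThetaX (tIdZ tQrZ) (tCtZ tVd)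
    (tUzZ tNN (tXUpW tVd)) tBkZ (tFtZ tG1 tTB) (tNum tCnt) tCuG

theorem cCfZ : StmtCfZ := fun K E _ _ _ _ n x hx hfin w F D h1 h2 h3 h4 h5 =>
  (pCfAn pHypP pGaM K E n x hx hfin w F D h1 h2 h3 h4 h5).2

theorem cHeZ : StmtHeZ := tHeZ cCfZ tTB yVlA (yHUpB yHSeq yHMon) tCuG

theorem cUbZ : StmtUbZ := tUbZ cHeZ tRtX

theorem cJvZ : StmtJvZ := tJvZ yVlA (yFlV yVlA) (tJtZ tChZ)

theorem cEndP : StmtEndP :=
  tEndP tDvE cJvZ tVrZ tRsR tG1 cDgZ cUbZ (tGdZ yVlA (yFlV yVlA)) tNmZ (yFlV yVlA)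

end Pool.Agent.Lib.MP_16285c_agX
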