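import Pool.Agent.Lib.MP_16285c_agP.SpecA
import Pool.Agent.Lib.MP_16285c_agX.T3.DgM
import Pool.Agent.Lib.MP_16285c_agX.T3.DgT

/-!
# Varieties with `λ_r < λ₁` for `r ≥ 3`: inequalities between the degrees

Proof of `StmtDgMn` (as `T3/DgM.lean`, in all dimensions).
-/

set_option autoImplicit false

namespace Pool.Agent.Lib.MP_16285c_agX

open Pool.Agent.Lib.MP_16285c_ag Pool.Agent.Lib.MP_16285c_agN

namespace PDgMnM

open scoped IntermediateField.algebraAdjoinAdjoin

variable {K E : Type} [Field K] [Field E] [Algebra K E]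

/-- The degree over the field generated by `n` linear forms in `x`. -/
theorem le_delta {n c r : ℕ} {ξ : Fin (n + 1) → E} (h : Stp K ξ) (hcr : c + r = n)
    (A : Fin c → Fin n → K) (A' : Fin r → Fin n → K) :
    Module.finrank (IntermediateField.adjoin K
      (Set.range (lc A fun i : Fin n => ξ i.succ) ∪
        Set.range (lc A' fun i : Fin n => ξ i.succ))) E ≤
      Module.finrank (IntermediateField.adjoin K (Set.range fun i : Fin n => ξ i.succ)) E := by
  set x : Fin n → E := fun i => ξ i.succ with hx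
  set L := IntermediateField.adjoin K (Set.range (lc A x) ∪ Set.range (lc A' x)) with hL
  by_cases h0 : Module.finrank L E = 0
  · rw [h0]
    exact Nat.zero_le _
  have hfin : Module.Finite L E := Module.finite_of_finrank_pos (Nat.pos_of_ne_zero h0)
  have hai := (T3DgMM.ind_fin h hcr (lc A x) (lc A' x) hfin).1
  have hli := hai.linearIndependent
  have hmem : ∀ {c : ℕ} (B : Fin c → Fin n → K) (i : Fin c),
      lc B x i ∈ Submodule.span K (Set.range x) := by
    intro c B i
    unfold lc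
    refine Submodule.sum_mem _ fun j _ => ?_
    rw [← Algebra.smul_def]
    exact Submodule.smul_mem _ _ (Submodule.subset_span ⟨j, rfl⟩)
  have hle : Submodule.span K (Set.range (Sum.elim (lc A' x) (lc A x))) ≤
      Submodule.span K (Set.range x) := by
    rw [Submodule.span_le]
    rintro _ ⟨i, rfl⟩
    rcases i with i | i
    · exact hmem A' i
    · exact hmem A i
  have heq : Submodule.span K (Set.range (Sum.elim (lc A' x) (lc A x))) =
      Submodule.span K (Set.range x) := by
    have : Module.Finite K (Submodule.span K (Set.range x)) :=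
      Module.Finite.span_of_finite K (Set.finite_range x)
    refine Submodule.eq_of_le_of_finrank_le hle ?_
    rw [finrank_span_eq_card hli]
    have h7 := finrank_range_le_card (R := K) x
    rw [Set.finrank, Fintype.card_fin] at h7
    rw [Fintype.card_sum, Fintype.card_fin, Fintype.card_fin]
    omega
  have hxL : ∀ j, x j ∈ L := by
    intro j
    have h1 : x j ∈ Submodule.span K (Set.range (Sum.elim (lc A' x) (lc A x))) := by
      rw [heq]
      exact Submodule.subset_span ⟨j, rfl⟩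
    have h2 : Submodule.span K (Set.range (Sum.elim (lc A' x) (lc A x))) ≤
        Subalgebra.toSubmodule L.toSubalgebra := by
      rw [Submodule.span_le]
      rintro _ ⟨i, rfl⟩
      rcases i with i | i
      · exact IntermediateField.subset_adjoin K _ (Or.inr ⟨i, rfl⟩)
      · exact IntermediateField.subset_adjoin K _ (Or.inl ⟨i, rfl⟩)
    exact h2 h1
  have hLx : L = IntermediateField.adjoin K (Set.range x) := by
    refine le_antisymm ?_ ?_
    · rw [hL, IntermediateField.adjoin_le_iff]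
      have h3 : ∀ {c : ℕ} (B : Fin c → Fin n → K) (i : Fin c),
          lc B x i ∈ IntermediateField.adjoin K (Set.range x) := by
        intro c B i
        unfold lc
        refine sum_mem fun j _ => mul_mem ?_ (IntermediateField.subset_adjoin K _ ⟨j, rfl⟩)
        exact IntermediateField.algebraMap_mem _ _
      rintro z (⟨i, rfl⟩ | ⟨i, rfl⟩)
      · exact h3 A i
      · exact h3 A' i
    · rw [IntermediateField.adjoin_le_iff]
      rintro z ⟨i, rfl⟩
      exact hxL i
  rw [hLx]

/-- Linear forms in `ρ ^ m x` are functions of degree `≤ d_1 m`. -/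
theorem dge_x {n : ℕ} [CharZero K] (hDg : StmtDg1n) (hCf : StmtCfDn) {ξ : Fin (n + 2) → E}
    (hS : Stp K ξ) (ρ : E →ₐ[K] E) (m : ℕ) (b : Fin (n + 1) → K) :
    Dge K (fun i : Fin (n + 1) => ξ i.succ)
      (lc (fun _ : Fin 1 => b) (fun i : Fin (n + 1) => (ρ ^ m) (ξ i.succ)) 0)
      (dgx K n 1 (fun i : Fin (n + 1) => ξ i.succ)
        (fun i : Fin (n + 1) => (ρ ^ m) (ξ i.succ))) := by
  refine hCf K E n _ hS.ai (T3DgMM.fin_ind hS _ hS.ai) _ _ fun A => ?_
  have h1 := (hDg K E (n + 1) n 1 ξ hS rfl).1 (fun i : Fin (n + 1) => (ρ ^ m) (ξ i.succ)) A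
    (fun _ => b)
  rw [T3DgMM.range_one, Set.union_singleton] at h1
  exact h1

/-- Linear forms in `ρ ^ (a + m) x` are functions of degree `≤ d_1 m` of `ρ ^ a x`. -/
theorem dge_y {n : ℕ} [CharZero K] (hDg : StmtDg1n) (hCf : StmtCfDn) {ξ : Fin (n + 2) → E}
    (hS : Stp K ξ) (ρ : E →ₐ[K] E) (a m : ℕ) (b : Fin (n + 1) → K) (κ : IntermediateField K E) :
    Dge κ (fun i : Fin (n + 1) => (ρ ^ a) (ξ i.succ))
      (lc (fun _ : Fin 1 => b) (fun i : Fin (n + 1) => (ρ ^ (a + m)) (ξ i.succ)) 0)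
      (dgx K n 1 (fun i : Fin (n + 1) => ξ i.succ)
        (fun i : Fin (n + 1) => (ρ ^ m) (ξ i.succ))) := by
  refine yDgT.1 K E (n + 1) _ _ _ ?_ κ
  have h1 := yDgT.2.1 K E (n + 1) _ _ _ (dge_x hDg hCf hS ρ m b) (ρ ^ a)
  rw [← T3DgMM.lc_map] at h1
  have h2 : (fun j : Fin (n + 1) => (ρ ^ a) ((ρ ^ m) (ξ j.succ))) =
      fun j : Fin (n + 1) => (ρ ^ (a + m)) (ξ j.succ) := by
    funext j
    rw [pow_add]
    rfl
  rw [h2] at h1
  exact h1

/-- The elements `ρ ^ m x` generate a field over which `E` is finite. -/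
theorem fin_y {n : ℕ} {ξ : Fin (n + 1) → E} (hS : Stp K ξ) (ρ : E →ₐ[K] E) (m : ℕ)
    (κ : IntermediateField K E) :
    Module.Finite (IntermediateField.adjoin κ
      (Set.range fun i : Fin n => (ρ ^ m) (ξ i.succ))) E := by
  refine T3DgMM.fin_two κ _ (T3DgMM.fin_ind hS _ ?_)
  exact hS.ai.map' (f := ρ ^ m) (ρ ^ m).toRingHom.injective

/-- Bezout's inequality for the degrees. -/
theorem bez {n c r : ℕ} [CharZero K] (hBZ : StmtBZG) {ξ : Fin (n + 1) → E} (hS : Stp K ξ)
    (hcr : c + r = n) (A : Fin c → Fin n → K) (y : Fin n → E) (w : Fin r → E) (d e : ℕ)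
    (hy : Module.Finite (IntermediateField.adjoin
      (IntermediateField.adjoin K (Set.range (lc A fun i : Fin n => ξ i.succ)))
      (Set.range y)) E)
    (he : ∀ A' : Fin r → Fin n → K, Module.finrank (IntermediateField.adjoin K
      (Set.range (lc A fun i : Fin n => ξ i.succ) ∪ Set.range (lc A' y))) E ≤ e)
    (hd : 1 ≤ d)
    (hw : ∀ i, Dge (IntermediateField.adjoin K
      (Set.range (lc A fun i : Fin n => ξ i.succ))) y (w i) d) :
    Module.finrank (IntermediateField.adjoin K
      (Set.range (lc A fun i : Fin n => ξ i.succ) ∪ Set.range w)) E ≤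
      (r + 1) ^ r * d ^ r * e := by
  by_cases h0 : Module.finrank (IntermediateField.adjoin K
      (Set.range (lc A fun i : Fin n => ξ i.succ) ∪ Set.range w)) E = 0
  · rw [h0]
    exact Nat.zero_le _
  have hfin := Module.finite_of_finrank_pos (Nat.pos_of_ne_zero h0)
  have hai := (T3DgMM.ind_fin hS hcr _ _ hfin).2
  have h1 := hBZ K E (IntermediateField.adjoin K (Set.range (lc A fun i : Fin n => ξ i.succ)))
    n r y w (fun _ => d) e hy
    (by
      intro A'
      rw [T3DgMM.finrank_two]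
      exact he A')
    (fun _ => hd) hw hai
  rw [T3DgMM.finrank_two, Finset.prod_const, Finset.card_univ, Fintype.card_fin] at h1
  exact h1

end PDgMnM

open PDgMnM

/-- (DgMn) -/
theorem pDgMn : StmtDg1n → StmtCfDn → StmtBZG → StmtDgMn := by
  intro hDg hCf hBZ
  refine ⟨?_, ?_⟩
  · intro K E _ _ _ _ n ξ hS ρ a b
    refine csSup_le (Set.range_nonempty _) ?_
    rintro _ ⟨⟨A, B⟩, rfl⟩
    have h1 := bez hBZ hS rfl A (fun i : Fin (n + 1) => (ρ ^ a) (ξ i.succ))
      (lc B (fun i : Fin (n + 1) => (ρ ^ (a + b)) (ξ i.succ)))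
      (dgx K n 1 (fun i : Fin (n + 1) => ξ i.succ) (fun i : Fin (n + 1) => (ρ ^ b) (ξ i.succ)))
      (dgx K n 1 (fun i : Fin (n + 1) => ξ i.succ) (fun i : Fin (n + 1) => (ρ ^ a) (ξ i.succ)))
      (fin_y hS ρ a _)
      (fun A' => (hDg K E (n + 1) n 1 ξ hS rfl).1 _ A A')
      ((hDg K E (n + 1) n 1 ξ hS rfl).2.2 ρ b)
      (fun i => dge_y hDg hCf hS ρ a b (B i) _)
    refine h1.trans (le_of_eq ?_)
    ring
  · intro K E _ _ _ _ n ξ hS ρ m
    have hfx : Module.Finite
        (IntermediateField.adjoin K (Set.range fun i : Fin (n + 2) => ξ i.succ)) E :=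
      T3DgMM.fin_ind hS _ hS.ai
    refine ⟨?_, ?_⟩
    · refine csSup_le (Set.range_nonempty _) ?_
      rintro _ ⟨⟨A, B⟩, rfl⟩
      have h1 := bez hBZ hS rfl A (fun i : Fin (n + 2) => ξ i.succ)
        (lc B (fun i : Fin (n + 2) => (ρ ^ m) (ξ i.succ)))
        (dgx K (n + 1) 1 (fun i : Fin (n + 2) => ξ i.succ)
          (fun i : Fin (n + 2) => (ρ ^ m) (ξ i.succ)))
        (Module.finrank
          (IntermediateField.adjoin K (Set.range fun i : Fin (n + 2) => ξ i.succ)) E)
        (T3DgMM.fin_two _ _ hfx)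
        (fun A' => le_delta hS rfl A A')
        ((hDg K E (n + 2) (n + 1) 1 ξ hS rfl).2.2 ρ m)
        (fun i => yDgT.1 K E (n + 2) _ _ _ (dge_x hDg hCf hS ρ m (B i)) _)
      refine h1.trans (le_of_eq ?_)
      ring
    · refine csSup_le (Set.range_nonempty _) ?_
      rintro _ ⟨⟨A, B⟩, rfl⟩
      have h1 := bez hBZ hS rfl A (fun i : Fin (n + 2) => (ρ ^ m) (ξ i.succ))
        (lc B (fun i : Fin (n + 2) => (ρ ^ (m + 1)) (ξ i.succ)))
        (dgx K (n + 1) 1 (fun i : Fin (n + 2) => ξ i.succ)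
          (fun i : Fin (n + 2) => (ρ ^ 1) (ξ i.succ)))
        (dgx K n 2 (fun i : Fin (n + 2) => ξ i.succ)
          (fun i : Fin (n + 2) => (ρ ^ m) (ξ i.succ)))
        (fin_y hS ρ m _)
        (fun A' => (hDg K E (n + 2) n 2 ξ hS rfl).1 _ A A')
        ((hDg K E (n + 2) (n + 1) 1 ξ hS rfl).2.2 ρ 1)
        (fun i => dge_y hDg hCf hS ρ m 1 (B i) _)
      refine h1.trans (le_of_eq ?_)
      ring

end Pool.Agent.Lib.MP_16285c_agX
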