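import Pool.Agent.Lib.MP_16285c_agP.SpecD
import Pool.Agent.Lib.MP_16285c_agX.T3.Fin3
import Pool.Agent.Lib.MP_16285c_agX.T3.CoreA

/-!
# Varieties with `λ_r < λ₁` for `r ≥ 3`: final assembly for the model (ZDP, FinP)
-/

set_option autoImplicit false

namespace Pool.Agent.Lib.MP_16285c_agX

open Pool.Agent.Lib.MP_16285c_ag Pool.Agent.Lib.MP_16285c_agN
open Pool.Agent.Lib.MP_16285c_agS (toF vanK StmtInvD StmtNoPowE StmtPresK StmtRkK StmtIrrK StmtPrimS StmtLowS StmtConjS StmtDescS StmtDom StmtUni)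

namespace PFinPM

open T3Fin3M

/-- Numerators and denominators over the larger field. -/
theorem nd_map (hBet : StmtBet) (hCmpB : StmtCmpB)
    (hGenS : StmtGenS) (K₀ K₁ : Type) [Field K₀] [Field K₁] [Algebra K₀ K₁] (n : ℕ)
    (P₀ : Pl (n + 1) K₀) (P₁ : Pl (n + 1) K₁) [(Ideal.span {P₀}).IsPrime]
    [(Ideal.span {P₁}).IsPrime] (hP : MvPolynomial.map (algebraMap K₀ K₁) P₀ = P₁) (hm : MonZ P₀)
    (f₀ : RM K₀ (n + 1)) (f₁ : RM K₁ (n + 1)) (hf : f₀.map (algebraMap K₀ K₁) = f₁)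
    (hden : ∀ i, ¬ P₁ ∣ f₁.den i)
    (σ₀ : RF (n + 1) K₀ →ₐ[K₀] RF (n + 1) K₀) (σ₁ : RF (n + 1) K₁ →ₐ[K₁] RF (n + 1) K₁)
    (hσ₀ : Of f₀ σ₀) (hσ₁ : Of f₁ σ₁)
    (E₀ : Type) [Field E₀] [Algebra (CR (Ideal.span {P₀})) E₀]
    [IsFractionRing (CR (Ideal.span {P₀})) E₀] [Algebra K₀ E₀]
    [IsScalarTower K₀ (CR (Ideal.span {P₀})) E₀]
    (E₁ : Type) [Field E₁] [Algebra (CR (Ideal.span {P₁})) E₁]
    [IsFractionRing (CR (Ideal.span {P₁})) E₁] [Algebra K₁ E₁]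
    [IsScalarTower K₁ (CR (Ideal.span {P₁})) E₁] [Algebra K₀ E₁] [IsScalarTower K₀ K₁ E₁]
    (ρ₀ : E₀ →ₐ[K₀] E₀) (hρ₀ : Rst σ₀ (Ideal.span {P₀}) E₀ ρ₀)
    (ρ₁ : E₁ →ₐ[K₁] E₁) (hρ₁ : Rst σ₁ (Ideal.span {P₁}) E₁ ρ₁)
    (N D : Fin n → Pl (n + 1) K₀)
    (hND : ∀ l, ρ₀ (toF (Ideal.span {P₀}) E₀ (MvPolynomial.X l.succ)) *
      toF (Ideal.span {P₀}) E₀ (D l) = toF (Ideal.span {P₀}) E₀ (N l)) (l : Fin n) :
    ρ₁ (toF (Ideal.span {P₁}) E₁ (MvPolynomial.X l.succ)) *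
      toF (Ideal.span {P₁}) E₁ (MvPolynomial.map (algebraMap K₀ K₁) (D l)) =
      toF (Ideal.span {P₁}) E₁ (MvPolynomial.map (algebraMap K₀ K₁) (N l)) := by
  set ξ : Fin (n + 1) → E₁ := fun i => toF (Ideal.span {P₁}) E₁ (MvPolynomial.X i) with hξ
  have hG : GenN (MvPolynomial.map (algebraMap K₀ K₁) P₀) ξ := by
    rw [hP]
    exact hGenS.2.1 K₁ n P₁ E₁
  obtain ⟨β, hβ, -⟩ := hBet K₀ K₁ n P₀ hm E₀ E₁ ξ hG
  have hdv : ∀ i, MvPolynomial.aeval ξ (f₁.den i) ≠ 0 := fun i => by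
    rw [hξ, aeval_toF]
    exact toF_ne _ _ fun h0 => hden i (Ideal.mem_span_singleton.1 h0)
  have hcmp := hCmpB K₀ K₁ n P₀ E₀ E₁ ξ β hβ f₀ σ₀ ρ₁ 1 ρ₀ hσ₀ (by rw [hf]; exact hdv)
    (fun i => by
      rw [hf, fvn, div_eq_iff (hdv i), hξ, aeval_toF, aeval_toF]
      exact (rst_val _ hσ₁ E₁ ρ₁ hρ₁ i).symm) (by rw [pow_one]; exact hρ₀)
  have e := congrArg β (hND l)
  rw [map_mul, hcmp, pow_one, hβ, hβ, hβ, MvPolynomial.map_X, hξ, aeval_toF, aeval_toF,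
    aeval_toF] at e
  exact e

end PFinPM

open FinXM T3Fin3M PFinPM in
theorem pFinP (hFast : StmtFastP) (hCore : StmtCoreA) (hSup : StmtHSup) (hHL : StmtXHL)
    (hBox : StmtBoxX) (hDom : StmtDom) (hPresX : StmtPresX) (hRes : StmtResF) (h1 : StmtG1)
    (hNoE : StmtNoEX) (hNoPow : StmtNoPowE) (hNoDesc : StmtNoDescX) (hInvDX : StmtInvDX)
    (hInvD : StmtInvD) (hLift : StmtLiftC2) (hDesc : StmtDesc) (hCan : StmtCanX)
    (hConj : StmtConjS) (hDescS : StmtDescS) (hBet : StmtBet) (hCmpB : StmtCmpB)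
    (hFlF : StmtFlF) (hGenS : StmtGenS) (hFlC : StmtFlC) (hDg : StmtDg1n) (hJb : StmtJbZ)
    (hJx : StmtJxZ) (hEnd : StmtEndP) : StmtModP := by
  classical
  intro k _ _ _ n P f hP hmon hinv hno hgr b hb
  have hPp : Prime P := UniqueFactorizationMonoid.irreducible_iff_prime.1 hP
  obtain ⟨hden, hjac, E₀, N₀, hE₀, hEN⟩ := id hinv
  obtain ⟨Λ, S₁, hΛ1, hS₁⟩ := hgr
  obtain ⟨σ, hOf⟩ := hDom k (n + 4) f (fun i h0 => hden i (by rw [h0]; exact dvd_zero _))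
    (fun h0 => hjac (by rw [h0]; exact dvd_zero _))
  have hpr := hPresX k (n + 3) P f σ hP hOf hinv
  -- the first field of definition
  set S : Finset k := cf P ∪ (cf E₀ ∪ (cf N₀ ∪ ((Finset.univ.biUnion fun i : Fin (n + 4) =>
    cf (f.num i) ∪ cf (f.den i)) ∪ S₁))) with hS
  set K₀ : Subfield k := Subfield.closure (S : Set k) with hK₀
  have hSP : cf P ⊆ S := fun s hs => by
    rw [hS, Finset.mem_union]
    exact Or.inl hs
  have hSE : cf E₀ ⊆ S := fun s hs => by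
    rw [hS, Finset.mem_union, Finset.mem_union]
    exact Or.inr (Or.inl hs)
  have hSN : cf N₀ ⊆ S := fun s hs => by
    rw [hS, Finset.mem_union, Finset.mem_union, Finset.mem_union]
    exact Or.inr (Or.inr (Or.inl hs))
  have hSnum : ∀ i, cf (f.num i) ⊆ S := fun i s hs => by
    rw [hS, Finset.mem_union, Finset.mem_union, Finset.mem_union, Finset.mem_union]
    refine Or.inr (Or.inr (Or.inr (Or.inl ?_)))
    exact Finset.mem_biUnion.2 ⟨i, Finset.mem_univ _, Finset.mem_union_left _ hs⟩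
  have hSden : ∀ i, cf (f.den i) ⊆ S := fun i s hs => by
    rw [hS, Finset.mem_union, Finset.mem_union, Finset.mem_union, Finset.mem_union]
    refine Or.inr (Or.inr (Or.inr (Or.inl ?_)))
    exact Finset.mem_biUnion.2 ⟨i, Finset.mem_univ _, Finset.mem_union_right _ hs⟩
  have hSS₁ : ∀ s ∈ S₁, s ∈ S := fun s hs => by
    rw [hS, Finset.mem_union, Finset.mem_union, Finset.mem_union, Finset.mem_union]
    exact Or.inr (Or.inr (Or.inr (Or.inr hs)))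
  obtain ⟨P₀, hP₀⟩ := desc_cf S P hSP
  obtain ⟨E₁, hE₁⟩ := desc_cf S E₀ hSE
  obtain ⟨N₁, hN₁⟩ := desc_cf S N₀ hSN
  obtain ⟨f₀, hf₀⟩ := desc_rm (K := K₀) f (fun i => desc_cf S _ (hSnum i))
    (fun i => desc_cf S _ (hSden i))
  have hirr₀ : Irreducible P₀ := hInvD.2.1 K₀ k (n + 4) P₀ (by rw [hP₀]; exact hP)
  have hmon₀ : MonZ P₀ := (hInvDX.2 K₀ k (n + 3) P₀).1 (by rw [hP₀]; exact hmon)
  have hinv₀ : InvX f₀ P₀ := by
    apply hInvDX.1 K₀ k (n + 3) P₀ E₁ N₁ f₀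
    · intro i
      rw [hP₀, hf₀]
      exact hden i
    · rw [hP₀, hf₀]
      exact hjac
    · rw [hP₀, hE₁]
      exact hE₀
    · rw [hP₀, hN₁, hE₁, hf₀]
      exact hEN
  have hprime₀ : (Ideal.span {P₀}).IsPrime := prime_span hirr₀
  obtain ⟨σ₀, hσ₀⟩ := hDom K₀ (n + 4) f₀ (fun i h0 => hinv₀.1 i (by rw [h0]; exact dvd_zero _))
    (fun h0 => hinv₀.2.1 (by rw [h0]; exact dvd_zero _))
  have hpr₀ := hPresX K₀ (n + 3) P₀ f₀ σ₀ hirr₀ hσ₀ hinv₀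
  obtain ⟨ρ₀, hρ₀⟩ := hRes (n + 4) K₀ σ₀ (Ideal.span {P₀}) hprime₀ hpr₀
    (FractionRing (CR (Ideal.span {P₀})))
  obtain ⟨hgr1, hgr2⟩ := hS₁ K₀ P₀ f₀ (fun s hs => ⟨⟨s, Subfield.subset_closure (hSS₁ s hs)⟩, rfl⟩)
    hP₀ hf₀ hirr₀ hmon₀ hinv₀ σ₀ hσ₀ (FractionRing (CR (Ideal.span {P₀}))) ρ₀ hρ₀
  have hgen₀ : GenN P₀ (fun i => toF (Ideal.span {P₀}) (FractionRing (CR (Ideal.span {P₀})))
      (MvPolynomial.X i)) := hGenS.2.1 K₀ (n + 3) P₀ _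
  have hstp₀ := hGenS.1 K₀ (FractionRing (CR (Ideal.span {P₀}))) (n + 3) P₀ _ hirr₀ hmon₀ hgen₀
  have hC₃ : ∃ C₃ : ℝ, ∀ m : ℕ, (dgx K₀ n 3
      (fun i : Fin (n + 3) => toF (Ideal.span {P₀}) (FractionRing (CR (Ideal.span {P₀})))
        (MvPolynomial.X i.succ))
      (fun i : Fin (n + 3) => (ρ₀ ^ m) (toF (Ideal.span {P₀})
        (FractionRing (CR (Ideal.span {P₀}))) (MvPolynomial.X i.succ))) : ℝ) ≤ C₃ * Λ ^ m := by
    obtain ⟨C, hC⟩ := hgr2 3 le_rfl (by omega)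
    refine ⟨C, fun m => ?_⟩
    obtain ⟨A, B, hAB⟩ := (hDg K₀ (FractionRing (CR (Ideal.span {P₀}))) (n + 3) n 3 _ hstp₀
      rfl).2.1 (fun i : Fin (n + 3) => (ρ₀ ^ m) (toF (Ideal.span {P₀})
        (FractionRing (CR (Ideal.span {P₀}))) (MvPolynomial.X i.succ)))
    rw [← hAB]
    exact hC m A B
  obtain ⟨m, β, B, B', hm1, hβ2, hTβ, hB, hB', hfast⟩ := hFast K₀
    (FractionRing (CR (Ideal.span {P₀}))) n P₀ _ ρ₀ hirr₀ hmon₀ hgen₀ Λ hΛ1 hC₃ hgr1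
  obtain ⟨Nn, Dd, hND, hDd, hJc⟩ := hJb K₀ (n + 3) P₀ hmon₀ (FractionRing (CR (Ideal.span {P₀}))) ρ₀
  -- boxes
  have hP₀p : Prime P₀ := UniqueFactorizationMonoid.irreducible_iff_prime.1 hirr₀
  have hBk : ¬ P ∣ MvPolynomial.map (algebraMap K₀ k) ((∏ l, Dd l) * JcZ P₀ Nn Dd * B) := by
    rw [← hP₀]
    intro h0
    rcases hP₀p.dvd_or_dvd (dvd_desc hmon₀ h0) with h0 | h0
    · rcases hP₀p.dvd_or_dvd h0 with h0 | h0
      · obtain ⟨l, -, hl⟩ := hP₀p.exists_mem_finset_dvd h0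
        exact hDd l hl
      · exact hJc h0
    · exact hB h0
  have hBk' : ¬ P ∣ MvPolynomial.map (algebraMap K₀ k) (up K₀ (n + 3) B') := by
    rw [← hP₀]
    exact fun h0 => ModXM.not_dvd_up hirr₀ hmon₀ hB' (dvd_desc hmon₀ h0)
  have hder : ¬ P ∣ MvPolynomial.pderiv 0 P := T3CoreAM.not_dvd_der hP hmon
  have hBB : ¬ P ∣ b * MvPolynomial.pderiv 0 P * jac f *
      MvPolynomial.map (algebraMap K₀ k) ((∏ l, Dd l) * JcZ P₀ Nn Dd * B) *
      MvPolynomial.map (algebraMap K₀ k) (up K₀ (n + 3) B') := by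
    intro h
    rcases hPp.dvd_or_dvd h with h | h
    · rcases hPp.dvd_or_dvd h with h | h
      · rcases hPp.dvd_or_dvd h with h | h
        · exact (hPp.dvd_or_dvd h).elim hb hder
        · exact hjac h
      · exact hBk h
    · exact hBk' h
  obtain ⟨V, p, a, N, hp, hp2, hch, hN, hr, hroot, hbox⟩ := hBox k (n + 3) P f hP hmon hinv _ hBB 2
  obtain ⟨V', p', a', N', hp', hpp', hch', hN', hr', hroot', hbox'⟩ :=
    hBox k (n + 3) P f hP hmon hinv _ hBB p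
  have hne : p ≠ p' := by omega
  have hM : 1 ≤ N * N' := Nat.mul_pos (by omega) (by omega)
  obtain ⟨c, hcV, hcV'⟩ := hLift k (n + 3) V V' p p' hp hp' hne hch hch' (fun i => a i.succ)
    (fun i => a' i.succ) (hr.imp fun r h => ⟨h.1, fun i => h.2 i.succ⟩)
    (hr'.imp fun r h => ⟨h.1, fun i => h.2 i.succ⟩)
  -- heights
  obtain ⟨E', Ω, h, τ, ⟨S', hS'⟩, hE'Ω, hSΩ, hΩ1, hΩ2, hinvh, hτ0, hτE, hτV, hτV', hsup⟩ :=
    hSup k V V' p p' hp hp' hp2 (by omega) hch hch' (S ∪ Finset.univ.image c)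
  have hΩ3 : ∀ x : k, IsAlgebraic Ω x → x ∈ Ω := mem_of_alg E' Ω hE'Ω hΩ1 hΩ2
  have : IsAlgClosed Ω := algClosed Ω hΩ3
  -- the second field of definition
  set S₂ : Finset k := S' ∪ (S ∪ Finset.univ.image c) with hS₂
  set K₁ : Subfield k := Subfield.closure (S₂ : Set k) with hK₁
  have hSS₂ : S ⊆ S₂ := fun s hs => by
    rw [hS₂, Finset.mem_union, Finset.mem_union]
    exact Or.inr (Or.inl hs)
  have hcS₂ : ∀ i, c i ∈ S₂ := fun i => by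
    rw [hS₂, Finset.mem_union, Finset.mem_union]
    exact Or.inr (Or.inr (Finset.mem_image_of_mem _ (Finset.mem_univ _)))
  have hE'K : E' ≤ K₁ := by
    rw [← hS', hK₁]
    exact Subfield.closure_mono (Finset.coe_subset.2 fun s hs => by
      rw [hS₂, Finset.mem_union]
      exact Or.inl hs)
  have hle₀ : K₀ ≤ K₁ := Subfield.closure_mono (Finset.coe_subset.2 hSS₂)
  have hle₁ : K₁ ≤ Ω := Subfield.closure_le.2 fun s hs => by
    rw [Finset.mem_coe, hS₂, Finset.mem_union] at hs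
    rcases hs with hs | hs
    · apply hE'Ω
      rw [← hS']
      exact Subfield.subset_closure hs
    · exact hSΩ (Finset.mem_coe.2 hs)
  let : Algebra K₀ K₁ := (Subfield.inclusion hle₀).toAlgebra
  let : Algebra K₁ Ω := (Subfield.inclusion hle₁).toAlgebra
  let : Algebra K₀ Ω := (Subfield.inclusion (hle₀.trans hle₁)).toAlgebra
  have : IsScalarTower K₀ K₁ Ω := T3XFinM.tow3 K₀ K₁ Ω hle₀ hle₁ (hle₀.trans hle₁)
  have : IsScalarTower K₀ K₁ k := T3XFinM.tow2 K₀ K₁ hle₀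
  have : IsScalarTower K₀ Ω k := T3XFinM.tow2 K₀ Ω (hle₀.trans hle₁)
  have : IsScalarTower K₁ Ω k := T3XFinM.tow2 K₁ Ω hle₁
  set P₁ : Pl (n + 4) K₁ := MvPolynomial.map (algebraMap K₀ K₁) P₀ with hP₁
  set f₁ : RM K₁ (n + 4) := f₀.map (algebraMap K₀ K₁) with hf₁
  have hmm₁ : ∀ G : Pl (n + 4) K₀, MvPolynomial.map (algebraMap K₁ k)
      (MvPolynomial.map (algebraMap K₀ K₁) G) = MvPolynomial.map (algebraMap K₀ k) G := fun G => by
    rw [MvPolynomial.map_map, ← IsScalarTower.algebraMap_eq]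
  have hP₁k : MvPolynomial.map (algebraMap K₁ k) P₁ = P := by rw [hP₁, hmm₁, hP₀]
  have hf₁k : f₁.map (algebraMap K₁ k) = f := by rw [hf₁, T3XFinM.map_map_rm, hf₀]
  have hirr₁ : Irreducible P₁ := hInvD.2.1 K₁ k (n + 4) P₁ (by rw [hP₁k]; exact hP)
  have hmon₁ : MonZ P₁ := (hInvDX.2 K₁ k (n + 3) P₁).1 (by rw [hP₁k]; exact hmon)
  have hinv₁ : InvX f₁ P₁ := by
    apply hInvDX.1 K₁ k (n + 3) P₁ (MvPolynomial.map (algebraMap K₀ K₁) E₁)
      (MvPolynomial.map (algebraMap K₀ K₁) N₁) f₁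
    · intro i
      rw [hP₁k, hf₁k]
      exact hden i
    · rw [hP₁k, hf₁k]
      exact hjac
    · rw [hP₁k, hmm₁, hE₁]
      exact hE₀
    · rw [hP₁k, hmm₁, hmm₁, hN₁, hE₁, hf₁k]
      exact hEN
  have hprime₁ : (Ideal.span {P₁}).IsPrime := prime_span hirr₁
  obtain ⟨σ₁, hσ₁⟩ := hDom K₁ (n + 4) f₁ (fun i h0 => hinv₁.1 i (by rw [h0]; exact dvd_zero _))
    (fun h0 => hinv₁.2.1 (by rw [h0]; exact dvd_zero _))
  have hpr₁ := hPresX K₁ (n + 3) P₁ f₁ σ₁ hirr₁ hσ₁ hinv₁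
  have hcmp : Cmp σ₁ σ := by
    obtain ⟨σ', hσ', hc'⟩ := hDesc.1 K₁ k (n + 4) f₁ σ (by rw [hf₁k]; exact hOf)
    intro i
    have h3 : σ' (gen (n + 4) K₁ i) = σ₁ (gen (n + 4) K₁ i) :=
      mul_right_cancel₀ (fr_ne_zero (hσ₁ i).1) ((hσ' i).2.trans (hσ₁ i).2.symm)
    rw [hc' i, h3]
  have hnoM := ModXM.noR_pow hP hno hOf hpr hRes h1 hNoE hNoPow (N * N') hM
  have hno₁ : NoRX (σ₁ ^ (N * N')) P₁ := hNoDesc K₁ k (n + 3) P₁ (σ₁ ^ (N * N')) (σ ^ (N * N')) hmon₁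
    (cmp_pow hcmp (N * N')) (by rw [hP₁k]; exact hnoM)
  obtain ⟨ρ₁, hρ₁⟩ := hRes (n + 4) K₁ σ₁ (Ideal.span {P₁}) hprime₁ hpr₁
    (FractionRing (CR (Ideal.span {P₁})))
  have hρM := h1.2.2 K₁ (n + 4) σ₁ _ _ ρ₁ hρ₁ (N * N')
  have hconst := (hNoE K₁ (n + 3) P₁ (σ₁ ^ (N * N')) _ (ρ₁ ^ (N * N')) hρM).1 hno₁
  have hid := not_id hirr₁ hmon₁ (FractionRing (CR (Ideal.span {P₁}))) _ hconst
  obtain ⟨Γ, hΓ0, hΓ⟩ := hCan (n + 3) (by omega) K₁ P₁ hmon₁ _ (σ₁ ^ (N * N')) (ρ₁ ^ (N * N')) hρM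
    hconst
  have he : ¬ P₁ ∣ up K₁ (n + 3) Γ := ModXM.not_dvd_up hirr₁ hmon₁ hΓ0
  have hNF : NoFullD P₁ (up K₁ (n + 3) Γ) (σ₁ ^ (N * N'))
      (Module.finrank (ρ₁ ^ (N * N')).fieldRange (FractionRing (CR (Ideal.span {P₁})))) := by
    intro 𝔭 _ hP𝔭 hpd he' _ hrk L _ _ _ _ _ ρb hρb
    by_contra hcon
    exact he' (hΓ 𝔭 hP𝔭 hpd hrk L ρb hρb (not_lt.1 hcon))
  obtain ⟨H, G, hHm, hHi, hG, hcore⟩ := hCore K₁ (n + 3) P₁ f₁ σ₁ (N * N') (by omega) hirr₁ hmon₁ hσ₁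
    hpr₁ hM _ (ρ₁ ^ (N * N')) hρM hid (up K₁ (n + 3) Γ) he hNF
  -- the line
  set c1 : Fin (n + 3) → K₁ := fun i => ⟨c i, Subfield.subset_closure (hcS₂ i)⟩ with hc1
  have hBc : MvPolynomial.aeval c1 B' ≠ 0 := by
    obtain ⟨z, hzV, hz⟩ := hroot c hcV
    obtain ⟨x, hx0, -, hxB, -⟩ := hbox (Fin.cons z c) (fun i => Fin.cases hzV hcV i) hz
    intro h0
    have h1 := (hxB 0).2
    rw [hx0, map_mul] at h1
    apply right_ne_zero_of_mul h1
    have e := eval_up_map (K₀ := K₀) (K₁ := K₁) z c1 B'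
    rw [h0, map_zero] at e
    exact e
  obtain ⟨R, hR, hfastR⟩ := hfast K₁ Ω h (fun F _ _ ι ι' mm _ aa =>
    hinvh F (ι : F →+* Ω) (ι' : F →+* Ω) (fun x hx => ⟨algebraMap K₁ F ⟨x, hE'K hx⟩, by
      constructor
      · exact congrArg (fun v : Ω => (v : k)) (ι.commutes ⟨x, hE'K hx⟩)
      · exact congrArg (fun v : Ω => (v : k)) (ι'.commutes ⟨x, hE'K hx⟩)⟩) mm aa) c1 hBc
  obtain ⟨w, hwR, hHLq⟩ := hHL K₁ (fg_closure S₂) (n + 3) H G R hHm hHi hG hR c1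
  obtain ⟨H₀, hH₀⟩ := hfastR (fun i => (w i : K₁)) hwR
  obtain ⟨j₀, hj₀⟩ := hsup H₀
  set τ1 : K₁ := ⟨τ, hE'K hτE⟩ with hτ1
  have hτ10 : τ1 ≠ 0 := by
    intro h0
    exact hτ0 (congrArg (fun z : K₁ => (z : k)) h0)
  set q : K₁ := (p : K₁) * p' * τ1 ^ j₀ with hq
  have hq0 : q ≠ 0 := mul_ne_zero (mul_ne_zero (Nat.cast_ne_zero.2 hp.ne_zero)
    (Nat.cast_ne_zero.2 hp'.ne_zero)) (pow_ne_zero _ hτ10)
  obtain ⟨s, hs0, hsi, hsG⟩ := hHLq q hq0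
  set y₁ : K₁ := q * (s : K₁) with hy₁
  have hyK : H₀ < h.H ![1, algebraMap K₁ Ω y₁] := by
    apply hj₀ j₀ le_rfl s hs0
    rw [hy₁, hq]
    simp only [map_mul, map_pow, map_natCast, map_intCast]
    push_cast
    rfl
  set t : Fin (n + 3) → K₁ := lptN c1 (fun i => (w i : K₁)) y₁ with ht
  obtain ⟨hirrt, hcore'⟩ := hcore t hsi hsG
  set tk : Fin (n + 3) → k := fun i => algebraMap K₁ k (t i) with htk
  have htkV : ∀ i, tk i = c i + (p : k) * ((p' : k) * τ ^ j₀ * (s : k) * (w i : k)) := by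
    intro i
    have h1 : tk i = c i + (p : k) * p' * τ ^ j₀ * (s : k) * (w i : k) := by
      rw [htk, ht, hy₁, hq]
      simp only [lptN, map_add, map_mul, map_pow, map_natCast, map_intCast]
      rfl
    rw [h1]
    ring
  have htkV' : ∀ i, tk i = c i + (p' : k) * ((p : k) * τ ^ j₀ * (s : k) * (w i : k)) := by
    intro i
    rw [htkV]
    ring
  have hLV : ∀ i : Fin (n + 3), Lies V (tk i) (a i.succ) := fun i => by
    rw [htkV]
    exact T3XFinM.lies_add1 V p hch _ _ _ (hcV i) (mul_mem (mul_mem (mul_mem (natCast_mem V _)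
      (pow_mem hτV _)) (intCast_mem V _)) (intCast_mem V _))
  have hLV' : ∀ i : Fin (n + 3), Lies V' (tk i) (a' i.succ) := fun i => by
    rw [htkV']
    exact T3XFinM.lies_add1 V' p' hch' _ _ _ (hcV' i) (mul_mem (mul_mem (mul_mem (natCast_mem V' _)
      (pow_mem hτV' _)) (intCast_mem V' _)) (intCast_mem V' _))
  obtain ⟨z, hzV, hz⟩ := hroot tk hLV
  obtain ⟨z', hzV', hz'⟩ := hroot' tk hLV'
  obtain ⟨x, hx0, hxo, hxB, hxCl⟩ := hbox (Fin.cons z tk) (fun i => Fin.cases hzV hLV i) hz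
  obtain ⟨x', hx0', hxo', -, hxCl'⟩ := hbox' (Fin.cons z' tk) (fun i => Fin.cases hzV' hLV' i) hz'
  -- the field generated by the root
  set Q : Polynomial K₁ := (MvPolynomial.finSuccEquiv K₁ (n + 3) P₁).map (MvPolynomial.eval t) with hQ
  have : Fact (Irreducible Q) := ⟨hirrt⟩
  have : Module.Finite K₁ (AdjoinRoot Q) := (AdjoinRoot.powerBasis hirrt.ne_zero).finite
  have hzq : Polynomial.eval₂ ((Algebra.ofId K₁ k : K₁ →ₐ[K₁] k) : K₁ →+* k) z Q = 0 := by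
    have e := eval_cons (k := k) P₁ t z
    rw [hP₁k] at e
    exact e.symm.trans hz
  have hzq' : Polynomial.eval₂ ((Algebra.ofId K₁ k : K₁ →ₐ[K₁] k) : K₁ →+* k) z' Q = 0 := by
    have e := eval_cons (k := k) P₁ t z'
    rw [hP₁k] at e
    exact e.symm.trans hz'
  set ι : AdjoinRoot Q →ₐ[K₁] k := AdjoinRoot.liftAlgHom Q (Algebra.ofId K₁ k) z hzq with hι
  set ι' : AdjoinRoot Q →ₐ[K₁] k := AdjoinRoot.liftAlgHom Q (Algebra.ofId K₁ k) z' hzq' with hι'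
  have hιr : ι (AdjoinRoot.root Q) = z := AdjoinRoot.liftAlgHom_root _ _ _ _
  have hιr' : ι' (AdjoinRoot.root Q) = z' := AdjoinRoot.liftAlgHom_root _ _ _ _
  obtain ⟨y, hy0, hyo, hyx⟩ := hConj.1 K₁ (AdjoinRoot Q) k ι (n + 4) f₁ x (pt t (AdjoinRoot.root Q))
    (by rw [hf₁k]; exact hxo) (by
      intro i
      rw [hx0]
      refine Fin.cases ?_ (fun i => ?_) i
      · exact hιr.symm
      · exact (ι.commutes (t i)).symm)
  obtain ⟨y', hy0', hyo', hyx'⟩ := hConj.1 K₁ (AdjoinRoot Q) k ι' (n + 4) f₁ x'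
    (pt t (AdjoinRoot.root Q)) (by rw [hf₁k]; exact hxo') (by
      intro i
      rw [hx0']
      refine Fin.cases ?_ (fun i => ?_) i
      · exact hιr'.symm
      · exact (ι'.commutes (t i)).symm)
  have hyy : y' = y := (f₁.map (algebraMap K₁ (AdjoinRoot Q))).orb_unique y' y hyo' hyo
    (hy0'.trans hy0.symm)
  rw [hyy] at hyx'
  have hCl : Pool.Agent.ZDO.ClN N p y := hConj.2 (AdjoinRoot Q) k ι.toRingHom (n + 4) x y N p hyx hxCl
  have hCl' : Pool.Agent.ZDO.ClN N' p' y :=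
    hConj.2 (AdjoinRoot Q) k ι'.toRingHom (n + 4) x' y N' p' hyx' hxCl'
  have hmm : (MvPolynomial.map (ι : AdjoinRoot Q →+* k))
      (MvPolynomial.map (algebraMap K₁ (AdjoinRoot Q)) P₁) = P := by
    rw [MvPolynomial.map_map]
    have e : (ι : AdjoinRoot Q →+* k).comp (algebraMap K₁ (AdjoinRoot Q)) = algebraMap K₁ k :=
      ι.comp_algebraMap
    rw [e, hP₁k]
  have hirr' : Irreducible (MvPolynomial.map (algebraMap K₁ (AdjoinRoot Q)) P₁) := by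
    let _ : Algebra (AdjoinRoot Q) k := (ι : AdjoinRoot Q →+* k).toAlgebra
    apply hInvD.2.1 (AdjoinRoot Q) k (n + 4)
    have e : algebraMap (AdjoinRoot Q) k = (ι : AdjoinRoot Q →+* k) := rfl
    rw [e, hmm]
    exact hP
  have hev : ∀ (m : ℕ) (G : Pl (n + 4) K₁), MvPolynomial.eval (x m) (MvPolynomial.map (algebraMap K₁ k) G) =
      ι (MvPolynomial.aeval (y m) G) := fun m G => eval_pt ι (y m) (x m) (hyx m) G
  have hjm : MvPolynomial.map (algebraMap K₁ k) (jac f₁) = jac f := by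
    rw [← hf₁k]
    exact (Pool.Agent.ZDO.map_Jc f₁ (algebraMap K₁ k)).symm
  have hxB1 : ∀ m, MvPolynomial.eval (x m) b ≠ 0 ∧ MvPolynomial.eval (x m) (jac f) ≠ 0 ∧
      MvPolynomial.eval (x m) (MvPolynomial.map (algebraMap K₀ k) B) ≠ 0 ∧
      MvPolynomial.eval (x m) (MvPolynomial.pderiv 0 P) ≠ 0 ∧
      (∀ l, MvPolynomial.eval (x m) (MvPolynomial.map (algebraMap K₀ k) (Dd l)) ≠ 0) ∧
      MvPolynomial.eval (x m) (MvPolynomial.map (algebraMap K₀ k) (JcZ P₀ Nn Dd)) ≠ 0 := fun m => by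
    have h0 := (hxB m).2
    rw [map_mul, map_mul, map_mul, map_mul] at h0
    have h2 := left_ne_zero_of_mul h0
    have h3 := left_ne_zero_of_mul h2
    have h4 := right_ne_zero_of_mul h2
    rw [map_mul, map_mul, map_mul, map_mul] at h4
    have h5 := left_ne_zero_of_mul h4
    refine ⟨left_ne_zero_of_mul (left_ne_zero_of_mul h3), right_ne_zero_of_mul h3,
      right_ne_zero_of_mul h4, right_ne_zero_of_mul (left_ne_zero_of_mul h3), fun l h6 => ?_,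
      right_ne_zero_of_mul h5⟩
    apply left_ne_zero_of_mul h5
    rw [map_prod, map_prod]
    exact Finset.prod_eq_zero (Finset.mem_univ l) h6
  refine ⟨x, hxo, fun m => ⟨(hxB m).1, (hxB1 m).1⟩, ?_⟩
  rcases hcore' (AdjoinRoot Q) (AdjoinRoot.root Q)
    (IntermediateField.adjoin_root_eq_top Q) hirr' y N N' p p' hy0 hyo (fun m => by
      constructor
      · have e := hev m P₁
        rw [hP₁k, (hxB m).1] at e
        exact (map_eq_zero_iff ι ι.injective).1 e.symm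
      · intro h0
        have e := hev m (jac f₁)
        rw [h0, map_zero, hjm] at e
        exact (hxB1 m).2.1 e) hp hp' hne rfl hCl hCl' with hvan | ⟨hprm, hPv, hev', hrk1, hrk2, hPrs⟩
  · intro G' hG'
    by_contra hcon
    push Not at hcon
    apply hG'
    have hfin := hDescS (AdjoinRoot Q) k ι.toRingHom (n + 4)
      (MvPolynomial.map (algebraMap K₁ (AdjoinRoot Q)) P₁) y (N * N') hvan G' (fun s => by
        have e : (fun i => ι.toRingHom (y (N * N' * s) i)) = x (N * N' * s) :=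
          funext fun i => (hyx (N * N' * s) i).symm
        rw [e]
        exact hcon _)
    have e2 : MvPolynomial.map ι.toRingHom (MvPolynomial.map (algebraMap K₁ (AdjoinRoot Q)) P₁) = P :=
      hmm
    rw [e2] at hfin
    exact hfin
  · exfalso
    -- the orbit lies in `Ω`
    have hxΩ : ∀ m i, x m i ∈ Ω := by
      apply orb_mem Ω (f₁.map (algebraMap K₁ Ω)) x
      · rw [T3XFinM.map_map_rm, hf₁k]
        exact hxo
      · intro i
        rw [hx0]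
        refine Fin.cases ?_ (fun i => ?_) i
        · apply hΩ3
          have h4 : IsAlgebraic K₁ z := ⟨Q, hirrt.ne_zero, hzq⟩
          exact h4.extendScalars (algebraMap K₁ Ω).injective
        · exact hle₁ (t i).2
    set xΩ : ℕ → Fin (n + 4) → Ω := fun m i => ⟨x m i, hxΩ m i⟩ with hxΩd
    have hxx : x = fun m i => algebraMap Ω k (xΩ m i) := rfl
    have horbΩ : (f₁.map (algebraMap K₁ Ω)).Orb xΩ := by
      apply T3XFinM.orb_down (L := k)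
      rw [T3XFinM.map_map_rm, hf₁k]
      exact hxo
    have horbΩ₀ : (f₀.map (algebraMap K₀ Ω)).Orb xΩ := by
      have e : f₁.map (algebraMap K₁ Ω) = f₀.map (algebraMap K₀ Ω) := by
        rw [hf₁, T3XFinM.map_map_rm]
      rw [← e]
      exact horbΩ
    have hevΩ₀ : ∀ (m : ℕ) (G : Pl (n + 4) K₀), MvPolynomial.eval (x m)
        (MvPolynomial.map (algebraMap K₀ k) G) = algebraMap Ω k (MvPolynomial.aeval (xΩ m) G) :=
      fun m G => T3XFinM.eval_coe2 (K₀ := K₀) (K := Ω) (L := k) (xΩ m) G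
    have hevΩ₁ : ∀ (m : ℕ) (G : Pl (n + 4) K₁), MvPolynomial.eval (x m)
        (MvPolynomial.map (algebraMap K₁ k) G) = algebraMap Ω k (MvPolynomial.aeval (xΩ m) G) :=
      fun m G => T3XFinM.eval_coe2 (K₀ := K₁) (K := Ω) (L := k) (xΩ m) G
    have hz0 : ∀ v : Ω, algebraMap Ω k v = 0 → v = 0 := fun v hv =>
      (map_eq_zero_iff _ (algebraMap Ω k).injective).1 hv
    have hflow₀ := hFlF K₀ (n + 4) P₀ f₀ σ₀ hσ₀ _ ρ₀ hρ₀ Ω xΩ horbΩ₀ (fun t => hz0 _ (by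
      rw [← hevΩ₀, hP₀]
      exact (hxB t).1))
    obtain ⟨hpos, hgrow⟩ := hH₀ y₁ hyK hirrt xΩ hflow₀ (fun i => by
      apply Subtype.ext
      change x 0 i.succ = _
      rw [hx0]
      rfl) (fun t h0 => (hxB1 t).2.2.1 (by rw [hevΩ₀, h0, map_zero]))
    -- the curve
    have hvz : ∀ t, ∀ G ∈ vanK K₁ y (N * N'), MvPolynomial.aeval (xΩ (N * N' * t)) G = 0 := by
      intro t G hG
      apply hz0
      rw [← hevΩ₁, hev]
      have h5 : MvPolynomial.eval (y (N * N' * t))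
          (MvPolynomial.map (algebraMap K₁ (AdjoinRoot Q)) G) = 0 := (mem_van _ _ _).1 hG t
      rw [MvPolynomial.eval_map, ← MvPolynomial.aeval_def] at h5
      rw [h5, map_zero]
    obtain ⟨ρb, hρb⟩ := hRes (n + 4) K₁ (σ₁ ^ (N * N')) (vanK K₁ y (N * N')) hprm hPrs
      (FractionRing (CR (vanK K₁ y (N * N'))))
    have hvz' : ∀ G : Pl (n + 4) K₁, (∀ t, MvPolynomial.aeval (xΩ (N * N' * t)) G = 0) →
        G ∈ vanK K₁ y (N * N') := by
      intro G hG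
      refine (mem_van _ _ _).2 fun t => ?_
      have h5 : ι (MvPolynomial.aeval (y (N * N' * t)) G) = 0 := by
        rw [← hev, hevΩ₁, hG, map_zero]
      rw [MvPolynomial.eval_map, ← MvPolynomial.aeval_def]
      exact (map_eq_zero_iff ι ι.injective).1 h5
    have hflow₁ := hFlC K₁ Ω (n + 4) f₁ σ₁ (N * N') hσ₁ (vanK K₁ y (N * N')) _ ρb hρb xΩ horbΩ hvz
    have hflow₂ := hFlF K₁ (n + 4) P₁ f₁ σ₁ hσ₁ _ ρ₁ hρ₁ Ω xΩ horbΩ (fun t => hz0 _ (by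
      rw [← hevΩ₁, hP₁k]
      exact (hxB t).1))
    have hgrK := (hS₁ K₁ P₁ f₁ (fun s hs => ⟨⟨s, Subfield.subset_closure (hSS₂ (hSS₁ s hs))⟩, rfl⟩)
      hP₁k hf₁k hirr₁ hmon₁ hinv₁ σ₁ hσ₁ (FractionRing (CR (Ideal.span {P₁}))) ρ₁ hρ₁).2
    have hND₁ := nd_map hBet hCmpB hGenS K₀ K₁ (n + 3) P₀ P₁ rfl hmon₀ f₀ f₁ rfl hinv₁.1 σ₀ σ₁ hσ₀ hσ₁
      (FractionRing (CR (Ideal.span {P₀}))) (FractionRing (CR (Ideal.span {P₁}))) ρ₀ hρ₀ ρ₁ hρ₁
      Nn Dd hND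
    have hJx' : JcZ P₁ (fun l => MvPolynomial.map (algebraMap K₀ K₁) (Nn l))
        (fun l => MvPolynomial.map (algebraMap K₀ K₁) (Dd l)) =
        MvPolynomial.map (algebraMap K₀ K₁) (JcZ P₀ Nn Dd) := hJx K₀ K₁ (n + 3) P₀ Nn Dd
    have hpdm : MvPolynomial.map (algebraMap K₁ k) (MvPolynomial.pderiv 0 P₁) =
        MvPolynomial.pderiv 0 P := by
      rw [← hP₁k]
      exact MvPolynomial.pderiv_map.symm
    exact hEnd K₁ (n + 3) P₁ (vanK K₁ y (N * N')) σ₁ (FractionRing (CR (Ideal.span {P₁}))) ρ₁ hρ₁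
      hmon₁ hPv hrk1 hrk2 (FractionRing (CR (vanK K₁ y (N * N')))) ρb (N * N') hM hρb Ω h xΩ
      hflow₂ hflow₁ hvz'
      (fun t h0 => (hxB1 t).2.2.2.1 (by rw [← hpdm, hevΩ₁, h0, map_zero]))
      _ _ hND₁
      (fun t l h0 => (hxB1 t).2.2.2.2.1 l (by rw [← hmm₁, hevΩ₁, h0, map_zero]))
      (fun t h0 => (hxB1 t).2.2.2.2.2 (by rw [← hmm₁, ← hJx', hevΩ₁, h0, map_zero]))
      Λ β m hgrK hm1 hΛ1 hTβ hpos hgrow

end Pool.Agent.Lib.MP_16285c_agX
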