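import Pool.Agent.Lib.MP_16285c_agP.Defs
import Pool.Agent.Lib.MP_16285c_agX.T3.LnAll
import Pool.Agent.Lib.MP_16285c_agX.T3.LnB
import Pool.Agent.Lib.MP_16285c_agX.T3.RtX

/-!
# Varieties with `λ_r < λ₁` for `r ≥ 3`: the lower bound for heights on lines (LowP)
-/

set_option autoImplicit false

namespace Pool.Agent.Lib.MP_16285c_agX

open Pool.Agent.Lib.MP_16285c_ag Pool.Agent.Lib.MP_16285c_agN



open T3LowXM in
theorem LowPM.aux : StmtDg1n → StmtCfAn → StmtFun → StmtNm → StmtLnI → StmtLnQ → StmtLnH → StmtLnL → StmtLnE →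
    StmtLnV → StmtLnD → StmtLowP := by
  intro hDg hCf hFun hNm hI hQ hH hL hE hV hD K E _ _ _ _ n P ξ hPi hPm hG g
  classical
  obtain ⟨hai, hfin, -⟩ := hFun.2 K E (n + 1) P ξ hPi hPm hG
  have hP0 : MvPolynomial.aeval ξ P = 0 := (hG.ker P).2 dvd_rfl
  have hStp : Stp K ξ := by
    refine ⟨hai, ⟨MvPolynomial.finSuccEquiv K (n + 1) P, hPm, ?_⟩, hG.top⟩
    rw [fin_eval, hP0]
  obtain ⟨-, hd4, -⟩ := hDg K E (n + 1) n 1 ξ hStp rfl
  obtain ⟨A, B₀, hAB⟩ := hd4 g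
  set w : E := lc B₀ g 0 with hw
  obtain ⟨F, hFi, hF1, hF0, hFd, hFQ⟩ := hI K E (n + 1) (fun i : Fin (n + 1) => ξ i.succ) hai hfin w
  set r := F.natDegree with hr
  set a : Fin (r + 1) → Pl (n + 1) K := fun i => F.coeff i with ha
  have halast : a (Fin.last r) = F.leadingCoeff := rfl
  have halast0 : a (Fin.last r) ≠ 0 := by
    rw [halast]
    exact Polynomial.leadingCoeff_ne_zero.2 hFi.ne_zero
  have hcop := cop F hFi hF1
  set D : ℕ := Finset.univ.sup fun i : Fin (r + 1) => (a i).totalDegree with hDdef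
  have hdeg : ∀ i, (a i).totalDegree ≤ D := fun i =>
    Finset.le_sup (f := fun i : Fin (r + 1) => (a i).totalDegree) (Finset.mem_univ i)
  have hdegE : ∃ i, (a i).totalDegree = D := by
    obtain ⟨i, -, hi⟩ := Finset.exists_mem_eq_sup (Finset.univ : Finset (Fin (r + 1)))
      ⟨0, Finset.mem_univ _⟩ fun i => (a i).totalDegree
    exact ⟨i, hi.symm⟩
  have hdegN : ∀ i : ℕ, (F.coeff i).totalDegree ≤ D := by
    intro i
    by_cases hi : i < r + 1
    · exact hdeg ⟨i, hi⟩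
    · rw [Polynomial.coeff_eq_zero_of_natDegree_lt (by omega)]
      simp
  have hdegNE : ∃ i : ℕ, (F.coeff i).totalDegree = D := by
    obtain ⟨i, hi⟩ := hdegE
    exact ⟨i, hi⟩
  -- the degree
  have hdgx : dgx K n 1 (fun i : Fin (n + 1) => ξ i.succ) g ≤ D *
      Module.finrank (IntermediateField.adjoin K (insert w (Set.range fun i : Fin (n + 1) => ξ i.succ))) E := by
    rw [← hAB]
    have h1 := (hCf K E n (fun i : Fin (n + 1) => ξ i.succ) hai hfin w F D hFi hF1 hF0 hdegN hdegNE).1 A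
    have h2 : Set.range (lc A fun i : Fin (n + 1) => ξ i.succ) ∪ Set.range (lc B₀ g) =
        insert w (Set.range (lc A fun i : Fin (n + 1) => ξ i.succ)) := by
      have h3 : Set.range (lc B₀ g) = {w} := by
        ext y
        constructor
        · rintro ⟨i, rfl⟩
          rw [Subsingleton.elim i 0]
          exact Set.mem_singleton _
        · rintro rfl
          exact ⟨0, rfl⟩
      rw [h3, Set.union_comm]
      rfl
    rw [h2]
    exact h1
  -- the denominator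
  obtain ⟨A₁, B₁, hB₁, hwB⟩ : ∃ A B : Pl (n + 2) K, MvPolynomial.aeval ξ B ≠ 0 ∧
      w * MvPolynomial.aeval ξ B = MvPolynomial.aeval ξ A := by
    have h1 : w ∈ IntermediateField.adjoin K (Set.range ξ) := by
      rw [hG.top]
      exact IntermediateField.mem_top
    rw [IntermediateField.mem_adjoin_range_iff] at h1
    obtain ⟨p, q, hpq⟩ := h1
    by_cases h0 : MvPolynomial.aeval ξ q = 0
    · exact ⟨0, 1, by simp, by rw [hpq, h0]; simp⟩
    · exact ⟨p, q, h0, by rw [hpq, div_mul_cancel₀ _ h0]⟩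
  have hPp : Prime P := hPi.prime
  have hb0 : nm P B₁ ≠ 0 := hNm.2.1 K (n + 1) P B₁ hPm hPp fun h => hB₁ ((hG.ker B₁).2 h)
  obtain ⟨U, V, hUV⟩ := Ideal.mem_span_pair.1 (hNm.1 K (n + 1) P B₁ hPm)
  set b : Pl (n + 1) K := nm P B₁ with hb
  have hbx : MvPolynomial.aeval (fun i : Fin (n + 1) => ξ i.succ) b =
      MvPolynomial.aeval ξ V * MvPolynomial.aeval ξ B₁ := by
    have h1 := congrArg (MvPolynomial.aeval ξ) hUV
    rw [map_add, map_mul, map_mul, hP0, mul_zero, zero_add, MvPolynomial.aeval_rename] at h1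
    exact h1.symm
  have hwb : w * MvPolynomial.aeval (fun i : Fin (n + 1) => ξ i.succ) b = MvPolynomial.aeval ξ (V * A₁) := by
    rw [hbx, map_mul, ← hwB]
    ring
  obtain ⟨Q, hQ1, hQ2⟩ := hQ K (n + 1) P (V * A₁) b hPm
  obtain ⟨F', hF'⟩ := hFQ Q (hQ1 E ξ w hP0 hwb)
  have hroot : ∀ (Ω : Type) [Field Ω] [IsAlgClosed Ω] [Algebra K Ω] (t : Fin (n + 1) → Ω) (y : Ω),
      ∑ i, MvPolynomial.aeval t (a i) * y ^ (i : ℕ) = 0 →
      ∃ ζ : Ω, MvPolynomial.aeval (Fin.cons ζ t : Fin ((n + 1) + 1) → Ω) P = 0 ∧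
        y * MvPolynomial.aeval t b = MvPolynomial.aeval (Fin.cons ζ t : Fin ((n + 1) + 1) → Ω) (V * A₁) := by
    intro Ω _ _ _ t y hy
    refine hQ2 Ω t y ?_
    rw [hF', Polynomial.eval₂_mul, eval_sum, hy, zero_mul]
  refine ⟨b * a (Fin.last r), mul_ne_zero hb0 halast0, ?_⟩
  intro K₁ Ω _ _ _ _ _ _ _ _ h hinv c hc
  rw [map_mul] at hc
  obtain ⟨R, hR0, hR⟩ := hL K K₁ (n + 1) r D a (Fin.last r) (by omega) halast0 hcop hdeg hdegE c
    (right_ne_zero_of_mul hc)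
  refine ⟨R, hR0, fun w' hw' => ?_⟩
  obtain ⟨C₁, hC₁⟩ := hR w' hw' Ω h
  obtain ⟨C₂, hC₂⟩ := hH K K₁ Ω h hinv (n + 1) r P (V * A₁) b a (hroot Ω)
  obtain ⟨C₃, hC₃⟩ := hV.2 K Ω h (n + 1) (B₀ 0)
  obtain ⟨C₄, hC₄⟩ := hE K₁ Ω h (n + 1) c w'
  set s₁ : ℕ := Module.finrank
    (IntermediateField.adjoin K (insert w (Set.range fun i : Fin (n + 1) => ξ i.succ))) E with hs₁
  refine ⟨max (s₁ * (C₁ + C₂ + r * C₃)) C₄, fun s z₀ gv hirr hB hPt hVl => ⟨?_, ?_⟩⟩
  · rw [map_mul] at hB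
    have hon : OnX K ξ (pt (lptN c w' s) z₀) := by
      intro G hG0
      obtain ⟨G', rfl⟩ := (hG.ker G).1 hG0
      rw [map_mul, hPt, zero_mul]
    have hren : MvPolynomial.aeval (pt (lptN c w' s) z₀) (MvPolynomial.rename Fin.succ b) =
        MvPolynomial.aeval (fun i => algebraMap K₁ Ω (lptN c w' s i)) b := by
      rw [MvPolynomial.aeval_rename]
      rfl
    have hy := hV.1 K E Ω (n + 2) (n + 1) ξ (pt (lptN c w' s) z₀) hon g gv hVl (B₀ 0)
      (MvPolynomial.rename Fin.succ b) (V * A₁) (by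
        rw [MvPolynomial.aeval_rename]
        exact hwb)
    rw [hren] at hy
    have h1 := hC₁ s
    have h2 := hC₂ (lptN c w' s) z₀ (∑ j, algebraMap K Ω (B₀ 0 j) * gv j) hirr
      (left_ne_zero_of_mul hB) (right_ne_zero_of_mul hB) hPt hy
    have h3 := hC₃ gv
    have h4 : (dgx K n 1 (fun i : Fin (n + 1) => ξ i.succ) g : ℝ) ≤ D * s₁ := by exact_mod_cast hdgx
    have h5 : ((MvPolynomial.finSuccEquiv K (n + 1) P).natDegree : ℝ) = r * s₁ := by
      rw [← hD K E (n + 1) P ξ hPi hPm hG, ← hFd]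
      push_cast
      rfl
    have h6 := h.nonneg ![1, algebraMap K₁ Ω s]
    have hs0 : (0 : ℝ) ≤ s₁ := Nat.cast_nonneg _
    have hr0 : (0 : ℝ) ≤ r := Nat.cast_nonneg _
    rw [h5]
    have h7 : (D : ℝ) * h.H ![1, algebraMap K₁ Ω s] ≤ r * (h.H (hcN gv) + C₃) + C₂ + C₁ := by
      have := mul_le_mul_of_nonneg_left h3 hr0
      linarith
    have h8 : (dgx K n 1 (fun i : Fin (n + 1) => ξ i.succ) g : ℝ) * h.H ![1, algebraMap K₁ Ω s] ≤
        s₁ * (r * (h.H (hcN gv) + C₃) + C₂ + C₁) := by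
      calc (dgx K n 1 (fun i : Fin (n + 1) => ξ i.succ) g : ℝ) * h.H ![1, algebraMap K₁ Ω s]
          ≤ (D * s₁) * h.H ![1, algebraMap K₁ Ω s] := mul_le_mul_of_nonneg_right h4 h6
        _ = s₁ * (D * h.H ![1, algebraMap K₁ Ω s]) := by ring
        _ ≤ _ := mul_le_mul_of_nonneg_left h7 hs0
    have h9 := le_max_left ((s₁ : ℝ) * (C₁ + C₂ + r * C₃)) C₄
    nlinarith [h8, h9]
  · exact (hC₄ s).trans (by linarith [le_max_right ((s₁ : ℝ) * (C₁ + C₂ + r * C₃)) C₄])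

/-- (LowP) The lower bound on lines. -/
theorem tLowP : StmtCfAn → StmtDg1n → StmtLowP := fun h1 h2 =>
  LowPM.aux h2 h1 tFun tNm yLnI yLnQ yLnH (yLnL yLnG tXRpB aXLine (yLnB tRtX)) yLnE yLnV (yLnD tFun yLnI)

end Pool.Agent.Lib.MP_16285c_agX
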