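import Pool.Agent.Lib.MP_16285c_agP.SpecD
import Pool.Agent.Lib.MP_16285c_agX.Box.Hcn
import Pool.Agent.Lib.MP_16285c_agX.G.VarX

/-!
# The theorem for varieties of dimension `n + 3` with `λ_p < λ₁` for `p ≥ 3` (VarP)
-/

set_option autoImplicit false

namespace Pool.Agent.Lib.MP_16285c_agX

open MvPolynomial
open Pool.Agent.Lib.MP_16285c_ag (RM)
open Pool.Agent.ZDO (Wd Jc dd nn)
open Pool.Agent.Lib.MP_16285c_agN (fr)
open Pool.Agent.Lib.MP_16285c_agS.G (FF cls ValAt)

open GXM.Var in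
/-- (VarP) The theorem for varieties of dimension `n + 3`. -/
theorem pVarP : StmtModP → StmtPrimX → StmtAmbX → StmtNoInvX → StmtPtsX → StmtGrPP → StmtVarP := by
  intro hModel hPrim hAmb hNo hPts hGro k _ _ _ m n I _ hd φ hlam hinv b hb
  have hHc : StmtHcn := tHcn
  obtain ⟨P, ξ, hP, hM, hG⟩ := hPrim k (FF I) (n + 3) m (fun i => cls I (X i)) (top_eq I)
    ((trdeg_eq I).trans hd)
  obtain ⟨f, hf, hfv⟩ := hAmb k (FF I) (n + 3) P ξ φ hP hM hG
  have hNI : NoIX f P := hNo k (FF I) (n + 3) P f ξ φ hG hf hfv hinv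
  obtain ⟨c, Y, e', Z, hc0, he0, hY, hZ, hpts⟩ := hPts k m I (n + 3) P ξ hP hG
  obtain ⟨hβ, Υ, hΥ, hdense⟩ := hpts b hb
  set e := c * hatX c Y e'.totalDegree e' with he
  set β := e * hatX c Y b.totalDegree b with hβdef
  have hcβ : c ∣ β := (Dvd.intro _ rfl : c ∣ e).mul_right _
  have hgr : GrP P f := hGro k n P (FF I) ξ φ f m (fun i => cls I (X i)) hP hM hG hf hfv (top_eq I) hlam
  obtain ⟨w, hw1, hw2, hw3⟩ := hModel k n P f hP hM hf hNI hgr β hβ
  have hden : ∀ i, aeval ξ (f.den i) ≠ 0 := fun i h => hf.1 i ((hG.ker _).mp h)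
  have hfv' : fvn f ξ = fun i => φ (ξ i) := funext hfv
  have hφ : ∀ A : MvPolynomial (Fin (n + 3 + 1)) k, aeval (fvn f ξ) A = φ (aeval ξ A) := by
    intro A
    have h := congrArg (fun g : MvPolynomial (Fin (n + 3 + 1)) k →ₐ[k] FF I => g A) (comp_aeval ξ φ)
    rw [hfv']
    exact h.symm
  refine ⟨fun t => Υ (w t), ?_, ?_⟩
  · intro t
    obtain ⟨h1, h2, h3, h4⟩ := hΥ (w t) (hw2 t).1 (hw2 t).2
    obtain ⟨h1', -, -, -⟩ := hΥ (w (t + 1)) (hw2 (t + 1)).1 (hw2 (t + 1)).2
    refine ⟨h2, h3, ?_⟩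
    intro i
    have hden' : ∀ i, aeval (w t) (f.den i) ≠ 0 := by
      intro i
      rw [aeval_self]
      exact (hw1 t i).1
    have hdd : eval (w t) (dd f) ≠ 0 := by
      rw [dd, map_prod]
      exact Finset.prod_ne_zero_iff.mpr fun l _ => (hw1 t l).1
    have hc' : eval (w (t + 1)) c ≠ 0 := by
      intro h0
      obtain ⟨e₁, he₁⟩ := hcβ
      apply (hw2 (t + 1)).2
      rw [he₁, map_mul, h0, zero_mul]
    have hnx : fvn f (w t) = w (t + 1) := fvn_next (hw1 t)
    have e1 : ∀ A : MvPolynomial (Fin (n + 3 + 1)) k, A.totalDegree ≤ max (Y i).totalDegree c.totalDegree →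
        eval (w t) (hcn f (max (Y i).totalDegree c.totalDegree) A) =
          eval (w t) (dd f) ^ (max (Y i).totalDegree c.totalDegree) * eval (w (t + 1)) A := by
      intro A hA
      have h := hHc.2.1 k k (n + 3 + 1) f _ A (w t) hA hden'
      rw [hnx, aeval_self, aeval_self, aeval_self] at h
      exact h
    have e2 : ∀ A : MvPolynomial (Fin (n + 3 + 1)) k, A.totalDegree ≤ max (Y i).totalDegree c.totalDegree →
        aeval ξ (hcn f (max (Y i).totalDegree c.totalDegree) A) =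
          aeval ξ (dd f) ^ (max (Y i).totalDegree c.totalDegree) * φ (aeval ξ A) := by
      intro A hA
      have h := hHc.2.1 k (FF I) (n + 3 + 1) f _ A ξ hA hden
      rw [hφ] at h
      exact h
    have hB : eval (w t) (hcn f (max (Y i).totalDegree c.totalDegree) c) ≠ 0 := by
      rw [e1 c (le_max_right _ _)]
      exact mul_ne_zero (pow_ne_zero _ hdd) hc'
    have hval := h4 (φ (cls I (X i))) (hcn f (max (Y i).totalDegree c.totalDegree) (Y i))
      (hcn f (max (Y i).totalDegree c.totalDegree) c) (by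
        rw [e2 c (le_max_right _ _), e2 (Y i) (le_max_left _ _), ← hY i, map_mul]
        ring) hB
    have hq : eval (w t) (hcn f (max (Y i).totalDegree c.totalDegree) (Y i)) /
        eval (w t) (hcn f (max (Y i).totalDegree c.totalDegree) c) = Υ (w (t + 1)) i := by
      rw [div_eq_iff hB, e1 c (le_max_right _ _), e1 (Y i) (le_max_left _ _), ← h1' i]
      ring
    rw [hq] at hval
    exact hval
  · intro A hA
    obtain ⟨A', hA', hA2⟩ := hdense A hA
    obtain ⟨t, hn⟩ := hw3 A' hA'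
    exact ⟨t, hA2 (w t) (hw2 t).1 (hw2 t).2 hn⟩

end Pool.Agent.Lib.MP_16285c_agX
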