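import Pool.Agent.Lib.MP_16285c_agP.AllA
import Pool.Agent.Lib.MP_16285c_agP.AllZ
import Pool.Agent.Lib.MP_16285c_agP.CmpXn
import Pool.Agent.Lib.MP_16285c_agP.DgMn
import Pool.Agent.Lib.MP_16285c_agP.FastP
import Pool.Agent.Lib.MP_16285c_agP.FinP
import Pool.Agent.Lib.MP_16285c_agP.GrPP
import Pool.Agent.Lib.MP_16285c_agP.LowP
import Pool.Agent.Lib.MP_16285c_agP.VarP

/-!
# Varieties with `λ_r < λ₁` for `r ≥ 3`: the theorem (ZDP)
-/

set_option autoImplicit false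

namespace Pool.Agent.Lib.MP_16285c_agX

open Pool.Agent.Lib.MP_16285c_ag Pool.Agent.Lib.MP_16285c_agN
open Pool.Agent.Lib.MP_16285c_agS (tUni tPresK tRkK tIrrK tPrimS tLowS tDom tInvD tNoPow tConj tDesc)

theorem zDgMn : StmtDgMn := pDgMn zDg1n zCfDn zBZG

theorem zLowP : StmtLowP := tLowP zCfAn zDg1n

theorem zFastP : StmtFastP := pFastP zRatesP zRecP zLowP zDg1n zDgMn

/-- The theorem for the model. -/
theorem zModP : StmtModP :=
  pFinP zFastP bCoreA bHSup aXHL aBoxX tDom (tPresX stmtJacQ) stmtResF tG1 tNoEX tNoPow tNoDescX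
    tInvDX tInvD iLiftC2 iDesc cCanX tConj tDesc tBet tCmpB yFlF yGenS (tFlC tUni) zDg1n cJbZ tJxZ cEndP

theorem zGrPP : StmtGrPP := pGrPP (pCmpXn zDg1n zCfDn zBZG) zCmpG zDg1n

/-- **Varieties of dimension `n ≥ 3` with `λ_r < λ₁` for `3 ≤ r ≤ n`.** -/
theorem varP : StmtVarP :=
  pVarP zModP tPrimX (tAmbX tJacX tHcn) (tNoInvX tHcn) (tPtsX tHat) zGrPP

end Pool.Agent.Lib.MP_16285c_agX
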