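import Pool.Agent.Lib.MP_16285c_agX.T3.Defs

/-!
# Varieties with `λ_r < λ₁` for `r ≥ 3`: definitions and interface statements (ZDP)

As `Lib/MP_16285c_agX/T3`, in all dimensions. `E` is the function field of a variety of dimension `n` over `K`, `ξ = (z, x₁, …, x_n) : Fin (n + 1) → E` are coordinates (`Stp`), `ρ : E →ₐ[K] E` a dominant rational self-map.
-/

set_option autoImplicit false

namespace Pool.Agent.Lib.MP_16285c_agX

open Pool.Agent.Lib.MP_16285c_ag Pool.Agent.Lib.MP_16285c_agN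

section

variable (K : Type) {E : Type} [Field K] [Field E] [Algebra K E]

/-- The sections: `G(ξ; 1, z')` with `G` homogeneous of degree `j`, with coefficients of degree `≤ P` in `ξ`, not zero, and `Z₀ ^ j * G(ξ; 1, z') / T ^ q` integral over `K[x]`. -/
def SctP {n : ℕ} (ξ : Fin (n + 1) → E) (T : E) (z' : Fin n → E) (Z₀ : Pl n K) (P j q : ℕ) : Prop :=
  ∃ (G : MvPolynomial (Fin (n + 1)) (Pl (n + 1) K)) (S : E), G.IsHomogeneous j ∧
    (∀ α, (G.coeff α).totalDegree ≤ P) ∧ S ≠ 0 ∧ Intx K (fun i : Fin n => ξ i.succ) S ∧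
    MvPolynomial.aeval (fun i : Fin n => ξ i.succ) Z₀ ^ j *
      MvPolynomial.eval₂ ((MvPolynomial.aeval ξ : Pl (n + 1) K →ₐ[K] E) : Pl (n + 1) K →+* E)
        (Fin.cons 1 z' : Fin (n + 1) → E) G = T ^ q * S

end

/-- (HtP) The height inequality. PROOF: edit `T3/RpS.lean`, `T3/HtX.lean` (`3` to `n`; in (b) the number of factors is `n * C₁`, `s` a set of `n * C₁ + n` good values). -/
def StmtHtP : Prop :=
  ∀ (K E : Type) [Field K] [CharZero K] [Field E] [Algebra K E] (n : ℕ) (ξ : Fin (n + 1) → E), 1 ≤ n → Stp K ξ →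
    ∀ (g z' : Fin n → E) (Z₀ : Pl n K) (P₁ j₁ q₁ : ℕ), Z₀ ≠ 0 →
    (∀ i : Fin n, Intx K (fun i : Fin n => ξ i.succ)
      (MvPolynomial.aeval (fun i : Fin n => ξ i.succ) Z₀ * z' i)) →
    AlgebraicIndependent K g → 1 ≤ P₁ → 1 ≤ j₁ → 1 ≤ q₁ →
    {u : K | ¬ ∃ i₀ : ℕ, ∀ i, i₀ ≤ i →
      SctP K ξ (Tu K u g) z' Z₀ (P₁ * i) (j₁ * i) (q₁ * i)}.Finite →
    ∃ B : Pl (n + 1) K, MvPolynomial.aeval ξ B ≠ 0 ∧
      ∀ (Ω : Type) [Field Ω] [Algebra K Ω] (h : HtF Ω), ∃ C : ℝ,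
      ∀ (pt : Fin (n + 1) → Ω) (gv zv : Fin n → Ω), OnX K ξ pt → MvPolynomial.aeval pt B ≠ 0 →
        (∀ i, VlX K ξ pt (g i) (gv i)) → (∀ i, VlX K ξ pt (z' i) (zv i)) →
        (q₁ : ℝ) * h.H (hcN gv) ≤ 2 * P₁ * h.H (hcN pt) + j₁ * h.H (hcN zv) + C

/-- (CfAn) PROOF: see `SpecA.lean`. -/
def StmtCfAn : Prop :=
  ∀ (K E : Type) [Field K] [Infinite K] [Field E] [Algebra K E] (n : ℕ) (x : Fin (n + 1) → E),
    AlgebraicIndependent K x → Module.Finite (IntermediateField.adjoin K (Set.range x)) E →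
    ∀ (w : E) (F : Polynomial (Pl (n + 1) K)) (D : ℕ), Irreducible F → 1 ≤ F.natDegree →
      Polynomial.eval₂ ((MvPolynomial.aeval x : Pl (n + 1) K →ₐ[K] E) : Pl (n + 1) K →+* E) w F = 0 →
      (∀ i, (F.coeff i).totalDegree ≤ D) → (∃ i, (F.coeff i).totalDegree = D) →
      (∀ A : Fin n → Fin (n + 1) → K,
        Module.finrank (IntermediateField.adjoin K (insert w (Set.range (lc A x)))) E ≤
          D * Module.finrank (IntermediateField.adjoin K (insert w (Set.range x))) E) ∧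
      ∃ A : Fin n → Fin (n + 1) → K,
        D * Module.finrank (IntermediateField.adjoin K (insert w (Set.range x))) E ≤
          Module.finrank (IntermediateField.adjoin K (insert w (Set.range (lc A x)))) E

/-- (Dg1n) The degrees `dgx` are attained suprema. PROOF: see `SpecA.lean`. -/
def StmtDg1n : Prop :=
  ∀ (K E : Type) [Field K] [CharZero K] [Field E] [Algebra K E] (n c r : ℕ) (ξ : Fin (n + 1) → E), Stp K ξ →
    c + r = n →
    (∀ (g : Fin n → E) (A : Fin c → Fin n → K) (B : Fin r → Fin n → K),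
      Module.finrank (IntermediateField.adjoin K
        (Set.range (lc A fun i => ξ i.succ) ∪ Set.range (lc B g))) E ≤
        dgx K c r (fun i : Fin n => ξ i.succ) g) ∧
    (∀ g : Fin n → E, ∃ (A : Fin c → Fin n → K) (B : Fin r → Fin n → K),
      Module.finrank (IntermediateField.adjoin K
        (Set.range (lc A fun i => ξ i.succ) ∪ Set.range (lc B g))) E =
        dgx K c r (fun i : Fin n => ξ i.succ) g) ∧
    ∀ (ρ : E →ₐ[K] E) (m : ℕ), 1 ≤ dgx K c r (fun i : Fin n => ξ i.succ) (fun i : Fin n => (ρ ^ m) (ξ i.succ))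

/-- (LowP) The lower bound on lines. PROOF (uses `StmtCfAn` (1) and `StmtDg1n`): edit `T3/LowX.lean` (`Fin 3` to `Fin (n + 1)`, `Fin 4` to `Fin (n + 2)`, `dgx K 2 1` to `dgx K n 1`). -/
def StmtLowP : Prop :=
  ∀ (K E : Type) [Field K] [CharZero K] [Field E] [Algebra K E] (n : ℕ) (P : Pl (n + 2) K)
    (ξ : Fin (n + 2) → E), Irreducible P → MonZ P → GenN P ξ → ∀ g : Fin (n + 1) → E,
    ∃ B : Pl (n + 1) K, B ≠ 0 ∧ ∀ (K₁ Ω : Type) [Field K₁] [CharZero K₁] [Field Ω] [IsAlgClosed Ω]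
      [Algebra K K₁] [Algebra K Ω] [Algebra K₁ Ω] [IsScalarTower K K₁ Ω] (h : HtF Ω),
      (∀ (F : Type) [Field F] [Algebra K₁ F] (ι ι' : F →ₐ[K₁] Ω) (m : Type) [Finite m] (a : m → F),
        h.H (fun j => ι (a j)) = h.H (fun j => ι' (a j))) →
      ∀ c : Fin (n + 1) → K₁, MvPolynomial.aeval c B ≠ 0 → ∃ R : Pl (n + 1) K₁, R ≠ 0 ∧
        ∀ w : Fin (n + 1) → K₁, MvPolynomial.eval w R ≠ 0 → ∃ C : ℝ, ∀ (s : K₁) (z₀ : Ω)
          (gv : Fin (n + 1) → Ω),
          Irreducible ((MvPolynomial.finSuccEquiv K₁ (n + 1) (MvPolynomial.map (algebraMap K K₁) P)).map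
            (MvPolynomial.eval (lptN c w s))) → MvPolynomial.aeval (lptN c w s) B ≠ 0 →
          MvPolynomial.aeval (pt (lptN c w s) z₀) P = 0 →
          (∀ i, VlX K ξ (pt (lptN c w s) z₀) (g i) (gv i)) →
          (dgx K n 1 (fun i : Fin (n + 1) => ξ i.succ) g : ℝ) * h.H ![1, algebraMap K₁ Ω s] ≤
              (MvPolynomial.finSuccEquiv K (n + 1) P).natDegree * h.H (hcN gv) + C ∧
            h.H (hcN fun i => algebraMap K₁ Ω (lptN c w s i)) ≤ h.H ![1, algebraMap K₁ Ω s] + C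

end Pool.Agent.Lib.MP_16285c_agX
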