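import Pool.Agent.Lib.MP_16285c_agP.SpecZ

/-!
# Good times (GdZ)
-/

set_option autoImplicit false

namespace Pool.Agent.Lib.MP_16285c_agX

open Pool.Agent.Lib.MP_16285c_ag Pool.Agent.Lib.MP_16285c_agN

namespace PGdZM

theorem map_aeval {K E : Type} [Field K] [Field E] [Algebra K E] {n : ℕ} (ξ : Fin n → E)
    (ρ : E →ₐ[K] E) (G : Pl n K) :
    ρ (MvPolynomial.aeval ξ G) = MvPolynomial.aeval (fun i => ρ (ξ i)) G := by
  have h : ρ.comp (MvPolynomial.aeval ξ : Pl n K →ₐ[K] E) =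
      MvPolynomial.aeval fun i => ρ (ξ i) := by
    refine MvPolynomial.algHom_ext fun i => ?_
    rw [AlgHom.comp_apply, MvPolynomial.aeval_X, MvPolynomial.aeval_X]
  rw [← h]
  rfl

/-- Among `m` consecutive times there is a multiple of `m`. -/
theorem mult (m : ℕ) (hm : 1 ≤ m) (j₀ t : ℕ) :
    ∃ i, i < m ∧ ∃ j, j₀ ≤ j ∧ t + (m * j₀ + i) = m * j := by
  have h1 := Nat.div_add_mod (t + (m - 1)) m
  have h2 := Nat.mod_lt (t + (m - 1)) (Nat.lt_of_lt_of_le Nat.zero_lt_one hm)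
  refine ⟨m * ((t + (m - 1)) / m) - t, by omega, j₀ + (t + (m - 1)) / m, Nat.le_add_right _ _, ?_⟩
  rw [Nat.mul_add]
  omega

/-- Products of values. -/
theorem prodV {K E Ω : Type} [Field K] [Field E] [Field Ω] [Algebra K E] [Algebra K Ω]
    (hVl : StmtVlA) {n : ℕ} {ξ : Fin n → E} {pt : Fin n → Ω} (hO : OnX K ξ pt) (a : ℕ → E)
    (v : ℕ → Ω) (h : ∀ i, VlX K ξ pt (a i) (v i)) (m : ℕ) :
    VlX K ξ pt (∏ i ∈ Finset.range m, a i) (∏ i ∈ Finset.range m, v i) := by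
  obtain ⟨-, h2, -, h4, -, -⟩ := hVl K E Ω n ξ pt hO
  induction m with
  | zero =>
    have h1 := h2 (1 : Pl n K)
    rw [map_one, map_one] at h1
    rw [Finset.prod_range_zero, Finset.prod_range_zero]
    exact h1
  | succ m ih =>
    rw [Finset.prod_range_succ, Finset.prod_range_succ]
    exact h4 _ _ _ _ ih (h m)

end PGdZM

open PGdZM in
theorem tGdZ : StmtVlA → StmtFlV → StmtGdZ := by
  intro hVl hFl K Ω L _ _ _ _ _ n η ρb z hF hden Q hQ m hm j₀
  by_contra hcon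
  push Not at hcon
  -- values of the powers of `ρb` at `Q`
  have hval : ∀ s t : ℕ, VlX K η (z t) ((ρb ^ s) (MvPolynomial.aeval η Q))
      (MvPolynomial.aeval (z (t + s)) Q) := by
    intro s t
    rw [map_aeval]
    exact (hVl K L Ω n η (z t) (hF t).1).2.2.2.2.2 n _ _ (fun i => hFl K L Ω n η ρb z hF s t i) Q
  obtain ⟨h', hh'⟩ : ∃ h' : L, h' = ∏ i ∈ Finset.range m,
      (ρb ^ (m * j₀ + i)) (MvPolynomial.aeval η Q) := ⟨_, rfl⟩
  have hne : h' ≠ 0 := by
    rw [hh']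
    refine Finset.prod_ne_zero_iff.2 fun i _ h0 => hQ ?_
    exact (ρb ^ (m * j₀ + i)).toRingHom.injective (h0.trans (map_zero _).symm)
  have hv0 : ∀ t, VlX K η (z t) h' 0 := by
    intro t
    have h1 := prodV hVl (hF t).1 (fun i => (ρb ^ (m * j₀ + i)) (MvPolynomial.aeval η Q))
      (fun i => MvPolynomial.aeval (z (t + (m * j₀ + i))) Q) (fun i => hval _ t) m
    rw [← hh'] at h1
    obtain ⟨i, hi, j, hj, hij⟩ := mult m hm j₀ t
    have h2 : ∏ i ∈ Finset.range m, MvPolynomial.aeval (z (t + (m * j₀ + i))) Q = 0 := by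
      refine Finset.prod_eq_zero (Finset.mem_range.2 hi) ?_
      rw [hij]
      exact hcon j hj
    rwa [h2] at h1
  obtain ⟨A, B, hB, hAB, -⟩ := hv0 0
  have hA : MvPolynomial.aeval η A = 0 := by
    refine hden A fun t => ?_
    obtain ⟨h1, h2, -, h4, -, -⟩ := hVl K L Ω n η (z t) (hF t).1
    have h5 := h4 _ _ _ _ (hv0 t) (h2 B)
    rw [hAB, zero_mul] at h5
    exact h1 _ _ _ (h2 A) h5
  rw [hA] at hAB
  rcases mul_eq_zero.1 hAB with h1 | h1
  · exact hne h1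
  · exact hB ((hF 0).1 B h1)

end Pool.Agent.Lib.MP_16285c_agX
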