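import Pool.Agent.Lib.MP_16285c_agP.SpecA
import Pool.Agent.Lib.MP_16285c_agN.Degr.Cnt
import Pool.Agent.Lib.MP_16285c_agN.Degr.Vd

/-!
# The Hilbert function of one relation (HilR)
-/

set_option autoImplicit false

namespace Pool.Agent.Lib.MP_16285c_agX

open Pool.Agent.Lib.MP_16285c_ag Pool.Agent.Lib.MP_16285c_agN

namespace PHilRM

/-- The exponents of bidegree at most `(p, j)`. -/
def ex (a b p j : ℕ) : Set (Fin a ⊕ Fin b →₀ ℕ) :=
  {w | ∑ i, w (Sum.inl i) ≤ p ∧ ∑ i, w (Sum.inr i) ≤ j}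

/-- The polynomials of bidegree at most `(p, j)`. -/
noncomputable def SS (κ : Type) [Field κ] (a b p j : ℕ) :
    Submodule κ (MvPolynomial (Fin a ⊕ Fin b) κ) :=
  MvPolynomial.restrictSupport κ (ex a b p j)

theorem card_ex (a b p j : ℕ) : Nat.card (ex a b p j) = cnt a p * cnt b j := by
  unfold cnt
  rw [← Nat.card_prod]
  refine Nat.card_congr
    { toFun := fun w => (⟨fun i => w.1 (Sum.inl i), w.2.1⟩, ⟨fun i => w.1 (Sum.inr i), w.2.2⟩)
      invFun := fun x => ⟨Finsupp.equivFunOnFinite.symm (Sum.elim x.1.1 x.2.1), by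
        refine ⟨?_, ?_⟩
        · simpa using x.1.2
        · simpa using x.2.2⟩
      left_inv := ?_
      right_inv := ?_ }
  · intro w
    apply Subtype.ext
    ext i
    rcases i with i | i <;> simp
  · intro x
    rfl

theorem finite_ex (a b p j : ℕ) : Finite (ex a b p j) := by
  haveI := DegrCntM.fin a p
  haveI := DegrCntM.fin b j
  refine Finite.of_injective (fun w : ex a b p j =>
    ((⟨fun i => w.1 (Sum.inl i), w.2.1⟩ : {c : Fin a → ℕ // ∑ i, c i ≤ p}),
      (⟨fun i => w.1 (Sum.inr i), w.2.2⟩ : {c : Fin b → ℕ // ∑ i, c i ≤ j}))) fun w w' h => ?_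
  apply Subtype.ext
  ext i
  have h1 := congrArg (fun x => x.1.1) h
  have h2 := congrArg (fun x => x.2.1) h
  rcases i with i | i
  · exact congrFun h1 i
  · exact congrFun h2 i

theorem finite_SS (κ : Type) [Field κ] (a b p j : ℕ) : Module.Finite κ (SS κ a b p j) := by
  haveI := finite_ex a b p j
  exact Module.Finite.of_basis (MvPolynomial.basisRestrictSupport κ (ex a b p j))

theorem finrank_SS (κ : Type) [Field κ] (a b p j : ℕ) :
    Module.finrank κ (SS κ a b p j) = cnt a p * cnt b j := by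
  rw [← card_ex]
  exact Module.finrank_eq_nat_card_basis (MvPolynomial.basisRestrictSupport κ (ex a b p j))

theorem mul_SS (κ : Type) [Field κ] (a b p j p' j' : ℕ) {P Q : MvPolynomial (Fin a ⊕ Fin b) κ}
    (hP : P ∈ SS κ a b p j) (hQ : Q ∈ SS κ a b p' j') : P * Q ∈ SS κ a b (p + p') (j + j') := by
  have h : P * Q ∈ SS κ a b p j * SS κ a b p' j' := Submodule.mul_mem_mul hP hQ
  unfold SS at h ⊢
  rw [← MvPolynomial.restrictSupport_add] at h
  refine MvPolynomial.restrictSupport_mono κ ?_ h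
  rintro w ⟨x, hx, y, hy, rfl⟩
  refine ⟨?_, ?_⟩
  · simp only [Finsupp.add_apply, Finset.sum_add_distrib]
    exact add_le_add hx.1 hy.1
  · simp only [Finsupp.add_apply, Finset.sum_add_distrib]
    exact add_le_add hx.2 hy.2

theorem inl_SS (κ : Type) [Field κ] (a b p : ℕ) (P : MvPolynomial (Fin a) κ)
    (hP : P ∈ MvPolynomial.restrictTotalDegree (Fin a) κ p) :
    MvPolynomial.rename Sum.inl P ∈ SS κ a b p 0 := by
  have h : MvPolynomial.restrictTotalDegree (Fin a) κ p ≤
      (SS κ a b p 0).comap (MvPolynomial.rename Sum.inl : MvPolynomial (Fin a) κ →ₐ[κ]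
        MvPolynomial (Fin a ⊕ Fin b) κ).toLinearMap := by
    unfold MvPolynomial.restrictTotalDegree
    rw [MvPolynomial.restrictSupport_eq_span, Submodule.span_le]
    rintro _ ⟨m, hm, rfl⟩
    have hm' : ∑ i, m i ≤ p := by
      have h1 : (m.sum fun _ e => e) ≤ p := hm
      rwa [Finsupp.sum_fintype _ _ (fun _ => rfl)] at h1
    show MvPolynomial.rename Sum.inl (MvPolynomial.monomial m 1) ∈ SS κ a b p 0
    rw [MvPolynomial.rename_monomial]
    refine (MvPolynomial.monomial_mem_restrictSupport κ).mpr (Or.inl ⟨?_, ?_⟩)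
    · have : ∀ i : Fin a, (Finsupp.mapDomain (Sum.inl : Fin a → Fin a ⊕ Fin b) m) (Sum.inl i) = m i :=
        fun i => Finsupp.mapDomain_apply Sum.inl_injective m i
      simp only [this]
      exact hm'
    · have : ∀ i : Fin b, (Finsupp.mapDomain (Sum.inl : Fin a → Fin a ⊕ Fin b) m) (Sum.inr i) = 0 := by
        intro i
        apply Finsupp.mapDomain_notin_range
        rintro ⟨x, hx⟩
        exact absurd hx (by simp)
      simp only [this]
      simp
  exact h hP

theorem inr_SS (κ : Type) [Field κ] (a b p : ℕ) (P : MvPolynomial (Fin b) κ)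
    (hP : P ∈ MvPolynomial.restrictTotalDegree (Fin b) κ p) :
    MvPolynomial.rename Sum.inr P ∈ SS κ a b 0 p := by
  have h : MvPolynomial.restrictTotalDegree (Fin b) κ p ≤
      (SS κ a b 0 p).comap (MvPolynomial.rename Sum.inr : MvPolynomial (Fin b) κ →ₐ[κ]
        MvPolynomial (Fin a ⊕ Fin b) κ).toLinearMap := by
    unfold MvPolynomial.restrictTotalDegree
    rw [MvPolynomial.restrictSupport_eq_span, Submodule.span_le]
    rintro _ ⟨m, hm, rfl⟩
    have hm' : ∑ i, m i ≤ p := by
      have h1 : (m.sum fun _ e => e) ≤ p := hm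
      rwa [Finsupp.sum_fintype _ _ (fun _ => rfl)] at h1
    show MvPolynomial.rename Sum.inr (MvPolynomial.monomial m 1) ∈ SS κ a b 0 p
    rw [MvPolynomial.rename_monomial]
    refine (MvPolynomial.monomial_mem_restrictSupport κ).mpr (Or.inl ⟨?_, ?_⟩)
    · have : ∀ i : Fin a, (Finsupp.mapDomain (Sum.inr : Fin b → Fin a ⊕ Fin b) m) (Sum.inl i) = 0 := by
        intro i
        apply Finsupp.mapDomain_notin_range
        rintro ⟨x, hx⟩
        exact absurd hx (by simp)
      simp only [this]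
      simp
    · have : ∀ i : Fin b, (Finsupp.mapDomain (Sum.inr : Fin b → Fin a ⊕ Fin b) m) (Sum.inr i) = m i :=
        fun i => Finsupp.mapDomain_apply Sum.inr_injective m i
      simp only [this]
      exact hm'
  exact h hP

theorem vd_le (κ E : Type) [Field κ] [Field E] [Algebra κ E] (a b : ℕ) (u : Fin a → E)
    (v : Fin b → E) (p j : ℕ) :
    (Vd κ u p * Vd κ v j : Submodule κ E) ≤
      (SS κ a b p j).map (MvPolynomial.aeval (Sum.elim u v)).toLinearMap := by
  rw [Submodule.mul_le]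
  rintro _ ⟨P, hP, rfl⟩ _ ⟨Q, hQ, rfl⟩
  refine ⟨MvPolynomial.rename Sum.inl P * MvPolynomial.rename Sum.inr Q, ?_, ?_⟩
  · have := mul_SS κ a b p 0 0 j (inl_SS κ a b p P hP) (inr_SS κ a b j Q hQ)
    simpa using this
  · simp only [AlgHom.toLinearMap_apply, map_mul, MvPolynomial.aeval_rename]
    rfl

theorem ev (κ E : Type) [Field κ] [Field E] [Algebra κ E] (a b : ℕ) (u : Fin a → E)
    (v : Fin b → E) (P : MvPolynomial (Fin a ⊕ Fin b) κ) :
    MvPolynomial.aeval (Sum.elim u v) P =
      MvPolynomial.eval₂ ((MvPolynomial.aeval v : MvPolynomial (Fin b) κ →ₐ[κ] E) :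
        MvPolynomial (Fin b) κ →+* E) u (MvPolynomial.sumAlgEquiv κ (Fin a) (Fin b) P) := by
  have h : (MvPolynomial.aeval (Sum.elim u v) : MvPolynomial (Fin a ⊕ Fin b) κ →ₐ[κ] E).toRingHom =
      (MvPolynomial.eval₂Hom ((MvPolynomial.aeval v : MvPolynomial (Fin b) κ →ₐ[κ] E) :
        MvPolynomial (Fin b) κ →+* E) u).comp
        (MvPolynomial.sumAlgEquiv κ (Fin a) (Fin b)).toAlgHom.toRingHom := by
    apply MvPolynomial.ringHom_ext
    · intro r
      simp
    · intro i
      rcases i with i | i <;> simp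
  exact congrArg (fun f : MvPolynomial (Fin a ⊕ Fin b) κ →+* E => f P) h

theorem rel_SS (κ : Type) [Field κ] (a b : ℕ) (R : MvPolynomial (Fin a) (MvPolynomial (Fin b) κ))
    (α β : ℕ) (h1 : R.totalDegree ≤ α) (h2 : ∀ m, (R.coeff m).totalDegree ≤ β) :
    (MvPolynomial.sumAlgEquiv κ (Fin a) (Fin b)).symm R ∈ SS κ a b α β := by
  have hr : ∀ Q : MvPolynomial (Fin b) κ,
      (MvPolynomial.sumAlgEquiv κ (Fin a) (Fin b)).symm (MvPolynomial.C Q) =
        MvPolynomial.rename Sum.inr Q := by
    intro Q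
    rw [AlgEquiv.symm_apply_eq]
    have := congrArg (fun f => f Q) (MvPolynomial.sumAlgEquiv_comp_rename_inr κ (Fin a) (Fin b))
    exact this.symm
  have hl : ∀ P : MvPolynomial (Fin a) κ,
      (MvPolynomial.sumAlgEquiv κ (Fin a) (Fin b)).symm
        (MvPolynomial.map (algebraMap κ (MvPolynomial (Fin b) κ)) P) =
        MvPolynomial.rename Sum.inl P := by
    intro P
    rw [AlgEquiv.symm_apply_eq]
    have := congrArg (fun f => f P) (MvPolynomial.sumAlgEquiv_comp_rename_inl κ (Fin a) (Fin b))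
    exact this.symm
  rw [R.as_sum, map_sum]
  refine Submodule.sum_mem _ fun m hm => ?_
  have e : MvPolynomial.monomial m (R.coeff m) = MvPolynomial.C (R.coeff m) *
      MvPolynomial.map (algebraMap κ (MvPolynomial (Fin b) κ)) (MvPolynomial.monomial m 1) := by
    rw [MvPolynomial.map_monomial, map_one, MvPolynomial.C_mul_monomial, mul_one]
  rw [e, map_mul, hr, hl]
  have g1 : MvPolynomial.rename Sum.inr (R.coeff m) ∈ SS κ a b 0 β := by
    apply inr_SS
    rw [MvPolynomial.mem_restrictTotalDegree]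
    exact h2 m
  have g2 : MvPolynomial.rename Sum.inl (MvPolynomial.monomial m (1 : κ)) ∈ SS κ a b α 0 := by
    apply inl_SS
    rw [MvPolynomial.mem_restrictTotalDegree, MvPolynomial.totalDegree_monomial _ one_ne_zero]
    exact (MvPolynomial.le_totalDegree hm).trans h1
  have := mul_SS κ a b 0 β α 0 g1 g2
  simpa using this

/-- The dimension count. -/
theorem dim_le (κ E : Type) [Field κ] [Field E] [Algebra κ E] (a b : ℕ) (u : Fin a → E)
    (v : Fin b → E) (R : MvPolynomial (Fin a ⊕ Fin b) κ) (hR : R ≠ 0)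
    (h0 : MvPolynomial.aeval (Sum.elim u v) R = 0) (α β p j : ℕ) (hS : R ∈ SS κ a b α β) :
    Module.finrank κ (Vd κ u (α + p) * Vd κ v (β + j) : Submodule κ E) + cnt a p * cnt b j ≤
      cnt a (α + p) * cnt b (β + j) := by
  haveI := finite_SS κ a b (α + p) (β + j)
  haveI := finite_SS κ a b p j
  have hm := vd_le κ E a b u v (α + p) (β + j)
  haveI : Module.Finite κ ((SS κ a b (α + p) (β + j)).map
    (MvPolynomial.aeval (Sum.elim u v) : MvPolynomial (Fin a ⊕ Fin b) κ →ₐ[κ] E).toLinearMap) :=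
    Module.Finite.map _ _
  have k1 := Submodule.finrank_mono hm
  set φ : SS κ a b (α + p) (β + j) →ₗ[κ] E :=
    (MvPolynomial.aeval (Sum.elim u v) : MvPolynomial (Fin a ⊕ Fin b) κ →ₐ[κ] E).toLinearMap.domRestrict
      (SS κ a b (α + p) (β + j)) with hφ
  have k2 := LinearMap.finrank_range_add_finrank_ker φ
  have k3 : LinearMap.range φ = (SS κ a b (α + p) (β + j)).map
      (MvPolynomial.aeval (Sum.elim u v) : MvPolynomial (Fin a ⊕ Fin b) κ →ₐ[κ] E).toLinearMap := by
    rw [hφ, LinearMap.range_domRestrict]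
  let ψ : SS κ a b p j →ₗ[κ] LinearMap.ker φ :=
    { toFun := fun G => ⟨⟨R * G.1, mul_SS κ a b α β p j hS G.2⟩, by
        rw [LinearMap.mem_ker]
        show MvPolynomial.aeval (Sum.elim u v) (R * G.1) = 0
        rw [map_mul, h0, zero_mul]⟩
      map_add' := by
        intro x y
        apply Subtype.ext
        apply Subtype.ext
        exact mul_add R x.1 y.1
      map_smul' := by
        intro c x
        apply Subtype.ext
        apply Subtype.ext
        exact mul_smul_comm c R x.1 }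
  have hψ : Function.Injective ψ := by
    intro x y hxy
    apply Subtype.ext
    have h := congrArg (fun t => t.1.1) hxy
    exact mul_left_cancel₀ hR h
  have k4 := LinearMap.finrank_le_finrank_of_injective hψ
  rw [finrank_SS] at k4
  rw [finrank_SS, k3] at k2
  omega

theorem dim_triv (κ E : Type) [Field κ] [Field E] [Algebra κ E] (a b : ℕ) (u : Fin a → E)
    (v : Fin b → E) (p j : ℕ) :
    Module.finrank κ (Vd κ u p * Vd κ v j : Submodule κ E) ≤ cnt a p * cnt b j := by
  haveI := finite_SS κ a b p j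
  haveI : Module.Finite κ ((SS κ a b p j).map
    (MvPolynomial.aeval (Sum.elim u v) : MvPolynomial (Fin a ⊕ Fin b) κ →ₐ[κ] E).toLinearMap) :=
    Module.Finite.map _ _
  refine (Submodule.finrank_mono (vd_le κ E a b u v p j)).trans ?_
  rw [← finrank_SS κ]
  exact Submodule.finrank_map_le _ _

/-- Pascal's rule, summed. -/
theorem pascal (hC : StmtCntC) (a α q : ℕ) : cnt (a + 1) (α + q) ≤ cnt (a + 1) q + α * cnt a (α + q) := by
  induction α with
  | zero => simp
  | succ α ih =>
    have h1 := hC.2.1 a (α + q)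
    have e : α + 1 + q = α + q + 1 := by omega
    rw [e, h1]
    have h2 : cnt a (α + q) ≤ cnt a (α + q + 1) := tCnt.2.1 a _ _ (by omega)
    have h3 : α * cnt a (α + q) ≤ α * cnt a (α + q + 1) := Nat.mul_le_mul_left _ h2
    have h4 : (α + 1) * cnt a (α + q + 1) = α * cnt a (α + q + 1) + cnt a (α + q + 1) := by ring
    rw [h4]
    omega

theorem cnt_zero_right (s : ℕ) (hC : StmtCntC) : cnt s 0 = 1 := by
  rw [hC.1]
  simp

theorem small (hC : StmtCntC) (a α p : ℕ) (h : p < α) : cnt (a + 1) p ≤ α * cnt a p := by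
  have h1 := pascal hC a p 0
  simp only [Nat.add_zero] at h1
  rw [cnt_zero_right _ hC] at h1
  have h2 : 1 ≤ cnt a p := tCnt.1 a p
  have h3 : (p + 1) * cnt a p ≤ α * cnt a p := Nat.mul_le_mul_right _ h
  have h4 : (p + 1) * cnt a p = p * cnt a p + cnt a p := by ring
  omega

theorem arith (A A' B B' X Y F : ℕ) (h : F + A' * B' ≤ A * B) (h1 : A ≤ A' + X) (h2 : B ≤ B' + Y)
    (h3 : A' ≤ A) : F ≤ X * B + A * Y := by
  have e1 : A * B ≤ A' * B + X * B := by
    rw [← add_mul]
    exact Nat.mul_le_mul_right _ h1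
  have e2 : A' * B ≤ A' * B' + A' * Y := by
    rw [← mul_add]
    exact Nat.mul_le_mul_left _ h2
  have e3 : A' * Y ≤ A * Y := Nat.mul_le_mul_right _ h3
  omega

end PHilRM

open PHilRM in
theorem pHilR : StmtCntC → StmtHilR := by
  intro hC κ E _ _ _ a b u v R α β hR h0 hα hβ p j
  set R' := (MvPolynomial.sumAlgEquiv κ (Fin (a + 1)) (Fin (b + 1))).symm R with hR'
  have g0 : R' ≠ 0 := by
    intro h
    apply hR
    have := congrArg (MvPolynomial.sumAlgEquiv κ (Fin (a + 1)) (Fin (b + 1))) h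
    rwa [hR', AlgEquiv.apply_symm_apply, map_zero] at this
  have g1 : MvPolynomial.aeval (Sum.elim u v) R' = 0 := by
    rw [ev, hR', AlgEquiv.apply_symm_apply]
    exact h0
  have g2 : R' ∈ SS κ (a + 1) (b + 1) α β := rel_SS κ (a + 1) (b + 1) R α β hα hβ
  rcases Nat.lt_or_ge p α with hp | hp
  · have h1 := dim_triv κ E (a + 1) (b + 1) u v p j
    have h2 := Nat.mul_le_mul_right (cnt (b + 1) j) (small hC a α p hp)
    exact (h1.trans h2).trans (Nat.le_add_right _ _)
  · rcases Nat.lt_or_ge j β with hj | hj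
    · have h1 := dim_triv κ E (a + 1) (b + 1) u v p j
      have h2 := Nat.mul_le_mul_left (cnt (a + 1) p) (small hC b β j hj)
      have h3 : cnt (a + 1) p * (β * cnt b j) = β * cnt (a + 1) p * cnt b j := by ring
      rw [h3] at h2
      exact (h1.trans h2).trans (Nat.le_add_left _ _)
    · obtain ⟨p', rfl⟩ := Nat.exists_eq_add_of_le hp
      obtain ⟨j', rfl⟩ := Nat.exists_eq_add_of_le hj
      have h1 := dim_le κ E (a + 1) (b + 1) u v R' g0 g1 α β p' j' g2
      have h2 := pascal hC a α p'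
      have h3 := pascal hC b β j'
      have h4 : cnt (a + 1) p' ≤ cnt (a + 1) (α + p') := tCnt.2.1 _ _ _ (by omega)
      have h5 := arith _ _ _ _ _ _ _ h1 h2 h3 h4
      have h6 : cnt (a + 1) (α + p') * (β * cnt b (β + j')) =
        β * cnt (a + 1) (α + p') * cnt b (β + j') := by ring
      rw [h6] at h5
      exact h5

end Pool.Agent.Lib.MP_16285c_agX
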