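import Pool.Agent.Lib.MP_16285c_agP.SpecA
import Pool.Agent.Lib.MP_16285c_agP.SpecZ
import Pool.Agent.Lib.MP_16285c_agX.T3.SpecD

/-!
# Varieties with `λ_r < λ₁` for `r ≥ 3`: recursion, rates, fast orbits, comparison of degrees, final assembly (statements, ZDP part D)

Definitions and landed statements: `Lib/MP_16285c_agX/T3/SpecD.lean` (`GdX`, `NoFullD`, `StmtRl1X`, `StmtFekX`, `StmtFlV`, `StmtVlA`, `StmtCzX`, `StmtGenS`, `StmtDgS`, …, all landed; theorems `yY` in `T3/Y.lean`, closed forms `bY` in `T3/AllX.lean`), `agP/Defs.lean`, `agP/SpecA.lean`, `agP/SpecZ.lean`.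
Every lemma is a `Prop` with its complete proof in the docstring; used statements are hypotheses: file `agP/Y.lean`, `theorem pY : StmtY` or `theorem pY : StmtZ → StmtY`, namespace `Pool.Agent.Lib.MP_16285c_agX`, auxiliary lemmas in the namespace `Pool.Agent.Lib.MP_16285c_agX.PYM`.
-/

set_option autoImplicit false

namespace Pool.Agent.Lib.MP_16285c_agX

open Pool.Agent.Lib.MP_16285c_ag Pool.Agent.Lib.MP_16285c_agN
open Pool.Agent.Lib.MP_16285c_agS (toF vanK)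
open Pool.Agent.Lib.MP_16285c_agS.G (FF cls ValAt)

/-! ## Recursion -/

/-- (RecP) The two recursive inequalities. PROOF (uses `StmtSecPI`, `StmtHtP`, `StmtDg1n`; landed: `StmtFlV`, `StmtCzX`, `StmtStpF`). Edit `T3/RecX.lean`. `c` from `StmtCzX`. `Z₀ ≠ 0` with `Z₀(x) * (ρ ^ (2m)) (x i)` integral over `K[x]`. `StmtHtP` for `g = ρ ^ m x`, `z' = ρ ^ (2m) x` with `(P₁, j₁, q₁) = (36 (n+2) d₁ d₂, 8 d₁, D₁)` and `(256 (n+1) d₁ ^ 2 d₃, 72 d₁ d₂, D₂)`, all `≥ 1` by `StmtDg1n`. `B = B_I * B_II`. For an orbit `z` and `pt = z t`: `gv i = z (t + m) i.succ`,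
`zv i = z (t + 2m) i.succ` (`StmtFlV`); `h.H (hcN (z t)) ≤ c * hx h (z t) + C`. (I) `D₁ hx(t+m) ≤ 72 (n+2) d₁ d₂ (c hx(t) + C) + 8 d₁ hx(t+2m) + C'`: divide by `8 d₁`. (II) `D₂ hx(t+m) ≤ 512 (n+1) d₁ ^ 2 d₃ (c hx(t) + C) + 72 d₁ d₂ hx(t+2m) + C'`: divide by `72 d₁ d₂`; `512 (n+1) / 72 ≤ 9 (n+2)`. -/
def StmtRecP : Prop :=
  ∀ (K E : Type) [Field K] [CharZero K] [Field E] [Algebra K E] (n : ℕ) (ξ : Fin (n + 4) → E), Stp K ξ →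
    ∃ c : ℕ, 1 ≤ c ∧ ∀ (ρ : E →ₐ[K] E) (m : ℕ), ∀ d₁ d₂ d₃ D₁ D₂ : ℕ,
    d₁ = dgx K (n + 2) 1 (fun i : Fin (n + 3) => ξ i.succ) (fun i : Fin (n + 3) => (ρ ^ m) (ξ i.succ)) →
    d₂ = dgx K (n + 1) 2 (fun i : Fin (n + 3) => ξ i.succ) (fun i : Fin (n + 3) => (ρ ^ m) (ξ i.succ)) →
    d₃ = dgx K n 3 (fun i : Fin (n + 3) => ξ i.succ) (fun i : Fin (n + 3) => (ρ ^ m) (ξ i.succ)) →
    D₁ = dgx K (n + 2) 1 (fun i : Fin (n + 3) => ξ i.succ) (fun i : Fin (n + 3) => (ρ ^ (2 * m)) (ξ i.succ)) →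
    D₂ = dgx K (n + 1) 2 (fun i : Fin (n + 3) => ξ i.succ) (fun i : Fin (n + 3) => (ρ ^ (2 * m)) (ξ i.succ)) →
    ∃ B : Pl (n + 4) K, MvPolynomial.aeval ξ B ≠ 0 ∧
      ∀ (Ω : Type) [Field Ω] [Algebra K Ω] (h : HtF Ω), ∃ C : ℝ, ∀ z : ℕ → Fin (n + 4) → Ω,
        FlowX K ξ ρ z → ∀ t : ℕ, MvPolynomial.aeval (z t) B ≠ 0 →
        (D₁ : ℝ) / (8 * d₁) * hx h (z (t + m)) ≤
            hx h (z (t + 2 * m)) + 9 * (n + 2) * c * d₂ * hx h (z t) + C ∧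
        (D₂ : ℝ) / (72 * d₁ * d₂) * hx h (z (t + m)) ≤
            hx h (z (t + 2 * m)) + 9 * (n + 2) * c * (d₁ * d₃ / d₂) * hx h (z t) + C

/-! ## Rates -/

/-- (FekP) PROOF. Edit `T3/FekX.lean` (`StmtFekX`), with the real number `Λ` in place of the natural number `τ`. -/
def StmtFekP : Prop :=
  ∀ (d : ℕ → ℕ) (Λ : ℝ), 0 ≤ Λ → (∀ a b, d (a + b) ≤ 2 * d a * d b) → (∀ m, 1 ≤ d m) →
    ENNReal.ofReal Λ < Filter.limsup (fun m : ℕ => (d m : ENNReal) ^ ((m : ℝ)⁻¹)) Filter.atTop →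
    ∃ l : ℝ, Λ < l ∧ (∀ m, l ^ m ≤ 2 * (d m : ℝ)) ∧
      ∀ ε : ℝ, 0 < ε → ∃ m₀ : ℕ, ∀ m, m₀ ≤ m → (d m : ℝ) ≤ (l * (1 + ε)) ^ m

/-- (RatesP) PROOF (uses `StmtFekP`). Landed model: `T3/RatesX.lean`. `l > Λ ≥ 1` from `StmtFekP`. Choose `ε ∈ (0, 1)` with `l (1 - ε) ^ 4 > Λ` and then `ε' > 0` with `l (1 - ε) ^ 4 > Λ (1 + ε') ^ 3` and `(1 + ε') ^ 3 (1 - ε) < 1`. `μ₂ = l (1 - ε) ^ 2 / (1 + ε')`: `μ₂ ≥ l (1 - ε) ^ 4 / (1 + ε') ^ 3 > Λ` and `μ₂ ^ 2 = l ^ 2 (1 - ε) ^ 4 / (1 + ε') ^ 2 > l (1 + ε') Λ`. CASE II: `Δ (2m) ≥ (l (1 - ε)) ^ (2m) Δ m` for arbitrarily large `m`. For such large `m` the second alternative holds: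
`b = Δ (2m) / (72 d m Δ m) ≥ (l (1 - ε)) ^ (2m) / (72 (l (1 + ε')) ^ m) = μ₂ ^ m / 72`, which is larger than `2 Λ ^ m` and `2`; `a = k c d m D₃ m / Δ m ≤ k c C₃ (l (1 + ε')) ^ m Λ ^ m` (`Δ m ≥ 1`), so `8 a ≤ μ₂ ^ (2m) / 72 ^ 2 ≤ b ^ 2`; `4 c a = 4 k c ^ 2 d m D₃ m / Δ m ≤ 4 k c ^ 2 C₃ Λ ^ m d m < b d m` for large `m`.
CASE I: otherwise `Δ (2m) < (l (1 - ε)) ^ (2m) Δ m ≤ C₀ (l (1 - ε)) ^ (2m) (l (1 + ε')) ^ (2m) = C₀ μ ^ (2m)` for large `m`, `μ = l ^ 2 (1 - ε) (1 + ε')`; as `Δ (2m + 1) ≤ C₀ Δ (2m)`, `Δ n ≤ C μ ^ n` for all large `n` (`μ ≥ 1`: `l (1 - ε) > 1`). The first alternative holds for large `m`: `b = d (2m) / (8 d m) ≥ (l / (1 + ε')) ^ m / 16 > 2 Λ ^ m`;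
`8 a = 8 k c Δ m ≤ C' μ ^ m ≤ (l / (1 + ε')) ^ (2m) / 256 ≤ b ^ 2`; `4 c a ≤ C'' μ ^ m < l ^ (2m) / 16 ≤ d (2m) / 8 = b d`. -/
def StmtRatesP : Prop :=
  ∀ (d Δ D₃ : ℕ → ℕ) (Λ C₃ : ℝ) (C₀ c k : ℕ), 1 ≤ Λ → 1 ≤ c → 1 ≤ k → (∀ a b, d (a + b) ≤ 2 * d a * d b) →
    (∀ m, 1 ≤ d m) → (∀ m, 1 ≤ Δ m) → (∀ m, Δ m ≤ C₀ * d m ^ 2) → (∀ m, Δ (m + 1) ≤ C₀ * Δ m) →
    (∀ m, (D₃ m : ℝ) ≤ C₃ * Λ ^ m) →
    ENNReal.ofReal Λ < Filter.limsup (fun m : ℕ => (d m : ENNReal) ^ ((m : ℝ)⁻¹)) Filter.atTop →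
    ∃ m : ℕ, 1 ≤ m ∧
      (GdX c (k * c * Δ m) (d (2 * m) / (8 * d m)) (d m) (Λ ^ m) ∨
        GdX c (k * c * (d m * D₃ m / Δ m)) (Δ (2 * m) / (72 * d m * Δ m)) (d m) (Λ ^ m))

/-! ## Fast orbits -/

/-- (FastP) Fast orbits through points over a line. PROOF (uses `StmtRatesP`, `StmtRecP`, `StmtLowP`, `StmtDg1n`, `StmtDgMn`; landed: `StmtRl1X`, `StmtGenS`, `StmtFlV`). Edit `T3/FastX.lean`. `Stp K ξ` (`StmtGenS`). `d m = dgx K (n+2) 1 x (ρ ^ m x)`, `Δ m = dgx K (n+1) 2 x (ρ ^ m x)`, `D₃ m = dgx K n 3 x (ρ ^ m x)`, `δ = natDegree`, `c₀` from `StmtRecP`, `c = max c₀ δ`, `C₀ = 9 (d 1) ^ 2 + 9 δ` (`StmtDgMn`), `k = 9 (n + 2)`: `StmtRatesP` gives `m ≥ 1` and one of the two alternatives for `c`, where the coefficients `a` with `c` are `≥`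
the ones with `c₀` in `StmtRecP` (`hx ≥ 0`). `B₁` from `StmtRecP`, `B'` from `StmtLowP` for `g = ρ ^ m x`; `B = B₁ * up K (n+3) B'`. The rest as in `T3/FastX.lean` (`StmtLowP` has `h.H (hcN fun i => algebraMap K₁ Ω (lptN c w s i)) ≤ …`, which is `hx h (pt (lptN c w s) z₀)`). -/
def StmtFastP : Prop :=
  ∀ (K E : Type) [Field K] [CharZero K] [Field E] [Algebra K E] (n : ℕ) (P : Pl (n + 4) K)
    (ξ : Fin (n + 4) → E) (ρ : E →ₐ[K] E), Irreducible P → MonZ P → GenN P ξ → ∀ Λ : ℝ, 1 ≤ Λ →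
    (∃ C₃ : ℝ, ∀ m : ℕ, (dgx K n 3 (fun i : Fin (n + 3) => ξ i.succ)
      (fun i : Fin (n + 3) => (ρ ^ m) (ξ i.succ)) : ℝ) ≤ C₃ * Λ ^ m) →
    ENNReal.ofReal Λ < Filter.limsup (fun m : ℕ =>
      (dgx K (n + 2) 1 (fun i : Fin (n + 3) => ξ i.succ)
        (fun i : Fin (n + 3) => (ρ ^ m) (ξ i.succ)) : ENNReal) ^ ((m : ℝ)⁻¹)) Filter.atTop →
    ∃ (m : ℕ) (b : ℝ) (B : Pl (n + 4) K) (B' : Pl (n + 3) K), 1 ≤ m ∧ 2 ≤ b ∧
      Λ ^ m < b / 2 ∧ ¬ P ∣ B ∧ B' ≠ 0 ∧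
      ∀ (K₁ Ω : Type) [Field K₁] [CharZero K₁] [Field Ω] [IsAlgClosed Ω]
      [Algebra K K₁] [Algebra K Ω] [Algebra K₁ Ω] [IsScalarTower K K₁ Ω] (h : HtF Ω),
      (∀ (F : Type) [Field F] [Algebra K₁ F] (ι ι' : F →ₐ[K₁] Ω) (m : Type) [Finite m] (a : m → F),
        h.H (fun j => ι (a j)) = h.H (fun j => ι' (a j))) →
      ∀ c : Fin (n + 3) → K₁, MvPolynomial.aeval c B' ≠ 0 → ∃ R : Pl (n + 3) K₁, R ≠ 0 ∧
        ∀ w : Fin (n + 3) → K₁, MvPolynomial.eval w R ≠ 0 → ∃ H₀ : ℝ, ∀ s : K₁,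
          H₀ < h.H ![1, algebraMap K₁ Ω s] →
          Irreducible ((MvPolynomial.finSuccEquiv K₁ (n + 3)
            (MvPolynomial.map (algebraMap K K₁) P)).map (MvPolynomial.eval (lptN c w s))) →
          ∀ z : ℕ → Fin (n + 4) → Ω, FlowX K ξ ρ z →
          (∀ i : Fin (n + 3), z 0 i.succ = algebraMap K₁ Ω (lptN c w s i)) →
          (∀ t, MvPolynomial.aeval (z t) B ≠ 0) →
          0 < hx h (z m) ∧ ∀ j, 1 ≤ j → b / 2 * hx h (z (m * j)) ≤ hx h (z (m * (j + 1)))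

/-! ## Comparison of degrees -/

/-- (CmpXn) The first degrees in the coordinates `y` over `k` are bounded by the first degrees in the coordinates `x` over `K`. PROOF (uses `StmtDg1n`, `StmtCfDn`, `StmtBZG`; landed: `StmtDgS`, `StmtDgT`, `StmtBZ1`, `StmtRpA`, `StmtRpD`). Edit `T3/CmpX.lean`: (a) every `k`-linear combination `w` of the `X' m j` satisfies `Dge k x' w ((n+1) * d m)`, so `[E' : k(lc A' x', w)] ≤ 2 ((n+1) d m) δ =: e₁` for all `A' : Fin n → Fin (n+1) → k`. (b) the same. (c) `w = φ ^ m (lfX B y 0)`; `StmtBZ1` with `y := X' m`: over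
`κ'' = k(w)` all `[E' : κ''(lc A' x')] ≤ 2 e e₁`, and `StmtBZG` for `κ''`, `y := x'`, `s = n`, `w_i = lfX A y i` (`A : Fin (n + 1 - 1) → …`; `Dge κ'' x' w_i e`): `≤ (n + 1) ^ n * e ^ n * (2 e e₁)` (if the degree is finite then the `w_i` are algebraically independent over `κ''`: `trdeg k E' = n + 1`). -/
def StmtCmpXn : Prop :=
  ∀ (K k : Type) [Field K] [CharZero K] [Field k] [Algebra K k] (E E' : Type) [Field E] [Field E']
    [Algebra K E] [Algebra k E'] [Algebra K E'] [IsScalarTower K k E'] (β : E →ₐ[K] E') (n : ℕ)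
    (ξ : Fin (n + 2) → E) (ρ : E →ₐ[K] E) (φ : E' →ₐ[k] E'), Stp K ξ → Stp k (fun i => β (ξ i)) →
    (∀ h, β (ρ h) = φ (β h)) → ∀ (s : ℕ) (y : Fin s → E'),
    ∃ C : ℕ, ∀ m : ℕ, degrX k (n + 1) 1 y (fun i => (φ ^ m) (y i)) ≤
      (C * dgx K n 1 (fun i : Fin (n + 1) => ξ i.succ) (fun i : Fin (n + 1) => (ρ ^ m) (ξ i.succ)) : ℕ)

/-- (CmpG) The degrees in arbitrary elements `x` are bounded by the degrees in coordinates `y`. PROOF (uses `StmtBZG`; landed: `StmtDgT`). `E = k(y)`: `x_j = A_j(y) / B(y)` with a common denominator `B(y) ≠ 0` (`IntermediateField.mem_adjoin_range_iff`), `e ≥ 1` a bound for the total degrees of `B` and the `A_j`. For every `k`-linear combination `w` of the `x_j` and `i ≤ a`: `B(y) ^ a * w ^ i = B(y) ^ (a - i) * (B(y) w) ^ i ∈ Vd k y (e a)`, so `Dge k y w e` (`W = 1`). Let `m` be given, `D = degrX k n p y (φ ^ m y)`;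
if `D = ⊤` there is nothing to show (`C ≥ 1`), otherwise all `[E : k(lfX A' y, lfX B' (φ ^ m y))] ≤ D₀`, `D = D₀` a natural number or bounded by it (`D` is a supremum of natural numbers, not `⊤`: it is one of them or use `⌊D⌋`). Let `A, B` be given, `u = lfX A x` (`n - p` elements), `w = lfX B (φ ^ m x)` (`p` elements). (i) For `A'`: `κ' = k(lfX A' y)` and the coordinates `φ ^ m y` (`E` is finite over `φ ^ m E = k(φ ^ m y)`: a power of `φ`, degree `[E : φ E] ^ m`), `Dge κ' (φ ^ m y) w_i e`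
(`StmtDgT` (2), (1)): `StmtBZG`: `[E : κ'(w)] ≤ (p + 1) ^ p e ^ p D₀` (if it is finite, the `n` elements `lfX A' y, w` are algebraically independent over `k`, so `w` is over `κ'`). (ii) `κ'' = k(w)` and the coordinates `y`, `u` with `Dge κ'' y u_i e`, and the bound of (i) for all `κ''(lfX A' y)`: `StmtBZG`: `[E : κ''(u)] ≤ (n - p + 1) ^ (n - p) e ^ (n - p) (p + 1) ^ p e ^ p D₀`. -/
def StmtCmpG : Prop :=
  ∀ (k E : Type) [Field k] [Infinite k] [Field E] [Algebra k E] (φ : E →ₐ[k] E) (n p s t : ℕ)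
    (x : Fin t → E) (y : Fin s → E), p ≤ n → Algebra.trdeg k E = n →
    IntermediateField.adjoin k (Set.range y) = ⊤ → Module.Finite φ.fieldRange E →
    ∃ C : ℕ, ∀ m : ℕ, degrX k n p x (fun i => (φ ^ m) (x i)) ≤ C * degrX k n p y (fun i => (φ ^ m) (y i))

/-! ## Final assembly -/

/-- The growth hypothesis: over all fields of definition which contain the finite set `S₀` the first degrees grow faster than `Λ ^ m` and the degrees of index `p ≥ 3` not faster. -/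
def GrP {k : Type} [Field k] {n : ℕ} (P : Pl (n + 4) k) (f : RM k (n + 4)) : Prop :=
  ∃ (Λ : ℝ) (S₀ : Finset k), 1 ≤ Λ ∧ ∀ (K : Type) [Field K] [CharZero K] [Algebra K k] (PK : Pl (n + 4) K)
    (fK : RM K (n + 4)) [(Ideal.span {PK}).IsPrime], (∀ s ∈ S₀, s ∈ Set.range (algebraMap K k)) →
    MvPolynomial.map (algebraMap K k) PK = P → fK.map (algebraMap K k) = f → Irreducible PK →
    MonZ PK → InvX fK PK → ∀ σK : RF (n + 4) K →ₐ[K] RF (n + 4) K, Of fK σK →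
    ∀ (E : Type) [Field E] [Algebra (CR (Ideal.span {PK})) E] [IsFractionRing (CR (Ideal.span {PK})) E]
      [Algebra K E] [IsScalarTower K (CR (Ideal.span {PK})) E] (ρ : E →ₐ[K] E),
      Rst σK (Ideal.span {PK}) E ρ →
      ENNReal.ofReal Λ < Filter.limsup (fun m : ℕ =>
        (dgx K (n + 2) 1 (fun i : Fin (n + 3) => toF (Ideal.span {PK}) E (MvPolynomial.X i.succ))
          (fun i : Fin (n + 3) => (ρ ^ m) (toF (Ideal.span {PK}) E (MvPolynomial.X i.succ))) : ENNReal) ^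
          ((m : ℝ)⁻¹)) Filter.atTop ∧
      ∀ p, 3 ≤ p → p ≤ n + 3 → ∃ C : ℝ, ∀ (N' : ℕ) (A : Fin (n + 3 - p) → Fin (n + 3) → K)
        (B : Fin p → Fin (n + 3) → K),
        (Module.finrank (IntermediateField.adjoin K
          (Set.range (lc A fun l : Fin (n + 3) => toF (Ideal.span {PK}) E (MvPolynomial.X l.succ)) ∪
            Set.range (lc B fun l : Fin (n + 3) =>
              (ρ ^ N') (toF (Ideal.span {PK}) E (MvPolynomial.X l.succ))))) E : ℝ) ≤ C * Λ ^ N'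

/-- The theorem for the model. -/
def StmtModP : Prop :=
  ∀ (k : Type) [Field k] [IsAlgClosed k] [CharZero k] (n : ℕ) (P : Pl (n + 4) k) (f : RM k (n + 4)),
    Irreducible P → MonZ P → InvX f P → NoIX f P → GrP P f → ∀ b : Pl (n + 4) k, ¬ P ∣ b →
    ∃ x : ℕ → Fin (n + 4) → k, f.Orb x ∧
      (∀ m, MvPolynomial.eval (x m) P = 0 ∧ MvPolynomial.eval (x m) b ≠ 0) ∧
      ∀ G : Pl (n + 4) k, ¬ P ∣ G → ∃ m, MvPolynomial.eval (x m) G ≠ 0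

/-- (GrPP) PROOF (uses `StmtCmpXn`, `StmtCmpG`, `StmtDg1n`; landed: `StmtBet`, `StmtCmpB`, `StmtDescX`, `StmtGenS`, `StmtG1`; model: `T3/Gr3P.lean`). Write `λ_p = lamX k (n+3) p y' φ`. `Stp k ξ` (`StmtGenS` (1)), `trdeg k E' = n + 3`, `E'` is finite over `φ.fieldRange` (as in `Gr3P.lean`), `k(ξ) = ⊤` (`Stp.gen`). (A) `1 ≤ λ_3`: `1 ≤ dgx k n 3 x (φ ^ m x)` (`StmtDg1n` for `k`, `ξ`, `φ`), which is one of the degrees `≤ degrX k (n+3) 3 ξ (φ ^ m ξ)` (attained; forms in `x` are forms in `ξ`: `Fin.cons 0 (A i)`) `≤ C degrX k (n+3) 3 y' (φ ^ m y')` (`StmtCmpG` with `x := ξ`, `y := y'`): `m`-th roots, limsup.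
(B) Choose a real `Λ` with `λ_p < ofReal Λ < λ_1` for all `3 ≤ p ≤ n + 3` (finitely many, `ENNReal.lt_iff_exists_nnreal_btwn`), so `1 ≤ Λ`. `S₀ = ∅`. Let `K, PK, fK, σK, E, ρ` be given; `Algebra K E'` by composition; `β : E → E'` from `StmtBet` (for `ξ`), `β (ρ h) = φ (β h)` (`StmtCmpB`), as in `Gr3P.lean`. First part: `StmtCmpXn`: `degrX k (n+3) 1 y' (φ ^ m y') ≤ C * d m`, so `λ_1 ≤ limsup (C * d m) ^ (1/m) = limsup (d m) ^ (1/m)`, and `ofReal Λ < λ_1`. (C) Second part, `p` fixed: for `A, B, N'`: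
the degree is one of the degrees `≤ degrX K (n+3) p ξ₀ (ρ ^ N' ξ₀)`, `ξ₀ i = toF _ E (X i)` (`Fin.cons 0 (A i)`), `≤ degrX k (n+3) p ξ (φ ^ N' ξ)` (`StmtDescX`, `β ∘ ξ₀ = ξ`, `K(ξ₀) = ⊤`, `k(ξ) = ⊤`) `≤ C degrX k (n+3) p y' (φ ^ N' y')` (`StmtCmpG`). `λ_p < ofReal Λ`: there is `N₀` with `degrX … ^ (1/N') < ofReal Λ`, so `degrX … < ofReal Λ ^ N'`, for `N' ≥ N₀` (`Filter.eventually_lt_of_limsup_lt`). For `N' < N₀`: the degree is `≤ dgx K (n+3-p) p x (ρ ^ N' x)` (`StmtDg1n`, `Stp K ξ₀`: `StmtGenS`), finitely many numbers,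
and `Λ ^ N' ≥ 1`. `C' = C + ∑ N' < N₀, dgx …`. -/
def StmtGrPP : Prop :=
  ∀ (k : Type) [Field k] [CharZero k] (n : ℕ) (P : Pl (n + 4) k) (E' : Type) [Field E'] [Algebra k E']
    (ξ : Fin (n + 4) → E') (φ : E' →ₐ[k] E') (f : RM k (n + 4)) (m : ℕ) (y' : Fin m → E'),
    Irreducible P → MonZ P → GenN P ξ → InvX f P → (∀ i, fvn f ξ i = φ (ξ i)) →
    IntermediateField.adjoin k (Set.range y') = ⊤ →
    (∀ p, 3 ≤ p → p ≤ n + 3 → lamX k (n + 3) p y' φ < lamX k (n + 3) 1 y' φ) → GrP P f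

/-- (VarP) The theorem for varieties of dimension `n + 3` with `λ_p < λ₁` for `p ≥ 3`. PROOF (uses `StmtModP`, `StmtPrimX`, `StmtAmbX`, `StmtNoInvX`, `StmtPtsX`, `StmtGrPP`). Edit `T3/Var3.lean` (`y' i = cls I (X i)` generates). -/
def StmtVarP : Prop :=
  ∀ (k : Type) [Field k] [IsAlgClosed k] [CharZero k] (m n : ℕ) (I : Ideal (MvPolynomial (Fin m) k)) [I.IsPrime],
    Algebra.trdeg k (MvPolynomial (Fin m) k ⧸ I) = (n + 3 : ℕ) → ∀ φ : FF I →ₐ[k] FF I,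
    (∀ p, 3 ≤ p → p ≤ n + 3 → lamX k (n + 3) p (fun i => cls I (MvPolynomial.X i)) φ <
      lamX k (n + 3) 1 (fun i => cls I (MvPolynomial.X i)) φ) →
    (∀ h : FF I, φ h = h → ∃ c : k, h = algebraMap k (FF I) c) → ∀ b : MvPolynomial (Fin m) k, b ∉ I →
    ∃ x : ℕ → Fin m → k, (∀ n, (∀ A ∈ I, MvPolynomial.eval (x n) A = 0) ∧ MvPolynomial.eval (x n) b ≠ 0 ∧
      ∀ i, ValAt I (φ (cls I (MvPolynomial.X i))) (x n) (x (n + 1) i)) ∧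
      ∀ A : MvPolynomial (Fin m) k, A ∉ I → ∃ n, MvPolynomial.eval (x n) A ≠ 0

end Pool.Agent.Lib.MP_16285c_agX
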