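import Pool.Agent.Lib.MP_16285c_agP.SpecZ
import Pool.Agent.Lib.MP_16285c_agN.T3.XUB1
import Pool.Agent.Lib.MP_16285c_agN.Degr.Vd

/-!
# (UzZ) The upper bound (helper36)
-/

set_option autoImplicit false

namespace Pool.Agent.Lib.MP_16285c_agX

open Pool.Agent.Lib.MP_16285c_ag Pool.Agent.Lib.MP_16285c_agN
open Pool.Agent.Lib.MP_16285c_agS (toF)

open Pool.Agent.Lib.MP_16285c_agN.T3XUB1M in
theorem tUzZ : StmtNN → StmtXUpW → StmtUzZ := by
  intro hNN hUp K κ F _ _ _ _ _ _ _ _ c m y W₀ hW₀ htr hfin e he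
  obtain ⟨s, A, hAI, W, hWfg, hW⟩ := hNN K κ F m y
  have hAI' : AlgebraicIndependent κ (lc A y) := hAI
  have hW' : ∀ a : ℕ, Vd κ y a ≤ W * Vd κ (lc A y) a := hW
  have hfl : Module.Finite (IntermediateField.adjoin κ (Set.range (lc A y))) F :=
    fin_of y hfin _ (int_of y (lc A y) W hWfg hW')
  have hb : IsTranscendenceBasis κ (lc A y) :=
    isTranscendenceBasis_iff_algebraicIndependent_isAlgebraic.2
      ⟨hAI', alg_of_adjoin _ inferInstance⟩
  have hs : s = c := by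
    have := hb.cardinalMk_eq_trdeg
    rw [htr, Cardinal.mk_fin] at this
    exact_mod_cast this
  subst hs
  obtain ⟨C, hC⟩ := hUp κ F s (lc A y) (W₀ * W) hAI' (hW₀.mul hWfg) hfl
  refine ⟨C, fun a => ?_⟩
  have hV : Module.Finite κ (Vd κ (lc A y) a) := tVd.1 κ F s (lc A y) a
  have hle : W₀ * Vd κ y a ≤ W₀ * W * Vd κ (lc A y) a := by
    rw [mul_assoc]
    exact mul_le_mul' (le_refl W₀) (hW' a)
  have hfg : Module.Finite κ (W₀ * W * Vd κ (lc A y) a : Submodule κ F) :=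
    Module.Finite.iff_fg.2 ((hW₀.mul hWfg).mul (Module.Finite.iff_fg.1 hV))
  exact (Submodule.finrank_mono hle).trans ((hC a).trans (Nat.mul_le_mul_right _ (he A)))

end Pool.Agent.Lib.MP_16285c_agX
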